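import Mathlib
import Pool.Agent.H88.RO.Machine

set_option autoImplicit false

/-!
# A calculus of polynomial-time functions on encoded types

`PT f`: some program of the cost model `Pool.Agent.H88.RO.Model` maps the code of each `x` to the
code of `f x` at a cost bounded by a polynomial in the size of the code of `x`.  (The oracle is the
constant `false`; it plays no role.)
-/

namespace Pool.Agent.H22.SW

open Pool.Agent.H88.RO Pool.Agent.H88.RO.Tr

/-- types with a coding by binary trees -/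
class TE (α : Type) where
  /-- the code of an element -/
  te : α → Tr

export TE (te)

/-- the code of a list -/
def encL {α : Type} [TE α] : List α → Tr
  | [] => leaf
  | a :: l => node (te a) (encL l)

instance : TE ℕ := ⟨num⟩
instance : TE Bool := ⟨bit⟩
instance : TE Unit := ⟨fun _ => leaf⟩
instance : TE Tr := ⟨fun v => v⟩
instance {α : Type} [TE α] : TE (List α) := ⟨encL⟩
instance {α β : Type} [TE α] [TE β] : TE (α × β) := ⟨fun p => node (te p.1) (te p.2)⟩

/-- size of the code -/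
def sz {α : Type} [TE α] (x : α) : ℕ := size (te x)

/-- the constant oracle -/
def O0 : List Bool → Bool := fun _ => false

/-- evaluation at a cost of at most `b` -/
def Ev (c : Prog) (v w : Tr) (b : ℕ) : Prop := ∃ t ≤ b, Eval O0 c v w t

theorem Ev.mono {c : Prog} {v w : Tr} {b b' : ℕ} (h : Ev c v w b) (hb : b ≤ b') : Ev c v w b' := by
  obtain ⟨t, ht, he⟩ := h
  exact ⟨t, ht.trans hb, he⟩

theorem Ev.size_le {c : Prog} {v w : Tr} {b : ℕ} (h : Ev c v w b) : size w ≤ 2 * b := by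
  obtain ⟨t, ht, he⟩ := h
  have := he.size_le
  omega

theorem Ev.id (v : Tr) : Ev Prog.id v v (size v + 1) := ⟨_, le_rfl, Eval.id v⟩
theorem Ev.nil (v : Tr) : Ev Prog.nil v leaf (size v + 1) := ⟨_, le_rfl, Eval.nil v⟩
theorem Ev.fst (v : Tr) : Ev Prog.fst v (fst v) (size v + 1) := ⟨_, le_rfl, Eval.fst v⟩
theorem Ev.snd (v : Tr) : Ev Prog.snd v (snd v) (size v + 1) := ⟨_, le_rfl, Eval.snd v⟩

theorem Ev.pair {f g : Prog} {v a b : Tr} {s t : ℕ} (hf : Ev f v a s) (hg : Ev g v b t) :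
    Ev (Prog.pair f g) v (node a b) (s + t + size v + 1) := by
  obtain ⟨s', hs', hf⟩ := hf
  obtain ⟨t', ht', hg⟩ := hg
  exact ⟨s' + t' + size v + 1, by omega, Eval.pair hf hg⟩

theorem Ev.comp {f g : Prog} {v a b : Tr} {s t : ℕ} (hg : Ev g v a s) (hf : Ev f a b t) :
    Ev (Prog.comp f g) v b (s + t + size v + 1) := by
  obtain ⟨s', hs', hg⟩ := hg
  obtain ⟨t', ht', hf⟩ := hf
  exact ⟨s' + t' + size v + 1, by omega, Eval.comp hg hf⟩

theorem Ev.condNil {f g : Prog} {v a : Tr} {s : ℕ} (h : Tr.fst v = leaf)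
    (hf : Ev f (Tr.snd v) a s) : Ev (Prog.cond f g) v a (s + size v + 1) := by
  obtain ⟨s', hs', hf⟩ := hf
  exact ⟨s' + size v + 1, by omega, Eval.condNil h hf⟩

theorem Ev.condNode {f g : Prog} {v a : Tr} {s : ℕ} (h : Tr.fst v ≠ leaf)
    (hg : Ev g (Tr.snd v) a s) : Ev (Prog.cond f g) v a (s + size v + 1) := by
  obtain ⟨s', hs', hg⟩ := hg
  exact ⟨s' + size v + 1, by omega, Eval.condNode h hg⟩

theorem Ev.loopDone {f : Prog} {v : Tr} (h : Tr.fst v = leaf) :
    Ev (Prog.loop f) v (Tr.snd v) (size v + 1) := ⟨_, le_rfl, Eval.loopDone h⟩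

theorem Ev.loopStep {f : Prog} {v a b : Tr} {s t : ℕ} (h : Tr.fst v ≠ leaf) (hf : Ev f v a s)
    (hl : Ev (Prog.loop f) a b t) : Ev (Prog.loop f) v b (s + t + size v + 1) := by
  obtain ⟨s', hs', hf⟩ := hf
  obtain ⟨t', ht', hl⟩ := hl
  exact ⟨s' + t' + size v + 1, by omega, Eval.loopStep h hf hl⟩

variable {α β γ σ δ : Type} [TE α] [TE β] [TE γ] [TE σ] [TE δ]

/-- `f` is computable in polynomial time. -/
def PT (f : α → β) : Prop :=
  ∃ (c : Prog) (q : Polynomial ℕ), ∀ x, Ev c (te x) (te (f x)) (q.eval (sz x))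

/-- the natural number `f x` is bounded by a polynomial in the size of the code of `x` -/
def PB (f : α → ℕ) : Prop := ∃ q : Polynomial ℕ, ∀ x, f x ≤ q.eval (sz x)

theorem PB.mono {f g : α → ℕ} (hg : PB g) (h : ∀ x, f x ≤ g x) : PB f := by
  obtain ⟨q, hq⟩ := hg
  exact ⟨q, fun x => (h x).trans (hq x)⟩

theorem PB.add {f g : α → ℕ} (hf : PB f) (hg : PB g) : PB fun x => f x + g x := by
  obtain ⟨p, hp⟩ := hf
  obtain ⟨q, hq⟩ := hg
  refine ⟨p + q, fun x => ?_⟩
  rw [Polynomial.eval_add]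
  exact add_le_add (hp x) (hq x)

theorem PB.mul {f g : α → ℕ} (hf : PB f) (hg : PB g) : PB fun x => f x * g x := by
  obtain ⟨p, hp⟩ := hf
  obtain ⟨q, hq⟩ := hg
  refine ⟨p * q, fun x => ?_⟩
  rw [Polynomial.eval_mul]
  exact Nat.mul_le_mul (hp x) (hq x)

theorem PB.const (n : ℕ) : PB fun _ : α => n :=
  ⟨Polynomial.C n, fun x => by rw [Polynomial.eval_C]⟩

theorem PB.sz : PB fun x : α => sz x := ⟨Polynomial.X, fun x => by rw [Polynomial.eval_X]⟩

theorem PB.eval {f : α → ℕ} (q : Polynomial ℕ) (hf : PB f) : PB fun x => q.eval (f x) := by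
  obtain ⟨p, hp⟩ := hf
  refine ⟨q.comp p, fun x => ?_⟩
  rw [Polynomial.eval_comp]
  exact poly_mono q (hp x)

theorem PT.size_bound {f : α → β} (h : PT f) : PB fun x => Pool.Agent.H22.SW.sz (f x) := by
  obtain ⟨c, q, hq⟩ := h
  refine ⟨2 * q, fun x => ?_⟩
  have := (hq x).size_le
  simp only [Polynomial.eval_mul, Polynomial.eval_ofNat]
  exact this

theorem PB.comp {g : β → ℕ} {f : α → β} (hg : PB g) (hf : PT f) : PB fun x => g (f x) := by
  obtain ⟨q, hq⟩ := hg
  exact (PB.eval q hf.size_bound).mono fun x => hq (f x)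

theorem PB.comp2 {g : β → γ → ℕ} {f : α → β} {h : α → γ} (hg : PB fun p : β × γ => g p.1 p.2)
    (hf : PB fun x => Pool.Agent.H22.SW.sz (f x)) (hh : PB fun x => Pool.Agent.H22.SW.sz (h x)) :
    PB fun x => g (f x) (h x) := by
  obtain ⟨q, hq⟩ := hg
  refine (PB.eval q ((hf.add hh).add (PB.const 1))).mono fun x => ?_
  exact hq (f x, h x)

theorem PT.of_bound {f : α → β} (c : Prog) {b : α → ℕ} (hb : PB b)
    (h : ∀ x, Ev c (te x) (te (f x)) (b x)) : PT f := by
  obtain ⟨q, hq⟩ := hb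
  exact ⟨c, q, fun x => (h x).mono (hq x)⟩

theorem PT.id : PT fun x : α => x := by
  refine PT.of_bound Prog.id (PB.sz.add (PB.const 1)) fun x => Ev.id _

theorem PT.ofFP {F : Tr → Tr} (hF : FP O0 F) {f : α → β} (h : ∀ x, F (te x) = te (f x)) :
    PT f := by
  obtain ⟨c, q, hq⟩ := hF
  refine ⟨c, q, fun x => ?_⟩
  obtain ⟨t, ht, he⟩ := hq (te x)
  rw [h x] at he
  exact ⟨t, ht, he⟩

theorem PT.const (b : β) : PT fun _ : α => b := PT.ofFP (FP.const' (te b)) fun _ => rfl

theorem PT.comp {g : β → γ} {f : α → β} (hg : PT g) (hf : PT f) : PT fun x => g (f x) := by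
  obtain ⟨cf, qf, hqf⟩ := hf
  have hfb : PT f := ⟨cf, qf, hqf⟩
  obtain ⟨cg, qg, hqg⟩ := hg
  refine PT.of_bound (Prog.comp cg cf) (b := fun x => qf.eval (sz x) + qg.eval (sz (f x)) +
    sz x + 1) ?_ fun x => Ev.comp (hqf x) (hqg (f x))
  exact (((PB.eval qf PB.sz).add (PB.eval qg hfb.size_bound)).add PB.sz).add (PB.const 1)

theorem PT.pair {f : α → β} {g : α → γ} (hf : PT f) (hg : PT g) : PT fun x => (f x, g x) := by
  obtain ⟨cf, qf, hqf⟩ := hf
  obtain ⟨cg, qg, hqg⟩ := hg
  refine PT.of_bound (Prog.pair cf cg) (b := fun x => qf.eval (sz x) + qg.eval (sz x) +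
    sz x + 1) ?_ fun x => Ev.pair (hqf x) (hqg x)
  exact (((PB.eval qf PB.sz).add (PB.eval qg PB.sz)).add PB.sz).add (PB.const 1)

theorem PT.fst0 : PT fun p : α × β => p.1 :=
  PT.of_bound Prog.fst (PB.sz.add (PB.const 1)) fun x => Ev.fst _

theorem PT.snd0 : PT fun p : α × β => p.2 :=
  PT.of_bound Prog.snd (PB.sz.add (PB.const 1)) fun x => Ev.snd _

theorem PT.fst {f : α → β × γ} (hf : PT f) : PT fun x => (f x).1 := PT.fst0.comp hf
theorem PT.snd {f : α → β × γ} (hf : PT f) : PT fun x => (f x).2 := PT.snd0.comp hf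

theorem PT.comp2 {g : β → γ → δ} {f : α → β} {h : α → γ} (hg : PT fun p : β × γ => g p.1 p.2)
    (hf : PT f) (hh : PT h) : PT fun x => g (f x) (h x) := hg.comp (hf.pair hh)

theorem PT.comp3 {g : β → γ → σ → δ} {f : α → β} {h : α → γ} {k : α → σ}
    (hg : PT fun p : β × γ × σ => g p.1 p.2.1 p.2.2)
    (hf : PT f) (hh : PT h) (hk : PT k) : PT fun x => g (f x) (h x) (k x) :=
  hg.comp (hf.pair (hh.pair hk))

theorem PT.cond {p : α → Bool} {f g : α → β} (hp : PT p) (hf : PT f) (hg : PT g) :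
    PT fun x => if p x = true then f x else g x := by
  obtain ⟨cp, qp, hqp⟩ := hp
  obtain ⟨cf, qf, hqf⟩ := hf
  obtain ⟨cg, qg, hqg⟩ := hg
  refine PT.of_bound (Prog.comp (Prog.cond cg cf) (Prog.pair cp Prog.id))
    (b := fun x => (qp.eval (sz x) + (sz x + 1) + sz x + 1) +
      ((qf.eval (sz x) + qg.eval (sz x)) + (3 + sz x + 1) + 1) + sz x + 1) ?_ fun x => ?_
  · exact (((((PB.eval qp PB.sz).add (PB.sz.add (PB.const 1))).add PB.sz).add (PB.const 1)).add
      ((((PB.eval qf PB.sz).add (PB.eval qg PB.sz)).add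
      (((PB.const 3).add PB.sz).add (PB.const 1))).add (PB.const 1))).add PB.sz |>.add (PB.const 1)
  · refine Ev.comp (Ev.pair (hqp x) (Ev.id _)) ?_
    by_cases h : p x = true
    · rw [if_pos h, h]
      refine (Ev.condNode (by simp [te, bit]) (hqf x)).mono ?_
      show qf.eval (sz x) + (size (te true) + size (te x) + 1) + 1 ≤ _
      have h3 : size (te true) = 3 := rfl
      rw [h3]
      show qf.eval (sz x) + (3 + sz x + 1) + 1 ≤ _
      omega
    · have h0 : p x = false := by simpa using h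
      rw [if_neg h, h0]
      refine (Ev.condNil (by simp [te, bit]) (hqg x)).mono ?_
      show qg.eval (sz x) + (size (te false) + size (te x) + 1) + 1 ≤ _
      have h3 : size (te false) = 1 := rfl
      rw [h3]
      show qg.eval (sz x) + (1 + sz x + 1) + 1 ≤ _
      omega

theorem PT.caseL {l : α → List γ} {z : α → β} {s : α → γ → List γ → β} (hl : PT l) (hz : PT z)
    (hs : PT fun q : α × γ × List γ => s q.1 q.2.1 q.2.2) :
    PT fun x => match l x with
      | [] => z x
      | a :: t => s x a t := by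
  have hzb := hz
  have hlb := hl.size_bound
  obtain ⟨cl, ql, hql⟩ := hl
  obtain ⟨cz, qz, hqz⟩ := hz
  obtain ⟨cs, qs, hqs⟩ := hs
  refine PT.of_bound (Prog.comp (Prog.cond (Prog.comp cz Prog.fst) cs)
    (Prog.pair cl (Prog.pair Prog.id cl)))
    (b := fun x => (ql.eval (sz x) + ((sz x + 1) + ql.eval (sz x) + sz x + 1) + sz x + 1) +
      ((((sz x + sz (l x) + 1) + 1) + qz.eval (sz x) + (sz x + sz (l x) + 1) + 1) +
        qs.eval (sz x + sz (l x) + 1) + (sz (l x) + (sz x + sz (l x) + 1) + 1) + 1) + sz x + 1)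
    ?_ fun x => ?_
  · have e1 := PB.eval (α := α) ql PB.sz
    have e2 := PB.eval (α := α) qz PB.sz
    have e3 : PB fun x => sz x + sz (l x) + 1 := (PB.sz.add hlb).add (PB.const 1)
    have e4 := PB.eval qs e3
    exact ((((e1.add ((((PB.sz.add (PB.const 1)).add e1).add PB.sz).add (PB.const 1))).add
      PB.sz).add (PB.const 1)).add ((((((e3.add (PB.const 1)).add e2).add e3).add
      (PB.const 1)).add e4).add ((hlb.add e3).add (PB.const 1)) |>.add (PB.const 1))).add PB.sz
      |>.add (PB.const 1)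
  · refine Ev.comp (Ev.pair (hql x) (Ev.pair (Ev.id _) (hql x))) ?_
    rcases hlx : l x with _ | ⟨a, t⟩
    · refine (Ev.condNil rfl (Ev.comp (Ev.fst _) (hqz x))).mono ?_
      show (size (te x) + size (te ([] : List γ)) + 1 + 1) + qz.eval (sz x) +
        (size (te x) + size (te ([] : List γ)) + 1) + 1 +
        (size (te ([] : List γ)) + (size (te x) + size (te ([] : List γ)) + 1) + 1) + 1 ≤ _
      simp only [sz]
      omega
    · refine (Ev.condNode (by simp [te, encL]) (hqs (x, a, t))).mono ?_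
      show qs.eval (size (te x) + size (te (a :: t)) + 1) +
        (size (te (a :: t)) + (size (te x) + size (te (a :: t)) + 1) + 1) + 1 ≤ _
      simp only [sz]
      omega

end Pool.Agent.H22.SW
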