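import Mathlib
import Pool.Agent.H22.SW.PT

set_option autoImplicit false

/-!
# Loops in the calculus of polynomial-time functions
-/

namespace Pool.Agent.H22.SW

open Pool.Agent.H88.RO Pool.Agent.H88.RO.Tr

variable {α β γ σ δ : Type} [TE α] [TE β] [TE γ] [TE σ] [TE δ]

/-- body of the loop over a list -/
def lbody (cs : Prog) : Prog :=
  Prog.pair (Prog.comp Prog.snd Prog.fst) (Prog.pair (Prog.comp Prog.fst Prog.snd)
    (Prog.comp cs (Prog.pair (Prog.comp Prog.fst Prog.snd)
      (Prog.pair (Prog.comp Prog.snd Prog.snd) (Prog.comp Prog.fst Prog.fst)))))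

theorem Ev.ff {P Q : Prog} {v w u : Tr} (h1 : Ev P v w (size v + 1)) (h2 : Ev Q w u (size w + 1))
    (hs : size w ≤ size v) : Ev (Prog.comp Q P) v u (3 * (size v + 1)) :=
  (Ev.comp h1 h2).mono (by omega)

theorem lbody_ev {cs : Prog} {qs : Polynomial ℕ} {st : α → σ → γ → σ}
    (hs : ∀ p : α × σ × γ, Ev cs (te p) (te (st p.1 p.2.1 p.2.2)) (qs.eval (sz p)))
    (x : α) (s : σ) (a : γ) (el : Tr) :
    Ev (lbody cs) (node (node (te a) el) (node (te x) (te s))) (node el (node (te x)
      (te (st x s a)))) (qs.eval (sz (x, s, a)) +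
        22 * (size (node (node (te a) el) (node (te x) (te s))) + 1)) := by
  set v : Tr := node (node (te a) el) (node (te x) (te s)) with hv
  have h1 : Ev (Prog.comp Prog.snd Prog.fst) v el (3 * (size v + 1)) :=
    Ev.ff (w := node (te a) el) (Ev.fst v) (Ev.snd _) (by simp only [hv, size]; omega)
  have h2 : Ev (Prog.comp Prog.fst Prog.snd) v (te x) (3 * (size v + 1)) :=
    Ev.ff (w := node (te x) (te s)) (Ev.snd v) (Ev.fst _) (by simp only [hv, size]; omega)
  have h3 : Ev (Prog.comp Prog.snd Prog.snd) v (te s) (3 * (size v + 1)) :=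
    Ev.ff (w := node (te x) (te s)) (Ev.snd v) (Ev.snd _) (by simp only [hv, size]; omega)
  have h4 : Ev (Prog.comp Prog.fst Prog.fst) v (te a) (3 * (size v + 1)) :=
    Ev.ff (w := node (te a) el) (Ev.fst v) (Ev.fst _) (by simp only [hv, size]; omega)
  have h5 := Ev.comp (Ev.pair h2 (Ev.pair h3 h4)) (hs (x, s, a))
  refine (Ev.pair h1 (Ev.pair h2 h5)).mono ?_
  omega

theorem loopL {cs : Prog} {qs : Polynomial ℕ} {st : α → σ → γ → σ}
    (hs : ∀ p : α × σ × γ, Ev cs (te p) (te (st p.1 p.2.1 p.2.2)) (qs.eval (sz p)))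
    (x : α) (B D : ℕ) : ∀ (l : List γ) (s : σ),
    (∀ l1 l2, l = l1 ++ l2 → sz (l1.foldl (st x) s) ≤ B) → sz l + sz x + B + 5 ≤ D →
    Ev (Prog.loop (lbody cs)) (node (te l) (node (te x) (te s)))
      (node (te x) (te (l.foldl (st x) s))) ((l.length + 1) * (qs.eval D + 30 * (D + 1))) := by
  intro l
  induction l with
  | nil =>
    intro s hB hD
    have h0 := hB [] [] rfl
    simp only [List.foldl_nil] at h0 ⊢
    refine (Ev.loopDone (f := lbody cs) (v := node (te ([] : List γ)) (node (te x) (te s)))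
      rfl).mono ?_
    have h1 : size (node (te ([] : List γ)) (node (te x) (te s))) =
        sz ([] : List γ) + (sz x + sz s + 1) + 1 := rfl
    rw [h1]
    simp only [List.length_nil]
    omega
  | cons a l ih =>
    intro s hB hD
    have h0 := hB [] (a :: l) rfl
    simp only [List.foldl_nil] at h0
    have hsz : sz (a :: l) = sz a + sz l + 1 := rfl
    have h1 := lbody_ev hs x s a (te l)
    have h2 := ih (st x s a) (fun l1 l2 h => hB (a :: l1) l2 (by rw [h]; rfl)) (by omega)
    have h3 : (node (te (a :: l)) (node (te x) (te s))) =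
        node (node (te a) (te l)) (node (te x) (te s)) := rfl
    rw [h3]
    have h4 := Ev.loopStep (f := lbody cs) (v := node (node (te a) (te l)) (node (te x) (te s)))
      (by simp) h1 h2
    refine h4.mono ?_
    have h5 : sz (x, s, a) = sz x + (sz s + sz a + 1) + 1 := rfl
    have h6 : size (node (node (te a) (te l)) (node (te x) (te s))) =
      (sz a + sz l + 1) + (sz x + sz s + 1) + 1 := rfl
    have h7 : qs.eval (sz (x, s, a)) ≤ qs.eval D := poly_mono qs (by omega)
    rw [h6]
    simp only [List.length_cons]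
    have h8 : (l.length + 1 + 1) * (qs.eval D + 30 * (D + 1)) =
      (l.length + 1) * (qs.eval D + 30 * (D + 1)) + (qs.eval D + 30 * (D + 1)) := by ring
    rw [h8]
    omega

theorem length_le_sz (l : List γ) : l.length ≤ sz l := by
  induction l with
  | nil => exact Nat.zero_le _
  | cons a l ih =>
    have hsz : sz (a :: l) = sz a + sz l + 1 := rfl
    rw [hsz, List.length_cons]
    omega

/-- the list loop, with a polynomial bound on the accumulator -/
theorem PT.foldl {l : α → List γ} {z : α → σ} {st : α → σ → γ → σ} (hl : PT l) (hz : PT z)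
    (hs : PT fun p : α × σ × γ => st p.1 p.2.1 p.2.2) {b : α → ℕ} (hb : PB b)
    (h : ∀ x, ∀ l1 l2, l x = l1 ++ l2 → sz (l1.foldl (st x) (z x)) ≤ b x) :
    PT fun x => (l x).foldl (st x) (z x) := by
  have hlb := hl.size_bound
  have hzb := hz.size_bound
  obtain ⟨cl, ql, hql⟩ := hl
  obtain ⟨cz, qz, hqz⟩ := hz
  obtain ⟨cs, qs, hqs⟩ := hs
  refine PT.of_bound (Prog.comp Prog.snd (Prog.comp (Prog.loop (lbody cs))
    (Prog.pair cl (Prog.pair Prog.id cz))))
    (b := fun x => (((ql.eval (sz x) + ((sz x + 1) + qz.eval (sz x) + sz x + 1) + sz x + 1) +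
      ((sz (l x) + 1) * (qs.eval (sz (l x) + sz x + b x + 5) +
        30 * (sz (l x) + sz x + b x + 5 + 1))) + sz x + 1)) + ((sz x + b x + 1) + 1) + sz x + 1)
    ?_ fun x => ?_
  · have e1 := PB.eval (α := α) ql PB.sz
    have e2 := PB.eval (α := α) qz PB.sz
    have e3 : PB fun x => sz (l x) + sz x + b x + 5 := ((hlb.add PB.sz).add hb).add (PB.const 5)
    have e4 := PB.eval qs e3
    have e5 : PB fun x => ql.eval (sz x) + ((sz x + 1) + qz.eval (sz x) + sz x + 1) + sz x + 1 :=
      ((e1.add ((((PB.sz.add (PB.const 1)).add e2).add PB.sz).add (PB.const 1))).add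
        PB.sz).add (PB.const 1)
    have e6 : PB fun x => (sz (l x) + 1) * (qs.eval (sz (l x) + sz x + b x + 5) +
        30 * (sz (l x) + sz x + b x + 5 + 1)) :=
      (hlb.add (PB.const 1)).mul (e4.add ((PB.const 30).mul (e3.add (PB.const 1))))
    exact ((((e5.add e6).add PB.sz).add (PB.const 1)).add
      (((PB.sz.add hb).add (PB.const 1)).add (PB.const 1))).add PB.sz |>.add (PB.const 1)
  · have h1 := loopL hqs x (b x) (sz (l x) + sz x + b x + 5) (l x) (z x) (h x) le_rfl
    have h2 : Ev (Prog.loop (lbody cs)) (node (te (l x)) (node (te x) (te (z x))))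
        (node (te x) (te ((l x).foldl (st x) (z x)))) ((sz (l x) + 1) *
          (qs.eval (sz (l x) + sz x + b x + 5) + 30 * (sz (l x) + sz x + b x + 5 + 1))) :=
      h1.mono (Nat.mul_le_mul_right _ (by have := length_le_sz (l x); omega))
    have h3 := Ev.comp (Ev.pair (hql x) (Ev.pair (Ev.id (te x)) (hqz x))) h2
    have h4 := Ev.comp h3 (Ev.snd (node (te x) (te ((l x).foldl (st x) (z x)))))
    refine h4.mono ?_
    have h5 := h x (l x) [] (by simp)
    have h6 : size (node (te x) (te ((l x).foldl (st x) (z x)))) =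
      sz x + sz ((l x).foldl (st x) (z x)) + 1 := rfl
    rw [h6]
    simp only [sz] at h5 ⊢
    omega

end Pool.Agent.H22.SW
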