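import Mathlib
import Pool.Agent.H22.SW.PTL

set_option autoImplicit false
set_option linter.unusedSectionVars false

/-!
# Operations on booleans, natural numbers and lists
-/

namespace Pool.Agent.H22.SW

open Pool.Agent.H88.RO Pool.Agent.H88.RO.Tr

variable {α β γ σ δ : Type} [TE α] [TE β] [TE γ] [TE σ] [TE δ]

/-! ### sizes -/

theorem sz_pos (x : α) : 1 ≤ sz x := size_pos _

theorem sz_nil : sz ([] : List γ) = 1 := rfl
theorem sz_cons (a : γ) (l : List γ) : sz (a :: l) = sz a + sz l + 1 := rfl
theorem sz_pair (a : α) (b : β) : sz (a, b) = sz a + sz b + 1 := rfl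
theorem sz_nat (n : ℕ) : sz n = 2 * n + 1 := size_num n
theorem sz_bool (b : Bool) : sz b ≤ 3 := size_bit_le b

theorem sz_append (l1 l2 : List γ) : sz (l1 ++ l2) + 1 = sz l1 + sz l2 := by
  induction l1 with
  | nil => rw [List.nil_append, sz_nil]; omega
  | cons a l ih => rw [List.cons_append, sz_cons, sz_cons]; omega

theorem sz_reverse (l : List γ) : sz l.reverse = sz l := by
  induction l with
  | nil => rfl
  | cons a l ih =>
    have h := sz_append l.reverse [a]
    rw [List.reverse_cons, sz_cons]
    rw [sz_cons, sz_nil] at h
    omega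

theorem sz_mem {a : γ} {l : List γ} (h : a ∈ l) : sz a ≤ sz l := by
  induction l with
  | nil => simp at h
  | cons b l ih =>
    rw [sz_cons]
    rcases List.mem_cons.1 h with h | h
    · rw [h]; omega
    · have := ih h; omega

theorem sz_sublist {l1 l2 : List γ} (h : l1.Sublist l2) : sz l1 ≤ sz l2 := by
  induction h with
  | slnil => exact le_rfl
  | cons a _ ih => rw [sz_cons]; omega
  | cons_cons a _ ih => rw [sz_cons, sz_cons]; omega

theorem sz_le_of {l : List γ} {b : ℕ} (h : ∀ a ∈ l, sz a ≤ b) : sz l ≤ l.length * (b + 1) + 1 := by
  induction l with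
  | nil => rw [sz_nil]; omega
  | cons a l ih =>
    rw [sz_cons, List.length_cons]
    have h1 := h a List.mem_cons_self
    have h2 := ih fun c hc => h c (List.mem_cons_of_mem _ hc)
    have h3 : (l.length + 1) * (b + 1) = l.length * (b + 1) + (b + 1) := by ring
    omega

/-! ### booleans -/

theorem PT.not {p : α → Bool} (hp : PT p) : PT fun x => !(p x) := by
  have h : (fun x => !(p x)) = fun x => if p x = true then false else true := by
    funext x
    cases p x <;> rfl
  rw [h]
  exact PT.cond hp (PT.const _) (PT.const _)

theorem PT.and {p q : α → Bool} (hp : PT p) (hq : PT q) : PT fun x => p x && q x := by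
  have h : (fun x => p x && q x) = fun x => if p x = true then q x else false := by
    funext x
    cases p x <;> rfl
  rw [h]
  exact PT.cond hp hq (PT.const _)

theorem PT.or {p q : α → Bool} (hp : PT p) (hq : PT q) : PT fun x => p x || q x := by
  have h : (fun x => p x || q x) = fun x => if p x = true then true else q x := by
    funext x
    cases p x <;> rfl
  rw [h]
  exact PT.cond hp (PT.const _) hq

/-! ### basic operations on codes -/

theorem FP_id : FP O0 fun v => v := FP.id'

theorem PT.succ {f : α → ℕ} (hf : PT f) : PT fun x => f x + 1 :=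
  (PT.ofFP (F := fun v => node leaf v) (FP.node' FP.leaf' FP.id')
    (f := fun n : ℕ => n + 1) fun _ => rfl).comp hf

theorem PT.pred {f : α → ℕ} (hf : PT f) : PT fun x => f x - 1 :=
  (PT.ofFP (F := fun v => Tr.snd v) (FP.snd' FP.id')
    (f := fun n : ℕ => n - 1) fun n => by cases n <;> rfl).comp hf

theorem PT.tail {f : α → List γ} (hf : PT f) : PT fun x => (f x).tail :=
  (PT.ofFP (F := fun v => Tr.snd v) (FP.snd' FP.id')
    (f := fun n : List γ => n.tail) fun n => by cases n <;> rfl).comp hf

theorem PT.headD {f : α → List γ} {d : γ} (hd : te d = leaf) (hf : PT f) :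
    PT fun x => (f x).headD d :=
  (PT.ofFP (F := fun v => Tr.fst v) (FP.fst' FP.id')
    (f := fun n : List γ => n.headD d) fun n => by
      cases n
      · exact hd.symm
      · rfl).comp hf

theorem PT.cons {f : α → γ} {g : α → List γ} (hf : PT f) (hg : PT g) : PT fun x => f x :: g x :=
  (PT.ofFP (F := fun v => v) FP.id' (f := fun p : γ × List γ => p.1 :: p.2)
    fun _ => rfl).comp (hf.pair hg)

theorem PT.units {f : α → ℕ} (hf : PT f) : PT fun x => List.replicate (f x) () :=
  (PT.ofFP (F := fun v => v) FP.id' (f := fun n : ℕ => List.replicate n ())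
    fun n => by
      induction n with
      | zero => rfl
      | succ n ih => exact congrArg (node leaf) ih).comp hf

theorem foldl_units {f : σ → σ} (n : ℕ) (s : σ) :
    (List.replicate n ()).foldl (fun s _ => f s) s = f^[n] s := by
  induction n generalizing s with
  | zero => rfl
  | succ n ih => rw [List.replicate_succ, List.foldl_cons, ih]; rfl

/-- iteration -/
theorem PT.iter {N : α → ℕ} {z : α → σ} {f : α → σ → σ} (hN : PT N) (hz : PT z)
    (hf : PT fun p : α × σ => f p.1 p.2) {b : α → ℕ} (hb : PB b)
    (h : ∀ x, ∀ i ≤ N x, sz ((f x)^[i] (z x)) ≤ b x) : PT fun x => (f x)^[N x] (z x) := by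
  have h1 := PT.foldl (γ := Unit) (st := fun x s _ => f x s) hN.units hz
    (hf.comp (PT.id.fst.pair PT.id.snd.fst)) hb (fun x l1 l2 hl => by
      have h2 : l1 = List.replicate l1.length () := List.eq_replicate_of_mem fun _ _ => rfl
      have h3 : l1.length ≤ N x := by
        have := congrArg List.length hl
        rw [List.length_replicate, List.length_append] at this
        omega
      rw [h2, foldl_units]
      exact h x _ h3)
  simp only [foldl_units] at h1
  exact h1

/-! ### natural numbers -/

theorem pred_iter (n m : ℕ) : (fun s : ℕ => s - 1)^[n] m = m - n := by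
  induction n generalizing m with
  | zero => rfl
  | succ n ih => rw [Function.iterate_succ_apply, ih]; omega

theorem succ_iter (n m : ℕ) : (fun s : ℕ => s + 1)^[n] m = m + n := by
  induction n generalizing m with
  | zero => rfl
  | succ n ih => rw [Function.iterate_succ_apply, ih]; omega

theorem add_iter (k n m : ℕ) : (fun s : ℕ => s + k)^[n] m = m + n * k := by
  induction n generalizing m with
  | zero => simp
  | succ n ih => rw [Function.iterate_succ_apply, ih]; ring

theorem PT.sub {f g : α → ℕ} (hf : PT f) (hg : PT g) : PT fun x => f x - g x := by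
  have h := PT.iter (f := fun _ s => s - 1) hg hf (PT.id.snd.pred) hf.size_bound (fun x i _ => by
    rw [pred_iter, sz_nat, sz_nat]; omega)
  simp only [pred_iter] at h
  exact h

theorem PT.add {f g : α → ℕ} (hf : PT f) (hg : PT g) : PT fun x => f x + g x := by
  have h := PT.iter (f := fun _ s => s + 1) hg hf (PT.id.snd.succ)
    (hf.size_bound.add hg.size_bound) (fun x i hi => by
    rw [succ_iter, sz_nat, sz_nat, sz_nat]; omega)
  simp only [succ_iter] at h
  exact h

theorem PT.mul {f g : α → ℕ} (hf : PT f) (hg : PT g) : PT fun x => f x * g x := by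
  have h := PT.iter (f := fun (x : α × ℕ) s => s + x.2) (N := fun x : α × ℕ => f x.1)
    (hf.comp PT.id.fst) (PT.const 0)
    (PT.add PT.id.snd PT.id.fst.snd)
    (b := fun x : α × ℕ => 2 * (sz (f x.1) * sz x.2) + 1)
    (((PB.const 2).mul ((hf.comp PT.id.fst).size_bound.mul PT.id.snd.size_bound)).add
      (PB.const 1)) (fun x i hi => by
    rw [add_iter, sz_nat, sz_nat, sz_nat, zero_add]
    have h1 : i * x.2 ≤ (2 * f x.1 + 1) * (2 * x.2 + 1) :=
      Nat.mul_le_mul (by omega) (by omega)
    omega)
  simp only [add_iter, zero_add] at h
  exact h.comp (PT.id.pair hg)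

theorem PT.isNil {f : α → List γ} (hf : PT f) : PT fun x => (f x).isEmpty := by
  have h := PT.caseL (z := fun _ => true) (s := fun _ _ _ => false) hf (PT.const true)
    (PT.const false)
  refine (congrArg PT ?_).mp h
  funext x
  cases f x <;> rfl

theorem PT.isZero {f : α → ℕ} (hf : PT f) : PT fun x => f x == 0 := by
  have h := hf.units.isNil
  refine (congrArg PT ?_).mp h
  funext x
  cases f x <;> rfl

theorem PT.leb {f g : α → ℕ} (hf : PT f) (hg : PT g) : PT fun x => decide (f x ≤ g x) := by
  have h := (hf.sub hg).isZero
  refine (congrArg PT ?_).mp h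
  funext x
  rw [Bool.eq_iff_iff]
  simp only [beq_iff_eq, decide_eq_true_eq]
  omega

theorem PT.eqb {f g : α → ℕ} (hf : PT f) (hg : PT g) : PT fun x => f x == g x := by
  have h := (hf.leb hg).and (hg.leb hf)
  refine (congrArg PT ?_).mp h
  funext x
  rw [Bool.eq_iff_iff]
  simp only [Bool.and_eq_true, beq_iff_eq, decide_eq_true_eq]
  omega

/-! ### lists -/

theorem foldl_flip_cons (l acc : List γ) :
    l.foldl (fun acc a => a :: acc) acc = l.reverse ++ acc := by
  induction l generalizing acc with
  | nil => rfl
  | cons a l ih => rw [List.foldl_cons, ih, List.reverse_cons, List.append_assoc]; rfl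

theorem PT.revAppend {f g : α → List γ} (hf : PT f) (hg : PT g) :
    PT fun x => (f x).reverse ++ g x := by
  have h := PT.foldl (st := fun _ acc a => a :: acc) hf hg
    (PT.id.snd.snd.cons PT.id.snd.fst) (hf.size_bound.add hg.size_bound) (fun x l1 l2 hl => by
      rw [foldl_flip_cons]
      have h1 := sz_append l1.reverse (g x)
      have h2 := sz_append l1 l2
      have h3 := sz_pos l2
      rw [sz_reverse] at h1
      rw [hl]
      omega)
  simp only [foldl_flip_cons] at h
  exact h

theorem PT.reverse {f : α → List γ} (hf : PT f) : PT fun x => (f x).reverse := by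
  have h := hf.revAppend (PT.const [])
  simp only [List.append_nil] at h
  exact h

theorem PT.append {f g : α → List γ} (hf : PT f) (hg : PT g) : PT fun x => f x ++ g x := by
  have h := hf.reverse.revAppend hg
  simp only [List.reverse_reverse] at h
  exact h

theorem foldl_map_cons {f : γ → δ} (l : List γ) (acc : List δ) :
    l.foldl (fun acc a => f a :: acc) acc = (l.map f).reverse ++ acc := by
  induction l generalizing acc with
  | nil => rfl
  | cons a l ih =>
    rw [List.foldl_cons, ih, List.map_cons, List.reverse_cons, List.append_assoc]; rfl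

theorem PT.map {l : α → List γ} {f : α → γ → δ} (hl : PT l) (hf : PT fun p : α × γ => f p.1 p.2) :
    PT fun x => (l x).map (f x) := by
  obtain ⟨q, hq⟩ := hf.size_bound
  have h := PT.foldl (st := fun x acc a => f x a :: acc) hl (PT.const ([] : List δ))
    (hf.comp (PT.id.fst.pair PT.id.snd.snd) |>.cons PT.id.snd.fst)
    (b := fun x => sz (l x) * (q.eval (sz x + sz (l x) + 1) + 1) + 1)
    ((hl.size_bound.mul ((PB.eval q ((PB.sz.add hl.size_bound).add (PB.const 1))).add
      (PB.const 1))).add (PB.const 1)) (fun x l1 l2 hl' => by
      rw [foldl_map_cons, List.append_nil, sz_reverse]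
      refine (sz_le_of (b := q.eval (sz x + sz (l x) + 1)) ?_).trans ?_
      · intro b hb
        obtain ⟨a, ha, rfl⟩ := List.mem_map.1 hb
        refine (hq (x, a)).trans (poly_mono q ?_)
        have h1 : a ∈ l x := by
          rw [hl']
          exact List.mem_append_left _ ha
        have h2 := sz_mem h1
        rw [sz_pair]
        omega
      · rw [List.length_map]
        have h1 : l1.length ≤ sz (l x) := by
          refine le_trans ?_ (length_le_sz (l x))
          rw [hl', List.length_append]
          omega
        have := Nat.mul_le_mul_right (q.eval (sz x + sz (l x) + 1) + 1) h1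
        omega)
  simp only [foldl_map_cons, List.append_nil] at h
  have h2 := h.reverse
  simp only [List.reverse_reverse] at h2
  exact h2

theorem foldl_filter_cons {p : γ → Bool} (l : List γ) (acc : List γ) :
    l.foldl (fun acc a => if p a = true then a :: acc else acc) acc =
      (l.filter p).reverse ++ acc := by
  induction l generalizing acc with
  | nil => rfl
  | cons a l ih =>
    rw [List.foldl_cons, ih, List.filter_cons]
    split_ifs
    · rw [List.reverse_cons, List.append_assoc]; rfl
    · rfl

theorem PT.filter {l : α → List γ} {p : α → γ → Bool} (hl : PT l)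
    (hp : PT fun q : α × γ => p q.1 q.2) : PT fun x => (l x).filter (p x) := by
  have h := PT.foldl (st := fun x acc a => if p x a = true then a :: acc else acc) hl
    (PT.const ([] : List γ))
    (PT.cond (hp.comp (PT.id.fst.pair PT.id.snd.snd)) (PT.id.snd.snd.cons PT.id.snd.fst)
      PT.id.snd.fst) hl.size_bound (fun x l1 l2 hl' => by
      rw [foldl_filter_cons, List.append_nil, sz_reverse]
      refine sz_sublist ?_
      rw [hl']
      exact List.filter_sublist.trans (List.sublist_append_left _ _))
  simp only [foldl_filter_cons, List.append_nil] at h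
  have h2 := h.reverse
  simp only [List.reverse_reverse] at h2
  exact h2

theorem foldl_or {p : γ → Bool} (l : List γ) (b : Bool) :
    l.foldl (fun acc a => acc || p a) b = (b || l.any p) := by
  induction l generalizing b with
  | nil => simp
  | cons a l ih => rw [List.foldl_cons, ih, List.any_cons, Bool.or_assoc]

theorem PT.any {l : α → List γ} {p : α → γ → Bool} (hl : PT l)
    (hp : PT fun q : α × γ => p q.1 q.2) : PT fun x => (l x).any (p x) := by
  have h := PT.foldl (st := fun x acc a => acc || p x a) hl (PT.const false)
    (PT.id.snd.fst.or (hp.comp (PT.id.fst.pair PT.id.snd.snd))) (PB.const 3)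
    (fun x l1 l2 _ => sz_bool _)
  simp only [foldl_or, Bool.false_or] at h
  exact h

theorem PT.all {l : α → List γ} {p : α → γ → Bool} (hl : PT l)
    (hp : PT fun q : α × γ => p q.1 q.2) : PT fun x => (l x).all (p x) := by
  have h := (PT.any (p := fun x a => !(p x a)) hl hp.not).not
  refine (congrArg PT ?_).mp h
  funext x
  rw [List.not_any_eq_all_not]
  simp

theorem foldl_append (l : List (List γ)) (acc : List γ) :
    l.foldl (fun acc a => acc ++ a) acc = acc ++ l.flatten := by
  induction l generalizing acc with
  | nil => simp
  | cons a l ih => rw [List.foldl_cons, ih, List.flatten_cons, List.append_assoc]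

theorem sz_flatten (l : List (List γ)) : sz l.flatten ≤ sz l := by
  induction l with
  | nil => exact le_rfl
  | cons a l ih =>
    have h := sz_append a l.flatten
    rw [List.flatten_cons, sz_cons]
    omega

theorem PT.flatten {l : α → List (List γ)} (hl : PT l) : PT fun x => (l x).flatten := by
  have h := PT.foldl (st := fun _ acc a => acc ++ a) hl (PT.const ([] : List γ))
    (PT.id.snd.fst.append PT.id.snd.snd) hl.size_bound (fun x l1 l2 hl' => by
      rw [foldl_append, List.nil_append]
      refine (sz_flatten l1).trans (sz_sublist ?_)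
      rw [hl']
      exact List.sublist_append_left _ _)
  simp only [foldl_append, List.nil_append] at h
  exact h

theorem PT.flatMap {l : α → List γ} {f : α → γ → List δ} (hl : PT l)
    (hf : PT fun p : α × γ => f p.1 p.2) : PT fun x => (l x).flatMap (f x) := by
  have h := (PT.map hl hf).flatten
  refine (congrArg PT ?_).mp h
  funext x
  rw [List.flatMap_def]

theorem PT.length {l : α → List γ} (hl : PT l) : PT fun x => (l x).length := by
  have h1 : ∀ (l : List γ) (n : ℕ), l.foldl (fun acc _ => acc + 1) n = n + l.length := by
    intro l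
    induction l with
    | nil => intro n; rfl
    | cons a l ih => intro n; rw [List.foldl_cons, ih, List.length_cons]; omega
  have h := PT.foldl (st := fun _ acc _ => acc + 1) hl (PT.const 0)
    (PT.id.snd.fst.succ) (b := fun x => 2 * sz (l x) + 1)
    (((PB.const 2).mul hl.size_bound).add (PB.const 1)) (fun x l1 l2 hl' => by
      rw [h1, sz_nat, zero_add]
      have h2 : l1.length ≤ (l x).length := by rw [hl', List.length_append]; omega
      have h3 := length_le_sz (l x)
      omega)
  simp only [h1, zero_add] at h
  exact h

theorem tail_iter (n : ℕ) (l : List γ) : List.tail^[n] l = l.drop n := by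
  induction n generalizing l with
  | zero => rfl
  | succ n ih => rw [Function.iterate_succ_apply, ih, List.drop_tail]

theorem PT.drop {f : α → ℕ} {l : α → List γ} (hf : PT f) (hl : PT l) :
    PT fun x => (l x).drop (f x) := by
  have h := PT.iter (f := fun (_ : α) (s : List γ) => s.tail) hf hl PT.id.snd.tail hl.size_bound
    (fun x i _ => by
      have e : (fun s : List γ => s.tail)^[i] (l x) = (l x).drop i := tail_iter i (l x)
      rw [e]
      exact sz_sublist (List.drop_sublist _ _))
  refine (congrArg PT ?_).mp h
  funext x
  exact tail_iter _ _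

theorem range_iter (n : ℕ) : (fun s : ℕ × List ℕ => (s.1 + 1, s.1 :: s.2))^[n] (0, []) =
    (n, (List.range n).reverse) := by
  induction n with
  | zero => rfl
  | succ n ih =>
    rw [Function.iterate_succ_apply', ih, List.range_succ, List.reverse_append]
    rfl

theorem PT.range {f : α → ℕ} (hf : PT f) : PT fun x => List.range (f x) := by
  have h := PT.iter (f := fun (_ : α) (s : ℕ × List ℕ) => (s.1 + 1, s.1 :: s.2)) hf
    (PT.const (0, [])) (PT.id.snd.fst.succ.pair (PT.id.snd.fst.cons PT.id.snd.snd))
    (b := fun x => sz (f x) + (sz (f x) * (sz (f x) + 1) + 1) + 1)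
    ((hf.size_bound.add ((hf.size_bound.mul (hf.size_bound.add (PB.const 1))).add
      (PB.const 1))).add (PB.const 1)) (fun x i hi => by
      rw [range_iter, sz_pair, sz_reverse]
      have h1 : sz (List.range i) ≤ (List.range i).length * (sz (f x) + 1) + 1 := by
        refine sz_le_of fun a ha => ?_
        rw [sz_nat, sz_nat]
        have := List.mem_range.1 ha
        omega
      rw [List.length_range] at h1
      have h2 : i * (sz (f x) + 1) ≤ sz (f x) * (sz (f x) + 1) :=
        Nat.mul_le_mul_right _ (by rw [sz_nat]; omega)
      have h3 : sz i ≤ sz (f x) := by rw [sz_nat, sz_nat]; omega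
      omega)
  simp only [range_iter] at h
  have h2 := h.snd.reverse
  simp only [List.reverse_reverse] at h2
  exact h2

end Pool.Agent.H22.SW
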