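import Mathlib

set_option autoImplicit false

/-!
# Sim-width, independence number, induced bicliques: definitions

A branch decomposition is represented by a rooted binary tree whose leaves are labelled bijectively
by the vertices.  The edges of the (unrooted, cubic) tree correspond to the proper subtrees: the edge
above the subtree `s` gives the cut (labels of `s`, other vertices); suppressing the root gives the
usual form (the two subtrees of the root give the same cut).

The definitions are relative to a finite set `X` of vertices of a graph on an arbitrary type, so that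
induced subgraphs need no new types.
-/

namespace Pool.Agent.H22.SW

/-- Rooted binary trees with labelled leaves. -/
inductive BT (V : Type) : Type
  | leaf : V → BT V
  | node : BT V → BT V → BT V

namespace BT

variable {V : Type}

/-- the labels of the leaves -/
def lv : BT V → List V
  | leaf v => [v]
  | node a b => a.lv ++ b.lv

/-- all subtrees, including the tree itself -/
def subs : BT V → List (BT V)
  | leaf v => [leaf v]
  | node a b => node a b :: (a.subs ++ b.subs)

/-- the proper subtrees -/
def psubs : BT V → List (BT V)
  | leaf _ => []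
  | node a b => a.subs ++ b.subs

end BT

section Graph

variable {V : Type}

/-- Every matching of `G` whose edges have one end in `A` and one end in `B` and which is induced in
`G` has at most `k` edges. -/
def SimBd (G : SimpleGraph V) (A B : Set V) (k : ℕ) : Prop :=
  ∀ (m : ℕ) (x y : Fin m → V), (∀ i, x i ∈ A) → (∀ i, y i ∈ B) →
    (∀ i j, G.Adj (x i) (y j) ↔ i = j) → (∀ i j, ¬ G.Adj (x i) (x j)) →
    (∀ i j, ¬ G.Adj (y i) (y j)) → m ≤ k

/-- Every induced matching of the bipartite graph between `A` and `B` has at most `k` edges. -/
def MimBd (G : SimpleGraph V) (A B : Set V) (k : ℕ) : Prop :=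
  ∀ (m : ℕ) (x y : Fin m → V), (∀ i, x i ∈ A) → (∀ i, y i ∈ B) →
    (∀ i j, G.Adj (x i) (y j) ↔ i = j) → m ≤ k

/-- `I` is an independent set -/
def Ind (G : SimpleGraph V) (I : Finset V) : Prop := ∀ a ∈ I, ∀ b ∈ I, ¬ G.Adj a b

/-- There is no induced complete bipartite graph with `t` vertices on both sides. -/
def KFree (G : SimpleGraph V) (t : ℕ) : Prop :=
  ¬ ∃ a b : Fin t → V, Function.Injective a ∧ Function.Injective b ∧
    (∀ i j, ¬ G.Adj (a i) (a j)) ∧ (∀ i j, ¬ G.Adj (b i) (b j)) ∧ ∀ i j, G.Adj (a i) (b j)

/-- `S` contains an end of each edge between `A` and `B`. -/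
def Cov (G : SimpleGraph V) (S A B : Finset V) : Prop :=
  ∀ a ∈ A, ∀ b ∈ B, G.Adj a b → a ∈ S ∨ b ∈ S

/-- there is no edge between `A` and `B` -/
def Anti (G : SimpleGraph V) (A B : Finset V) : Prop := ∀ a ∈ A, ∀ b ∈ B, ¬ G.Adj a b

open Classical in
/-- the independence number of the subgraph induced by `X` -/
noncomputable def al (G : SimpleGraph V) (X : Finset V) : ℕ :=
  (X.powerset.filter fun I => Ind G I).sup Finset.card

/-- `T` is a branch decomposition of the finite set `X` of vertices. -/
def DecT (X : Finset V) (T : BT V) : Prop := T.lv.Nodup ∧ ∀ v, v ∈ T.lv ↔ v ∈ X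

/-- The subgraph induced by `X` has sim-width at most `k`. -/
def SimwOn (G : SimpleGraph V) (X : Finset V) (k : ℕ) : Prop :=
  ∃ T : BT V, DecT X T ∧ ∀ s ∈ T.psubs, SimBd G {v | v ∈ s.lv} {v | v ∈ X ∧ v ∉ s.lv} k

end Graph

section Numbers

/-- number of sampled edges -/
def rN (t k : ℕ) : ℕ := 4 ^ (4 * (k + 2 * t))

/-- bound in the cut lemma -/
def nN (t k : ℕ) : ℕ := t ^ 2 * (32 * rN t k) ^ t ^ 2

/-- bound for the independence number of the cover of a cut -/
def cN (t k : ℕ) : ℕ := 4 * nN t k

/-- bound for the independence number of the boundary -/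
def wN (t k : ℕ) : ℕ := 15 * cN t k + 2

end Numbers

end Pool.Agent.H22.SW
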