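import Mathlib
import Pool.Agent.H22.SW.Defs
import Pool.Agent.H22.SW.PTO

set_option autoImplicit false

/-!
# The approximation algorithm

Vertices are natural numbers, sets of vertices are lists, `M` is the adjacency matrix, `L` the list
of all lists of vertices up to a certain length, `d` and `w` two numbers.
-/

namespace Pool.Agent.H22.SW

open Pool.Agent.H88.RO Pool.Agent.H88.RO.Tr

/-- adjacency test -/
def adjb (M : List (List Bool)) (u v : ℕ) : Bool := (((M.drop u).headD []).drop v).headD false

/-- membership test -/
def memb (u : ℕ) (l : List ℕ) : Bool := l.any fun v => v == u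

/-- no repetitions -/
def ndb (l : List ℕ) : Bool := l.all fun a => (l.filter fun b => b == a).length == 1

/-- inclusion test -/
def subb (l X : List ℕ) : Bool := l.all fun a => memb a X

/-- independence test -/
def indb (M : List (List Bool)) (l : List ℕ) : Bool := l.all fun a => l.all fun b => !(adjb M a b)

/-- test whether the independence number of `X` is at most `j` -/
def alb (M : List (List Bool)) (L : List (List ℕ)) (X : List ℕ) (j : ℕ) : Bool :=
  !(L.any fun l => (l.length == j + 1) && (ndb l && (subb l X && indb M l)))

/-- the vertices -/
def vl (M : List (List Bool)) : List ℕ := List.range M.length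

/-- the vertices of small degree in the rest `Y` -/
def lowb (M : List (List Bool)) (L : List (List ℕ)) (d : ℕ) (Y : List ℕ) : List ℕ :=
  Y.filter fun v => alb M L (Y.filter fun u => adjb M v u) d

/-- one step of the degeneracy ordering; the state is the list of the remaining vertices and the
list of the pairs (vertex, closed neighbourhood in the rest) -/
def ordStep (M : List (List Bool)) (L : List (List ℕ)) (d : ℕ) (s : List ℕ × List (ℕ × List ℕ)) :
    List ℕ × List (ℕ × List ℕ) :=
  match lowb M L d s.1 with
  | [] => s
  | v :: _ => (s.1.filter (fun u => !(u == v)),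
      (v, s.1.filter fun u => (u == v) || adjb M v u) :: s.2)

/-- the closed neighbourhoods for the degeneracy ordering -/
def ordB (M : List (List Bool)) (L : List (List ℕ)) (d : ℕ) : List (ℕ × List ℕ) :=
  ((ordStep M L d)^[M.length] (vl M, [])).2

/-- the separator given by the list `l` -/
def sepS (V : List ℕ) (B : List (ℕ × List ℕ)) (V' l : List ℕ) : List ℕ :=
  V.filter fun u => memb u V' && (B.any fun p => memb p.1 l && memb u p.2)

/-- the closure of `X` in `Y` -/
def reach (M : List (List Bool)) (Y X : List ℕ) : List ℕ :=
  (fun Z : List ℕ => Y.filter fun u => memb u Z || (Z.any fun v => adjb M v u))^[Y.length] X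

/-- the candidates (separator, side) for the piece `V'` -/
def cands (M : List (List Bool)) (L : List (List ℕ)) (B : List (ℕ × List ℕ)) (V' : List ℕ) :
    List (List ℕ × List ℕ) :=
  ([], V') :: (L.flatMap fun l => L.map fun J =>
    (sepS (vl M) B V' l, reach M (V'.filter fun u => !(memb u (sepS (vl M) B V' l)))
      (V'.filter fun u => !(memb u (sepS (vl M) B V' l)) && memb u J)))

/-- the boundary of the first piece -/
def bd1 (V W' S A : List ℕ) : List ℕ := V.filter fun u => memb u S || (memb u W' && memb u A)

/-- the boundary of the second piece -/
def bd2 (V W' S A : List ℕ) : List ℕ := V.filter fun u => memb u S || (memb u W' && !(memb u A))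

/-- no edge between the two sides -/
def antb (M : List (List Bool)) (V' S A : List ℕ) : Bool :=
  A.all fun a => V'.all fun b => (memb a S || memb b S) || (memb b A || !(adjb M a b))

/-- is the candidate good? -/
def okb (M : List (List Bool)) (L : List (List ℕ)) (w : ℕ) (W' V' : List ℕ)
    (p : List ℕ × List ℕ) : Bool :=
  (alb M L (bd1 (vl M) W' p.1 p.2) w && alb M L (bd2 (vl M) W' p.1 p.2) w) && antb M V' p.1 p.2

/-- Tokens: `(0, [v], [])` is the leaf `v`, `(1, [], [])` joins the last two trees, `(2, C, W)` is
the task of decomposing `C` with boundary `W`. -/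
abbrev Tok : Type := ℕ × List ℕ × List ℕ

/-- the new tasks of a piece -/
def taskT (C W : List ℕ) : List Tok := if C.isEmpty = true then [] else [(2, C, W), (1, [], [])]

/-- the expansion of a task, given the separator and the side -/
def buildT (V : List ℕ) (v : ℕ) (C' W' S A : List ℕ) : List Tok :=
  (0, [v], []) :: (taskT (C'.filter fun u => !(memb u S) && memb u A) (bd1 V W' S A) ++
    (taskT (C'.filter fun u => !(memb u S) && !(memb u A)) (bd2 V W' S A) ++
    ((C'.filter fun u => memb u S).flatMap fun s => [(0, [s], []), (1, [], [])])))

/-- expansion of a token -/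
def expT (M : List (List Bool)) (L : List (List ℕ)) (w : ℕ) (B : List (ℕ × List ℕ)) (t : Tok) :
    List Tok :=
  if (t.1 == 2) = true then
    match t.2.1 with
    | [] => [t]
    | v :: C' =>
      match (cands M L B (C' ++ (v :: t.2.2))).filter
          fun p => okb M L w (v :: t.2.2) (C' ++ (v :: t.2.2)) p with
      | [] => [t]
      | p :: _ => buildT (vl M) v C' (v :: t.2.2) p.1 p.2
  else [t]

/-- the expansion rounds -/
def roundT (M : List (List Bool)) (L : List (List ℕ)) (w : ℕ) (B : List (ℕ × List ℕ)) (n : ℕ)
    (t : List Tok) : List Tok := (fun l : List Tok => l.flatMap fun a => expT M L w B a)^[n] t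

/-- the code of a leaf -/
def encLf (v : ℕ) : Tr := node leaf (num v)

/-- the code of an inner node -/
def encNd (a b : Tr) : Tr := node (node leaf leaf) (node a b)

/-- the code of a tree with labelled leaves -/
def encBT : BT ℕ → Tr
  | BT.leaf v => encLf v
  | BT.node a b => encNd (encBT a) (encBT b)

/-- one step of the evaluation of the tokens, with a stack of trees -/
def evStep (st : List Tr) (t : Tok) : List Tr :=
  if (t.1 == 0) = true then encLf (t.2.1.headD 0) :: st
  else encNd (st.tail.headD leaf) (st.headD leaf) :: st.tail.tail

/-- the result of the algorithm -/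
def mainT (M : List (List Bool)) (L : List (List ℕ)) (d w : ℕ) : Tr :=
  let toks := roundT M L w (ordB M L d) M.length [(2, vl M, [])]
  if (toks.any fun t => t.1 == 2) = true then leaf else (toks.foldl evStep []).headD leaf

end Pool.Agent.H22.SW
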