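import Mathlib
import Pool.Agent.H22.SW.Alg

set_option autoImplicit false
set_option linter.unusedSectionVars false

/-!
# The algorithm runs in polynomial time in the padded input
-/

namespace Pool.Agent.H22.SW

open Pool.Agent.H88.RO Pool.Agent.H88.RO.Tr

variable {α β γ σ δ : Type} [TE α] [TE β] [TE γ] [TE σ] [TE δ]

theorem PT.up {f : α → β} (h : PT f) : PT fun q : α × γ => f q.1 := h.comp PT.fst0

theorem PT.last : PT fun q : α × γ => q.2 := PT.snd0

theorem PT.congr {f g : α → β} (h : PT f) (he : ∀ x, f x = g x) : PT g := by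
  have : f = g := funext he
  rw [← this]
  exact h

theorem PT.adjb {M : α → List (List Bool)} {u v : α → ℕ} (hM : PT M) (hu : PT u) (hv : PT v) :
    PT fun x => adjb (M x) (u x) (v x) :=
  PT.headD rfl (PT.drop hv (PT.headD rfl (PT.drop hu hM)))

theorem PT.memb {u : α → ℕ} {l : α → List ℕ} (hu : PT u) (hl : PT l) :
    PT fun x => memb (u x) (l x) :=
  PT.any (p := fun x v => v == u x) hl (PT.eqb PT.last hu.up)

theorem PT.ndb {l : α → List ℕ} (hl : PT l) : PT fun x => ndb (l x) :=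
  PT.all (p := fun x a => ((l x).filter fun b => b == a).length == 1) hl
    (PT.eqb (PT.length (PT.filter (p := fun (q : α × ℕ) b => b == q.2) hl.up
      (PT.eqb PT.last PT.last.up))) (PT.const 1))

theorem PT.subb {l X : α → List ℕ} (hl : PT l) (hX : PT X) : PT fun x => subb (l x) (X x) :=
  PT.all (p := fun x a => Pool.Agent.H22.SW.memb a (X x)) hl (PT.memb PT.last hX.up)

theorem PT.indb {M : α → List (List Bool)} {l : α → List ℕ} (hM : PT M) (hl : PT l) :
    PT fun x => indb (M x) (l x) :=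
  PT.all (p := fun x a => (l x).all fun b => !(Pool.Agent.H22.SW.adjb (M x) a b)) hl
    (PT.all (p := fun (q : α × ℕ) b => !(Pool.Agent.H22.SW.adjb (M q.1) q.2 b)) hl.up
      (PT.adjb hM.up.up PT.last.up PT.last).not)

theorem PT.alb {M : α → List (List Bool)} {L : α → List (List ℕ)} {X : α → List ℕ} {j : α → ℕ}
    (hM : PT M) (hL : PT L) (hX : PT X) (hj : PT j) : PT fun x => alb (M x) (L x) (X x) (j x) :=
  (PT.any (p := fun x (l : List ℕ) => (l.length == j x + 1) && (Pool.Agent.H22.SW.ndb l &&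
    (Pool.Agent.H22.SW.subb l (X x) && Pool.Agent.H22.SW.indb (M x) l))) hL
    ((PT.eqb (PT.length PT.last) hj.up.succ).and ((PT.ndb PT.last).and
      ((PT.subb PT.last hX.up).and (PT.indb hM.up PT.last))))).not

theorem PT.vl {M : α → List (List Bool)} (hM : PT M) : PT fun x => vl (M x) :=
  PT.range hM.length

theorem PT.lowb {M : α → List (List Bool)} {L : α → List (List ℕ)} {d : α → ℕ} {Y : α → List ℕ}
    (hM : PT M) (hL : PT L) (hd : PT d) (hY : PT Y) : PT fun x => lowb (M x) (L x) (d x) (Y x) :=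
  PT.filter (p := fun x v => Pool.Agent.H22.SW.alb (M x) (L x)
    ((Y x).filter fun u => Pool.Agent.H22.SW.adjb (M x) v u) (d x)) hY
    (PT.alb hM.up hL.up (PT.filter (p := fun (q : α × ℕ) u => Pool.Agent.H22.SW.adjb (M q.1) q.2 u)
      hY.up (PT.adjb hM.up.up PT.last.up PT.last)) hd.up)

theorem PT.ordStep {M : α → List (List Bool)} {L : α → List (List ℕ)} {d : α → ℕ}
    {s : α → List ℕ × List (ℕ × List ℕ)} (hM : PT M) (hL : PT L) (hd : PT d) (hs : PT s) :
    PT fun x => ordStep (M x) (L x) (d x) (s x) := by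
  refine (PT.caseL (z := s) (s := fun x v (_ : List ℕ) => ((s x).1.filter (fun u => !(u == v)),
      (v, (s x).1.filter fun u => (u == v) || Pool.Agent.H22.SW.adjb (M x) v u) :: (s x).2))
    (PT.lowb hM hL hd hs.fst) hs ?_).congr ?_
  · exact (PT.filter (p := fun (q : α × ℕ × List ℕ) u => !(u == q.2.1)) hs.fst.up
      (PT.eqb PT.last PT.last.fst.up).not).pair
      ((PT.last.fst.pair (PT.filter (p := fun (q : α × ℕ × List ℕ) u => (u == q.2.1) ||
        Pool.Agent.H22.SW.adjb (M q.1) q.2.1 u) hs.fst.up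
        ((PT.eqb PT.last PT.last.fst.up).or (PT.adjb hM.up.up PT.last.fst.up PT.last)))).cons
        hs.snd.up)
  · intro x
    unfold Pool.Agent.H22.SW.ordStep
    cases Pool.Agent.H22.SW.lowb (M x) (L x) (d x) (s x).1 <;> rfl

theorem ordStep_inv (M : List (List Bool)) (L : List (List ℕ)) (d : ℕ) (V : List ℕ)
    (s : List ℕ × List (ℕ × List ℕ)) (hs : s.1.Sublist V) :
    (ordStep M L d s).1.Sublist V ∧ sz (ordStep M L d s).2 ≤ sz s.2 + 2 * sz V + 2 := by
  unfold ordStep
  split
  · exact ⟨hs, by omega⟩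
  · rename_i v t hv
    refine ⟨List.filter_sublist.trans hs, ?_⟩
    have h1 : v ∈ lowb M L d s.1 := by rw [hv]; exact List.mem_cons_self
    have h2 : v ∈ V := hs.subset (List.mem_filter.1 h1).1
    have h3 := sz_mem h2
    have h4 := sz_sublist ((List.filter_sublist (p := fun u => (u == v) || adjb M v u)
      (l := s.1)).trans hs)
    rw [sz_cons, sz_pair]
    omega

theorem PT.ordB {M : α → List (List Bool)} {L : α → List (List ℕ)} {d : α → ℕ}
    (hM : PT M) (hL : PT L) (hd : PT d) : PT fun x => ordB (M x) (L x) (d x) := by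
  have hbV := (PT.vl hM).size_bound
  have h := PT.iter (N := fun x => (M x).length) (z := fun x => (Pool.Agent.H22.SW.vl (M x),
    ([] : List (ℕ × List ℕ)))) (f := fun x s => Pool.Agent.H22.SW.ordStep (M x) (L x) (d x) s)
    hM.length ((PT.vl hM).pair (PT.const [])) (PT.ordStep hM.up hL.up hd.up PT.last)
    (b := fun x => sz (Pool.Agent.H22.SW.vl (M x)) + (sz (M x) *
      (2 * sz (Pool.Agent.H22.SW.vl (M x)) + 2) + 1) + 1)
    ((hbV.add ((hM.size_bound.mul (((PB.const 2).mul hbV).add (PB.const 2))).add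
      (PB.const 1))).add (PB.const 1)) (fun x i hi => by
      have h1 : ∀ i, (((fun s => Pool.Agent.H22.SW.ordStep (M x) (L x) (d x) s)^[i]
          (Pool.Agent.H22.SW.vl (M x), ([] : List (ℕ × List ℕ)))).1.Sublist
            (Pool.Agent.H22.SW.vl (M x))) ∧
          sz ((fun s => Pool.Agent.H22.SW.ordStep (M x) (L x) (d x) s)^[i]
          (Pool.Agent.H22.SW.vl (M x), ([] : List (ℕ × List ℕ)))).2 ≤
            i * (2 * sz (Pool.Agent.H22.SW.vl (M x)) + 2) + 1 := by
        intro i
        induction i with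
        | zero => exact ⟨List.Sublist.refl _, by rw [Function.iterate_zero]; show sz ([] : List (ℕ × List ℕ)) ≤ _; rw [sz_nil]; omega⟩
        | succ i ih =>
          rw [Function.iterate_succ_apply']
          have h2 := ordStep_inv (M x) (L x) (d x) (Pool.Agent.H22.SW.vl (M x)) _ ih.1
          refine ⟨h2.1, h2.2.trans ?_⟩
          have h3 : (i + 1) * (2 * sz (Pool.Agent.H22.SW.vl (M x)) + 2) =
            i * (2 * sz (Pool.Agent.H22.SW.vl (M x)) + 2) +
              (2 * sz (Pool.Agent.H22.SW.vl (M x)) + 2) := by ring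
          have := ih.2
          omega
      have h2 := h1 i
      have h3 := sz_sublist h2.1
      have h4 : i * (2 * sz (Pool.Agent.H22.SW.vl (M x)) + 2) ≤
          sz (M x) * (2 * sz (Pool.Agent.H22.SW.vl (M x)) + 2) :=
        Nat.mul_le_mul_right _ (by have := length_le_sz (M x); omega)
      have h5 := h2.2
      have h6 : sz ((fun s => Pool.Agent.H22.SW.ordStep (M x) (L x) (d x) s)^[i]
          (Pool.Agent.H22.SW.vl (M x), ([] : List (ℕ × List ℕ)))) =
          sz ((fun s => Pool.Agent.H22.SW.ordStep (M x) (L x) (d x) s)^[i]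
          (Pool.Agent.H22.SW.vl (M x), ([] : List (ℕ × List ℕ)))).1 +
          sz ((fun s => Pool.Agent.H22.SW.ordStep (M x) (L x) (d x) s)^[i]
          (Pool.Agent.H22.SW.vl (M x), ([] : List (ℕ × List ℕ)))).2 + 1 := rfl
      rw [h6]
      omega)
  exact h.snd

theorem PT.sepS {V : α → List ℕ} {B : α → List (ℕ × List ℕ)} {V' l : α → List ℕ} (hV : PT V)
    (hB : PT B) (hV' : PT V') (hl : PT l) : PT fun x => sepS (V x) (B x) (V' x) (l x) :=
  PT.filter (p := fun x u => Pool.Agent.H22.SW.memb u (V' x) && ((B x).any fun p =>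
    Pool.Agent.H22.SW.memb p.1 (l x) && Pool.Agent.H22.SW.memb u p.2)) hV
    ((PT.memb PT.last hV'.up).and (PT.any (p := fun (q : α × ℕ) p =>
      Pool.Agent.H22.SW.memb p.1 (l q.1) && Pool.Agent.H22.SW.memb q.2 p.2) hB.up
      ((PT.memb PT.last.fst hl.up.up).and (PT.memb PT.last.up PT.last.snd))))

theorem PT.reach {M : α → List (List Bool)} {Y X : α → List ℕ} (hM : PT M) (hY : PT Y)
    (hX : PT X) : PT fun x => reach (M x) (Y x) (X x) :=
  PT.iter (N := fun x => (Y x).length) (z := X) (f := fun x (Z : List ℕ) => (Y x).filter fun u =>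
    Pool.Agent.H22.SW.memb u Z || (Z.any fun v => Pool.Agent.H22.SW.adjb (M x) v u)) hY.length hX
    (PT.filter (p := fun (q : α × List ℕ) u => Pool.Agent.H22.SW.memb u q.2 ||
      (q.2.any fun v => Pool.Agent.H22.SW.adjb (M q.1) v u)) hY.up
      ((PT.memb PT.last PT.last.up).or (PT.any (p := fun (q : (α × List ℕ) × ℕ) v =>
        Pool.Agent.H22.SW.adjb (M q.1.1) v q.2) PT.last.up
        (PT.adjb hM.up.up.up PT.last PT.last.up))))
    (hY.size_bound.add hX.size_bound) (fun x i _ => by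
      cases i with
      | zero => show sz (X x) ≤ sz (Y x) + sz (X x); omega
      | succ i =>
        rw [Function.iterate_succ_apply']
        have := sz_sublist (List.filter_sublist (p := fun u => Pool.Agent.H22.SW.memb u
          ((fun (Z : List ℕ) => (Y x).filter fun u => Pool.Agent.H22.SW.memb u Z ||
            (Z.any fun v => Pool.Agent.H22.SW.adjb (M x) v u))^[i] (X x)) ||
          (((fun (Z : List ℕ) => (Y x).filter fun u => Pool.Agent.H22.SW.memb u Z ||
            (Z.any fun v => Pool.Agent.H22.SW.adjb (M x) v u))^[i] (X x)).any fun v =>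
              Pool.Agent.H22.SW.adjb (M x) v u)) (l := Y x))
        exact this.trans (by omega))

theorem PT.cands {M : α → List (List Bool)} {L : α → List (List ℕ)} {B : α → List (ℕ × List ℕ)}
    {V' : α → List ℕ} (hM : PT M) (hL : PT L) (hB : PT B) (hV' : PT V') :
    PT fun x => cands (M x) (L x) (B x) (V' x) := by
  have hS : PT fun q : (α × List ℕ) × List ℕ => Pool.Agent.H22.SW.sepS
      (Pool.Agent.H22.SW.vl (M q.1.1)) (B q.1.1) (V' q.1.1) q.1.2 :=
    PT.sepS (PT.vl hM.up.up) hB.up.up hV'.up.up PT.last.up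
  exact ((PT.const ([] : List ℕ)).pair hV').cons (PT.flatMap (f := fun x l => (L x).map fun J =>
    (Pool.Agent.H22.SW.sepS (Pool.Agent.H22.SW.vl (M x)) (B x) (V' x) l,
      Pool.Agent.H22.SW.reach (M x) ((V' x).filter fun u => !(Pool.Agent.H22.SW.memb u
        (Pool.Agent.H22.SW.sepS (Pool.Agent.H22.SW.vl (M x)) (B x) (V' x) l)))
      ((V' x).filter fun u => !(Pool.Agent.H22.SW.memb u
        (Pool.Agent.H22.SW.sepS (Pool.Agent.H22.SW.vl (M x)) (B x) (V' x) l)) &&
          Pool.Agent.H22.SW.memb u J))) hL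
    (PT.map (f := fun (q : α × List ℕ) J =>
    (Pool.Agent.H22.SW.sepS (Pool.Agent.H22.SW.vl (M q.1)) (B q.1) (V' q.1) q.2,
      Pool.Agent.H22.SW.reach (M q.1) ((V' q.1).filter fun u => !(Pool.Agent.H22.SW.memb u
        (Pool.Agent.H22.SW.sepS (Pool.Agent.H22.SW.vl (M q.1)) (B q.1) (V' q.1) q.2)))
      ((V' q.1).filter fun u => !(Pool.Agent.H22.SW.memb u
        (Pool.Agent.H22.SW.sepS (Pool.Agent.H22.SW.vl (M q.1)) (B q.1) (V' q.1) q.2)) &&
          Pool.Agent.H22.SW.memb u J))) hL.up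
    (hS.pair (PT.reach hM.up.up
      (PT.filter (p := fun (q : (α × List ℕ) × List ℕ) u => !(Pool.Agent.H22.SW.memb u
        (Pool.Agent.H22.SW.sepS (Pool.Agent.H22.SW.vl (M q.1.1)) (B q.1.1) (V' q.1.1) q.1.2)))
        hV'.up.up (PT.memb PT.last hS.up).not)
      (PT.filter (p := fun (q : (α × List ℕ) × List ℕ) u => !(Pool.Agent.H22.SW.memb u
        (Pool.Agent.H22.SW.sepS (Pool.Agent.H22.SW.vl (M q.1.1)) (B q.1.1) (V' q.1.1) q.1.2)) &&
        Pool.Agent.H22.SW.memb u q.2)
        hV'.up.up ((PT.memb PT.last hS.up).not.and (PT.memb PT.last PT.last.up)))))))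

theorem PT.bd1 {V W' S A : α → List ℕ} (hV : PT V) (hW : PT W') (hS : PT S) (hA : PT A) :
    PT fun x => bd1 (V x) (W' x) (S x) (A x) :=
  PT.filter (p := fun x u => Pool.Agent.H22.SW.memb u (S x) || (Pool.Agent.H22.SW.memb u (W' x) &&
    Pool.Agent.H22.SW.memb u (A x))) hV
    ((PT.memb PT.last hS.up).or ((PT.memb PT.last hW.up).and (PT.memb PT.last hA.up)))

theorem PT.bd2 {V W' S A : α → List ℕ} (hV : PT V) (hW : PT W') (hS : PT S) (hA : PT A) :
    PT fun x => bd2 (V x) (W' x) (S x) (A x) :=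
  PT.filter (p := fun x u => Pool.Agent.H22.SW.memb u (S x) || (Pool.Agent.H22.SW.memb u (W' x) &&
    !(Pool.Agent.H22.SW.memb u (A x)))) hV
    ((PT.memb PT.last hS.up).or ((PT.memb PT.last hW.up).and (PT.memb PT.last hA.up).not))

theorem PT.antb {M : α → List (List Bool)} {V' S A : α → List ℕ} (hM : PT M) (hV' : PT V')
    (hS : PT S) (hA : PT A) : PT fun x => antb (M x) (V' x) (S x) (A x) :=
  PT.all (p := fun x a => (V' x).all fun b => (Pool.Agent.H22.SW.memb a (S x) ||
    Pool.Agent.H22.SW.memb b (S x)) || (Pool.Agent.H22.SW.memb b (A x) ||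
      !(Pool.Agent.H22.SW.adjb (M x) a b))) hA
    (PT.all (p := fun (q : α × ℕ) b => (Pool.Agent.H22.SW.memb q.2 (S q.1) ||
    Pool.Agent.H22.SW.memb b (S q.1)) || (Pool.Agent.H22.SW.memb b (A q.1) ||
      !(Pool.Agent.H22.SW.adjb (M q.1) q.2 b))) hV'.up
      (((PT.memb PT.last.up hS.up.up).or (PT.memb PT.last hS.up.up)).or
        ((PT.memb PT.last hA.up.up).or (PT.adjb hM.up.up PT.last.up PT.last).not)))

theorem PT.okb {M : α → List (List Bool)} {L : α → List (List ℕ)} {w : α → ℕ}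
    {W' V' : α → List ℕ} {p : α → List ℕ × List ℕ} (hM : PT M) (hL : PT L) (hw : PT w)
    (hW' : PT W') (hV' : PT V') (hp : PT p) :
    PT fun x => okb (M x) (L x) (w x) (W' x) (V' x) (p x) :=
  ((PT.alb hM hL (PT.bd1 (PT.vl hM) hW' hp.fst hp.snd) hw).and
    (PT.alb hM hL (PT.bd2 (PT.vl hM) hW' hp.fst hp.snd) hw)).and
    (PT.antb hM hV' hp.fst hp.snd)

theorem PT.taskT {C W : α → List ℕ} (hC : PT C) (hW : PT W) : PT fun x => taskT (C x) (W x) :=
  PT.cond hC.isNil (PT.const []) ((((PT.const 2).pair (hC.pair hW))).cons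
    (PT.const [((1 : ℕ), ([] : List ℕ), ([] : List ℕ))]))

theorem PT.buildT {V C' W' S A : α → List ℕ} {v : α → ℕ} (hV : PT V) (hv : PT v) (hC : PT C')
    (hW : PT W') (hS : PT S) (hA : PT A) :
    PT fun x => buildT (V x) (v x) (C' x) (W' x) (S x) (A x) :=
  (((PT.const 0).pair ((hv.cons (PT.const [])).pair (PT.const [])))).cons
    (PT.append (PT.taskT (PT.filter (p := fun x u => !(Pool.Agent.H22.SW.memb u (S x)) &&
      Pool.Agent.H22.SW.memb u (A x)) hC ((PT.memb PT.last hS.up).not.and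
        (PT.memb PT.last hA.up))) (PT.bd1 hV hW hS hA))
    (PT.append (PT.taskT (PT.filter (p := fun x u => !(Pool.Agent.H22.SW.memb u (S x)) &&
      !(Pool.Agent.H22.SW.memb u (A x))) hC ((PT.memb PT.last hS.up).not.and
        (PT.memb PT.last hA.up).not)) (PT.bd2 hV hW hS hA))
    (PT.flatMap (f := fun _ s => [((0 : ℕ), [s], ([] : List ℕ)), (1, [], [])])
      (PT.filter (p := fun x u => Pool.Agent.H22.SW.memb u (S x)) hC (PT.memb PT.last hS.up))
      (((PT.const 0).pair ((PT.last.cons (PT.const [])).pair (PT.const []))).cons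
        (PT.const [((1 : ℕ), ([] : List ℕ), ([] : List ℕ))])))))

theorem PT.expT {M : α → List (List Bool)} {L : α → List (List ℕ)} {w : α → ℕ}
    {B : α → List (ℕ × List ℕ)} {t : α → Tok} (hM : PT M) (hL : PT L) (hw : PT w) (hB : PT B)
    (ht : PT t) : PT fun x => expT (M x) (L x) (w x) (B x) (t x) := by
  have ht1 : PT fun x => [t x] := ht.cons (PT.const [])
  -- the candidates
  have hV : PT fun q : α × ℕ × List ℕ => q.2.2 ++ (q.2.1 :: (t q.1).2.2) :=
    PT.append PT.last.snd (PT.last.fst.cons ht.up.snd.snd)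
  have hW : PT fun q : α × ℕ × List ℕ => q.2.1 :: (t q.1).2.2 := PT.last.fst.cons ht.up.snd.snd
  have hF : PT fun q : α × ℕ × List ℕ =>
      (Pool.Agent.H22.SW.cands (M q.1) (L q.1) (B q.1) (q.2.2 ++ (q.2.1 :: (t q.1).2.2))).filter
      fun p => Pool.Agent.H22.SW.okb (M q.1) (L q.1) (w q.1) (q.2.1 :: (t q.1).2.2)
        (q.2.2 ++ (q.2.1 :: (t q.1).2.2)) p :=
    PT.filter (p := fun (q : α × ℕ × List ℕ) p => Pool.Agent.H22.SW.okb (M q.1) (L q.1) (w q.1)
      (q.2.1 :: (t q.1).2.2) (q.2.2 ++ (q.2.1 :: (t q.1).2.2)) p)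
      (PT.cands hM.up hL.up hB.up hV) (PT.okb hM.up.up hL.up.up hw.up.up hW.up hV.up PT.last)
  have hI := PT.caseL (z := fun q : α × ℕ × List ℕ => [t q.1])
    (s := fun (q : α × ℕ × List ℕ) (p : List ℕ × List ℕ) (_ : List (List ℕ × List ℕ)) =>
      Pool.Agent.H22.SW.buildT (Pool.Agent.H22.SW.vl (M q.1)) q.2.1 q.2.2
        (q.2.1 :: (t q.1).2.2) p.1 p.2) hF ht1.up
    (PT.buildT (PT.vl hM.up).up PT.last.fst.up PT.last.snd.up hW.up PT.last.fst.fst
      PT.last.fst.snd)
  have hO := PT.caseL (l := fun x => (t x).2.1) (z := fun x => [t x])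
    (s := fun x v C' =>
      match (Pool.Agent.H22.SW.cands (M x) (L x) (B x) (C' ++ (v :: (t x).2.2))).filter
          fun p => Pool.Agent.H22.SW.okb (M x) (L x) (w x) (v :: (t x).2.2)
            (C' ++ (v :: (t x).2.2)) p with
      | [] => [t x]
      | p :: _ => Pool.Agent.H22.SW.buildT (Pool.Agent.H22.SW.vl (M x)) v C' (v :: (t x).2.2)
          p.1 p.2) ht.snd.fst ht1 (hI.congr fun q => by
        generalize List.filter _ _ = z
        cases z <;> rfl)
  refine (PT.cond (PT.eqb ht.fst (PT.const 2)) hO ht1).congr fun x => ?_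
  unfold Pool.Agent.H22.SW.expT
  split_ifs
  · rcases h : (t x).2.1 with _ | ⟨v, C'⟩
    · rfl
    · simp only
      generalize List.filter _ _ = z
      cases z <;> rfl
  · rfl

end Pool.Agent.H22.SW
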