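import Mathlib
import Pool.Agent.H22.SW.Defs

set_option autoImplicit false

/-!
# Facts on independence numbers
-/

namespace Pool.Agent.H22.SW

open Finset

variable {V : Type} {G : SimpleGraph V}

theorem Ind.mono {I J : Finset V} (h : Ind G J) (hIJ : I ⊆ J) : Ind G I :=
  fun a ha b hb => h a (hIJ ha) b (hIJ hb)

theorem ind_empty : Ind G (∅ : Finset V) := fun a ha => absurd ha (notMem_empty a)

theorem ind_singleton (v : V) : Ind G ({v} : Finset V) := by
  intro a ha b hb
  rw [mem_singleton] at ha hb
  subst ha hb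
  exact G.loopless.irrefl _

theorem card_le_al {X I : Finset V} (hI : I ⊆ X) (hi : Ind G I) : I.card ≤ al G X := by
  classical
  unfold al
  exact le_sup (f := Finset.card) (mem_filter.2 ⟨mem_powerset.2 hI, hi⟩)

theorem al_le_iff {X : Finset V} {c : ℕ} :
    al G X ≤ c ↔ ∀ I ⊆ X, Ind G I → I.card ≤ c := by
  classical
  constructor
  · intro h I hI hi
    exact (card_le_al hI hi).trans h
  · intro h
    unfold al
    refine Finset.sup_le fun I hI => ?_
    rw [mem_filter, mem_powerset] at hI
    exact h I hI.1 hI.2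

theorem exists_al (G : SimpleGraph V) (X : Finset V) :
    ∃ I ⊆ X, Ind G I ∧ I.card = al G X := by
  classical
  have hne : (X.powerset.filter fun I => Ind G I).Nonempty :=
    ⟨∅, mem_filter.2 ⟨empty_mem_powerset _, ind_empty⟩⟩
  obtain ⟨I, hI, h⟩ := exists_mem_eq_sup _ hne Finset.card
  rw [mem_filter, mem_powerset] at hI
  exact ⟨I, hI.1, hI.2, h.symm⟩

theorem al_mono {X Y : Finset V} (h : X ⊆ Y) : al G X ≤ al G Y :=
  al_le_iff.2 fun _ hI hi => card_le_al (hI.trans h) hi

theorem al_empty : al G (∅ : Finset V) = 0 := by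
  have : al G (∅ : Finset V) ≤ 0 := al_le_iff.2 fun I hI _ => by
    rw [subset_empty.1 hI, card_empty]
  omega

theorem al_le_card (X : Finset V) : al G X ≤ X.card :=
  al_le_iff.2 fun _ hI _ => card_le_card hI

theorem al_singleton (v : V) : al G ({v} : Finset V) = 1 := by
  have h1 := al_le_card (G := G) ({v} : Finset V)
  have h2 := card_le_al (G := G) (Subset.refl ({v} : Finset V)) (ind_singleton v)
  rw [card_singleton] at h1 h2
  omega

theorem al_pos {X : Finset V} (h : X.Nonempty) : 0 < al G X := by
  obtain ⟨v, hv⟩ := h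
  have h1 := al_mono (G := G) (singleton_subset_iff.2 hv)
  rw [al_singleton] at h1
  omega

section

variable [DecidableEq V]

theorem al_union_le (X Y : Finset V) : al G (X ∪ Y) ≤ al G X + al G Y := by
  refine al_le_iff.2 fun I hI hi => ?_
  have h1 : I = (I ∩ X) ∪ (I ∩ Y) := by
    rw [← inter_union_distrib_left, inter_eq_left.2 hI]
  calc I.card ≤ (I ∩ X).card + (I ∩ Y).card := by
        conv_lhs => rw [h1]
        exact card_union_le _ _
    _ ≤ _ := add_le_add (card_le_al inter_subset_right (hi.mono inter_subset_left))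
        (card_le_al inter_subset_right (hi.mono inter_subset_left))

theorem al_insert_le (v : V) (X : Finset V) : al G (insert v X) ≤ al G X + 1 := by
  have h := al_union_le (G := G) {v} X
  rw [al_singleton] at h
  rw [insert_eq]
  omega

theorem al_sdiff (X S : Finset V) : al G X ≤ al G (X \ S) + al G S := by
  refine (al_mono ?_).trans (al_union_le _ _)
  intro v hv
  by_cases h : v ∈ S
  · exact mem_union_right _ h
  · exact mem_union_left _ (mem_sdiff.2 ⟨hv, h⟩)

/-- the independence number is additive for disjoint sets without edges between them -/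
theorem al_add_le {X Y Z : Finset V} (hd : Disjoint X Y) (ha : Anti G X Y) (hX : X ⊆ Z)
    (hY : Y ⊆ Z) : al G X + al G Y ≤ al G Z := by
  obtain ⟨I, hI, hIi, hIc⟩ := exists_al G X
  obtain ⟨J, hJ, hJi, hJc⟩ := exists_al G Y
  have hdis : Disjoint I J := disjoint_of_subset_left hI (disjoint_of_subset_right hJ hd)
  rw [← hIc, ← hJc, ← card_union_of_disjoint hdis]
  refine card_le_al (union_subset (hI.trans hX) (hJ.trans hY)) ?_
  intro a ha' b hb'
  rw [mem_union] at ha' hb'
  rcases ha' with h1 | h1 <;> rcases hb' with h2 | h2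
  · exact hIi a h1 b h2
  · exact ha a (hI h1) b (hJ h2)
  · exact fun h => ha b (hI h2) a (hJ h1) h.symm
  · exact hJi a h1 b h2

theorem al_biUnion_le {ι : Type} [DecidableEq ι] (s : Finset ι) (f : ι → Finset V) (c : ℕ)
    (h : ∀ i ∈ s, al G (f i) ≤ c) : al G (s.biUnion f) ≤ s.card * c := by
  induction s using Finset.induction_on with
  | empty => rw [biUnion_empty, al_empty]; exact Nat.zero_le _
  | insert a s ha ih =>
    rw [biUnion_insert, card_insert_of_notMem ha, add_mul, one_mul]
    refine (al_union_le _ _).trans ?_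
    have h1 := h a (mem_insert_self _ _)
    have h2 := ih fun i hi => h i (mem_insert_of_mem hi)
    omega

/-- a maximal independent set dominates -/
theorem exists_dom (G : SimpleGraph V) (X : Finset V) :
    ∃ J ⊆ X, Ind G J ∧ J.card ≤ al G X ∧ ∀ v ∈ X, v ∈ J ∨ ∃ u ∈ J, G.Adj u v := by
  obtain ⟨J, hJ, hJi, hJc⟩ := exists_al G X
  refine ⟨J, hJ, hJi, hJc.le, fun v hv => ?_⟩
  by_contra hcon
  push Not at hcon
  obtain ⟨h1, h2⟩ := hcon
  have h3 : Ind G (insert v J) := by
    intro a ha b hb
    rw [mem_insert] at ha hb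
    rcases ha with rfl | ha <;> rcases hb with rfl | hb
    · exact G.loopless.irrefl _
    · exact fun h => h2 b hb h.symm
    · exact h2 a ha
    · exact hJi a ha b hb
  have h4 := card_le_al (insert_subset hv hJ) h3
  rw [card_insert_of_notMem h1, hJc] at h4
  omega

end

end Pool.Agent.H22.SW
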