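import Mathlib
import Pool.Agent.H22.SW.PTA

set_option autoImplicit false
set_option linter.unusedSectionVars false

/-!
# The expansion rounds and the main function run in polynomial time in the padded input
-/

namespace Pool.Agent.H22.SW

open Pool.Agent.H88.RO Pool.Agent.H88.RO.Tr

variable {α β γ σ δ : Type} [TE α] [TE β] [TE γ] [TE σ] [TE δ]

/-- potential of a token -/
def phi (t : Tok) : ℕ := if t.1 = 2 then max 1 (2 * t.2.1.length - 1) else 1

/-- sum of the potentials -/
def phiS (l : List Tok) : ℕ := (l.map phi).sum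

theorem phiS_nil : phiS [] = 0 := rfl
theorem phiS_cons (t : Tok) (l : List Tok) : phiS (t :: l) = phi t + phiS l := by
  simp [phiS]
theorem phiS_append (l1 l2 : List Tok) : phiS (l1 ++ l2) = phiS l1 + phiS l2 := by
  simp [phiS]

theorem length_le_phiS (l : List Tok) : l.length ≤ phiS l := by
  induction l with
  | nil => exact Nat.zero_le _
  | cons t l ih =>
    rw [phiS_cons, List.length_cons]
    have : 1 ≤ phi t := by
      unfold phi
      split_ifs
      · exact le_max_left _ _
      · exact le_rfl
    omega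

/-- tokens with lists inside `V` -/
def tokOK (V : List ℕ) (t : Tok) : Prop := t.2.1.Sublist V ∧ t.2.2.Sublist V ∧ t.1 ≤ 2

theorem phiS_taskT (C W : List ℕ) : phiS (taskT C W) = 2 * C.length := by
  unfold taskT
  cases C with
  | nil => rfl
  | cons a C =>
    rw [if_neg (by simp), phiS_cons, phiS_cons, phiS_nil]
    unfold phi
    rw [if_pos rfl, if_neg (by decide)]
    simp only [List.length_cons]
    omega

theorem taskT_ok {V C W : List ℕ} (hC : C.Sublist V) (hW : W.Sublist V) :
    ∀ t ∈ taskT C W, tokOK V t := by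
  intro t ht
  unfold taskT at ht
  split_ifs at ht
  · simp at ht
  · simp only [List.mem_cons, List.not_mem_nil, or_false] at ht
    rcases ht with rfl | rfl
    · exact ⟨hC, hW, le_rfl⟩
    · exact ⟨List.nil_sublist _, List.nil_sublist _, by simp⟩

theorem phiS_leaves (l : List ℕ) :
    phiS (l.flatMap fun s => [((0 : ℕ), [s], ([] : List ℕ)), (1, [], [])]) = 2 * l.length := by
  induction l with
  | nil => rfl
  | cons a l ih =>
    rw [List.flatMap_cons, phiS_append, ih, List.length_cons, phiS_cons, phiS_cons, phiS_nil]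
    simp only [phi]
    simp
    omega

theorem three_filter (p q : ℕ → Bool) (l : List ℕ) :
    (l.filter fun u => !(p u) && q u).length + (l.filter fun u => !(p u) && !(q u)).length +
      (l.filter fun u => p u).length = l.length := by
  induction l with
  | nil => rfl
  | cons a l ih =>
    simp only [List.filter_cons, List.length_cons]
    cases p a <;> cases q a <;> simp <;> omega

theorem buildT_inv {V : List ℕ} {v : ℕ} {C' W' S A : List ℕ} (hC : (v :: C').Sublist V) :
    (∀ t ∈ buildT V v C' W' S A, tokOK V t) ∧ phiS (buildT V v C' W' S A) = 2 * C'.length + 1 := by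
  have hC' : C'.Sublist V := (List.sublist_cons_self _ _).trans hC
  have h1 : ([v] : List ℕ).Sublist V := (List.singleton_sublist.2 List.mem_cons_self).trans hC
  constructor
  · intro t ht
    unfold buildT at ht
    simp only [List.mem_cons, List.mem_append, List.mem_flatMap, List.not_mem_nil, or_false] at ht
    rcases ht with rfl | h | h | ⟨s, hs, rfl | rfl⟩
    · exact ⟨h1, List.nil_sublist _, by simp⟩
    · exact taskT_ok (List.filter_sublist.trans hC') List.filter_sublist t h
    · exact taskT_ok (List.filter_sublist.trans hC') List.filter_sublist t h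
    · exact ⟨(List.singleton_sublist.2 (List.mem_filter.1 hs).1).trans hC',
        List.nil_sublist _, by simp⟩
    · exact ⟨List.nil_sublist _, List.nil_sublist _, by simp⟩
  · unfold buildT
    rw [phiS_cons, phiS_append, phiS_append, phiS_taskT, phiS_taskT, phiS_leaves]
    have h2 := three_filter (fun u => memb u S) (fun u => memb u A) C'
    have h3 : phi ((0 : ℕ), [v], ([] : List ℕ)) = 1 := rfl
    rw [h3]
    omega

theorem expT_inv (M : List (List Bool)) (L : List (List ℕ)) (w : ℕ) (B : List (ℕ × List ℕ))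
    (t : Tok) (ht : tokOK (vl M) t) :
    (∀ t' ∈ expT M L w B t, tokOK (vl M) t') ∧ phiS (expT M L w B t) ≤ phi t := by
  have hself : (∀ t' ∈ [t], tokOK (vl M) t') ∧ phiS [t] ≤ phi t := by
    refine ⟨fun t' ht' => ?_, ?_⟩
    · rw [List.mem_singleton] at ht'
      rw [ht']
      exact ht
    · rw [phiS_cons, phiS_nil]
      omega
  unfold expT
  split_ifs with h2
  · split
    · exact hself
    · rename_i v C' hC
      split
      · exact hself
      · rename_i p r hp
        have h3 := ht.1
        rw [hC] at h3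
        have h4 := buildT_inv (W' := v :: t.2.2) (S := p.1) (A := p.2) h3
        refine ⟨h4.1, h4.2.le.trans ?_⟩
        unfold phi
        have h5 : t.1 = 2 := by simpa using h2
        rw [if_pos h5, hC, List.length_cons]
        omega
  · exact hself

theorem flatMap_expT_inv (M : List (List Bool)) (L : List (List ℕ)) (w : ℕ)
    (B : List (ℕ × List ℕ)) (l : List Tok) (hl : ∀ t ∈ l, tokOK (vl M) t) :
    (∀ t ∈ (l.flatMap fun a => expT M L w B a), tokOK (vl M) t) ∧
      phiS (l.flatMap fun a => expT M L w B a) ≤ phiS l := by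
  induction l with
  | nil => exact ⟨fun t ht => by simp at ht, le_rfl⟩
  | cons a l ih =>
    have h1 := expT_inv M L w B a (hl a List.mem_cons_self)
    have h2 := ih fun t ht => hl t (List.mem_cons_of_mem _ ht)
    rw [List.flatMap_cons]
    refine ⟨fun t ht => ?_, ?_⟩
    · rcases List.mem_append.1 ht with h | h
      · exact h1.1 t h
      · exact h2.1 t h
    · rw [phiS_append, phiS_cons]
      exact add_le_add h1.2 h2.2

theorem roundT_inv (M : List (List Bool)) (L : List (List ℕ)) (w : ℕ)
    (B : List (ℕ × List ℕ)) (n : ℕ) (l : List Tok) (hl : ∀ t ∈ l, tokOK (vl M) t) :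
    (∀ t ∈ roundT M L w B n l, tokOK (vl M) t) ∧ phiS (roundT M L w B n l) ≤ phiS l := by
  unfold roundT
  induction n with
  | zero => exact ⟨hl, le_rfl⟩
  | succ n ih =>
    rw [Function.iterate_succ_apply']
    have h1 := flatMap_expT_inv M L w B _ ih.1
    exact ⟨h1.1, h1.2.trans ih.2⟩

theorem sz_tokOK {V : List ℕ} {t : Tok} (h : tokOK V t) : sz t ≤ 2 * sz V + 7 := by
  obtain ⟨h1, h2, h3⟩ := h
  have h4 : sz t = sz t.1 + (sz t.2.1 + sz t.2.2 + 1) + 1 := rfl
  have h5 := sz_sublist h1
  have h6 := sz_sublist h2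
  rw [h4, sz_nat]
  omega

theorem start_ok (V : List ℕ) : (∀ t ∈ [((2 : ℕ), V, ([] : List ℕ))], tokOK V t) ∧
    phiS [((2 : ℕ), V, ([] : List ℕ))] ≤ 2 * V.length + 1 := by
  refine ⟨fun t ht => ?_, ?_⟩
  · rw [List.mem_singleton] at ht
    rw [ht]
    exact ⟨List.Sublist.refl _, List.nil_sublist _, le_rfl⟩
  · rw [phiS_cons, phiS_nil]
    unfold phi
    rw [if_pos rfl]
    simp only
    omega

theorem PT.roundT {M : α → List (List Bool)} {L : α → List (List ℕ)} {w : α → ℕ}
    {B : α → List (ℕ × List ℕ)} (hM : PT M) (hL : PT L) (hw : PT w) (hB : PT B) :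
    PT fun x => roundT (M x) (L x) (w x) (B x) (M x).length
      [(2, Pool.Agent.H22.SW.vl (M x), [])] := by
  have hV := PT.vl hM
  have hbV := hV.size_bound
  refine PT.iter (N := fun x => (M x).length) (z := fun x =>
    [((2 : ℕ), Pool.Agent.H22.SW.vl (M x), ([] : List ℕ))])
    (f := fun x (l : List Tok) => l.flatMap fun a =>
      Pool.Agent.H22.SW.expT (M x) (L x) (w x) (B x) a) hM.length
    (((PT.const 2).pair (hV.pair (PT.const []))).cons (PT.const []))
    (PT.flatMap (f := fun (q : α × List Tok) a =>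
      Pool.Agent.H22.SW.expT (M q.1) (L q.1) (w q.1) (B q.1) a) PT.last
      (PT.expT hM.up.up hL.up.up hw.up.up hB.up.up PT.last))
    (b := fun x => (2 * sz (Pool.Agent.H22.SW.vl (M x)) + 1) *
      (2 * sz (Pool.Agent.H22.SW.vl (M x)) + 7 + 1) + 1)
    (((((PB.const 2).mul hbV).add (PB.const 1)).mul ((((PB.const 2).mul hbV).add
      (PB.const 7)).add (PB.const 1))).add (PB.const 1)) (fun x i _ => ?_)
  have h0 := start_ok (Pool.Agent.H22.SW.vl (M x))
  have h1 := roundT_inv (M x) (L x) (w x) (B x) i _ h0.1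
  have h2 := sz_le_of (b := 2 * sz (Pool.Agent.H22.SW.vl (M x)) + 7) fun t ht =>
    sz_tokOK (h1.1 t ht)
  refine h2.trans (Nat.add_le_add_right (Nat.mul_le_mul_right _ ?_) _)
  have h3 := length_le_phiS (Pool.Agent.H22.SW.roundT (M x) (L x) (w x) (B x) i
    [(2, Pool.Agent.H22.SW.vl (M x), [])])
  have h4 := length_le_sz (Pool.Agent.H22.SW.vl (M x))
  omega

theorem PT.encLf {v : α → ℕ} (hv : PT v) : PT fun x => encLf (v x) :=
  (PT.ofFP (F := fun v => node leaf v) (FP.node' FP.leaf' FP.id')
    (f := fun n : ℕ => Pool.Agent.H22.SW.encLf n) fun _ => rfl).comp hv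

theorem PT.encNd {a b : α → Tr} (ha : PT a) (hb : PT b) : PT fun x => encNd (a x) (b x) :=
  (PT.ofFP (F := fun v => node (node leaf leaf) v) (FP.node' (FP.const' _) FP.id')
    (f := fun p : Tr × Tr => Pool.Agent.H22.SW.encNd p.1 p.2) fun _ => rfl).comp (ha.pair hb)

theorem sz_evStep (st : List Tr) (t : Tok) : sz (evStep st t) ≤ sz st + sz t + 10 := by
  unfold evStep
  split_ifs
  · rw [sz_cons]
    have h1 : sz (encLf (t.2.1.headD 0)) = 1 + sz (t.2.1.headD 0) + 1 := rfl
    have h2 : sz (t.2.1.headD 0) ≤ sz t.2.1 + 1 := by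
      rcases t.2.1 with _ | ⟨a, l⟩
      · decide
      · rw [List.headD_cons, sz_cons]
        omega
    have h4 : sz t = sz t.1 + (sz t.2.1 + sz t.2.2 + 1) + 1 := rfl
    rw [h1]
    omega
  · rw [sz_cons]
    have h1 : ∀ a b : Tr, sz (encNd a b) = 3 + (sz a + sz b + 1) + 1 := fun _ _ => rfl
    rw [h1]
    rcases st with _ | ⟨a, _ | ⟨b, l⟩⟩
    · simp only [List.tail_nil, List.headD_nil]
      have h2 : sz (leaf : Tr) = 1 := rfl
      rw [h2, sz_nil]
      omega
    · simp only [List.tail_cons, List.tail_nil, List.headD_nil, List.headD_cons]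
      have h2 : sz (leaf : Tr) = 1 := rfl
      rw [h2, sz_nil, sz_cons, sz_nil]
      omega
    · simp only [List.tail_cons, List.headD_cons, sz_cons]
      omega

theorem sz_evFold (l : List Tok) (st : List Tr) :
    sz (l.foldl evStep st) ≤ sz st + 11 * sz l := by
  induction l generalizing st with
  | nil =>
    rw [List.foldl_nil]
    omega
  | cons a l ih =>
    rw [List.foldl_cons]
    have h1 := ih (evStep st a)
    have h2 := sz_evStep st a
    have h3 := sz_pos a
    rw [sz_cons]
    omega

theorem PT.evStep : PT fun p : α × List Tr × Tok => evStep p.2.1 p.2.2 :=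
  PT.cond (PT.eqb PT.last.snd.fst (PT.const 0))
    ((PT.encLf (PT.headD rfl PT.last.snd.snd.fst)).cons PT.last.fst)
    ((PT.encNd (PT.headD rfl PT.last.fst.tail) (PT.headD rfl PT.last.fst)).cons
      PT.last.fst.tail.tail)

theorem PT.mainT {M : α → List (List Bool)} {L : α → List (List ℕ)} {d w : α → ℕ}
    (hM : PT M) (hL : PT L) (hd : PT d) (hw : PT w) : PT fun x => mainT (M x) (L x) (d x) (w x) := by
  have hR := PT.roundT hM hL hw (PT.ordB hM hL hd)
  have hE := PT.foldl (z := fun _ => ([] : List Tr)) (st := fun _ st t => Pool.Agent.H22.SW.evStep st t)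
    hR (PT.const []) PT.evStep (b := fun x => 1 + 11 * sz (Pool.Agent.H22.SW.roundT (M x) (L x)
      (w x) (Pool.Agent.H22.SW.ordB (M x) (L x) (d x)) (M x).length
      [(2, Pool.Agent.H22.SW.vl (M x), [])]))
    ((PB.const 1).add ((PB.const 11).mul hR.size_bound)) (fun x l1 l2 hl => by
      refine (sz_evFold l1 []).trans ?_
      rw [sz_nil]
      have h1 := sz_sublist (List.sublist_append_left l1 l2)
      rw [← hl] at h1
      omega)
  exact PT.cond (PT.any (p := fun _ (t : Tok) => t.1 == 2) hR (PT.eqb PT.last.fst (PT.const 2)))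
    (PT.const leaf) (PT.headD rfl hE)

end Pool.Agent.H22.SW
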