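import Mathlib
import Pool.Agent.H22.SW.PTM

set_option autoImplicit false
set_option linter.unusedSectionVars false

/-!
# XP bounds: the padding
-/

namespace Pool.Agent.H22.SW

open Pool.Agent.H88.RO Pool.Agent.H88.RO.Tr

variable {α β γ σ δ : Type} [TE α] [TE β] [TE γ] [TE σ] [TE δ]

/-- inputs: square matrices with at least two rows, and a number -/
abbrev Inp : Type := {x : List (List Bool) × ℕ // 2 ≤ x.1.length ∧ ∀ r ∈ x.1, r.length = x.1.length}

/-- number of vertices -/
def nn (i : Inp) : ℕ := i.1.1.length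

/-- the parameter -/
def kk (i : Inp) : ℕ := i.1.2

theorem two_le_nn (i : Inp) : 2 ≤ nn i := i.2.1

/-- bounded by an exponential in the parameter -/
def KB (X : Inp → ℕ) : Prop := ∃ E, ∀ i, X i ≤ E ^ (kk i + 1)

/-- XP-bounded -/
def XB (X : Inp → ℕ) : Prop := ∃ E, ∀ i, X i ≤ nn i ^ (E ^ (kk i + 1))

theorem KB.mono {X Y : Inp → ℕ} (h : KB Y) (hXY : ∀ i, X i ≤ Y i) : KB X := by
  obtain ⟨E, hE⟩ := h
  exact ⟨E, fun i => (hXY i).trans (hE i)⟩

theorem XB.mono {X Y : Inp → ℕ} (h : XB Y) (hXY : ∀ i, X i ≤ Y i) : XB X := by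
  obtain ⟨E, hE⟩ := h
  exact ⟨E, fun i => (hXY i).trans (hE i)⟩

theorem pow_add_le (a b k : ℕ) : a ^ (k + 1) + b ^ (k + 1) ≤ (a + b) ^ (k + 1) := by
  induction k with
  | zero => simp
  | succ k ih =>
    have h1 : (a + b) ^ (k + 1 + 1) = (a + b) ^ (k + 1) * a + (a + b) ^ (k + 1) * b := by ring
    have h2 : a ^ (k + 1 + 1) = a ^ (k + 1) * a := by ring
    have h3 : b ^ (k + 1 + 1) = b ^ (k + 1) * b := by ring
    rw [h1, h2, h3]
    have h4 : a ^ (k + 1) ≤ (a + b) ^ (k + 1) := Nat.pow_le_pow_left (by omega) _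
    have h5 : b ^ (k + 1) ≤ (a + b) ^ (k + 1) := Nat.pow_le_pow_left (by omega) _
    exact add_le_add (Nat.mul_le_mul_right _ h4) (Nat.mul_le_mul_right _ h5)

theorem KB.add {X Y : Inp → ℕ} (hX : KB X) (hY : KB Y) : KB fun i => X i + Y i := by
  obtain ⟨E, hE⟩ := hX
  obtain ⟨F, hF⟩ := hY
  exact ⟨E + F, fun i => (add_le_add (hE i) (hF i)).trans (pow_add_le _ _ _)⟩

theorem KB.mul {X Y : Inp → ℕ} (hX : KB X) (hY : KB Y) : KB fun i => X i * Y i := by
  obtain ⟨E, hE⟩ := hX
  obtain ⟨F, hF⟩ := hY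
  refine ⟨E * F, fun i => (Nat.mul_le_mul (hE i) (hF i)).trans ?_⟩
  rw [mul_pow]

theorem le_self_pow' (a k : ℕ) : a ≤ a ^ (k + 1) := by
  rcases Nat.eq_zero_or_pos a with h | h
  · rw [h]; exact Nat.zero_le _
  · calc a = a ^ 1 := (pow_one a).symm
      _ ≤ a ^ (k + 1) := Nat.pow_le_pow_right h (by omega)

theorem KB.const (a : ℕ) : KB fun _ => a := ⟨a, fun i => le_self_pow' a _⟩

theorem KB.kk : KB fun i => kk i := by
  refine ⟨2, fun i => ?_⟩
  have h : Pool.Agent.H22.SW.kk i + 1 < 2 ^ (Pool.Agent.H22.SW.kk i + 1) := Nat.lt_two_pow_self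
  show Pool.Agent.H22.SW.kk i ≤ _
  omega

theorem KB.pow (D : ℕ) : KB fun i => D ^ (Pool.Agent.H22.SW.kk i + 1) := ⟨D, fun _ => le_rfl⟩

theorem le_pow_nn (i : Inp) (a : ℕ) : a ≤ nn i ^ a :=
  (Nat.lt_pow_self (two_le_nn i)).le

theorem KB.toXB {X : Inp → ℕ} (hX : KB X) : XB X := by
  obtain ⟨E, hE⟩ := hX
  exact ⟨E, fun i => (hE i).trans (le_pow_nn i _)⟩

theorem KB.powXB {X : Inp → ℕ} (hX : KB X) : XB fun i => nn i ^ X i := by
  obtain ⟨E, hE⟩ := hX
  exact ⟨E, fun i => Nat.pow_le_pow_right (by have := two_le_nn i; omega) (hE i)⟩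

theorem XB.mul {X Y : Inp → ℕ} (hX : XB X) (hY : XB Y) : XB fun i => X i * Y i := by
  obtain ⟨E, hE⟩ := hX
  obtain ⟨F, hF⟩ := hY
  refine ⟨E + F, fun i => (Nat.mul_le_mul (hE i) (hF i)).trans ?_⟩
  rw [← pow_add]
  exact Nat.pow_le_pow_right (by have := two_le_nn i; omega) (pow_add_le _ _ _)

theorem XB.const (a : ℕ) : XB fun _ => a := (KB.const a).toXB

theorem XB.add {X Y : Inp → ℕ} (hX : XB X) (hY : XB Y) : XB fun i => X i + Y i := by
  have h1 : XB fun i => (X i + 1) * (Y i + 1) := by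
    have h2 : ∀ {Z : Inp → ℕ}, XB Z → XB fun i => Z i + 1 := by
      intro Z hZ
      obtain ⟨E, hE⟩ := hZ
      have h3 : XB fun i => 2 * nn i ^ (E ^ (kk i + 1)) :=
        XB.mul (XB.const 2) (KB.pow E).powXB
      refine h3.mono fun i => ?_
      have h4 := hE i
      have h5 : 1 ≤ nn i ^ (E ^ (kk i + 1)) := Nat.one_le_pow _ _ (by have := two_le_nn i; omega)
      omega
    exact XB.mul (h2 hX) (h2 hY)
  refine h1.mono fun i => ?_
  have : (X i + 1) * (Y i + 1) = X i * Y i + X i + Y i + 1 := by ring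
  omega

theorem XB.nn : XB fun i => nn i := by
  refine ⟨1, fun i => ?_⟩
  rw [one_pow, pow_one]

theorem XB.eval {X : Inp → ℕ} (q : Polynomial ℕ) (hX : XB X) : XB fun i => q.eval (X i) := by
  induction q using Polynomial.induction_on' with
  | add p q hp hq =>
    simp only [Polynomial.eval_add]
    exact hp.add hq
  | monomial m a =>
    simp only [Polynomial.eval_monomial]
    refine (XB.const a).mul ?_
    induction m with
    | zero => simpa using XB.const 1
    | succ m ih =>
      simp only [pow_succ]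
      exact ih.mul hX

/-- `f` is computable in XP time. -/
def XF (f : Inp → β) : Prop := ∃ (c : Prog) (b : Inp → ℕ), XB b ∧ ∀ i, Ev c (te i.1) (te (f i)) (b i)

theorem XF.size_bound {f : Inp → β} (h : XF f) : XB fun i => sz (f i) := by
  obtain ⟨c, b, hb, hc⟩ := h
  refine ((XB.const 2).mul hb).mono fun i => ?_
  exact (hc i).size_le

theorem sz_inp (i : Inp) : sz i.1 ≤ nn i * (nn i * 4 + 2) + 1 + (2 * kk i + 1) + 1 := by
  have h1 : sz i.1.1 ≤ nn i * (nn i * 4 + 2) + 1 := by
    refine (sz_le_of (b := nn i * 4 + 1) fun r hr => ?_).trans le_rfl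
    refine (sz_le_of (b := 3) fun b _ => sz_bool b).trans ?_
    have h2 : r.length = nn i := i.2.2 r hr
    rw [h2]
  have h2 : sz i.1 = sz i.1.1 + sz i.1.2 + 1 := rfl
  have h3 : sz i.1.2 = 2 * kk i + 1 := sz_nat _
  omega

theorem XB.szInp : XB fun i => sz i.1 := by
  refine XB.mono ?_ sz_inp
  exact (((XB.nn.mul ((XB.nn.mul (XB.const 4)).add (XB.const 2))).add (XB.const 1)).add
    (((XB.const 2).mul KB.kk.toXB).add (XB.const 1))).add (XB.const 1)

theorem XF.inp : XF fun i => i.1 :=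
  ⟨Prog.id, _, XB.szInp.add (XB.const 1), fun i => Ev.id _⟩

theorem PT.xf {g : β → γ} {f : Inp → β} (hg : PT g) (hf : XF f) : XF fun i => g (f i) := by
  have hfb := hf.size_bound
  obtain ⟨c, b, hb, hc⟩ := hf
  obtain ⟨cg, q, hq⟩ := hg
  exact ⟨Prog.comp cg c, _, ((hb.add (XB.eval q hfb)).add XB.szInp).add (XB.const 1),
    fun i => Ev.comp (hc i) (hq (f i))⟩

theorem XF.pair {f : Inp → β} {g : Inp → γ} (hf : XF f) (hg : XF g) : XF fun i => (f i, g i) := by
  obtain ⟨c, b, hb, hc⟩ := hf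
  obtain ⟨c', b', hb', hc'⟩ := hg
  exact ⟨Prog.pair c c', _, ((hb.add hb').add XB.szInp).add (XB.const 1),
    fun i => Ev.pair (hc i) (hc' i)⟩

/-- loops with an XP bound on the accumulator -/
theorem XF.iter {f : Inp → β} {N : β → ℕ} {z : β → σ} {st : β → σ → σ} (hf : XF f) (hN : PT N)
    (hz : PT z) (hs : PT fun p : β × σ => st p.1 p.2) {b : Inp → ℕ} (hb : XB b)
    (h : ∀ i, ∀ j ≤ N (f i), sz ((st (f i))^[j] (z (f i))) ≤ b i) :
    XF fun i => (st (f i))^[N (f i)] (z (f i)) := by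
  have hfb := hf.size_bound
  have hs' : PT fun p : β × σ × Unit => st p.1 p.2.1 := hs.comp (PT.id.fst.pair PT.id.snd.fst)
  have hNu := hN.units
  have hNb : XB fun i => sz (List.replicate (N (f i)) ()) := (PT.xf hNu hf).size_bound
  have hzb : XB fun i => sz (z (f i)) := (PT.xf hz hf).size_bound
  obtain ⟨c, bf, hbf, hc⟩ := hf
  obtain ⟨cl, ql, hql⟩ := hNu
  obtain ⟨cz, qz, hqz⟩ := hz
  obtain ⟨cs, qs, hqs⟩ := hs'
  -- the loop on `β`
  have key : ∀ i, Ev (Prog.comp Prog.snd (Prog.comp (Prog.loop (lbody cs))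
      (Prog.pair cl (Prog.pair Prog.id cz)))) (te (f i)) (te ((st (f i))^[N (f i)] (z (f i))))
      ((((ql.eval (sz (f i)) + ((sz (f i) + 1) + qz.eval (sz (f i)) + sz (f i) + 1) + sz (f i) + 1) +
      ((sz (List.replicate (N (f i)) ()) + 1) *
        (qs.eval (sz (List.replicate (N (f i)) ()) + sz (f i) + b i + 5) +
        30 * (sz (List.replicate (N (f i)) ()) + sz (f i) + b i + 5 + 1))) + sz (f i) + 1)) +
        ((sz (f i) + b i + 1) + 1) + sz (f i) + 1) := by
    intro i
    have hi := h i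
    generalize f i = x at hi ⊢
    have hb' : ∀ l1 l2, List.replicate (N x) () = l1 ++ l2 →
        sz (l1.foldl (fun s (_ : Unit) => st x s) (z x)) ≤ b i := by
      intro l1 l2 hl
      have h2 : l1 = List.replicate l1.length () := List.eq_replicate_of_mem fun _ _ => rfl
      have h3 : l1.length ≤ N x := by
        have := congrArg List.length hl
        rw [List.length_replicate, List.length_append] at this
        omega
      rw [h2, foldl_units]
      exact hi _ h3
    have h1 := loopL (st := fun x s (_ : Unit) => st x s) hqs x (b i)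
      (sz (List.replicate (N x) ()) + sz x + b i + 5) (List.replicate (N x) ()) (z x) hb' le_rfl
    have h2 := h1.mono (Nat.mul_le_mul_right _ (Nat.add_le_add_right
      (length_le_sz (List.replicate (N x) ())) 1))
    have h3 := Ev.comp (Ev.pair (hql x) (Ev.pair (Ev.id (te x)) (hqz x))) h2
    have h4 := Ev.comp h3 (Ev.snd _)
    rw [Tr.snd, foldl_units] at h4
    refine h4.mono ?_
    have h5 := hi (N x) le_rfl
    have h6 : size (node (te x) (te ((st x)^[N x] (z x)))) =
      sz x + sz ((st x)^[N x] (z x)) + 1 := rfl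
    rw [h6]
    simp only [sz] at h5 ⊢
    omega
  refine ⟨Prog.comp (Prog.comp Prog.snd (Prog.comp (Prog.loop (lbody cs))
      (Prog.pair cl (Prog.pair Prog.id cz)))) c, _, ?_, fun i => Ev.comp (hc i) (key i)⟩
  have e1 := XB.eval ql hfb
  have e2 := XB.eval qz hfb
  have e3 : XB fun i => sz (List.replicate (N (f i)) ()) + sz (f i) + b i + 5 :=
    ((hNb.add hfb).add hb).add (XB.const 5)
  have e4 := XB.eval qs e3
  exact ((hbf.add ((((((e1.add ((((hfb.add (XB.const 1)).add e2).add hfb).add (XB.const 1))).add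
    hfb).add (XB.const 1)).add ((hNb.add (XB.const 1)).mul (e4.add ((XB.const 30).mul
      (e3.add (XB.const 1)))))).add hfb).add (XB.const 1) |>.add
      (((hfb.add hb).add (XB.const 1)).add (XB.const 1)) |>.add hfb |>.add (XB.const 1))).add
      XB.szInp).add (XB.const 1)

/-! ### the list of all short lists -/

/-- one more vertex -/
def padS (V : List ℕ) (L : List (List ℕ)) : List (List ℕ) :=
  [] :: L.flatMap fun l => V.map fun v => v :: l

/-- all lists of length at most `j` -/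
def padL (V : List ℕ) (j : ℕ) : List (List ℕ) := (padS V)^[j] [[]]

theorem mem_padL {V : List ℕ} {j : ℕ} : ∀ {l : List ℕ},
    l ∈ padL V j ↔ l.length ≤ j ∧ ∀ u ∈ l, u ∈ V := by
  unfold padL
  induction j with
  | zero =>
    intro l
    simp only [Function.iterate_zero, id, List.mem_singleton, Nat.le_zero, List.length_eq_zero_iff]
    constructor
    · rintro rfl
      exact ⟨rfl, fun u hu => absurd hu List.not_mem_nil⟩
    · exact fun h => h.1
  | succ j ih =>
    intro l
    rw [Function.iterate_succ_apply']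
    unfold padS
    simp only [List.mem_cons, List.mem_flatMap, List.mem_map]
    constructor
    · rintro (rfl | ⟨l', hl', v, hv, rfl⟩)
      · exact ⟨Nat.zero_le _, fun u hu => absurd hu List.not_mem_nil⟩
      · have h1 := ih.1 hl'
        refine ⟨by rw [List.length_cons]; omega, fun u hu => ?_⟩
        rcases List.mem_cons.1 hu with rfl | h
        · exact hv
        · exact h1.2 u h
    · rintro ⟨h1, h2⟩
      rcases l with _ | ⟨v, l⟩
      · exact Or.inl rfl
      · refine Or.inr ⟨l, ih.2 ⟨?_, fun u hu => h2 u (List.mem_cons_of_mem _ hu)⟩, v,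
          h2 v List.mem_cons_self, rfl⟩
        rw [List.length_cons] at h1
        omega

theorem length_padL (V : List ℕ) (j : ℕ) : (padL V j).length ≤ (V.length + 1) ^ j := by
  unfold padL
  induction j with
  | zero => simp
  | succ j ih =>
    rw [Function.iterate_succ_apply']
    unfold padS at ih ⊢
    rw [List.length_cons, List.length_flatMap]
    simp only [List.length_map]
    rw [List.map_const', List.sum_replicate, smul_eq_mul, pow_succ]
    have h1 : 1 ≤ (V.length + 1) ^ j := Nat.one_le_pow _ _ (by omega)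
    have h2 := Nat.mul_le_mul_right V.length ih
    have h3 : (V.length + 1) ^ j * (V.length + 1) =
      (V.length + 1) ^ j * V.length + (V.length + 1) ^ j := by ring
    omega

theorem sz_padL (V : List ℕ) (b j : ℕ) (hb : ∀ v ∈ V, sz v ≤ b) :
    sz (padL V j) ≤ (V.length + 1) ^ j * (j * (b + 1) + 2) + 1 := by
  refine (sz_le_of (b := j * (b + 1) + 1) fun l hl => ?_).trans ?_
  · have h1 := mem_padL.1 hl
    refine (sz_le_of (b := b) fun v hv => hb v (h1.2 v hv)).trans ?_
    exact Nat.add_le_add_right (Nat.mul_le_mul_right _ h1.1) _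
  · exact Nat.add_le_add_right (Nat.mul_le_mul_right _ (length_padL V j)) _

theorem PT.padS {V : α → List ℕ} {L : α → List (List ℕ)} (hV : PT V) (hL : PT L) :
    PT fun x => padS (V x) (L x) :=
  (PT.const ([] : List ℕ)).cons (PT.flatMap (f := fun x (l : List ℕ) => (V x).map fun v => v :: l)
    hL (PT.map (f := fun (q : α × List ℕ) v => v :: q.2) hV.up (PT.last.cons PT.last.up)))

theorem XF.congr {f g : Inp → β} (h : XF f) (he : ∀ i, f i = g i) : XF g := by
  have : f = g := funext he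
  rw [← this]
  exact h

/-- the bound for the independence number of the boundary -/
def wc (c : ℕ) : ℕ := 9 * c ^ 2 + 3 * c + 2

theorem mul_iter (D j s : ℕ) : (fun s : ℕ => D * s)^[j] s = D ^ j * s := by
  induction j generalizing s with
  | zero => simp
  | succ j ih => rw [Function.iterate_succ_apply, ih]; ring

theorem xf_pow (D : ℕ) : XF fun i => D ^ (i.1.2 + 1) := by
  have h2 := XF.iter (f := fun i => i.1) (N := fun x : List (List Bool) × ℕ => x.2 + 1)
    (z := fun _ => (1 : ℕ)) (st := fun _ s => D * s) XF.inp PT.id.snd.succ (PT.const 1)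
    (PT.mul (PT.const D) PT.id.snd) (b := fun i => 2 * (D ^ (kk i + 1) + 1) + 1)
    (((XB.const 2).mul ((KB.pow D).toXB.add (XB.const 1))).add (XB.const 1)) (fun i j hj => by
      rw [mul_iter, mul_one, sz_nat]
      rcases Nat.eq_zero_or_pos D with h | h
      · subst h
        have : 0 ^ j ≤ 1 := by
          rcases Nat.eq_zero_or_pos j with hj0 | hj0
          · rw [hj0, pow_zero]
          · rw [zero_pow (by omega)]
            exact Nat.zero_le _
        omega
      · have : D ^ j ≤ D ^ (kk i + 1) := Nat.pow_le_pow_right h hj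
        omega)
  refine h2.congr fun i => ?_
  rw [mul_iter, mul_one]

theorem PT.wc {f : α → ℕ} (hf : PT f) : PT fun x => wc (f x) := by
  refine (((((PT.const 9).mul (hf.mul hf)).add ((PT.const 3).mul hf))).add
    (PT.const 2)).congr fun p => ?_
  unfold Pool.Agent.H22.SW.wc
  ring

theorem KB.wc (D : ℕ) : KB fun i => wc (D ^ (Pool.Agent.H22.SW.kk i + 1)) := by
  refine KB.mono ((((KB.const 9).mul ((KB.pow D).mul (KB.pow D))).add
    ((KB.const 3).mul (KB.pow D))).add (KB.const 2)) fun i => ?_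
  unfold Pool.Agent.H22.SW.wc
  rw [pow_two]

theorem XF.main {M : Inp → List (List Bool)} {L : Inp → List (List ℕ)} {d w : Inp → ℕ}
    (hM : XF M) (hL : XF L) (hd : XF d) (hw : XF w) :
    XF fun i => mainT (M i) (L i) (d i) (w i) := by
  have hg : PT fun p : List (List Bool) × List (List ℕ) × ℕ × ℕ =>
      mainT p.1 p.2.1 p.2.2.1 p.2.2.2 :=
    PT.mainT PT.id.fst PT.id.snd.fst PT.id.snd.snd.fst PT.id.snd.snd.snd
  have h := hg.xf (hM.pair (hL.pair (hd.pair hw)))
  exact h

theorem XF.padL {M : Inp → List (List Bool)} {N : Inp → ℕ} (hM : XF M) (hN : XF N) {b : Inp → ℕ}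
    (hb : XB b) (h : ∀ i, ∀ j ≤ N i, sz (padL (vl (M i)) j) ≤ b i) :
    XF fun i => padL (vl (M i)) (N i) :=
  XF.iter (N := fun x : List (List Bool) × ℕ => x.2) (z := fun _ => [([] : List ℕ)])
    (st := fun x L => padS (vl x.1) L) (hM.pair hN) PT.id.snd (PT.const _)
    (PT.padS (PT.vl PT.id.fst.fst) PT.id.snd) hb h

theorem xf_pad (D : ℕ) : XF fun i => Pool.Agent.H22.SW.padL (vl i.1.1) (wc (D ^ (i.1.2 + 1)) + 1) := by
  have hM : XF fun i => i.1.1 := PT.xf PT.fst0 XF.inp
  have hN : XF fun i => wc (D ^ (i.1.2 + 1)) + 1 :=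
    PT.xf (g := fun c => wc c + 1) (PT.wc PT.id).succ (xf_pow D)
  refine XF.padL hM hN (b := fun i => (nn i ^ (2 * (wc (D ^ (kk i + 1)) + 1))) *
    ((wc (D ^ (kk i + 1)) + 1) * (2 * nn i + 1 + 1) + 2) + 1)
    (((KB.powXB ((KB.const 2).mul ((KB.wc D).add (KB.const 1)))).mul
      ((((KB.wc D).add (KB.const 1)).toXB.mul ((((XB.const 2).mul XB.nn).add
      (XB.const 1)).add (XB.const 1))).add (XB.const 2))).add (XB.const 1)) ?_
  intro i j hj
  have hj' : j ≤ wc (D ^ (kk i + 1)) + 1 := hj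
  generalize wc (D ^ (kk i + 1)) + 1 = Q at hj'
  have h6 := sz_padL (vl i.1.1) (2 * nn i + 1) j (fun v hv => by
    rw [sz_nat]
    have : v < i.1.1.length := List.mem_range.1 hv
    unfold nn
    omega)
  have h7 : (vl i.1.1).length = nn i := by
    unfold vl nn
    rw [List.length_range]
  rw [h7] at h6
  refine h6.trans ?_
  have h8 : (nn i + 1) ^ j ≤ nn i ^ (2 * Q) := by
    have h9 : nn i + 1 ≤ nn i ^ 2 := by
      have := two_le_nn i
      nlinarith
    calc (nn i + 1) ^ j ≤ (nn i ^ 2) ^ j := Nat.pow_le_pow_left h9 _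
      _ = nn i ^ (2 * j) := by rw [pow_mul]
      _ ≤ _ := Nat.pow_le_pow_right (by have := two_le_nn i; omega)
        (Nat.mul_le_mul_left 2 hj')
  refine Nat.add_le_add_right (Nat.mul_le_mul h8 ?_) _
  exact Nat.add_le_add_right (Nat.mul_le_mul_right _ hj') _

/-- **The program.**  For a matrix `M` and a number `k`, with `c = D ^ (k + 1)`, it computes the
result of the main function with the numbers `3 c` and `9 c ^ 2 + 3 c + 2`. -/
theorem xp_program (D : ℕ) : XF fun i => mainT i.1.1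
    (Pool.Agent.H22.SW.padL (vl i.1.1) (wc (D ^ (i.1.2 + 1)) + 1)) (3 * D ^ (i.1.2 + 1))
    (wc (D ^ (i.1.2 + 1))) := by
  have hM : XF fun i => i.1.1 := PT.xf PT.fst0 XF.inp
  have hd : XF fun i => 3 * D ^ (i.1.2 + 1) :=
    PT.xf (g := fun c => 3 * c) (PT.mul (PT.const 3) PT.id) (xf_pow D)
  have hw : XF fun i => wc (D ^ (i.1.2 + 1)) :=
    PT.xf (g := fun c => wc c) (PT.wc PT.id) (xf_pow D)
  exact XF.main hM (xf_pad D) hd hw

end Pool.Agent.H22.SW
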