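import Mathlib
import Pool.Agent.H22.SW.Alg
import Pool.Agent.H22.SW.Al
import Pool.Agent.H22.SW.XP

set_option autoImplicit false

/-!
# Correctness of the tests
-/

namespace Pool.Agent.H22.SW

open Finset

theorem memb_iff {u : ℕ} {l : List ℕ} : memb u l = true ↔ u ∈ l := by
  unfold memb
  rw [List.any_eq_true]
  constructor
  · rintro ⟨v, hv, h⟩
    rw [beq_iff_eq] at h
    rw [← h]
    exact hv
  · intro h
    exact ⟨u, h, by simp⟩

theorem not_memb_iff {u : ℕ} {l : List ℕ} : (!(memb u l)) = true ↔ u ∉ l := by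
  rw [← memb_iff]
  simp

theorem ndb_iff {l : List ℕ} : ndb l = true ↔ l.Nodup := by
  unfold ndb
  rw [List.all_eq_true, List.nodup_iff_count_le_one]
  constructor
  · intro h a
    by_cases ha : a ∈ l
    · have h1 := h a ha
      rw [beq_iff_eq] at h1
      rw [List.count_eq_length_filter]
      exact h1.le
    · rw [List.count_eq_zero_of_not_mem ha]
      omega
  · intro h a ha
    have h1 := h a
    have h2 := List.count_pos_iff.2 ha
    rw [beq_iff_eq, ← List.count_eq_length_filter]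
    omega

theorem subb_iff {l X : List ℕ} : subb l X = true ↔ ∀ a ∈ l, a ∈ X := by
  unfold subb
  rw [List.all_eq_true]
  simp only [memb_iff]

/-- the data of the correctness proof: the matrix describes the graph on the vertices -/
structure Ctx (G : SimpleGraph ℕ) (M : List (List Bool)) (L : List (List ℕ)) (Q : ℕ) : Prop where
  adj : ∀ u ∈ vl M, ∀ v ∈ vl M, adjb M u v = true ↔ G.Adj u v
  pad : ∀ l : List ℕ, l ∈ L ↔ l.length ≤ Q ∧ ∀ u ∈ l, u ∈ vl M

variable {G : SimpleGraph ℕ} {M : List (List Bool)} {L : List (List ℕ)} {Q : ℕ}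

theorem indb_iff (h : Ctx G M L Q) {l : List ℕ} (hl : ∀ u ∈ l, u ∈ vl M) :
    indb M l = true ↔ ∀ a ∈ l, ∀ b ∈ l, ¬ G.Adj a b := by
  unfold indb
  rw [List.all_eq_true]
  refine forall₂_congr fun a ha => ?_
  rw [List.all_eq_true]
  refine forall₂_congr fun b hb => ?_
  rw [← h.adj a (hl a ha) b (hl b hb)]
  simp

theorem alb_iff (h : Ctx G M L Q) {X : List ℕ} (hX : ∀ u ∈ X, u ∈ vl M) {j : ℕ} (hj : j + 1 ≤ Q) :
    alb M L X j = true ↔ al G X.toFinset ≤ j := by
  have key : (L.any fun l => (l.length == j + 1) && (ndb l && (subb l X && indb M l))) = true ↔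
      j < al G X.toFinset := by
    rw [List.any_eq_true]
    constructor
    · rintro ⟨l, hl, h1⟩
      simp only [Bool.and_eq_true, beq_iff_eq, ndb_iff, subb_iff] at h1
      obtain ⟨h2, h3, h4, h5⟩ := h1
      rw [indb_iff h fun u hu => hX u (h4 u hu)] at h5
      have h6 : l.toFinset.card = j + 1 := by
        rw [List.toFinset_card_of_nodup h3, h2]
      have h7 := card_le_al (G := G) (X := X.toFinset) (I := l.toFinset)
        (fun u hu => List.mem_toFinset.2 (h4 u (List.mem_toFinset.1 hu)))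
        (fun a ha b hb => h5 a (List.mem_toFinset.1 ha) b (List.mem_toFinset.1 hb))
      omega
    · intro h1
      obtain ⟨I, hI, hIi, hIc⟩ := exists_al G X.toFinset
      obtain ⟨J, hJ, hJc⟩ := exists_subset_card_eq (s := I) (n := j + 1) (by omega)
      have hJX : ∀ u ∈ J.toList, u ∈ X := fun u hu =>
        List.mem_toFinset.1 (hI (hJ (mem_toList.1 hu)))
      refine ⟨J.toList, (h.pad _).2 ⟨?_, fun u hu => hX u (hJX u hu)⟩, ?_⟩
      · rw [length_toList, hJc]
        exact hj
      · simp only [Bool.and_eq_true, beq_iff_eq, ndb_iff, subb_iff]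
        refine ⟨by rw [length_toList, hJc], nodup_toList J, hJX, ?_⟩
        rw [indb_iff h fun u hu => hX u (hJX u hu)]
        intro a ha b hb
        exact hIi a (hJ (mem_toList.1 ha)) b (hJ (mem_toList.1 hb))
  unfold alb
  rw [Bool.not_eq_true', ← Bool.not_eq_true, key]
  omega

theorem nodup_vl (M : List (List Bool)) : (vl M).Nodup := List.nodup_range

/-! ### the closure -/

/-- one closure step -/
def rstep (M : List (List Bool)) (Y Z : List ℕ) : List ℕ :=
  Y.filter fun u => memb u Z || (Z.any fun v => adjb M v u)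

theorem reach_eq (M : List (List Bool)) (Y X : List ℕ) :
    reach M Y X = (rstep M Y)^[Y.length] X := rfl

theorem mem_rstep (h : Ctx G M L Q) {Y Z : List ℕ} (hY : ∀ u ∈ Y, u ∈ vl M)
    (hZ : ∀ u ∈ Z, u ∈ Y) {u : ℕ} : u ∈ rstep M Y Z ↔ u ∈ Y ∧ (u ∈ Z ∨ ∃ v ∈ Z, G.Adj v u) := by
  unfold rstep
  rw [List.mem_filter]
  refine and_congr_right fun hu => ?_
  rw [Bool.or_eq_true, memb_iff, List.any_eq_true]
  refine or_congr Iff.rfl ?_
  refine exists_congr fun v => and_congr_right fun hv => ?_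
  exact h.adj v (hY v (hZ v hv)) u (hY u hu)

theorem iter_sub {Y X : List ℕ} (hX : ∀ u ∈ X, u ∈ Y) (i : ℕ) :
    ∀ u ∈ (rstep M Y)^[i] X, u ∈ Y := by
  cases i with
  | zero => exact hX
  | succ i =>
    rw [Function.iterate_succ_apply']
    intro u hu
    exact (List.mem_filter.1 hu).1

theorem reach_sub {Y X : List ℕ} (hX : ∀ u ∈ X, u ∈ Y) : ∀ u ∈ reach M Y X, u ∈ Y := by
  rw [reach_eq]
  exact iter_sub hX _

theorem iter_mono (h : Ctx G M L Q) {Y X : List ℕ} (hY : ∀ u ∈ Y, u ∈ vl M)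
    (hX : ∀ u ∈ X, u ∈ Y) (i : ℕ) : ∀ u ∈ X, u ∈ (rstep M Y)^[i] X := by
  induction i with
  | zero => exact fun u hu => hu
  | succ i ih =>
    intro u hu
    rw [Function.iterate_succ_apply', mem_rstep h hY (iter_sub hX i)]
    exact ⟨hX u hu, Or.inl (ih u hu)⟩

theorem sub_reach (h : Ctx G M L Q) {Y X : List ℕ} (hY : ∀ u ∈ Y, u ∈ vl M)
    (hX : ∀ u ∈ X, u ∈ Y) : ∀ u ∈ X, u ∈ reach M Y X := by
  rw [reach_eq]
  exact iter_mono h hY hX _

theorem reach_min (h : Ctx G M L Q) {Y X : List ℕ} (hY : ∀ u ∈ Y, u ∈ vl M)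
    (hX : ∀ u ∈ X, u ∈ Y) (A : Set ℕ) (hXA : ∀ u ∈ X, u ∈ A)
    (hA : ∀ v ∈ A, ∀ u ∈ Y, G.Adj v u → u ∈ A) : ∀ u ∈ reach M Y X, u ∈ A := by
  rw [reach_eq]
  have : ∀ i, ∀ u ∈ (rstep M Y)^[i] X, u ∈ A := by
    intro i
    induction i with
    | zero => exact hXA
    | succ i ih =>
      intro u hu
      rw [Function.iterate_succ_apply', mem_rstep h hY (iter_sub hX i)] at hu
      rcases hu.2 with h1 | ⟨v, hv, h1⟩
      · exact ih u h1
      · exact hA v (ih v hv) u hu.1 h1
  exact this _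

theorem reach_closed (h : Ctx G M L Q) {Y X : List ℕ} (hY : ∀ u ∈ Y, u ∈ vl M)
    (hX : ∀ u ∈ X, u ∈ Y) : ∀ v ∈ reach M Y X, ∀ u ∈ Y, G.Adj v u → u ∈ reach M Y X := by
  rw [reach_eq]
  have key : ∀ i, (∀ v ∈ (rstep M Y)^[i] X, ∀ u ∈ Y, G.Adj v u → u ∈ (rstep M Y)^[i] X) ∨
      i ≤ ((rstep M Y)^[i] X).toFinset.card := by
    intro i
    induction i with
    | zero => exact Or.inr (Nat.zero_le _)
    | succ i ih =>
      by_cases hc : ∀ v ∈ (rstep M Y)^[i] X, ∀ u ∈ Y, G.Adj v u → u ∈ (rstep M Y)^[i] X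
      · left
        have h1 : ∀ u, u ∈ (rstep M Y)^[i + 1] X ↔ u ∈ (rstep M Y)^[i] X := by
          intro u
          rw [Function.iterate_succ_apply', mem_rstep h hY (iter_sub hX i)]
          constructor
          · rintro ⟨h1, h2 | ⟨v, hv, h2⟩⟩
            · exact h2
            · exact hc v hv u h1 h2
          · exact fun h1 => ⟨iter_sub hX i u h1, Or.inl h1⟩
        intro v hv u hu huv
        rw [h1] at hv ⊢
        exact hc v hv u hu huv
      · right
        have h1 := ih.resolve_left hc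
        push Not at hc
        obtain ⟨v, hv, u, hu, huv, hun⟩ := hc
        have h2 : insert u ((rstep M Y)^[i] X).toFinset ⊆ ((rstep M Y)^[i + 1] X).toFinset := by
          intro x hx
          rw [List.mem_toFinset, Function.iterate_succ_apply', mem_rstep h hY (iter_sub hX i)]
          rcases mem_insert.1 hx with rfl | hx
          · exact ⟨hu, Or.inr ⟨v, hv, huv⟩⟩
          · rw [List.mem_toFinset] at hx
            exact ⟨iter_sub hX i x hx, Or.inl hx⟩
        have h3 := card_le_card h2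
        rw [card_insert_of_notMem (by rwa [List.mem_toFinset])] at h3
        omega
  rcases key Y.length with h1 | h1
  · exact h1
  · intro v _ u hu _
    have h2 : ((rstep M Y)^[Y.length] X).toFinset ⊆ Y.toFinset := fun x hx =>
      List.mem_toFinset.2 (iter_sub hX _ x (List.mem_toFinset.1 hx))
    have h3 := eq_of_subset_of_card_le h2 ((List.toFinset_card_le Y).trans h1)
    rw [← List.mem_toFinset, h3, List.mem_toFinset]
    exact hu

end Pool.Agent.H22.SW
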