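import Mathlib
import Pool.Agent.H22.SW.Defs

set_option autoImplicit false

/-!
# Edges between two independent sets
-/

namespace Pool.Agent.H22.SW

open Finset

variable {V : Type} [DecidableEq V]

theorem hom_pow {α : Type} (s : Finset α) (f : α → ℕ) (t : ℕ) (ht : 1 ≤ t) :
    (∑ i ∈ s, f i) ^ t ≤ s.card ^ (t - 1) * ∑ i ∈ s, f i ^ t := by
  obtain ⟨n, rfl⟩ : ∃ n, t = n + 1 := ⟨t - 1, by omega⟩
  exact pow_sum_le_card_mul_sum_pow (fun i _ => Nat.zero_le _) n

/-- the number of functions from `Fin t` to `I` which are not injective -/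
theorem hom_noninj (I : Finset V) (t : ℕ) (ht : 1 ≤ t) :
    ((Fintype.piFinset fun _ : Fin t => I).filter fun c => ¬ Function.Injective c).card ≤
      t ^ 2 * I.card ^ (t - 1) := by
  classical
  have h1 : ((Fintype.piFinset fun _ : Fin t => I).filter fun c => ¬ Function.Injective c) ⊆
      ((univ : Finset (Fin t × Fin t)).filter fun p => p.1 ≠ p.2).biUnion fun p =>
        (Fintype.piFinset fun _ : Fin t => I).filter fun c => c p.1 = c p.2 := by
    intro c hc
    rw [mem_filter] at hc
    obtain ⟨hc1, hc2⟩ := hc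
    rw [Function.Injective] at hc2
    push Not at hc2
    obtain ⟨i, j, hij, hne⟩ := hc2
    rw [mem_biUnion]
    exact ⟨(i, j), by simp [hne], by simp [mem_filter, hij]; simpa using hc1⟩
  refine (card_le_card h1).trans ?_
  refine card_biUnion_le.trans ?_
  have h2 : ∀ p ∈ (univ : Finset (Fin t × Fin t)).filter fun p => p.1 ≠ p.2,
      ((Fintype.piFinset fun _ : Fin t => I).filter fun c => c p.1 = c p.2).card ≤
        I.card ^ (t - 1) := by
    intro p hp
    rw [mem_filter] at hp
    have hne := hp.2
    -- restrict to the complement of `p.2`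
    have h3 : ((Fintype.piFinset fun _ : Fin t => I).filter fun c => c p.1 = c p.2).card ≤
        (Fintype.piFinset fun _ : {i : Fin t // i ≠ p.2} => I).card := by
      refine card_le_card_of_injOn (fun c i => c i.1) ?_ ?_
      · intro c hc
        rw [mem_coe, mem_filter, Fintype.mem_piFinset] at hc
        rw [mem_coe, Fintype.mem_piFinset]
        exact fun i => hc.1 _
      · intro c hc c' hc' h
        rw [mem_coe, mem_filter] at hc hc'
        funext i
        by_cases hi : i = p.2
        · subst hi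
          have h4 := congrFun h ⟨p.1, hne⟩
          simp only at h4
          rw [← hc.2, ← hc'.2, h4]
        · exact congrFun h ⟨i, hi⟩
    refine h3.trans (le_of_eq ?_)
    rw [Fintype.card_piFinset, Finset.prod_const, Finset.card_univ]
    congr 1
    simp [Fintype.card_subtype_compl]
  refine (sum_le_sum h2).trans ?_
  rw [sum_const, smul_eq_mul]
  refine Nat.mul_le_mul_right _ ?_
  refine (card_filter_le _ _).trans (le_of_eq ?_)
  rw [card_univ, Fintype.card_prod, Fintype.card_fin, sq]

theorem hom_bound (G : SimpleGraph V) (t : ℕ) (ht : 1 ≤ t) (hK : KFree G t) (I J : Finset V)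
    (hI : Ind G I) (hJ : Ind G J) [DecidableRel G.Adj] :
    ((I ×ˢ J).filter fun p => G.Adj p.1 p.2).card ^ t ^ 2 ≤
      t ^ 2 * (I.card + J.card) * (I.card * J.card) ^ (t ^ 2 - 1) := by
  classical
  set e := ((I ×ˢ J).filter fun p => G.Adj p.1 p.2).card with he
  -- degrees
  have he1 : e = ∑ d ∈ J, (I.filter fun c => G.Adj c d).card := by
    rw [he, card_filter, sum_product_right]
    refine sum_congr rfl fun d _ => ?_
    rw [card_filter]
  set It := Fintype.piFinset fun _ : Fin t => I with hIt
  set Jt := Fintype.piFinset fun _ : Fin t => J with hJt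
  have hItc : It.card = I.card ^ t := by
    rw [hIt, Fintype.card_piFinset, prod_const, card_univ, Fintype.card_fin]
  have hJtc : Jt.card = J.card ^ t := by
    rw [hJt, Fintype.card_piFinset, prod_const, card_univ, Fintype.card_fin]
  have h1 : ∀ d, (I.filter fun c => G.Adj c d).card ^ t =
      (It.filter fun c => ∀ i, G.Adj (c i) d).card := by
    intro d
    have : (It.filter fun c => ∀ i, G.Adj (c i) d) =
        Fintype.piFinset fun _ : Fin t => I.filter fun c => G.Adj c d := by
      ext c
      simp only [hIt, mem_filter, Fintype.mem_piFinset]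
      exact ⟨fun h i => ⟨h.1 i, h.2 i⟩, fun h => ⟨fun i => (h i).1, fun i => (h i).2⟩⟩
    rw [this, Fintype.card_piFinset, prod_const, card_univ, Fintype.card_fin]
  have h2 : e ^ t ≤ J.card ^ (t - 1) * ∑ c ∈ It, (J.filter fun d => ∀ i, G.Adj (c i) d).card := by
    rw [he1]
    refine (hom_pow J _ t ht).trans (Nat.mul_le_mul_left _ (le_of_eq ?_))
    simp_rw [h1, card_filter]
    rw [sum_comm]
  have h3 : ∀ c : Fin t → V, (J.filter fun d => ∀ i, G.Adj (c i) d).card ^ t =
      (Jt.filter fun d => ∀ j i, G.Adj (c i) (d j)).card := by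
    intro c
    have : (Jt.filter fun d => ∀ j i, G.Adj (c i) (d j)) =
        Fintype.piFinset fun _ : Fin t => J.filter fun d => ∀ i, G.Adj (c i) d := by
      ext d
      simp only [hJt, mem_filter, Fintype.mem_piFinset]
      exact ⟨fun h i => ⟨h.1 i, h.2 i⟩, fun h => ⟨fun i => (h i).1, fun i => (h i).2⟩⟩
    rw [this, Fintype.card_piFinset, prod_const, card_univ, Fintype.card_fin]
  set hom := ∑ c ∈ It, (Jt.filter fun d => ∀ j i, G.Adj (c i) (d j)).card with hhom
  have h4 : (∑ c ∈ It, (J.filter fun d => ∀ i, G.Adj (c i) d).card) ^ t ≤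
      (I.card ^ t) ^ (t - 1) * hom := by
    refine (hom_pow It _ t ht).trans ?_
    rw [hItc]
    refine Nat.mul_le_mul_left _ (le_of_eq ?_)
    exact sum_congr rfl fun c _ => h3 c
  have h5 : e ^ t ^ 2 ≤ (J.card ^ (t - 1)) ^ t * ((I.card ^ t) ^ (t - 1) * hom) := by
    rw [sq, pow_mul]
    refine (Nat.pow_le_pow_left h2 t).trans ?_
    rw [mul_pow]
    exact Nat.mul_le_mul_left _ h4
  have h6 : hom ≤ t ^ 2 * I.card ^ (t - 1) * J.card ^ t + I.card ^ t * (t ^ 2 * J.card ^ (t - 1)) := by
    have h7 : hom ≤ ∑ c ∈ It, ((if ¬ Function.Injective c then Jt.card else 0) +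
        (Jt.filter fun d => ¬ Function.Injective d).card) := by
      refine sum_le_sum fun c hc => ?_
      by_cases hci : Function.Injective c
      · rw [if_neg (not_not.2 hci), zero_add]
        refine card_le_card ?_
        intro d hd
        rw [mem_filter] at hd ⊢
        refine ⟨hd.1, fun hdi => hK ?_⟩
        refine ⟨c, d, hci, hdi, ?_, ?_, fun i j => hd.2 j i⟩
        · intro i j
          exact hI _ (Fintype.mem_piFinset.1 hc i) _ (Fintype.mem_piFinset.1 hc j)
        · intro i j
          exact hJ _ (Fintype.mem_piFinset.1 hd.1 i) _ (Fintype.mem_piFinset.1 hd.1 j)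
      · rw [if_pos hci]
        exact (card_filter_le _ _).trans (Nat.le_add_right _ _)
    refine h7.trans ?_
    rw [sum_add_distrib, ← sum_filter, sum_const, sum_const, smul_eq_mul, smul_eq_mul, hItc, hJtc]
    exact add_le_add (Nat.mul_le_mul_right _ (hom_noninj I t ht))
      (Nat.mul_le_mul_left _ (hom_noninj J t ht))
  have h8 : (J.card ^ (t - 1)) ^ t * ((I.card ^ t) ^ (t - 1) *
      (t ^ 2 * I.card ^ (t - 1) * J.card ^ t + I.card ^ t * (t ^ 2 * J.card ^ (t - 1)))) =
      t ^ 2 * (I.card + J.card) * (I.card * J.card) ^ (t ^ 2 - 1) := by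
    obtain ⟨n, rfl⟩ : ∃ n, t = n + 1 := ⟨t - 1, by omega⟩
    have h9 : (n + 1) ^ 2 - 1 = n * (n + 1) + n := by
      have : (n + 1) ^ 2 = n * (n + 1) + n + 1 := by ring
      omega
    rw [h9, Nat.add_sub_cancel]
    ring
  rw [← h8]
  exact h5.trans (Nat.mul_le_mul_left _ (Nat.mul_le_mul_left _ h6))

end Pool.Agent.H22.SW
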