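import Mathlib
import Pool.Agent.H22.SW.Defs
import Pool.Agent.H22.SW.Hom

set_option autoImplicit false

/-!
# Density of edges for a random mixture of independent sets
-/

namespace Pool.Agent.H22.SW

open Finset

variable {V : Type} [DecidableEq V]

theorem dens_aux (a b e p q Z : ℝ) (h : a * b ≠ 0) :
    p * q * (a * b) / Z ^ 2 * (e / (a * b)) = p * q * e / Z ^ 2 := by
  have ha : a ≠ 0 := left_ne_zero_of_mul h
  have hb : b ≠ 0 := right_ne_zero_of_mul h
  by_cases hZ : Z = 0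
  · subst hZ; simp
  · field_simp

open Classical in
theorem dens (G : SimpleGraph V) (t : ℕ) (ht : 1 ≤ t) (hK : KFree G t) {ι : Type} [Fintype ι]
    (I : ι → Finset V) (hI : ∀ i, Ind G (I i)) (p : ι → ℝ) (hp : ∀ i, 0 ≤ p i)
    (X : Finset V) (hX : ∀ i, I i ⊆ X) (Z : ℝ) (hZ0 : 0 < Z)
    (hZ : ∑ v ∈ X, (∑ i, if v ∈ I i then p i else 0) = Z) :
    ((∑ u ∈ X, ∑ v ∈ X, if G.Adj u v then
      (∑ i, if u ∈ I i then p i else 0) * (∑ i, if v ∈ I i then p i else 0) else 0) / Z ^ 2) ^ t ^ 2 ≤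
      2 * t ^ 2 * (∑ i, p i) / Z := by
  set e : ι → ι → ℕ := fun i j => ((I i ×ˢ I j).filter fun q => G.Adj q.1 q.2).card with he
  have hZ' : ∑ i, p i * ((I i).card : ℝ) = Z := by
    rw [← hZ, sum_comm]
    refine sum_congr rfl fun i _ => ?_
    rw [← sum_filter, sum_const, nsmul_eq_mul, mul_comm]
    congr 3
    ext v
    simp only [mem_filter]
    exact ⟨fun h => ⟨hX i h, h⟩, fun h => h.2⟩
  have hsum : (∑ u ∈ X, ∑ v ∈ X, if G.Adj u v then
      (∑ i, if u ∈ I i then p i else 0) * (∑ i, if v ∈ I i then p i else 0) else 0) =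
      ∑ i, ∑ j, p i * p j * (e i j : ℝ) := by
    have h1 : ∀ u v, (if G.Adj u v then
        (∑ i, if u ∈ I i then p i else 0) * (∑ i, if v ∈ I i then p i else 0) else 0) =
        ∑ i, ∑ j, (if (u ∈ I i ∧ v ∈ I j) ∧ G.Adj u v then p i * p j else 0) := by
      intro u v
      by_cases h : G.Adj u v
      · rw [if_pos h, sum_mul_sum]
        refine sum_congr rfl fun i _ => sum_congr rfl fun j _ => ?_
        by_cases h2 : u ∈ I i <;> by_cases h3 : v ∈ I j <;> simp [h, h2, h3]
      · simp [h]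
    simp_rw [h1]
    have h2 : ∑ u ∈ X, ∑ v ∈ X, ∑ i, ∑ j,
        (if (u ∈ I i ∧ v ∈ I j) ∧ G.Adj u v then p i * p j else 0) =
        ∑ i, ∑ j, ∑ u ∈ X, ∑ v ∈ X,
        (if (u ∈ I i ∧ v ∈ I j) ∧ G.Adj u v then p i * p j else 0) := by
      calc _ = ∑ u ∈ X, ∑ i, ∑ v ∈ X, ∑ j,
          (if (u ∈ I i ∧ v ∈ I j) ∧ G.Adj u v then p i * p j else 0) :=
            sum_congr rfl fun u _ => sum_comm
        _ = ∑ i, ∑ u ∈ X, ∑ v ∈ X, ∑ j,
          (if (u ∈ I i ∧ v ∈ I j) ∧ G.Adj u v then p i * p j else 0) := sum_comm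
        _ = ∑ i, ∑ u ∈ X, ∑ j, ∑ v ∈ X,
          (if (u ∈ I i ∧ v ∈ I j) ∧ G.Adj u v then p i * p j else 0) :=
            sum_congr rfl fun i _ => sum_congr rfl fun u _ => sum_comm
        _ = _ := sum_congr rfl fun i _ => sum_comm
    rw [h2]
    refine sum_congr rfl fun i _ => sum_congr rfl fun j _ => ?_
    rw [← sum_product', ← sum_filter, sum_const, nsmul_eq_mul, mul_comm]
    congr 2
    rw [he]
    congr 1
    ext q
    simp only [mem_filter, mem_product]
    exact ⟨fun h => h.2, fun h => ⟨⟨hX i h.1.1, hX j h.1.2⟩, h⟩⟩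
  rw [hsum]
  set w : ι × ι → ℝ := fun q => p q.1 * p q.2 * ((I q.1).card * (I q.2).card) / Z ^ 2 with hw
  set z : ι × ι → ℝ := fun q => (e q.1 q.2 : ℝ) / ((I q.1).card * (I q.2).card) with hz
  have hw0 : ∀ q ∈ (univ : Finset (ι × ι)), 0 ≤ w q := fun q _ => by
    have := hp q.1; have := hp q.2
    simp only [hw]
    positivity
  have hz0 : ∀ q ∈ (univ : Finset (ι × ι)), 0 ≤ z q := fun q _ => by
    simp only [hz]
    positivity
  have hw1 : ∑ q, w q = 1 := by
    rw [Fintype.sum_prod_type]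
    simp only [hw]
    have h1 : ∀ i j, p i * p j * (((I i).card : ℝ) * (I j).card) / Z ^ 2 =
        (p i * (I i).card) * (p j * (I j).card) / Z ^ 2 := fun i j => by ring
    simp_rw [h1, ← sum_div]
    rw [← sum_mul_sum, hZ']
    field_simp
  have hwz : ∀ q : ι × ι, w q * z q = p q.1 * p q.2 * (e q.1 q.2 : ℝ) / Z ^ 2 := by
    intro q
    simp only [hw, hz]
    by_cases h : ((I q.1).card : ℝ) * (I q.2).card = 0
    · have he0 : e q.1 q.2 = 0 := by
        have h1 : (I q.1 ×ˢ I q.2).card = 0 := by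
          rw [card_product]; exact_mod_cast h
        have h2 : e q.1 q.2 ≤ (I q.1 ×ˢ I q.2).card := card_filter_le _ _
        omega
      rw [h, he0]
      simp
    · exact dens_aux _ _ _ _ _ _ h
  have hJ := Real.pow_arith_mean_le_arith_mean_pow univ w z hw0 hw1 hz0 (t ^ 2)
  have h1 : ∑ q, w q * z q = (∑ i, ∑ j, p i * p j * (e i j : ℝ)) / Z ^ 2 := by
    simp_rw [hwz]
    rw [← sum_div, Fintype.sum_prod_type]
  rw [h1] at hJ
  refine hJ.trans ?_
  have h2 : ∀ q ∈ (univ : Finset (ι × ι)), w q * z q ^ t ^ 2 ≤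
      t ^ 2 * (p q.1 * p q.2 * ((I q.1).card + (I q.2).card)) / Z ^ 2 := by
    intro q _
    have hp1 := hp q.1
    have hp2 := hp q.2
    by_cases h : ((I q.1).card : ℝ) * (I q.2).card = 0
    · have : w q = 0 := by simp only [hw]; rw [h]; simp
      rw [this, zero_mul]
      positivity
    · have hpos : 0 < ((I q.1).card : ℝ) * (I q.2).card :=
        lt_of_le_of_ne (by positivity) (Ne.symm h)
      have hb := hom_bound G t ht hK (I q.1) (I q.2) (hI _) (hI _)
      have hb' : ((e q.1 q.2 : ℕ) : ℝ) ^ t ^ 2 ≤ t ^ 2 * ((I q.1).card + (I q.2).card) *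
          (((I q.1).card : ℝ) * (I q.2).card) ^ (t ^ 2 - 1) := by
        have := hb
        exact_mod_cast this
      have hT : (((I q.1).card : ℝ) * (I q.2).card) ^ t ^ 2 =
          (((I q.1).card : ℝ) * (I q.2).card) ^ (t ^ 2 - 1) *
          (((I q.1).card : ℝ) * (I q.2).card) := by
        rw [← pow_succ]
        congr 1
        have : 1 ≤ t ^ 2 := Nat.one_le_pow _ _ (by omega)
        omega
      have hz1 : z q ^ t ^ 2 ≤ t ^ 2 * ((I q.1).card + (I q.2).card) /
          (((I q.1).card : ℝ) * (I q.2).card) := by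
        simp only [hz]
        rw [div_pow, hT, div_le_div_iff₀ (by positivity) hpos]
        calc ((e q.1 q.2 : ℕ) : ℝ) ^ t ^ 2 * (((I q.1).card : ℝ) * (I q.2).card) ≤
            (t ^ 2 * ((I q.1).card + (I q.2).card) *
              (((I q.1).card : ℝ) * (I q.2).card) ^ (t ^ 2 - 1)) *
              (((I q.1).card : ℝ) * (I q.2).card) := mul_le_mul_of_nonneg_right hb' hpos.le
          _ = _ := by ring
      calc w q * z q ^ t ^ 2 ≤ w q * (t ^ 2 * ((I q.1).card + (I q.2).card) /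
            (((I q.1).card : ℝ) * (I q.2).card)) := mul_le_mul_of_nonneg_left hz1 (hw0 q (mem_univ _))
        _ = _ := by
          simp only [hw]
          rw [dens_aux _ _ _ _ _ _ h]
          ring
  refine (sum_le_sum h2).trans (le_of_eq ?_)
  rw [← sum_div, ← mul_sum, Fintype.sum_prod_type]
  have h3 : ∑ i, ∑ j, p i * p j * (((I i).card : ℝ) + (I j).card) = 2 * (∑ i, p i) * Z := by
    have h4 : ∀ i j, p i * p j * (((I i).card : ℝ) + (I j).card) =
        (p i * (I i).card) * p j + p i * (p j * (I j).card) := fun i j => by ring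
    simp_rw [h4, sum_add_distrib]
    rw [← sum_mul_sum, ← sum_mul_sum, hZ']
    ring
  rw [h3]
  field_simp

end Pool.Agent.H22.SW
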