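import Mathlib

set_option autoImplicit false

/-!
# Gordan's theorem
-/

namespace Pool.Agent.H22.SW

open Finset

theorem gordan {ι κ : Type} [Fintype ι] [Fintype κ] (a : ι → κ → ℝ) :
    (∃ x : κ → ℝ, ∀ i, 0 < ∑ j, a i j * x j) ∨
      ∃ l : ι → ℝ, (∀ i, 0 ≤ l i) ∧ ∑ i, l i = 1 ∧ ∀ j, ∑ i, l i * a i j = 0 := by
  classical
  let L : (ι → ℝ) →ₗ[ℝ] (κ → ℝ) :=
    { toFun := fun l j => ∑ i, l i * a i j
      map_add' := by
        intro l l'
        funext j
        simp only [Pi.add_apply, add_mul, Finset.sum_add_distrib]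
      map_smul' := by
        intro c l
        funext j
        simp only [Pi.smul_apply, smul_eq_mul, RingHom.id_apply, Finset.mul_sum, mul_assoc] }
  by_cases h0 : (0 : κ → ℝ) ∈ L '' stdSimplex ℝ ι
  · right
    obtain ⟨l, hl, hl0⟩ := h0
    refine ⟨l, hl.1, hl.2, fun j => ?_⟩
    exact congrFun hl0 j
  · left
    have hconv : Convex ℝ (L '' stdSimplex ℝ ι) := (convex_stdSimplex ℝ ι).linear_image L
    have hcomp : IsCompact (L '' stdSimplex ℝ ι) :=
      (isCompact_stdSimplex ℝ ι).image L.continuous_of_finiteDimensional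
    obtain ⟨f, u, hu0, hu⟩ := geometric_hahn_banach_point_closed hconv hcomp.isClosed h0
    rw [map_zero] at hu0
    refine ⟨fun j => f (Pi.single j 1), fun i => ?_⟩
    have hi : L (Pi.single i 1) ∈ L '' stdSimplex ℝ ι :=
      Set.mem_image_of_mem _ (single_mem_stdSimplex ℝ i)
    have h1 := hu _ hi
    have h2 : L (Pi.single i 1) = a i := by
      funext j
      change ∑ i', (Pi.single i (1 : ℝ) : ι → ℝ) i' * a i' j = a i j
      rw [Finset.sum_eq_single i]
      · simp
      · intro b _ hb
        simp [Pi.single_eq_of_ne hb]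
      · intro h
        exact absurd (Finset.mem_univ _) h
    have h3 : f (a i) = ∑ j, a i j * f (Pi.single j 1) := by
      conv_lhs => rw [pi_eq_sum_univ (a i)]
      rw [map_sum]
      refine Finset.sum_congr rfl fun j _ => ?_
      rw [map_smul, smul_eq_mul]
      congr 2
      funext j'
      simp [Pi.single_apply, eq_comm]
    rw [h2, h3] at h1
    linarith

end Pool.Agent.H22.SW
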