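import Mathlib

set_option autoImplicit false

/-!
# Greedy choice of pairwise good elements
-/

namespace Pool.Agent.H22.SW

open Finset

open Classical in
theorem greedy {E : Type} [Fintype E] (w : E → ℝ) (h0 : ∀ e, 0 ≤ w e) (h1 : ∑ e, w e = 1)
    (bad : E → E → Prop) [DecidableRel bad] (hs : ∀ e f, bad e f → bad f e) (r : ℕ)
    (hb : (∑ e, ∑ f, if bad e f then w e * w f else 0) * (4 * r) < 1) :
    ∃ f : Fin r → E, (∀ i, 0 < w (f i)) ∧ ∀ i j, i ≠ j → ¬ bad (f i) (f j) := by
  rcases Nat.eq_zero_or_pos r with hr0 | hr0
  · subst hr0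
    exact ⟨fun i => i.elim0, fun i => i.elim0, fun i => i.elim0⟩
  have hr : (0 : ℝ) < r := by exact_mod_cast hr0
  set d : E → ℝ := fun e => ∑ f, if bad e f then w f else 0 with hd
  set L : Finset E := univ.filter fun e => d e * (2 * r) < 1 with hL
  have hβ : ∑ e, w e * d e = ∑ e, ∑ f, if bad e f then w e * w f else 0 := by
    refine sum_congr rfl fun e _ => ?_
    simp only [hd]
    rw [mul_sum]
    refine sum_congr rfl fun f _ => ?_
    split_ifs <;> simp
  have hLc : ∑ e ∈ univ.filter (fun e => ¬ d e * (2 * r) < 1), w e < 1 / 2 := by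
    have h2 : ∑ e ∈ univ.filter (fun e => ¬ d e * (2 * r) < 1), w e ≤
        ∑ e, w e * (d e * (2 * r)) := by
      rw [sum_filter]
      refine sum_le_sum fun e _ => ?_
      have hd0 : 0 ≤ d e := by
        simp only [hd]
        refine sum_nonneg fun f _ => ?_
        split_ifs
        · exact h0 f
        · exact le_refl _
      split_ifs with h
      · exact mul_nonneg (h0 e) (by positivity)
      · exact le_mul_of_one_le_right (h0 e) (not_lt.1 h)
    have h3 : ∑ e, w e * (d e * (2 * r)) = (∑ e, w e * d e) * (2 * r) := by
      rw [sum_mul]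
      exact sum_congr rfl fun e _ => by ring
    rw [h3, hβ] at h2
    linarith
  have hLm : 1 / 2 < ∑ e ∈ L, w e := by
    have := sum_filter_add_sum_filter_not univ (fun e => d e * (2 * r) < 1) w
    rw [h1] at this
    linarith
  have key : ∀ j, j ≤ r → ∃ f : Fin j → E, (∀ i, f i ∈ L ∧ 0 < w (f i)) ∧
      ∀ i i', i ≠ i' → ¬ bad (f i) (f i') := by
    intro j
    induction j with
    | zero => intro _; exact ⟨fun i => i.elim0, fun i => i.elim0, fun i => i.elim0⟩
    | succ j ih =>
      intro hj
      obtain ⟨f, hf1, hf2⟩ := ih (by omega)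
      -- an allowed element
      have hex : ∃ e ∈ L, 0 < w e ∧ ∀ i, ¬ bad (f i) e := by
        by_contra hcon
        push Not at hcon
        have h4 : ∑ e ∈ L, w e ≤ ∑ e ∈ L, ∑ i, if bad (f i) e then w e else 0 := by
          refine sum_le_sum fun e he => ?_
          rcases (h0 e).eq_or_lt with hw | hw
          · rw [← hw]
            refine sum_nonneg fun i _ => ?_
            split_ifs <;> simp
          · obtain ⟨i, hi⟩ := hcon e he hw
            refine le_trans ?_ (single_le_sum (f := fun i => if bad (f i) e then w e else 0)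
              (fun i _ => ?_) (mem_univ i))
            · simp [hi]
            · split_ifs
              · exact hw.le
              · exact le_refl _
        have h5 : ∑ e ∈ L, ∑ i, (if bad (f i) e then w e else 0) ≤ ∑ i, d (f i) := by
          rw [sum_comm]
          refine sum_le_sum fun i _ => ?_
          simp only [hd]
          refine sum_le_sum_of_subset_of_nonneg (subset_univ _) fun e _ _ => ?_
          split_ifs
          · exact h0 e
          · exact le_refl _
        have h6 : ∑ i, d (f i) ≤ ∑ _i : Fin j, 1 / (2 * (r : ℝ)) := by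
          refine sum_le_sum fun i _ => ?_
          have h7 := (hf1 i).1
          rw [hL, mem_filter] at h7
          rw [le_div_iff₀ (by positivity)]
          exact h7.2.le
        rw [sum_const, card_univ, Fintype.card_fin, nsmul_eq_mul] at h6
        have h8 : (j : ℝ) * (1 / (2 * (r : ℝ))) ≤ 1 / 2 := by
          have h9 : (j : ℝ) ≤ r := by exact_mod_cast (by omega : j ≤ r)
          rw [mul_one_div, div_le_div_iff₀ (by positivity) (by norm_num)]
          linarith
        linarith
      obtain ⟨e, he1, he2, he3⟩ := hex
      refine ⟨Fin.snoc f e, ?_, ?_⟩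
      · intro i
        refine Fin.lastCases ?_ (fun i => ?_) i
        · rw [Fin.snoc_last]; exact ⟨he1, he2⟩
        · rw [Fin.snoc_castSucc]; exact hf1 i
      · intro i i'
        refine Fin.lastCases ?_ (fun i => ?_) i <;> refine Fin.lastCases ?_ (fun i' => ?_) i'
        · intro h; exact absurd rfl h
        · intro _
          rw [Fin.snoc_last, Fin.snoc_castSucc]
          exact fun h => he3 i' (hs _ _ h)
        · intro _
          rw [Fin.snoc_last, Fin.snoc_castSucc]
          exact he3 i
        · intro h
          rw [Fin.snoc_castSucc, Fin.snoc_castSucc]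
          exact hf2 i i' (fun h' => h (by rw [h']))
  obtain ⟨f, hf1, hf2⟩ := key r le_rfl
  exact ⟨f, fun i => (hf1 i).2, hf2⟩

end Pool.Agent.H22.SW
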