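import Mathlib

set_option autoImplicit false

/-!
# Ramsey's theorem for pairs with four colours
-/

namespace Pool.Agent.H22.SW

open Finset

theorem ramsey_end (χ : ℕ → ℕ → Fin 4) (n : ℕ) : ∀ S : Finset ℕ, 4 ^ n ≤ S.card →
    ∃ (f : Fin n → ℕ) (κ : Fin n → Fin 4), StrictMono f ∧ (∀ i, f i ∈ S) ∧
      ∀ i j, i < j → χ (f i) (f j) = κ i := by
  induction n with
  | zero =>
    intro S _
    exact ⟨fun i => i.elim0, fun i => i.elim0, fun i => i.elim0, fun i => i.elim0,
      fun i => i.elim0⟩
  | succ n ih =>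
    intro S hS
    have hne : S.Nonempty := by
      rw [← card_pos]
      exact lt_of_lt_of_le (by positivity) hS
    set x := S.min' hne with hx
    set S' := S.erase x with hS'
    have hc : S'.card = S.card - 1 := card_erase_of_mem (min'_mem S hne)
    have hpow : 4 ^ (n + 1) = 4 * 4 ^ n := by ring
    have hpos : 0 < 4 ^ n := by positivity
    obtain ⟨κ, -, hκ⟩ := exists_lt_card_fiber_of_mul_lt_card_of_maps_to
      (s := S') (t := (univ : Finset (Fin 4))) (f := fun y => χ x y) (n := 4 ^ n - 1)
      (fun _ _ => mem_univ _) (by rw [card_univ, Fintype.card_fin]; omega)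
    obtain ⟨f, κ', hf, hfS, hfκ⟩ := ih (S'.filter fun y => χ x y = κ) (by omega)
    refine ⟨Fin.cons x f, Fin.cons κ κ', ?_, ?_, ?_⟩
    · intro i j hij
      refine Fin.cases ?_ (fun j => ?_) j (motive := fun j => i < j →
        (Fin.cons x f : Fin (n + 1) → ℕ) i < (Fin.cons x f : Fin (n + 1) → ℕ) j) hij
      · intro h; exact absurd h (Fin.not_lt_zero _)
      · intro h
        refine Fin.cases ?_ (fun i => ?_) i (motive := fun i => i < j.succ →
          (Fin.cons x f : Fin (n + 1) → ℕ) i < (Fin.cons x f : Fin (n + 1) → ℕ) j.succ) h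
        · intro _
          rw [Fin.cons_zero, Fin.cons_succ]
          have h1 := hfS j
          rw [mem_filter, hS', mem_erase] at h1
          exact lt_of_le_of_ne (min'_le S _ h1.1.2) (Ne.symm h1.1.1)
        · intro h2
          rw [Fin.cons_succ, Fin.cons_succ]
          exact hf (Fin.succ_lt_succ_iff.1 h2)
    · intro i
      refine Fin.cases ?_ (fun i => ?_) i
      · rw [Fin.cons_zero]; exact min'_mem S hne
      · rw [Fin.cons_succ]
        have h1 := hfS i
        rw [mem_filter, hS', mem_erase] at h1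
        exact h1.1.2
    · intro i j hij
      refine Fin.cases ?_ (fun j => ?_) j (motive := fun j => i < j →
        χ ((Fin.cons x f : Fin (n + 1) → ℕ) i) ((Fin.cons x f : Fin (n + 1) → ℕ) j) =
          (Fin.cons κ κ' : Fin (n + 1) → Fin 4) i) hij
      · intro h; exact absurd h (Fin.not_lt_zero _)
      · intro h
        refine Fin.cases ?_ (fun i => ?_) i (motive := fun i => i < j.succ →
          χ ((Fin.cons x f : Fin (n + 1) → ℕ) i) ((Fin.cons x f : Fin (n + 1) → ℕ) j.succ) =
            (Fin.cons κ κ' : Fin (n + 1) → Fin 4) i) h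
        · intro _
          rw [Fin.cons_zero, Fin.cons_succ, Fin.cons_zero]
          have h1 := hfS j
          rw [mem_filter] at h1
          exact h1.2
        · intro h2
          rw [Fin.cons_succ, Fin.cons_succ, Fin.cons_succ]
          exact hfκ i j (Fin.succ_lt_succ_iff.1 h2)

theorem ramsey (m r : ℕ) (hr : 4 ^ (4 * m) ≤ r) (χ : Fin r → Fin r → Fin 4) :
    ∃ (g : Fin m → Fin r) (c : Fin 4), StrictMono g ∧
      ∀ i j, i < j → χ (g i) (g j) = c := by
  rcases Nat.eq_zero_or_pos m with hm | hm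
  · subst hm
    exact ⟨fun i => i.elim0, 0, fun i => i.elim0, fun i => i.elim0⟩
  obtain ⟨f, κ, hf, hfS, hfκ⟩ := ramsey_end
    (fun i j => if h : i < r ∧ j < r then χ ⟨i, h.1⟩ ⟨j, h.2⟩ else 0) (4 * m) (range r)
    (by rw [card_range]; exact hr)
  have hlt : ∀ i, f i < r := fun i => mem_range.1 (hfS i)
  obtain ⟨c, -, hc⟩ := exists_lt_card_fiber_of_mul_lt_card_of_maps_to
    (s := (univ : Finset (Fin (4 * m)))) (t := (univ : Finset (Fin 4))) (f := κ) (n := m - 1)
    (fun _ _ => mem_univ _) (by rw [card_univ, Fintype.card_fin, card_univ, Fintype.card_fin]; omega)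
  obtain ⟨T, hT, hTc⟩ := exists_subset_card_eq (s := univ.filter fun i => κ i = c) (n := m)
    (by omega)
  set h := T.orderEmbOfFin hTc with hh
  refine ⟨fun i => ⟨f (h i), hlt _⟩, c, ?_, ?_⟩
  · intro i j hij
    exact hf (h.strictMono hij)
  · intro i j hij
    have h1 := hfκ (h i) (h j) (h.strictMono hij)
    rw [dif_pos ⟨hlt _, hlt _⟩] at h1
    refine h1.trans ?_
    have h2 := hT (T.orderEmbOfFin_mem hTc i)
    rw [mem_filter] at h2
    exact h2.2

end Pool.Agent.H22.SW
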