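import Mathlib
import Pool.Agent.H22.SW.Defs
import Pool.Agent.H22.SW.Ramsey

set_option autoImplicit false

/-!
# Many matched pairs between two independent sets
-/

namespace Pool.Agent.H22.SW

theorem sel {V : Type} (G : SimpleGraph V) (t k : ℕ) (ht : 1 ≤ t) (hK : KFree G t) (A B : Set V)
    (hS : SimBd G A B k) (r : ℕ) (hr : rN t k ≤ r) (a b : Fin r → V)
    (ha : Function.Injective a) (hb : Function.Injective b) (haA : ∀ i, a i ∈ A)
    (hbB : ∀ i, b i ∈ B) (hai : ∀ i j, ¬ G.Adj (a i) (a j)) (hbi : ∀ i j, ¬ G.Adj (b i) (b j))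
    (hab : ∀ i, G.Adj (a i) (b i)) : False := by
  classical
  obtain ⟨g, c, hg, hc⟩ := ramsey (k + 2 * t) r hr (fun i j =>
    if G.Adj (a i) (b j) then (if G.Adj (a j) (b i) then 3 else 1)
    else (if G.Adj (a j) (b i) then 2 else 0))
  have hginj := hg.injective
  by_cases h1 : ∀ i j, i < j → G.Adj (a (g i)) (b (g j))
  · refine hK ⟨fun i => a (g ⟨i, by omega⟩), fun j => b (g ⟨t + j, by omega⟩), ?_, ?_, ?_, ?_, ?_⟩
    · intro i j h
      have h2 := hginj (ha h)
      simp only [Fin.mk.injEq] at h2
      exact Fin.ext h2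
    · intro i j h
      have h2 := hginj (hb h)
      simp only [Fin.mk.injEq] at h2
      exact Fin.ext (by omega)
    · exact fun i j => hai _ _
    · exact fun i j => hbi _ _
    · intro i j
      apply h1
      rw [Fin.mk_lt_mk]
      omega
  by_cases h2 : ∀ i j, i < j → G.Adj (a (g j)) (b (g i))
  · refine hK ⟨fun i => a (g ⟨t + i, by omega⟩), fun j => b (g ⟨j, by omega⟩), ?_, ?_, ?_, ?_, ?_⟩
    · intro i j h
      have h3 := hginj (ha h)
      simp only [Fin.mk.injEq] at h3
      exact Fin.ext (by omega)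
    · intro i j h
      have h3 := hginj (hb h)
      simp only [Fin.mk.injEq] at h3
      exact Fin.ext h3
    · exact fun i j => hai _ _
    · exact fun i j => hbi _ _
    · intro i j
      apply h2
      rw [Fin.mk_lt_mk]
      omega
  -- the colour is 0
  have hc0 : c = 0 := by
    push Not at h1 h2
    obtain ⟨i, j, hij, h3⟩ := h1
    obtain ⟨i', j', hij', h4⟩ := h2
    have h5 := hc i j hij
    have h6 := hc i' j' hij'
    rw [if_neg h3] at h5
    rw [if_neg h4, if_neg h4] at h6
    rw [← h5] at h6 ⊢
    split_ifs at h6 ⊢ <;> first | rfl | (exact absurd h6 (by decide))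
  have hnadj : ∀ i j, i ≠ j → ¬ G.Adj (a (g i)) (b (g j)) := by
    intro i j hij h3
    rcases lt_or_gt_of_ne hij with h | h
    · have h4 := hc i j h
      rw [if_pos h3, hc0] at h4
      split_ifs at h4 <;> exact absurd h4 (by decide)
    · have h4 := hc j i h
      rw [if_pos h3, if_pos h3, hc0] at h4
      split_ifs at h4 <;> exact absurd h4 (by decide)
  have h7 := hS (k + 1) (fun i => a (g ⟨i, by omega⟩)) (fun i => b (g ⟨i, by omega⟩))
    (fun i => haA _) (fun i => hbB _) (by
      intro i j
      constructor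
      · intro h
        by_contra hne
        exact hnadj ⟨i, by omega⟩ ⟨j, by omega⟩ (fun h' => hne (Fin.ext (by
          simpa only [Fin.mk.injEq] using h'))) h
      · intro h
        subst h
        exact hab _) (fun i j => hai _ _) (fun i j => hbi _ _)
  omega

end Pool.Agent.H22.SW
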