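import Mathlib
import Pool.Agent.H22.SW.Defs
import Pool.Agent.H22.SW.Gordan
import Pool.Agent.H22.SW.Dens
import Pool.Agent.H22.SW.Greedy
import Pool.Agent.H22.SW.Sel
import Pool.Agent.H22.SW.Al

set_option autoImplicit false

/-!
# The cut lemma
-/

namespace Pool.Agent.H22.SW

open Finset

variable {V : Type} [DecidableEq V]

/-- the numerical part -/
theorem cut_num (t k : ℕ) (ht : 1 ≤ t) (q : ℝ) (hq0 : 0 ≤ q)
    (hq : q ^ t ^ 2 ≤ 2 * t ^ 2 / (nN t k : ℝ)) : q ≤ 1 / (16 * (rN t k : ℝ)) := by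
  have hr : (0 : ℝ) < rN t k := by
    have : 0 < rN t k := by unfold rN; positivity
    exact_mod_cast this
  have ht0 : (0 : ℝ) < t := by exact_mod_cast ht
  have ht2 : t ^ 2 ≠ 0 := by positivity
  refine le_of_pow_le_pow_left₀ ht2 (by positivity) (hq.trans ?_)
  unfold nN
  push_cast
  rw [div_pow, one_pow, div_le_div_iff₀ (by positivity) (by positivity), one_mul]
  have h1 : (32 * (rN t k : ℝ)) ^ t ^ 2 = 2 ^ t ^ 2 * (16 * (rN t k : ℝ)) ^ t ^ 2 := by
    rw [← mul_pow]
    congr 1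
    ring
  rw [h1]
  have h2 : (2 : ℝ) ≤ 2 ^ t ^ 2 := by
    calc (2 : ℝ) = 2 ^ 1 := (pow_one _).symm
      _ ≤ 2 ^ t ^ 2 := pow_le_pow_right₀ (by norm_num) (Nat.one_le_iff_ne_zero.2 ht2)
  have h3 : 0 ≤ (t : ℝ) ^ 2 * (16 * (rN t k : ℝ)) ^ t ^ 2 := by positivity
  nlinarith

theorem nN_ge (t k : ℕ) (ht : 1 ≤ t) : 32 * rN t k ≤ nN t k := by
  unfold nN
  have h1 : 1 ≤ t ^ 2 := Nat.one_le_pow _ _ (by omega)
  have h2 : 32 * rN t k ≤ (32 * rN t k) ^ t ^ 2 := by
    calc 32 * rN t k = (32 * rN t k) ^ 1 := (pow_one _).symm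
      _ ≤ _ := Nat.pow_le_pow_right (by unfold rN; positivity) h1
  calc 32 * rN t k ≤ 1 * (32 * rN t k) ^ t ^ 2 := by rw [one_mul]; exact h2
    _ ≤ _ := Nat.mul_le_mul_right _ h1

open Classical in
/-- one side: the density of bad pairs -/
theorem cut_side (G : SimpleGraph V) (t k : ℕ) (ht : 1 ≤ t) (hK : KFree G t) (A : Finset V)
    {E : Type} [Fintype E] (y : E → ℝ) (hy : ∀ e, 0 ≤ y e) (pr : E → V) (hpr : ∀ e, pr e ∈ A)
    (p : {I : Finset V // I ∈ A.powerset.filter fun I => Ind G I} → ℝ) (hp : ∀ I, 0 ≤ p I)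
    (Z : ℝ) (hZ : ∑ e, y e = Z) (hZ0 : 0 < Z)
    (hZN : (nN t k : ℝ) * ∑ I, p I ≤ Z)
    (heq : ∀ v ∈ A, (∑ e, if pr e = v then y e else 0) = ∑ I, if v ∈ I.1 then p I else 0) :
    (∑ e, ∑ f, if pr e = pr f ∨ G.Adj (pr e) (pr f) then (y e / Z) * (y f / Z) else 0) ≤
      3 / (32 * (rN t k : ℝ)) := by
  have hr : (0 : ℝ) < rN t k := by
    have : 0 < rN t k := by unfold rN; positivity
    exact_mod_cast this
  have hN0 : (0 : ℝ) < nN t k := by
    have h1 := nN_ge t k ht
    have h2 : 0 < rN t k := by exact_mod_cast hr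
    exact_mod_cast (by omega : 0 < nN t k)
  set P := ∑ I, p I with hP
  set Y : V → ℝ := fun v => ∑ I, if v ∈ I.1 then p I else 0 with hY
  have hYP : ∀ v, Y v ≤ P := by
    intro v
    simp only [hY, hP]
    refine sum_le_sum fun I _ => ?_
    split_ifs
    · exact le_refl _
    · exact hp I
  have hY0 : ∀ v, 0 ≤ Y v := by
    intro v
    simp only [hY]
    refine sum_nonneg fun I _ => ?_
    split_ifs
    · exact hp I
    · exact le_refl _
  have hYZ : ∑ v ∈ A, Y v = Z := by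
    rw [← hZ]
    have h1 : ∑ v ∈ A, Y v = ∑ v ∈ A, ∑ e, (if pr e = v then y e else 0) :=
      sum_congr rfl fun v hv => (heq v hv).symm
    rw [h1, sum_comm]
    refine sum_congr rfl fun e _ => ?_
    rw [sum_ite_eq, if_pos (hpr e)]
  -- fibres
  have hfib : ∀ (R : V → V → Prop) [DecidableRel R], (∑ e, ∑ f, if R (pr e) (pr f) then y e * y f else 0) =
      ∑ u ∈ A, ∑ v ∈ A, if R u v then Y u * Y v else 0 := by
    intro R _
    have h1 : ∀ u ∈ A, ∀ v ∈ A, (if R u v then Y u * Y v else 0) =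
        ∑ e, ∑ f, if (pr e = u ∧ pr f = v) ∧ R u v then y e * y f else 0 := by
      intro u hu v hv
      by_cases h : R u v
      · rw [if_pos h]
        simp only [hY]
        rw [← heq u hu, ← heq v hv, sum_mul_sum]
        refine sum_congr rfl fun e _ => sum_congr rfl fun f _ => ?_
        by_cases h2 : pr e = u <;> by_cases h3 : pr f = v <;> simp [h, h2, h3]
      · simp [h]
    rw [sum_congr rfl fun u hu => sum_congr rfl fun v hv => h1 u hu v hv]
    have h2 : ∑ u ∈ A, ∑ v ∈ A, ∑ e, ∑ f,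
        (if (pr e = u ∧ pr f = v) ∧ R u v then y e * y f else 0) =
        ∑ e, ∑ f, ∑ u ∈ A, ∑ v ∈ A,
        (if (pr e = u ∧ pr f = v) ∧ R u v then y e * y f else 0) := by
      calc _ = ∑ u ∈ A, ∑ e, ∑ v ∈ A, ∑ f,
          (if (pr e = u ∧ pr f = v) ∧ R u v then y e * y f else 0) :=
            sum_congr rfl fun u _ => sum_comm
        _ = ∑ e, ∑ u ∈ A, ∑ v ∈ A, ∑ f,
          (if (pr e = u ∧ pr f = v) ∧ R u v then y e * y f else 0) := sum_comm
        _ = ∑ e, ∑ u ∈ A, ∑ f, ∑ v ∈ A,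
          (if (pr e = u ∧ pr f = v) ∧ R u v then y e * y f else 0) :=
            sum_congr rfl fun e _ => sum_congr rfl fun u _ => sum_comm
        _ = _ := sum_congr rfl fun e _ => sum_comm
    rw [h2]
    refine sum_congr rfl fun e _ => sum_congr rfl fun f _ => ?_
    rw [sum_eq_single (pr e), sum_eq_single (pr f)]
    · simp
    · intro v _ hv
      rw [if_neg]
      exact fun h => hv h.1.2.symm
    · intro h; exact absurd (hpr f) h
    · intro u _ hu
      refine sum_eq_zero fun v _ => ?_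
      rw [if_neg]
      exact fun h => hu h.1.1.symm
    · intro h; exact absurd (hpr e) h
  have hscale : ∀ (R : V → V → Prop) [DecidableRel R],
      (∑ e, ∑ f, if R (pr e) (pr f) then (y e / Z) * (y f / Z) else 0) =
      (∑ u ∈ A, ∑ v ∈ A, if R u v then Y u * Y v else 0) / Z ^ 2 := by
    intro R _
    rw [← hfib R, sum_div]
    refine sum_congr rfl fun e _ => ?_
    rw [sum_div]
    refine sum_congr rfl fun f _ => ?_
    split_ifs
    · field_simp
    · simp
  -- the two kinds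
  have hsplit : (∑ e, ∑ f, if pr e = pr f ∨ G.Adj (pr e) (pr f) then (y e / Z) * (y f / Z) else 0) ≤
      (∑ e, ∑ f, if pr e = pr f then (y e / Z) * (y f / Z) else 0) +
      ∑ e, ∑ f, if G.Adj (pr e) (pr f) then (y e / Z) * (y f / Z) else 0 := by
    rw [← sum_add_distrib]
    refine sum_le_sum fun e _ => ?_
    rw [← sum_add_distrib]
    refine sum_le_sum fun f _ => ?_
    have h1 : 0 ≤ (y e / Z) * (y f / Z) := by
      have := hy e; have := hy f; positivity
    by_cases h2 : pr e = pr f <;> by_cases h3 : G.Adj (pr e) (pr f) <;> simp [h2, h3]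
  refine hsplit.trans ?_
  rw [hscale (fun u v => u = v), hscale (fun u v => G.Adj u v)]
  have hPZ : P / Z ≤ 1 / nN t k := by
    rw [div_le_div_iff₀ hZ0 hN0]
    linarith
  have hone : (∑ u ∈ A, ∑ v ∈ A, if u = v then Y u * Y v else 0) / Z ^ 2 ≤ 1 / (32 * (rN t k : ℝ)) := by
    have h1 : (∑ u ∈ A, ∑ v ∈ A, if u = v then Y u * Y v else 0) ≤ P * Z := by
      rw [← hYZ, mul_sum]
      refine sum_le_sum fun u hu => ?_
      rw [sum_ite_eq, if_pos hu]
      exact mul_le_mul_of_nonneg_right (hYP u) (hY0 u)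
    calc (∑ u ∈ A, ∑ v ∈ A, if u = v then Y u * Y v else 0) / Z ^ 2 ≤ P * Z / Z ^ 2 :=
          div_le_div_of_nonneg_right h1 (by positivity)
      _ = P / Z := by field_simp
      _ ≤ 1 / nN t k := hPZ
      _ ≤ 1 / (32 * (rN t k : ℝ)) := by
          rw [div_le_div_iff₀ hN0 (by positivity), one_mul, one_mul]
          exact_mod_cast nN_ge t k ht
  have htwo : (∑ u ∈ A, ∑ v ∈ A, if G.Adj u v then Y u * Y v else 0) / Z ^ 2 ≤
      1 / (16 * (rN t k : ℝ)) := by
    refine cut_num t k ht _ ?_ ?_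
    · refine div_nonneg (sum_nonneg fun u _ => sum_nonneg fun v _ => ?_) (by positivity)
      split_ifs
      · exact mul_nonneg (hY0 u) (hY0 v)
      · exact le_refl _
    · have h1 := dens G t ht hK (fun I : {I : Finset V // I ∈ A.powerset.filter fun I => Ind G I} =>
        I.1) (fun I => (mem_filter.1 I.2).2) p hp A (fun I => mem_powerset.1 (mem_filter.1 I.2).1)
        Z hZ0 hYZ
      refine h1.trans ?_
      rw [← hP]
      calc 2 * (t : ℝ) ^ 2 * P / Z = 2 * (t : ℝ) ^ 2 * (P / Z) := by ring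
        _ ≤ 2 * (t : ℝ) ^ 2 * (1 / nN t k) := mul_le_mul_of_nonneg_left hPZ (by positivity)
        _ = _ := by ring
  calc _ ≤ 1 / (32 * (rN t k : ℝ)) + 1 / (16 * (rN t k : ℝ)) := add_le_add hone htwo
    _ = 3 / (32 * (rN t k : ℝ)) := by field_simp; norm_num

end Pool.Agent.H22.SW
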