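import Mathlib
import Pool.Agent.H22.SW.Defs
import Pool.Agent.H22.SW.Cut

set_option autoImplicit false

/-!
# The cut lemma, assembly
-/

namespace Pool.Agent.H22.SW

open Finset

variable {V : Type} [DecidableEq V]

/-- the matrix of the linear system -/
noncomputable def cutM (A B : Finset V) (N : ℝ) (E : Finset (V × V))
    (IA IB : Finset (Finset V)) : (E ⊕ (IA ⊕ IB)) → Option (A ∪ B : Finset V) → ℝ
  | Sum.inl _, none => -1
  | Sum.inl e, some v => (if e.1.1 = v.1 then 1 else 0) + (if e.1.2 = v.1 then 1 else 0)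
  | Sum.inr (Sum.inl _), none => N
  | Sum.inr (Sum.inl I), some v => -(if v.1 ∈ I.1 then 1 else 0)
  | Sum.inr (Sum.inr _), none => N
  | Sum.inr (Sum.inr I), some v => -(if v.1 ∈ I.1 then 1 else 0)

open Classical in
theorem cut_lemma (G : SimpleGraph V) (t k : ℕ) (ht : 1 ≤ t) (hK : KFree G t) (A B : Finset V)
    (hAB : Disjoint A B) (hS : SimBd G (A : Set V) (B : Set V) k) :
    ∃ S ⊆ A ∪ B, Cov G S A B ∧ al G S ≤ cN t k := by
  set N : ℝ := (nN t k : ℝ) with hN
  have hr : (0 : ℝ) < rN t k := by
    have : 0 < rN t k := by unfold rN; positivity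
    exact_mod_cast this
  have hN0 : (0 : ℝ) < N := by
    have h1 := nN_ge t k ht
    have h2 : 0 < rN t k := by exact_mod_cast hr
    have h3 : 0 < nN t k := by omega
    rw [hN]
    exact_mod_cast h3
  set E : Finset (V × V) := (A ×ˢ B).filter fun e => G.Adj e.1 e.2 with hE
  set IA : Finset (Finset V) := A.powerset.filter fun I => Ind G I with hIA
  set IB : Finset (Finset V) := B.powerset.filter fun I => Ind G I with hIB
  have hEm : ∀ e : E, e.1.1 ∈ A ∧ e.1.2 ∈ B ∧ G.Adj e.1.1 e.1.2 := by
    intro e
    have h1 := mem_filter.1 e.2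
    have h2 := mem_product.1 h1.1
    exact ⟨h2.1, h2.2, h1.2⟩
  have hsumv : ∀ (x : Option (A ∪ B : Finset V) → ℝ) (g : V → ℝ) (X : V → ℝ),
      (∀ v : (A ∪ B : Finset V), X v.1 = x (some v)) →
      ∑ v : (A ∪ B : Finset V), g v.1 * x (some v) = ∑ v ∈ A ∪ B, g v * X v := by
    intro x g X hX
    rw [← sum_coe_sort (A ∪ B) fun v => g v * X v]
    exact sum_congr rfl fun v _ => by rw [hX]
  rcases gordan (cutM A B N E IA IB) with ⟨x, hx⟩ | ⟨l, hl0, hl1, hl⟩
  · -- a fractional cover
    set X : V → ℝ := fun v => if h : v ∈ A ∪ B then x (some ⟨v, h⟩) else 0 with hX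
    have hXv : ∀ v : (A ∪ B : Finset V), X v.1 = x (some v) := by
      intro v
      simp only [hX]
      rw [dif_pos v.2]
    have h1 : ∀ e : E, 0 < X e.1.1 + X e.1.2 - x none := by
      intro e
      have h2 := hx (Sum.inl e)
      rw [Fintype.sum_option] at h2
      simp only [cutM] at h2
      rw [hsumv x (fun v => (if e.1.1 = v then 1 else 0) + (if e.1.2 = v then 1 else 0)) X hXv] at h2
      have h3 : ∑ v ∈ A ∪ B, ((if e.1.1 = v then 1 else 0) + (if e.1.2 = v then (1 : ℝ) else 0)) *
          X v = X e.1.1 + X e.1.2 := by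
        simp_rw [add_mul, ite_mul, one_mul, zero_mul]
        rw [sum_add_distrib, sum_ite_eq, sum_ite_eq, if_pos (mem_union_left _ (hEm e).1),
          if_pos (mem_union_right _ (hEm e).2.1)]
      rw [h3] at h2
      linarith
    have h2 : ∀ I : Finset V, I ⊆ A ∪ B → (I ∈ IA ∨ I ∈ IB) → ∑ v ∈ I, X v < N * x none := by
      intro I hI h
      have h3 : ∑ v ∈ A ∪ B, -(if v ∈ I then (1 : ℝ) else 0) * X v = - ∑ v ∈ I, X v := by
        simp_rw [neg_mul, ite_mul, one_mul, zero_mul]
        rw [sum_neg_distrib, ← sum_filter, filter_mem_eq_inter, inter_eq_right.2 hI]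
      rcases h with h | h
      · have h4 := hx (Sum.inr (Sum.inl ⟨I, h⟩))
        rw [Fintype.sum_option] at h4
        simp only [cutM] at h4
        rw [hsumv x (fun v => -(if v ∈ I then 1 else 0)) X hXv, h3] at h4
        linarith
      · have h4 := hx (Sum.inr (Sum.inr ⟨I, h⟩))
        rw [Fintype.sum_option] at h4
        simp only [cutM] at h4
        rw [hsumv x (fun v => -(if v ∈ I then 1 else 0)) X hXv, h3] at h4
        linarith
    have hx0 : 0 < x none := by
      have h3 := h2 ∅ (empty_subset _) (Or.inl (by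
        rw [hIA, mem_filter, mem_powerset]
        exact ⟨empty_subset _, ind_empty⟩))
      rw [sum_empty] at h3
      exact (mul_pos_iff_of_pos_left hN0).1 h3
    refine ⟨(A ∪ B).filter fun v => x none ≤ 2 * X v, filter_subset _ _, ?_, ?_⟩
    · intro a ha b hb hab
      by_contra hcon
      push Not at hcon
      obtain ⟨h3, h4⟩ := hcon
      rw [mem_filter] at h3 h4
      have h5 := h1 ⟨(a, b), by rw [hE, mem_filter, mem_product]; exact ⟨⟨ha, hb⟩, hab⟩⟩
      simp only at h5
      have h6 : 2 * X a < x none := by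
        by_contra h
        exact h3 ⟨mem_union_left _ ha, not_lt.1 h⟩
      have h7 : 2 * X b < x none := by
        by_contra h
        exact h4 ⟨mem_union_right _ hb, not_lt.1 h⟩
      linarith
    · refine al_le_iff.2 fun I hI hi => ?_
      have hIAB : I ⊆ A ∪ B := hI.trans (filter_subset _ _)
      have h3 : ∀ C : Finset V, (I ∩ C ∈ IA ∨ I ∩ C ∈ IB) → (I ∩ C).card ≤ 2 * nN t k := by
        intro C hC
        have h4 := h2 (I ∩ C) (inter_subset_left.trans hIAB) hC
        have h5 : ((I ∩ C).card : ℝ) * x none ≤ ∑ v ∈ I ∩ C, 2 * X v := by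
          rw [← nsmul_eq_mul]
          refine card_nsmul_le_sum _ _ _ fun v hv => ?_
          exact (mem_filter.1 (hI (inter_subset_left hv))).2
        rw [← mul_sum] at h5
        have h6 : ((I ∩ C).card : ℝ) * x none < (2 * N) * x none := by linarith
        have h7 := lt_of_mul_lt_mul_right h6 hx0.le
        have h8 : ((I ∩ C).card : ℝ) < ((2 * nN t k : ℕ) : ℝ) := by
          push_cast
          exact h7
        exact (Nat.cast_lt.1 h8).le
      have h4 := h3 A (Or.inl (by
        rw [hIA, mem_filter, mem_powerset]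
        exact ⟨inter_subset_right, hi.mono inter_subset_left⟩))
      have h5 := h3 B (Or.inr (by
        rw [hIB, mem_filter, mem_powerset]
        exact ⟨inter_subset_right, hi.mono inter_subset_left⟩))
      have h6 : I = (I ∩ A) ∪ (I ∩ B) := by
        rw [← inter_union_distrib_left, inter_eq_left.2 hIAB]
      have h7 : I.card ≤ (I ∩ A).card + (I ∩ B).card := by
        conv_lhs => rw [h6]
        exact card_union_le _ _
      unfold cN
      omega
  · -- the dual solution
    exfalso
    set y : E → ℝ := fun e => l (Sum.inl e) with hy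
    set pA : IA → ℝ := fun I => l (Sum.inr (Sum.inl I)) with hpA
    set pB : IB → ℝ := fun I => l (Sum.inr (Sum.inr I)) with hpB
    set Z : ℝ := ∑ e, y e with hZ
    have hnone : Z = N * ∑ I, pA I + N * ∑ I, pB I := by
      have h1 := hl none
      rw [Fintype.sum_sum_type, Fintype.sum_sum_type] at h1
      simp only [cutM] at h1
      rw [← sum_mul, ← sum_mul, ← sum_mul] at h1
      simp only [hZ, hy, hpA, hpB]
      linarith
    have hPA0 : 0 ≤ ∑ I, pA I := sum_nonneg fun I _ => hl0 _
    have hPB0 : 0 ≤ ∑ I, pB I := sum_nonneg fun I _ => hl0 _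
    have hZ0 : 0 < Z := by
      rw [Fintype.sum_sum_type, Fintype.sum_sum_type] at hl1
      have h1 : Z + (∑ I, pA I + ∑ I, pB I) = 1 := hl1
      have h2 : 0 ≤ Z := sum_nonneg fun e _ => hl0 _
      rcases h2.eq_or_lt with h | h
      · rw [← h] at hnone h1
        have h3 : N * (∑ I, pA I + ∑ I, pB I) = 0 := by linarith
        have h4 : ∑ I, pA I + ∑ I, pB I = 1 := by linarith
        rw [h4] at h3
        linarith
      · exact h
    -- balance equations
    have heq : ∀ v ∈ A ∪ B, (∑ e : E, y e * ((if e.1.1 = v then 1 else 0) +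
        (if e.1.2 = v then 1 else 0))) = (∑ I : IA, if v ∈ I.1 then pA I else 0) +
        ∑ I : IB, if v ∈ I.1 then pB I else 0 := by
      intro v hv
      have h1 := hl (some ⟨v, hv⟩)
      rw [Fintype.sum_sum_type, Fintype.sum_sum_type] at h1
      simp only [cutM, mul_neg, mul_ite, mul_one, mul_zero] at h1
      rw [sum_neg_distrib, sum_neg_distrib] at h1
      simp only [hpA, hpB, hy]
      linarith
    have hEA : ∀ e : E, e.1.1 ∈ A := fun e => (hEm e).1
    have hEB : ∀ e : E, e.1.2 ∈ B := fun e => (hEm e).2.1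
    have heqA : ∀ v ∈ A, (∑ e : E, if e.1.1 = v then y e else 0) =
        ∑ I : IA, if v ∈ I.1 then pA I else 0 := by
      intro v hv
      have h1 := heq v (mem_union_left _ hv)
      have h2 : ∑ I : IB, (if v ∈ I.1 then pB I else 0) = 0 := by
        refine sum_eq_zero fun I _ => ?_
        rw [if_neg]
        intro h
        have h3 : I.1 ⊆ B := mem_powerset.1 (mem_filter.1 I.2).1
        exact disjoint_left.1 hAB hv (h3 h)
      rw [h2, add_zero] at h1
      rw [← h1]
      refine sum_congr rfl fun e _ => ?_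
      have h3 : e.1.2 ≠ v := fun h => disjoint_left.1 hAB hv (h ▸ hEB e)
      rw [if_neg h3, add_zero]
      split_ifs <;> simp
    have heqB : ∀ v ∈ B, (∑ e : E, if e.1.2 = v then y e else 0) =
        ∑ I : IB, if v ∈ I.1 then pB I else 0 := by
      intro v hv
      have h1 := heq v (mem_union_right _ hv)
      have h2 : ∑ I : IA, (if v ∈ I.1 then pA I else 0) = 0 := by
        refine sum_eq_zero fun I _ => ?_
        rw [if_neg]
        intro h
        have h3 : I.1 ⊆ A := mem_powerset.1 (mem_filter.1 I.2).1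
        exact disjoint_left.1 hAB (h3 h) hv
      rw [h2, zero_add] at h1
      rw [← h1]
      refine sum_congr rfl fun e _ => ?_
      have h3 : e.1.1 ≠ v := fun h => disjoint_left.1 hAB (h ▸ hEA e) hv
      rw [if_neg h3, zero_add]
      split_ifs <;> simp
    have hsA := cut_side G t k ht hK A y (fun e => hl0 _) (fun e : E => e.1.1) hEA pA
      (fun I => hl0 _) Z rfl hZ0 (by
        have : 0 ≤ N * ∑ I, pB I := mul_nonneg hN0.le hPB0
        linarith) heqA
    have hsB := cut_side G t k ht hK B y (fun e => hl0 _) (fun e : E => e.1.2) hEB pB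
      (fun I => hl0 _) Z rfl hZ0 (by
        have : 0 ≤ N * ∑ I, pA I := mul_nonneg hN0.le hPA0
        linarith) heqB
    -- the random choice
    obtain ⟨f, -, hf⟩ := greedy (fun e : E => y e / Z)
      (fun e => div_nonneg (hl0 _) hZ0.le) (by rw [← sum_div]; exact div_self hZ0.ne')
      (fun e f : E => (e.1.1 = f.1.1 ∨ G.Adj e.1.1 f.1.1) ∨ (e.1.2 = f.1.2 ∨ G.Adj e.1.2 f.1.2))
      (by
        intro e f h
        rcases h with (h | h) | (h | h)
        · exact Or.inl (Or.inl h.symm)
        · exact Or.inl (Or.inr h.symm)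
        · exact Or.inr (Or.inl h.symm)
        · exact Or.inr (Or.inr h.symm)) (rN t k) (by
        have h1 : (∑ e : E, ∑ f : E, if (e.1.1 = f.1.1 ∨ G.Adj e.1.1 f.1.1) ∨
            (e.1.2 = f.1.2 ∨ G.Adj e.1.2 f.1.2) then (y e / Z) * (y f / Z) else 0) ≤
            3 / (32 * (rN t k : ℝ)) + 3 / (32 * (rN t k : ℝ)) := by
          refine le_trans ?_ (add_le_add hsA hsB)
          rw [← sum_add_distrib]
          refine sum_le_sum fun e _ => ?_
          rw [← sum_add_distrib]
          refine sum_le_sum fun f _ => ?_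
          have h2 : 0 ≤ (y e / Z) * (y f / Z) :=
            mul_nonneg (div_nonneg (hl0 _) hZ0.le) (div_nonneg (hl0 _) hZ0.le)
          by_cases h3 : (e.1.1 = f.1.1 ∨ G.Adj e.1.1 f.1.1) <;>
            by_cases h4 : (e.1.2 = f.1.2 ∨ G.Adj e.1.2 f.1.2) <;> simp [h3, h4, h2]
        have h2 : (3 / (32 * (rN t k : ℝ)) + 3 / (32 * (rN t k : ℝ))) * (4 * (rN t k : ℝ)) < 1 := by
          have h3 : (3 / (32 * (rN t k : ℝ)) + 3 / (32 * (rN t k : ℝ))) * (4 * (rN t k : ℝ)) =
              3 / 4 := by
            field_simp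
            norm_num
          rw [h3]
          norm_num
        refine lt_of_le_of_lt (mul_le_mul_of_nonneg_right h1 (by positivity)) h2)
    refine sel G t k ht hK A B hS (rN t k) le_rfl (fun i => (f i).1.1) (fun i => (f i).1.2)
      ?_ ?_ (fun i => hEA _) (fun i => hEB _) ?_ ?_ (fun i => (hEm _).2.2)
    · intro i j h
      by_contra hne
      exact hf i j hne (Or.inl (Or.inl h))
    · intro i j h
      by_contra hne
      exact hf i j hne (Or.inr (Or.inl h))
    · intro i j h
      by_cases hne : i = j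
      · subst hne
        exact G.loopless.irrefl _ h
      · exact hf i j hne (Or.inl (Or.inr h))
    · intro i j h
      by_cases hne : i = j
      · subst hne
        exact G.loopless.irrefl _ h
      · exact hf i j hne (Or.inr (Or.inr h))

end Pool.Agent.H22.SW
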