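import Mathlib
import Pool.Agent.H22.SW.Defs
import Pool.Agent.H22.SW.Al
import Pool.Agent.H22.SW.CutL

set_option autoImplicit false

/-!
# Walking in a branch decomposition; degeneracy and balanced separators
-/

namespace Pool.Agent.H22.SW

open Finset

variable {V : Type}

theorem BT.subs_self (T : BT V) : T ∈ T.subs := by
  cases T <;> simp [BT.subs]

theorem BT.subs_cases {T s : BT V} (h : s ∈ T.subs) : s = T ∨ s ∈ T.psubs := by
  cases T with
  | leaf v => left; simpa [BT.subs] using h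
  | node a b =>
    simp only [BT.subs, List.mem_cons] at h
    exact h

theorem BT.subs_of_psubs {T s : BT V} (h : s ∈ T.psubs) : s ∈ T.subs := by
  cases T with
  | leaf v => simp [BT.psubs] at h
  | node a b =>
    simp only [BT.subs, List.mem_cons]
    exact Or.inr h

theorem BT.lv_of_subs {T : BT V} : ∀ {s : BT V}, s ∈ T.subs → ∀ v ∈ s.lv, v ∈ T.lv := by
  induction T with
  | leaf v =>
    intro s h
    have : s = BT.leaf v := by simpa [BT.subs] using h
    rw [this]
    exact fun _ h => h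
  | node a b iha ihb =>
    intro s h v hv
    simp only [BT.subs, List.mem_cons, List.mem_append] at h
    rcases h with h | h | h
    · rw [h] at hv
      exact hv
    · exact List.mem_append.2 (Or.inl (iha h v hv))
    · exact List.mem_append.2 (Or.inr (ihb h v hv))

theorem SimBd.mono {G : SimpleGraph V} {A B A' B' : Set V} {k : ℕ} (h : SimBd G A B k)
    (hA : A' ⊆ A) (hB : B' ⊆ B) : SimBd G A' B' k :=
  fun m x y hx hy => h m x y (fun i => hA (hx i)) (fun i => hB (hy i))

variable [DecidableEq V]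

/-- walking from the root to a balanced subtree -/
theorem walk (μ : Finset V → ℕ) (hu : ∀ A B, μ (A ∪ B) ≤ μ A + μ B)
    (h1 : ∀ v, μ {v} ≤ 1) (w : ℕ) (hw : 2 ≤ w) : ∀ T : BT V, 2 * w < 3 * μ T.lv.toFinset →
    ∃ s ∈ T.psubs, w < 3 * μ s.lv.toFinset ∧ 3 * μ s.lv.toFinset ≤ 2 * w := by
  intro T
  induction T with
  | leaf v =>
    intro h
    have h2 := h1 v
    have h3 : (BT.leaf v).lv.toFinset = {v} := by simp [BT.lv]
    rw [h3] at h
    omega
  | node a b iha ihb =>
    intro h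
    have h3 : (BT.node a b).lv.toFinset = a.lv.toFinset ∪ b.lv.toFinset := by
      simp [BT.lv]
    rw [h3] at h
    have h4 := hu a.lv.toFinset b.lv.toFinset
    rcases le_total (μ b.lv.toFinset) (μ a.lv.toFinset) with h5 | h5
    · by_cases h6 : 3 * μ a.lv.toFinset ≤ 2 * w
      · exact ⟨a, List.mem_append.2 (Or.inl (BT.subs_self a)), by omega, h6⟩
      · obtain ⟨s, hs, h7⟩ := iha (by omega)
        exact ⟨s, List.mem_append.2 (Or.inl (BT.subs_of_psubs hs)), h7⟩
    · by_cases h6 : 3 * μ b.lv.toFinset ≤ 2 * w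
      · exact ⟨b, List.mem_append.2 (Or.inr (BT.subs_self b)), by omega, h6⟩
      · obtain ⟨s, hs, h7⟩ := ihb (by omega)
        exact ⟨s, List.mem_append.2 (Or.inr (BT.subs_of_psubs hs)), h7⟩

/-- a minimal heavy subtree -/
theorem minsub (μ : Finset V → ℕ) (hu : ∀ A B, μ (A ∪ B) ≤ μ A + μ B)
    (h1 : ∀ v, μ {v} ≤ 1) (c : ℕ) (hc : 1 ≤ c) : ∀ T : BT V, c < μ T.lv.toFinset →
    ∃ s ∈ T.subs, c < μ s.lv.toFinset ∧ μ s.lv.toFinset ≤ 2 * c := by
  intro T
  induction T with
  | leaf v =>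
    intro h
    have h2 := h1 v
    have h3 : (BT.leaf v).lv.toFinset = {v} := by simp [BT.lv]
    rw [h3] at h
    omega
  | node a b iha ihb =>
    intro h
    by_cases ha : c < μ a.lv.toFinset
    · obtain ⟨s, hs, h7⟩ := iha ha
      exact ⟨s, List.mem_cons_of_mem _ (List.mem_append.2 (Or.inl hs)), h7⟩
    by_cases hb : c < μ b.lv.toFinset
    · obtain ⟨s, hs, h7⟩ := ihb hb
      exact ⟨s, List.mem_cons_of_mem _ (List.mem_append.2 (Or.inr hs)), h7⟩
    refine ⟨BT.node a b, BT.subs_self _, h, ?_⟩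
    have h3 : (BT.node a b).lv.toFinset = a.lv.toFinset ∪ b.lv.toFinset := by
      simp [BT.lv]
    have h4 := hu a.lv.toFinset b.lv.toFinset
    rw [h3]
    omega

/-- the cut of a piece `Y` given by a proper subtree -/
theorem cut_sub {G : SimpleGraph V} {t k : ℕ} (ht : 1 ≤ t) (hK : KFree G t) {X : Finset V}
    {T : BT V} (hT : ∀ s ∈ T.psubs, SimBd G {v | v ∈ s.lv} {v | v ∈ X ∧ v ∉ s.lv} k)
    {Y : Finset V} (hY : Y ⊆ X) {s : BT V} (hs : s ∈ T.psubs) :
    ∃ S ⊆ Y, Cov G S (Y.filter fun v => v ∈ s.lv) (Y.filter fun v => v ∉ s.lv) ∧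
      al G S ≤ cN t k := by
  obtain ⟨S, h1, h2, h3⟩ := cut_lemma G t k ht hK (Y.filter fun v => v ∈ s.lv)
    (Y.filter fun v => v ∉ s.lv) (disjoint_filter_filter_not Y Y _) ((hT s hs).mono
      (fun v hv => by
        rw [mem_coe, mem_filter] at hv
        exact hv.2)
      (fun v hv => by
        rw [mem_coe, mem_filter] at hv
        exact ⟨hY hv.1, hv.2⟩))
  exact ⟨S, h1.trans (union_subset (filter_subset _ _) (filter_subset _ _)), h2, h3⟩

theorem cN_pos (t k : ℕ) (ht : 1 ≤ t) : 1 ≤ cN t k := by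
  unfold cN nN rN
  have h : 0 < t ^ 2 * (32 * 4 ^ (4 * (k + 2 * t))) ^ t ^ 2 := by positivity
  omega

open Classical in
/-- degeneracy: each piece has a vertex whose neighbourhood has small independence number -/
theorem degen {G : SimpleGraph V} {t k : ℕ} (ht : 1 ≤ t) (hK : KFree G t) {X : Finset V}
    (hX : SimwOn G X k) {Y : Finset V} (hY : Y ⊆ X) (hne : Y.Nonempty) :
    ∃ v ∈ Y, al G (Y.filter fun u => G.Adj v u) ≤ 3 * cN t k := by
  obtain ⟨T, hT, hTc⟩ := hX
  have hYT : ∀ v ∈ Y, v ∈ T.lv := fun v hv => (hT.2 v).2 (hY hv)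
  have hc := cN_pos t k ht
  by_cases hal : al G Y ≤ cN t k
  · obtain ⟨v, hv⟩ := hne
    exact ⟨v, hv, (al_mono (filter_subset _ _)).trans (by omega)⟩
  have hYT' : Y ∩ T.lv.toFinset = Y := inter_eq_left.2 fun v hv => List.mem_toFinset.2 (hYT v hv)
  obtain ⟨s, hs, h1, h2⟩ := minsub (fun Z => al G (Y ∩ Z))
    (fun A B => by
      show al G (Y ∩ (A ∪ B)) ≤ al G (Y ∩ A) + al G (Y ∩ B)
      rw [inter_union_distrib_left]
      exact al_union_le _ _)
    (fun v => (al_mono inter_subset_right).trans (al_singleton v).le) (cN t k) hc T (by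
      show cN t k < al G (Y ∩ T.lv.toFinset)
      rw [hYT']
      omega)
  rcases BT.subs_cases hs with h | h
  · obtain ⟨v, hv⟩ := hne
    refine ⟨v, hv, (al_mono (filter_subset _ _)).trans ?_⟩
    rw [h] at h2
    change al G (Y ∩ T.lv.toFinset) ≤ 2 * cN t k at h2
    rw [hYT'] at h2
    omega
  · obtain ⟨S, hS, hcov, hSa⟩ := cut_sub ht hK hTc hY h
    have hA : (Y.filter fun v => v ∈ s.lv) = Y ∩ s.lv.toFinset := by
      ext v
      simp
    rw [← hA] at h1 h2
    have h3 : ∃ v ∈ (Y.filter fun v => v ∈ s.lv), v ∉ S := by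
      by_contra hcon
      push Not at hcon
      have := al_mono (G := G) (show (Y.filter fun v => v ∈ s.lv) ⊆ S from fun v hv => hcon v hv)
      omega
    obtain ⟨v, hv, hvS⟩ := h3
    refine ⟨v, (mem_filter.1 hv).1, ?_⟩
    have h4 : (Y.filter fun u => G.Adj v u) ⊆ (Y.filter fun v => v ∈ s.lv) ∪ S := by
      intro u hu
      rw [mem_filter] at hu
      by_cases hus : u ∈ s.lv
      · exact mem_union_left _ (mem_filter.2 ⟨hu.1, hus⟩)
      · have h5 := hcov v hv u (mem_filter.2 ⟨hu.1, hus⟩) hu.2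
        exact mem_union_right _ (h5.resolve_left hvS)
    have h5 := (al_mono (G := G) h4).trans (al_union_le _ _)
    omega

/-- balanced separators -/
theorem bal {G : SimpleGraph V} {t k : ℕ} (ht : 1 ≤ t) (hK : KFree G t) {X : Finset V}
    (hX : SimwOn G X k) {V' W : Finset V} (hV : V' ⊆ X) (hW : W ⊆ V') {m : ℕ} (hm : 1 ≤ m)
    (hw : al G W = 3 * m) :
    ∃ S A B : Finset V, S ∪ A ∪ B = V' ∧ Disjoint S A ∧ Disjoint S B ∧ Disjoint A B ∧
      Anti G A B ∧ al G S ≤ cN t k ∧ al G (W ∩ A) ≤ 2 * m + cN t k ∧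
      al G (W ∩ B) ≤ 2 * m + cN t k := by
  obtain ⟨T, hT, hTc⟩ := hX
  have hWT : W ∩ T.lv.toFinset = W := inter_eq_left.2 fun v hv =>
    List.mem_toFinset.2 ((hT.2 v).2 (hV (hW hv)))
  obtain ⟨s, hs, h1, h2⟩ := walk (fun Z => al G (W ∩ Z))
    (fun A B => by
      show al G (W ∩ (A ∪ B)) ≤ al G (W ∩ A) + al G (W ∩ B)
      rw [inter_union_distrib_left]
      exact al_union_le _ _)
    (fun v => (al_mono inter_subset_right).trans (al_singleton v).le) (3 * m) (by omega) T (by
      show 2 * (3 * m) < 3 * al G (W ∩ T.lv.toFinset)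
      rw [hWT]
      omega)
  obtain ⟨S, hS, hcov, hSa⟩ := cut_sub ht hK hTc hV hs
  refine ⟨S, (V'.filter fun v => v ∈ s.lv) \ S, (V'.filter fun v => v ∉ s.lv) \ S, ?_, ?_, ?_, ?_,
    ?_, hSa, ?_⟩
  · ext v
    simp only [mem_union, mem_sdiff, mem_filter]
    constructor
    · rintro ((h | h) | h)
      · exact hS h
      · exact h.1.1
      · exact h.1.1
    · intro h
      by_cases h3 : v ∈ S
      · exact Or.inl (Or.inl h3)
      · by_cases h4 : v ∈ s.lv
        · exact Or.inl (Or.inr ⟨⟨h, h4⟩, h3⟩)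
        · exact Or.inr ⟨⟨h, h4⟩, h3⟩
  · exact disjoint_sdiff
  · exact disjoint_sdiff
  · refine disjoint_left.2 fun v h3 h4 => ?_
    exact (mem_filter.1 (mem_sdiff.1 h4).1).2 (mem_filter.1 (mem_sdiff.1 h3).1).2
  · intro a ha b hb hab
    rw [mem_sdiff] at ha hb
    rcases hcov a ha.1 b hb.1 hab with h | h
    · exact ha.2 h
    · exact hb.2 h
  · have hanti : Anti G (W ∩ ((V'.filter fun v => v ∈ s.lv) \ S))
        (W ∩ ((V'.filter fun v => v ∉ s.lv) \ S)) := by
      intro a ha b hb hab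
      rw [mem_inter, mem_sdiff] at ha hb
      rcases hcov a ha.2.1 b hb.2.1 hab with h | h
      · exact ha.2.2 h
      · exact hb.2.2 h
    have hdis : Disjoint (W ∩ ((V'.filter fun v => v ∈ s.lv) \ S))
        (W ∩ ((V'.filter fun v => v ∉ s.lv) \ S)) := by
      refine disjoint_left.2 fun v h3 h4 => ?_
      exact (mem_filter.1 (mem_sdiff.1 (mem_inter.1 h4).2).1).2
        (mem_filter.1 (mem_sdiff.1 (mem_inter.1 h3).2).1).2
    have h3 := al_add_le hdis hanti (inter_subset_left (s₁ := W)) (inter_subset_left (s₁ := W))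
    have h4 : W ∩ ((V'.filter fun v => v ∈ s.lv) \ S) ⊆ W ∩ s.lv.toFinset := by
      intro v hv
      rw [mem_inter, mem_sdiff, mem_filter] at hv
      exact mem_inter.2 ⟨hv.1, List.mem_toFinset.2 hv.2.1.2⟩
    have h5 : W ∩ s.lv.toFinset ⊆ (W ∩ ((V'.filter fun v => v ∈ s.lv) \ S)) ∪ S := by
      intro v hv
      rw [mem_inter, List.mem_toFinset] at hv
      by_cases h6 : v ∈ S
      · exact mem_union_right _ h6
      · exact mem_union_left _ (mem_inter.2 ⟨hv.1, mem_sdiff.2 ⟨mem_filter.2 ⟨hW hv.1, hv.2⟩, h6⟩⟩)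
    have h6 := al_mono (G := G) h4
    have h7 := (al_mono (G := G) h5).trans (al_union_le _ _)
    omega

end Pool.Agent.H22.SW
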