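import Mathlib
import Pool.Agent.H22.SW.Cor1
import Pool.Agent.H22.SW.Tree

set_option autoImplicit false

/-!
# Correctness of the degeneracy ordering
-/

namespace Pool.Agent.H22.SW

open Finset

variable {G : SimpleGraph ℕ} {M : List (List Bool)} {L : List (List ℕ)} {Q : ℕ}

/-- the invariant of the ordering -/
structure OrdInv (G : SimpleGraph ℕ) (V : List ℕ) (d : ℕ) (s : List ℕ × List (ℕ × List ℕ)) :
    Prop where
  sub : s.1.Sublist V
  cov : ∀ v ∈ V, v ∈ s.1 ∨ ∃ p ∈ s.2, p.1 = v
  key : (s.2.map Prod.fst).Nodup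
  keyr : ∀ p ∈ s.2, p.1 ∉ s.1
  keyV : ∀ p ∈ s.2, p.1 ∈ V
  self : ∀ p ∈ s.2, p.1 ∈ p.2
  al : ∀ p ∈ s.2, al G p.2.toFinset ≤ d
  rem : ∀ p ∈ s.2, ∀ u ∈ s.1, G.Adj p.1 u → u ∈ p.2
  pw : s.2.Pairwise fun q p => G.Adj p.1 q.1 → q.1 ∈ p.2

theorem al_closed {v : ℕ} {Y : Finset ℕ} {d : ℕ} (hd : 1 ≤ d) (h : al G Y ≤ d) (Z : Finset ℕ)
    (hZ : ∀ u ∈ Z, u = v ∨ (u ∈ Y ∧ G.Adj v u)) : al G Z ≤ d := by
  classical
  refine al_le_iff.2 fun I hI hi => ?_
  by_cases hv : v ∈ I
  · have h1 : I ⊆ {v} := by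
      intro u hu
      rcases hZ u (hI hu) with h2 | h2
      · exact mem_singleton.2 h2
      · exact absurd h2.2 (hi v hv u hu)
    exact (card_le_card h1).trans (by rw [card_singleton]; exact hd)
  · refine le_trans (card_le_al ?_ hi) h
    intro u hu
    rcases hZ u (hI hu) with h2 | h2
    · exact absurd (h2 ▸ hu) hv
    · exact h2.1

theorem mem_lowb (h : Ctx G M L Q) {d : ℕ} (hd : d + 1 ≤ Q) {Y : List ℕ}
    (hY : ∀ u ∈ Y, u ∈ vl M) {v : ℕ} : v ∈ lowb M L d Y ↔ v ∈ Y ∧
      Pool.Agent.H22.SW.al G (Y.filter fun u => adjb M v u).toFinset ≤ d := by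
  unfold lowb
  rw [List.mem_filter]
  refine and_congr_right fun _ => ?_
  exact alb_iff h (fun u hu => hY u (List.mem_filter.1 hu).1) hd

theorem ordStep_ok (h : Ctx G M L Q) {d : ℕ} (hd : d + 1 ≤ Q) (hd1 : 1 ≤ d)
    {s : List ℕ × List (ℕ × List ℕ)} (hs : OrdInv G (vl M) d s) :
    OrdInv G (vl M) d (ordStep M L d s) ∧
      (lowb M L d s.1 ≠ [] → (ordStep M L d s).1.length + 1 ≤ s.1.length) := by
  classical
  have hsV : ∀ u ∈ s.1, u ∈ vl M := fun u hu => hs.sub.subset hu
  unfold ordStep
  split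
  · rename_i h0
    exact ⟨hs, fun h1 => absurd h0 h1⟩
  · rename_i v r hv
    have hv1 : v ∈ lowb M L d s.1 := by rw [hv]; exact List.mem_cons_self
    rw [mem_lowb h hd hsV] at hv1
    obtain ⟨hvs, hval⟩ := hv1
    have hvV := hsV v hvs
    have hmem : ∀ u, u ∈ (s.1.filter fun u => (u == v) || adjb M v u) ↔
        u ∈ s.1 ∧ (u = v ∨ G.Adj v u) := by
      intro u
      rw [List.mem_filter]
      refine and_congr_right fun hu => ?_
      rw [Bool.or_eq_true, beq_iff_eq, h.adj v hvV u (hsV u hu)]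
    have hmem2 : ∀ u, u ∈ (s.1.filter fun u => !(u == v)) ↔ u ∈ s.1 ∧ u ≠ v := by
      intro u
      rw [List.mem_filter]
      refine and_congr_right fun hu => ?_
      simp
    refine ⟨⟨?_, ?_, ?_, ?_, ?_, ?_, ?_, ?_, ?_⟩, fun _ => ?_⟩
    · exact List.filter_sublist.trans hs.sub
    · intro u hu
      by_cases huv : u = v
      · exact Or.inr ⟨_, List.mem_cons_self, huv.symm⟩
      · rcases hs.cov u hu with h1 | ⟨p, hp, h1⟩
        · exact Or.inl ((hmem2 u).2 ⟨h1, huv⟩)
        · exact Or.inr ⟨p, List.mem_cons_of_mem _ hp, h1⟩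
    · rw [List.map_cons, List.nodup_cons]
      refine ⟨fun h1 => ?_, hs.key⟩
      obtain ⟨p, hp, h2⟩ := List.mem_map.1 h1
      exact hs.keyr p hp (by rw [h2]; exact hvs)
    · intro p hp
      rcases List.mem_cons.1 hp with rfl | hp
      · rw [hmem2]
        exact fun h1 => h1.2 rfl
      · rw [hmem2]
        exact fun h1 => hs.keyr p hp h1.1
    · intro p hp
      rcases List.mem_cons.1 hp with rfl | hp
      · exact hvV
      · exact hs.keyV p hp
    · intro p hp
      rcases List.mem_cons.1 hp with rfl | hp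
      · exact (hmem v).2 ⟨hvs, Or.inl rfl⟩
      · exact hs.self p hp
    · intro p hp
      rcases List.mem_cons.1 hp with rfl | hp
      · refine al_closed (v := v) hd1 hval _ ?_
        intro u hu
        have h1 := (hmem u).1 (List.mem_toFinset.1 hu)
        refine h1.2.imp id fun h2 => ⟨?_, h2⟩
        rw [List.mem_toFinset, List.mem_filter]
        exact ⟨h1.1, (h.adj v hvV u (hsV u h1.1)).2 h2⟩
      · exact hs.al p hp
    · intro p hp u hu hpu
      have hu' := (hmem2 u).1 hu
      rcases List.mem_cons.1 hp with rfl | hp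
      · exact (hmem u).2 ⟨hu'.1, Or.inr hpu⟩
      · exact hs.rem p hp u hu'.1 hpu
    · rw [List.pairwise_cons]
      exact ⟨fun p hp hpv => hs.rem p hp v hvs hpv, hs.pw⟩
    · have h1 : (s.1.filter fun u => !(u == v)).length < s.1.length := by
        refine List.length_filter_lt_length_iff_exists.2 ⟨v, hvs, ?_⟩
        simp
      exact h1

theorem ordInv_start (V : List ℕ) (d : ℕ) : OrdInv G V d (V, []) where
  sub := List.Sublist.refl _
  cov := fun v hv => Or.inl hv
  key := List.nodup_nil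
  keyr := fun p hp => absurd hp List.not_mem_nil
  keyV := fun p hp => absurd hp List.not_mem_nil
  self := fun p hp => absurd hp List.not_mem_nil
  al := fun p hp => absurd hp List.not_mem_nil
  rem := fun p hp => absurd hp List.not_mem_nil
  pw := List.Pairwise.nil

/-- the properties of the closed neighbourhoods -/
structure OrdB (G : SimpleGraph ℕ) (V : List ℕ) (d : ℕ) (B : List (ℕ × List ℕ)) : Prop where
  cov : ∀ v ∈ V, ∃ p ∈ B, p.1 = v
  key : (B.map Prod.fst).Nodup
  self : ∀ p ∈ B, p.1 ∈ p.2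
  al : ∀ p ∈ B, al G p.2.toFinset ≤ d
  pw : B.Pairwise fun q p => G.Adj p.1 q.1 → q.1 ∈ p.2

theorem ordB_ok (h : Ctx G M L Q) {t k d : ℕ} (ht : 1 ≤ t) (hK : KFree G t)
    (hX : SimwOn G (vl M).toFinset k) (hc : 3 * cN t k ≤ d) (hd : d + 1 ≤ Q) :
    OrdB G (vl M) d (ordB M L d) := by
  classical
  have hd1 : 1 ≤ d := by
    have := cN_pos t k ht
    omega
  have key : ∀ i, OrdInv G (vl M) d ((ordStep M L d)^[i] (vl M, [])) ∧
      ((ordStep M L d)^[i] (vl M, [])).1.length ≤ M.length - i := by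
    intro i
    induction i with
    | zero =>
      refine ⟨ordInv_start _ _, ?_⟩
      show (vl M).length ≤ _
      unfold vl
      rw [List.length_range]
      omega
    | succ i ih =>
      rw [Function.iterate_succ_apply']
      set s := (ordStep M L d)^[i] (vl M, []) with hs
      have h1 := ordStep_ok h hd hd1 ih.1
      refine ⟨h1.1, ?_⟩
      by_cases h0 : s.1 = []
      · have h2 : (ordStep M L d s).1.Sublist [] := by
          rw [← h0]
          unfold ordStep
          split
          · exact List.Sublist.refl _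
          · exact List.filter_sublist
        rw [List.sublist_nil.1 h2]
        exact Nat.zero_le _
      · have hsV : ∀ u ∈ s.1, u ∈ vl M := fun u hu => ih.1.sub.subset hu
        have h2 : lowb M L d s.1 ≠ [] := by
          obtain ⟨v, hv, hval⟩ := degen ht hK hX (Y := s.1.toFinset) (fun u hu =>
            List.mem_toFinset.2 (hsV u (List.mem_toFinset.1 hu))) (by
              obtain ⟨u, hu⟩ := List.exists_mem_of_ne_nil _ h0
              exact ⟨u, List.mem_toFinset.2 hu⟩)
          rw [List.mem_toFinset] at hv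
          have h3 : v ∈ lowb M L d s.1 := by
            rw [mem_lowb h hd hsV]
            refine ⟨hv, (al_mono ?_).trans (hval.trans hc)⟩
            intro u hu
            rw [List.mem_toFinset, List.mem_filter] at hu
            rw [mem_filter, List.mem_toFinset]
            exact ⟨hu.1, (h.adj v (hsV v hv) u (hsV u hu.1)).1 hu.2⟩
          exact List.ne_nil_of_mem h3
        have h3 := h1.2 h2
        have h4 := ih.2
        omega
  have h1 := key M.length
  have h0 : ((ordStep M L d)^[M.length] (vl M, [])).1 = [] := by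
    have := h1.2
    rw [Nat.sub_self] at this
    exact List.length_eq_zero_iff.1 (Nat.le_zero.1 this)
  refine ⟨fun v hv => ?_, h1.1.key, h1.1.self, h1.1.al, h1.1.pw⟩
  rcases h1.1.cov v hv with h2 | h2
  · rw [h0] at h2
    exact absurd h2 List.not_mem_nil
  · exact h2

/-- a set of vertices is covered by few closed neighbourhoods -/
theorem cover_by {B : List (ℕ × List ℕ)} (hself : ∀ p ∈ B, p.1 ∈ p.2)
    (hpw : B.Pairwise fun q p => G.Adj p.1 q.1 → q.1 ∈ p.2) :
    ∀ S : Finset ℕ, (∀ u ∈ S, ∃ p ∈ B, p.1 = u) →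
      ∃ J ⊆ S, Ind G J ∧ ∀ u ∈ S, ∃ p ∈ B, p.1 ∈ J ∧ u ∈ p.2 := by
  classical
  induction B using List.reverseRecOn with
  | nil =>
    intro S hS
    refine ⟨∅, empty_subset _, ind_empty, fun u hu => ?_⟩
    obtain ⟨p, hp, _⟩ := hS u hu
    exact absurd hp List.not_mem_nil
  | append_singleton B p ih =>
    intro S hS
    rw [List.pairwise_append] at hpw
    obtain ⟨hpw1, -, hpw2⟩ := hpw
    have ih' := ih (fun q hq => hself q (List.mem_append_left _ hq)) hpw1
    have hpp : p.1 ∈ p.2 := hself p (List.mem_append_right _ (List.mem_singleton_self p))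
    by_cases hpS : p.1 ∈ S
    · obtain ⟨J, hJ, hJi, hJc⟩ := ih' (S.filter fun u => u ∉ p.2) (fun u hu => by
        rw [mem_filter] at hu
        obtain ⟨q, hq, hqu⟩ := hS u hu.1
        rcases List.mem_append.1 hq with h1 | h1
        · exact ⟨q, h1, hqu⟩
        · rw [List.mem_singleton] at h1
          rw [h1] at hqu
          exact absurd (hqu ▸ hpp) hu.2)
      have hnadj : ∀ u ∈ J, ¬ G.Adj p.1 u := by
        intro u hu hadj
        have h1 := mem_filter.1 (hJ hu)
        obtain ⟨q, hq, hqu⟩ := hS u h1.1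
        rcases List.mem_append.1 hq with h2 | h2
        · have h3 := hpw2 q h2 p (List.mem_singleton_self p)
          rw [hqu] at h3
          exact h1.2 (h3 hadj)
        · rw [List.mem_singleton] at h2
          rw [h2] at hqu
          exact h1.2 (hqu ▸ hpp)
      refine ⟨insert p.1 J, insert_subset hpS (hJ.trans (filter_subset _ _)), ?_, ?_⟩
      · intro a ha b hb
        rw [mem_insert] at ha hb
        rcases ha with rfl | ha <;> rcases hb with rfl | hb
        · exact G.loopless.irrefl _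
        · exact hnadj b hb
        · exact fun h => hnadj a ha h.symm
        · exact hJi a ha b hb
      · intro u hu
        by_cases hup : u ∈ p.2
        · exact ⟨p, List.mem_append_right _ (List.mem_singleton_self p), mem_insert_self _ _, hup⟩
        · obtain ⟨q, hq, hqJ, huq⟩ := hJc u (mem_filter.2 ⟨hu, hup⟩)
          exact ⟨q, List.mem_append_left _ hq, mem_insert_of_mem hqJ, huq⟩
    · obtain ⟨J, hJ, hJi, hJc⟩ := ih' S (fun u hu => by
        obtain ⟨q, hq, hqu⟩ := hS u hu
        rcases List.mem_append.1 hq with h1 | h1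
        · exact ⟨q, h1, hqu⟩
        · rw [List.mem_singleton] at h1
          rw [h1] at hqu
          exact absurd (hqu ▸ hu) hpS)
      refine ⟨J, hJ, hJi, fun u hu => ?_⟩
      obtain ⟨q, hq, hqJ, huq⟩ := hJc u hu
      exact ⟨q, List.mem_append_left _ hq, hqJ, huq⟩

/-- the independence number of a union of closed neighbourhoods -/
theorem al_union_nb {V : List ℕ} {d : ℕ} {B : List (ℕ × List ℕ)} (hB : OrdB G V d B)
    (l : List ℕ) (Z : Finset ℕ) (hZ : ∀ u ∈ Z, ∃ p ∈ B, p.1 ∈ l ∧ u ∈ p.2) :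
    al G Z ≤ l.length * d := by
  classical
  let f : ℕ → Finset ℕ := fun v => if h : ∃ p ∈ B, p.1 = v then h.choose.2.toFinset else ∅
  have h1 : Z ⊆ l.toFinset.biUnion f := by
    intro u hu
    obtain ⟨p, hp, hpl, hup⟩ := hZ u hu
    refine mem_biUnion.2 ⟨p.1, List.mem_toFinset.2 hpl, ?_⟩
    have h2 : ∃ q ∈ B, q.1 = p.1 := ⟨p, hp, rfl⟩
    show u ∈ (if h : ∃ q ∈ B, q.1 = p.1 then h.choose.2.toFinset else ∅)
    rw [dif_pos h2]
    have h3 := h2.choose_spec
    have h4 : h2.choose = p := List.inj_on_of_nodup_map hB.key h3.1 hp h3.2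
    rw [h4, List.mem_toFinset]
    exact hup
  have h2 := al_biUnion_le (G := G) l.toFinset f d (fun v _ => by
    show al G (if h : ∃ q ∈ B, q.1 = v then h.choose.2.toFinset else ∅) ≤ d
    split_ifs with h
    · exact hB.al _ h.choose_spec.1
    · rw [al_empty]
      exact Nat.zero_le _)
  exact (al_mono h1).trans (h2.trans (Nat.mul_le_mul_right _ (List.toFinset_card_le l)))

end Pool.Agent.H22.SW
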