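import Mathlib
import Pool.Agent.H22.SW.Cor2

set_option autoImplicit false

/-!
# A good candidate exists
-/

namespace Pool.Agent.H22.SW

open Finset

variable {G : SimpleGraph ℕ} {M : List (List Bool)} {L : List (List ℕ)} {Q : ℕ}

theorem mem_bd1 {V W' S A : List ℕ} {u : ℕ} :
    u ∈ bd1 V W' S A ↔ u ∈ V ∧ (u ∈ S ∨ (u ∈ W' ∧ u ∈ A)) := by
  unfold bd1
  rw [List.mem_filter]
  simp only [Bool.or_eq_true, Bool.and_eq_true, memb_iff]

theorem mem_bd2 {V W' S A : List ℕ} {u : ℕ} :
    u ∈ bd2 V W' S A ↔ u ∈ V ∧ (u ∈ S ∨ (u ∈ W' ∧ u ∉ A)) := by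
  unfold bd2
  rw [List.mem_filter]
  simp only [Bool.or_eq_true, Bool.and_eq_true, memb_iff, not_memb_iff]

theorem antb_iff (h : Ctx G M L Q) {V' S A : List ℕ} (hV' : ∀ u ∈ V', u ∈ vl M)
    (hA : ∀ u ∈ A, u ∈ vl M) : antb M V' S A = true ↔
      ∀ a ∈ A, ∀ b ∈ V', a ∉ S → b ∉ S → b ∉ A → ¬ G.Adj a b := by
  unfold antb
  rw [List.all_eq_true]
  refine forall₂_congr fun a ha => ?_
  rw [List.all_eq_true]
  refine forall₂_congr fun b hb => ?_
  simp only [Bool.or_eq_true, memb_iff]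
  rw [← h.adj a (hA a ha) b (hV' b hb)]
  by_cases h1 : a ∈ S <;> by_cases h2 : b ∈ S <;> by_cases h3 : b ∈ A <;> simp [h1, h2, h3]

theorem okb_iff (h : Ctx G M L Q) {w : ℕ} (hw : w + 1 ≤ Q) {W' V' : List ℕ}
    {p : List ℕ × List ℕ} (hV' : ∀ u ∈ V', u ∈ vl M) (hA : ∀ u ∈ p.2, u ∈ vl M) :
    okb M L w W' V' p = true ↔ al G (bd1 (vl M) W' p.1 p.2).toFinset ≤ w ∧
      al G (bd2 (vl M) W' p.1 p.2).toFinset ≤ w ∧
      ∀ a ∈ p.2, ∀ b ∈ V', a ∉ p.1 → b ∉ p.1 → b ∉ p.2 → ¬ G.Adj a b := by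
  unfold okb
  rw [Bool.and_eq_true, Bool.and_eq_true, alb_iff h (fun u hu => (mem_bd1.1 hu).1) hw,
    alb_iff h (fun u hu => (mem_bd2.1 hu).1) hw, antb_iff h hV' hA, and_assoc]

/-- the remaining vertices -/
theorem mem_rest {V' S : List ℕ} {u : ℕ} :
    u ∈ (V'.filter fun u => !(memb u S)) ↔ u ∈ V' ∧ u ∉ S := by
  rw [List.mem_filter, not_memb_iff]

theorem cands_sub {B : List (ℕ × List ℕ)} {V' : List ℕ} {p : List ℕ × List ℕ}
    (hp : p ∈ cands M L B V') : ∀ u ∈ p.2, u ∈ V' := by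
  unfold cands at hp
  rcases List.mem_cons.1 hp with rfl | hp
  · exact fun u hu => hu
  · obtain ⟨l, -, hp⟩ := List.mem_flatMap.1 hp
    obtain ⟨J, -, rfl⟩ := List.mem_map.1 hp
    intro u hu
    have h1 := reach_sub (M := M) (Y := V'.filter fun u => !(memb u (sepS (vl M) B V' l)))
      (X := V'.filter fun u => !(memb u (sepS (vl M) B V' l)) && memb u J) (fun x hx => by
        rw [List.mem_filter, Bool.and_eq_true] at hx
        rw [List.mem_filter]
        exact ⟨hx.1, hx.2.1⟩) u hu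
    exact (List.mem_filter.1 h1).1

theorem cand_ok (h : Ctx G M L Q) {t k c : ℕ} (ht : 1 ≤ t) (hK : KFree G t)
    (hX : SimwOn G (vl M).toFinset k) (hc : cN t k ≤ c) (hQ : Q = wc c + 1)
    {B : List (ℕ × List ℕ)} (hB : OrdB G (vl M) (3 * c) B) {W' V' : List ℕ}
    (hW' : ∀ u ∈ W', u ∈ V') (hV' : ∀ u ∈ V', u ∈ vl M)
    (hal : al G W'.toFinset ≤ wc c + 1) :
    ∃ p ∈ cands M L B V', okb M L (wc c) W' V' p = true := by
  classical
  have hc1 : 1 ≤ c := (cN_pos t k ht).trans hc
  by_cases hle : al G W'.toFinset ≤ wc c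
  · refine ⟨([], V'), List.mem_cons_self, ?_⟩
    rw [okb_iff h (by omega) hV' hV']
    refine ⟨(al_mono fun u hu => ?_).trans hle, ?_, fun a _ b hb _ _ hbn => absurd hb hbn⟩
    · rw [List.mem_toFinset, mem_bd1] at hu
      rw [List.mem_toFinset]
      rcases hu.2 with h1 | h1
      · exact absurd h1 List.not_mem_nil
      · exact h1.1
    · have h2 : (bd2 (vl M) W' [] V').toFinset = ∅ := by
        rw [eq_empty_iff_forall_notMem]
        intro u hu
        rw [List.mem_toFinset, mem_bd2] at hu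
        rcases hu.2 with h1 | h1
        · exact List.not_mem_nil h1
        · exact h1.2 (hW' u h1.1)
      show al G (bd2 (vl M) W' [] V').toFinset ≤ wc c
      rw [h2, al_empty]
      exact Nat.zero_le _
  · have hcc : c * (3 * c) = 3 * c ^ 2 := by ring
    have hm : al G W'.toFinset = 3 * (3 * c ^ 2 + c + 1) := by
      unfold wc at hle hal
      omega
    obtain ⟨S0, A0, B0, hVe, hSA, hSB, hAB, hanti, hSa, hWA, hWB⟩ := bal ht hK hX
      (V' := V'.toFinset) (fun u hu => List.mem_toFinset.2 (hV' u (List.mem_toFinset.1 hu)))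
      (W := W'.toFinset) (fun u hu => List.mem_toFinset.2 (hW' u (List.mem_toFinset.1 hu)))
      (by omega) hm
    have hVm : ∀ u, u ∈ V' ↔ u ∈ S0 ∨ u ∈ A0 ∨ u ∈ B0 := by
      intro u
      rw [← List.mem_toFinset, ← hVe, mem_union, mem_union, or_assoc]
    -- the covering of the separator
    obtain ⟨J0, hJ0, hJ0i, hJ0c⟩ := cover_by hB.self hB.pw S0 fun u hu =>
      hB.cov u (hV' u ((hVm u).2 (Or.inl hu)))
    have hJ0card : J0.toList.length ≤ c := by
      rw [length_toList]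
      exact (card_le_al hJ0 hJ0i).trans (hSa.trans hc)
    set l := J0.toList with hl
    set S := sepS (vl M) B V' l with hS
    have hmS : ∀ u, u ∈ S ↔ u ∈ V' ∧ ∃ p ∈ B, p.1 ∈ l ∧ u ∈ p.2 := by
      intro u
      rw [hS]
      unfold sepS
      rw [List.mem_filter, Bool.and_eq_true, memb_iff, List.any_eq_true]
      constructor
      · rintro ⟨-, h1, p, hp, h2⟩
        rw [Bool.and_eq_true, memb_iff, memb_iff] at h2
        exact ⟨h1, p, hp, h2⟩
      · rintro ⟨h1, p, hp, h2⟩
        refine ⟨hV' u h1, h1, p, hp, ?_⟩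
        rw [Bool.and_eq_true, memb_iff, memb_iff]
        exact h2
    have hS0S : ∀ u ∈ S0, u ∈ S := by
      intro u hu
      rw [hmS]
      refine ⟨(hVm u).2 (Or.inl hu), ?_⟩
      obtain ⟨p, hp, h1, h2⟩ := hJ0c u hu
      exact ⟨p, hp, by rw [hl, mem_toList]; exact h1, h2⟩
    have halS : al G S.toFinset ≤ 3 * c ^ 2 := by
      refine (al_union_nb hB l _ fun u hu => ?_).trans ?_
      · exact ((hmS u).1 (List.mem_toFinset.1 hu)).2
      · rw [← hcc]
        exact Nat.mul_le_mul_right _ hJ0card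
    -- the seeds
    obtain ⟨J1, hJ1, hJ1i, hJ1c, hJ1d⟩ := exists_dom G ((W'.toFinset ∩ A0) \ S.toFinset)
    set Y := V'.filter fun u => !(memb u S) with hY
    set X := V'.filter fun u => !(memb u S) && memb u J1.toList with hXd
    have hmY : ∀ u, u ∈ Y ↔ u ∈ V' ∧ u ∉ S := fun u => mem_rest
    have hYV : ∀ u ∈ Y, u ∈ vl M := fun u hu => hV' u ((hmY u).1 hu).1
    have hmX : ∀ u, u ∈ X ↔ u ∈ V' ∧ u ∉ S ∧ u ∈ J1 := by
      intro u
      rw [hXd, List.mem_filter, Bool.and_eq_true, not_memb_iff, memb_iff, mem_toList]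
    have hXY : ∀ u ∈ X, u ∈ Y := fun u hu =>
      (hmY u).2 ⟨((hmX u).1 hu).1, ((hmX u).1 hu).2.1⟩
    have hYAB : ∀ u ∈ Y, u ∈ A0 ∨ u ∈ B0 := by
      intro u hu
      have h1 := (hmY u).1 hu
      rcases (hVm u).1 h1.1 with h2 | h2
      · exact absurd (hS0S u h2) h1.2
      · exact h2
    set A := reach M Y X with hA
    have hAY : ∀ u ∈ A, u ∈ Y := reach_sub hXY
    have hAA : ∀ u ∈ A, u ∈ A0 := by
      refine reach_min h hYV hXY (A0 : Set ℕ) ?_ ?_
      · intro u hu
        have h1 := hJ1 ((hmX u).1 hu).2.2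
        exact mem_coe.2 (mem_inter.1 (mem_sdiff.1 h1).1).2
      · intro v hv u hu hvu
        rcases hYAB u hu with h1 | h1
        · exact h1
        · exact absurd hvu (hanti v hv u h1)
    have hWB' : ∀ u ∈ W', u ∉ S → u ∉ A → u ∈ B0 := by
      intro u hu huS huA
      have huY : u ∈ Y := (hmY u).2 ⟨hW' u hu, huS⟩
      rcases hYAB u huY with h1 | h1
      · exfalso
        have h2 : u ∈ (W'.toFinset ∩ A0) \ S.toFinset := by
          rw [mem_sdiff, mem_inter, List.mem_toFinset, List.mem_toFinset]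
          exact ⟨⟨hu, h1⟩, huS⟩
        rcases hJ1d u h2 with h3 | ⟨j, hj, h3⟩
        · exact huA (sub_reach h hYV hXY u ((hmX u).2 ⟨hW' u hu, huS, h3⟩))
        · have h4 := hJ1 hj
          rw [mem_sdiff, mem_inter, List.mem_toFinset, List.mem_toFinset] at h4
          exact huA (reach_closed h hYV hXY j (sub_reach h hYV hXY j
            ((hmX j).2 ⟨hW' j h4.1.1, h4.2, hj⟩)) u huY h3)
      · exact h1
    refine ⟨(S, A), ?_, ?_⟩
    · refine List.mem_cons_of_mem _ (List.mem_flatMap.2 ⟨l, ?_, List.mem_map.2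
        ⟨J1.toList, ?_, rfl⟩⟩)
      · rw [h.pad]
        refine ⟨?_, fun u hu => ?_⟩
        · rw [hQ]
          unfold wc
          omega
        · rw [hl, mem_toList] at hu
          exact hV' u ((hVm u).2 (Or.inl (hJ0 hu)))
      · rw [h.pad]
        refine ⟨?_, fun u hu => ?_⟩
        · rw [length_toList, hQ]
          refine hJ1c.trans ((al_mono ?_).trans hal)
          exact sdiff_subset.trans inter_subset_left
        · rw [mem_toList] at hu
          have h4 := hJ1 hu
          rw [mem_sdiff, mem_inter, List.mem_toFinset] at h4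
          exact hV' u (hW' u h4.1.1)
    · rw [okb_iff h (by omega) hV' fun u hu => hYV u (hAY u hu)]
      refine ⟨?_, ?_, ?_⟩
      · have h1 : (bd1 (vl M) W' S A).toFinset ⊆ S.toFinset ∪ (W'.toFinset ∩ A0) := by
          intro u hu
          rw [List.mem_toFinset, mem_bd1] at hu
          rw [mem_union, mem_inter, List.mem_toFinset, List.mem_toFinset]
          exact hu.2.imp id fun h2 => ⟨h2.1, hAA u h2.2⟩
        have h2 := (al_mono (G := G) h1).trans (al_union_le _ _)
        show al G (bd1 (vl M) W' S A).toFinset ≤ wc c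
        unfold wc
        omega
      · have h1 : (bd2 (vl M) W' S A).toFinset ⊆ S.toFinset ∪ (W'.toFinset ∩ B0) := by
          intro u hu
          rw [List.mem_toFinset, mem_bd2] at hu
          rw [mem_union, mem_inter, List.mem_toFinset, List.mem_toFinset]
          by_cases huS : u ∈ S
          · exact Or.inl huS
          · have h2 := hu.2.resolve_left huS
            exact Or.inr ⟨h2.1, hWB' u h2.1 huS h2.2⟩
        have h2 := (al_mono (G := G) h1).trans (al_union_le _ _)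
        show al G (bd2 (vl M) W' S A).toFinset ≤ wc c
        unfold wc
        omega
      · intro a ha b hb _ hbS hbA hab
        exact hbA (reach_closed h hYV hXY a ha b ((hmY b).2 ⟨hb, hbS⟩) hab)

end Pool.Agent.H22.SW
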