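import Mathlib
import Pool.Agent.H22.SW.Cor3

set_option autoImplicit false

/-!
# Correctness of the recursion
-/

namespace Pool.Agent.H22.SW

open Finset

variable {G : SimpleGraph ℕ} {M : List (List Bool)} {L : List (List ℕ)} {Q : ℕ}

/-- the cut given by `X` has a cover with small independence number -/
def Cvd (G : SimpleGraph ℕ) (V : List ℕ) (q : ℕ) (X : Set ℕ) : Prop :=
  ∃ Z : Finset ℕ, al G Z ≤ q ∧ ∀ a ∈ X, ∀ b ∈ V, b ∉ X → G.Adj a b → a ∈ Z ∨ b ∈ Z

/-- good partial trees -/
structure Good (G : SimpleGraph ℕ) (V : List ℕ) (q : ℕ) (T : BT ℕ) (X : Set ℕ) : Prop where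
  nd : T.lv.Nodup
  lv : ∀ u, u ∈ T.lv ↔ u ∈ X
  cv : ∀ s ∈ T.subs, Cvd G V q {u | u ∈ s.lv}

theorem Good.congr {V : List ℕ} {q : ℕ} {T : BT ℕ} {X Y : Set ℕ} (h : Good G V q T X)
    (hXY : ∀ u, u ∈ X ↔ u ∈ Y) : Good G V q T Y :=
  ⟨h.nd, fun u => (h.lv u).trans (hXY u), h.cv⟩

theorem cvd_singleton (V : List ℕ) {q : ℕ} (hq : 1 ≤ q) (v : ℕ) : Cvd G V q {v} := by
  refine ⟨{v}, by rw [al_singleton]; exact hq, fun a ha b _ _ _ => Or.inl ?_⟩
  exact mem_singleton.2 ha

theorem good_leaf (V : List ℕ) {q : ℕ} (hq : 1 ≤ q) (v : ℕ) : Good G V q (BT.leaf v) {v} := by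
  refine ⟨by simp [BT.lv], by simp [BT.lv], fun s hs => ?_⟩
  have h1 : s = BT.leaf v := by simpa [BT.subs] using hs
  rw [h1]
  have h2 : {u | u ∈ (BT.leaf v).lv} = {v} := by
    ext u
    simp [BT.lv]
  rw [h2]
  exact cvd_singleton V hq v

theorem Good.node {V : List ℕ} {q : ℕ} {T1 T2 : BT ℕ} {X1 X2 : Set ℕ} (h1 : Good G V q T1 X1)
    (h2 : Good G V q T2 X2) (hd : ∀ u, u ∈ X1 → u ∉ X2) (hc : Cvd G V q (X1 ∪ X2)) :
    Good G V q (BT.node T1 T2) (X1 ∪ X2) := by
  refine ⟨?_, ?_, ?_⟩
  · simp only [BT.lv]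
    rw [List.nodup_append]
    refine ⟨h1.nd, h2.nd, fun a ha b hb hab => ?_⟩
    subst hab
    exact hd a ((h1.lv a).1 ha) ((h2.lv a).1 hb)
  · intro u
    simp only [BT.lv, List.mem_append]
    rw [h1.lv, h2.lv]
    rfl
  · intro s hs
    simp only [BT.subs, List.mem_cons, List.mem_append] at hs
    rcases hs with rfl | hs | hs
    · have h3 : {u | u ∈ (BT.node T1 T2).lv} = X1 ∪ X2 := by
        ext u
        simp only [BT.lv, List.mem_append, Set.mem_setOf_eq]
        rw [h1.lv, h2.lv]
        rfl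
      rw [h3]
      exact hc
    · exact h1.cv s hs
    · exact h2.cv s hs

/-- the conditions on a task -/
structure Tsk (G : SimpleGraph ℕ) (V : List ℕ) (w : ℕ) (C W : List ℕ) : Prop where
  ne : C ≠ []
  nd : C.Nodup
  dj : ∀ u ∈ C, u ∉ W
  CV : ∀ u ∈ C, u ∈ V
  WV : ∀ u ∈ W, u ∈ V
  al : al G W.toFinset ≤ w
  nb : ∀ a ∈ C, ∀ b ∈ V, G.Adj a b → b ∈ C ∨ b ∈ W

/-- the vertices of the first piece -/
def pc1 (C' S A : List ℕ) : List ℕ := C'.filter fun u => !(memb u S) && memb u A

/-- the vertices of the second piece -/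
def pc2 (C' S A : List ℕ) : List ℕ := C'.filter fun u => !(memb u S) && !(memb u A)

theorem mem_pc1 {C' S A : List ℕ} {u : ℕ} : u ∈ pc1 C' S A ↔ u ∈ C' ∧ u ∉ S ∧ u ∈ A := by
  unfold pc1
  rw [List.mem_filter, Bool.and_eq_true, not_memb_iff, memb_iff]

theorem mem_pc2 {C' S A : List ℕ} {u : ℕ} : u ∈ pc2 C' S A ↔ u ∈ C' ∧ u ∉ S ∧ u ∉ A := by
  unfold pc2
  rw [List.mem_filter, Bool.and_eq_true, not_memb_iff, not_memb_iff]

/-- what the test guarantees -/
structure OkC (G : SimpleGraph ℕ) (V : List ℕ) (w : ℕ) (W' V' S A : List ℕ) : Prop where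
  b1 : al G (bd1 V W' S A).toFinset ≤ w
  b2 : al G (bd2 V W' S A).toFinset ≤ w
  an : ∀ a ∈ A, ∀ b ∈ V', a ∉ S → b ∉ S → b ∉ A → ¬ G.Adj a b

variable {V : List ℕ} {w v : ℕ} {C' W S A : List ℕ}

theorem Tsk.t1 (ht : Tsk G V w (v :: C') W) (ho : OkC G V w (v :: W) (C' ++ v :: W) S A)
    (hne : pc1 C' S A ≠ []) : Tsk G V w (pc1 C' S A) (bd1 V (v :: W) S A) where
  ne := hne
  nd := (List.nodup_cons.1 ht.nd).2.filter _
  dj := by
    intro u hu hub
    rw [mem_pc1] at hu
    rcases (mem_bd1.1 hub).2 with h | h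
    · exact hu.2.1 h
    · rcases List.mem_cons.1 h.1 with rfl | h1
      · exact (List.nodup_cons.1 ht.nd).1 hu.1
      · exact ht.dj u (List.mem_cons_of_mem _ hu.1) h1
  CV := fun u hu => ht.CV u (List.mem_cons_of_mem _ (mem_pc1.1 hu).1)
  WV := fun u hu => (mem_bd1.1 hu).1
  al := ho.b1
  nb := by
    intro a ha b hb hab
    rw [mem_pc1] at ha
    rw [mem_pc1, mem_bd1]
    by_cases hbS : b ∈ S
    · exact Or.inr ⟨hb, Or.inl hbS⟩
    have h1 : b ∈ C' ∨ b ∈ (v :: W) := by
      rcases ht.nb a (List.mem_cons_of_mem _ ha.1) b hb hab with h | h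
      · rcases List.mem_cons.1 h with rfl | h
        · exact Or.inr List.mem_cons_self
        · exact Or.inl h
      · exact Or.inr (List.mem_cons_of_mem _ h)
    have hbA : b ∈ A := by
      by_contra hbA
      exact ho.an a ha.2.2 b (List.mem_append.2 h1) ha.2.1 hbS hbA hab
    rcases h1 with h1 | h1
    · exact Or.inl ⟨h1, hbS, hbA⟩
    · exact Or.inr ⟨hb, Or.inr ⟨h1, hbA⟩⟩

theorem Tsk.t2 (ht : Tsk G V w (v :: C') W) (ho : OkC G V w (v :: W) (C' ++ v :: W) S A)
    (hne : pc2 C' S A ≠ []) : Tsk G V w (pc2 C' S A) (bd2 V (v :: W) S A) where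
  ne := hne
  nd := (List.nodup_cons.1 ht.nd).2.filter _
  dj := by
    intro u hu hub
    rw [mem_pc2] at hu
    rcases (mem_bd2.1 hub).2 with h | h
    · exact hu.2.1 h
    · rcases List.mem_cons.1 h.1 with rfl | h1
      · exact (List.nodup_cons.1 ht.nd).1 hu.1
      · exact ht.dj u (List.mem_cons_of_mem _ hu.1) h1
  CV := fun u hu => ht.CV u (List.mem_cons_of_mem _ (mem_pc2.1 hu).1)
  WV := fun u hu => (mem_bd2.1 hu).1
  al := ho.b2
  nb := by
    intro a ha b hb hab
    rw [mem_pc2] at ha
    rw [mem_pc2, mem_bd2]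
    by_cases hbS : b ∈ S
    · exact Or.inr ⟨hb, Or.inl hbS⟩
    have h1 : b ∈ C' ∨ b ∈ (v :: W) := by
      rcases ht.nb a (List.mem_cons_of_mem _ ha.1) b hb hab with h | h
      · rcases List.mem_cons.1 h with rfl | h
        · exact Or.inr List.mem_cons_self
        · exact Or.inl h
      · exact Or.inr (List.mem_cons_of_mem _ h)
    have hbA : b ∉ A := by
      intro hbA
      exact ho.an b hbA a (List.mem_append_left _ ha.1) hbS ha.2.1 ha.2.2 hab.symm
    rcases h1 with h1 | h1
    · exact Or.inl ⟨h1, hbS, hbA⟩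
    · exact Or.inr ⟨hb, Or.inr ⟨h1, hbA⟩⟩

/-- the cuts of the partial unions -/
theorem cvdP (ht : Tsk G V w (v :: C') W) (ho : OkC G V w (v :: W) (C' ++ v :: W) S A)
    (P : Set ℕ) (hP : ∀ u ∈ P, u = v ∨ u ∈ C') (h1 : ∀ u ∈ pc1 C' S A, u ∈ P)
    (h2 : (∃ a ∈ P, a ∈ pc2 C' S A) → ∀ u ∈ pc2 C' S A, u ∈ P) : Cvd G V (2 * w + 1) P := by
  refine ⟨(v :: W).toFinset ∪ (bd1 V (v :: W) S A).toFinset, ?_, ?_⟩
  · refine (al_union_le _ _).trans ?_
    have h3 := al_insert_le (G := G) v W.toFinset
    have h4 := ho.b1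
    have h5 := ht.al
    rw [List.toFinset_cons]
    omega
  · intro a ha b hb hbP hab
    rw [mem_union, mem_union, List.mem_toFinset, List.mem_toFinset, List.mem_toFinset,
      List.mem_toFinset]
    rcases hP a ha with rfl | haC
    · exact Or.inl (Or.inl List.mem_cons_self)
    by_cases haS : a ∈ S
    · exact Or.inl (Or.inr (mem_bd1.2 ⟨ht.CV a (List.mem_cons_of_mem _ haC), Or.inl haS⟩))
    by_cases hbS : b ∈ S
    · exact Or.inr (Or.inr (mem_bd1.2 ⟨hb, Or.inl hbS⟩))
    have h3 : b ∈ C' ∨ b ∈ (v :: W) := by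
      rcases ht.nb a (List.mem_cons_of_mem _ haC) b hb hab with h | h
      · rcases List.mem_cons.1 h with rfl | h
        · exact Or.inr List.mem_cons_self
        · exact Or.inl h
      · exact Or.inr (List.mem_cons_of_mem _ h)
    rcases h3 with h3 | h3
    · exfalso
      by_cases haA : a ∈ A
      · by_cases hbA : b ∈ A
        · exact hbP (h1 b (mem_pc1.2 ⟨h3, hbS, hbA⟩))
        · exact ho.an a haA b (List.mem_append_left _ h3) haS hbS hbA hab
      · by_cases hbA : b ∈ A
        · exact ho.an b hbA a (List.mem_append_left _ haC) hbS haS haA hab.symm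
        · exact hbP (h2 ⟨a, ha, mem_pc2.2 ⟨haC, haS, haA⟩⟩ b (mem_pc2.2 ⟨h3, hbS, hbA⟩))
    · exact Or.inr (Or.inl h3)

/-! ### the rounds -/

variable {B : List (ℕ × List ℕ)}

theorem roundT_zero (l : List Tok) : roundT M L w B 0 l = l := rfl

theorem roundT_succ (n : ℕ) (l : List Tok) :
    roundT M L w B (n + 1) l = roundT M L w B n (l.flatMap fun a => expT M L w B a) := rfl

theorem roundT_append (n : ℕ) (l1 l2 : List Tok) :
    roundT M L w B n (l1 ++ l2) = roundT M L w B n l1 ++ roundT M L w B n l2 := by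
  induction n generalizing l1 l2 with
  | zero => rfl
  | succ n ih => rw [roundT_succ, roundT_succ, roundT_succ, List.flatMap_append, ih]

theorem roundT_cons (n : ℕ) (t : Tok) (l : List Tok) :
    roundT M L w B n (t :: l) = roundT M L w B n [t] ++ roundT M L w B n l :=
  roundT_append n [t] l

theorem roundT_fix (n : ℕ) {t : Tok} (h : t.1 ≠ 2) : roundT M L w B n [t] = [t] := by
  induction n with
  | zero => rfl
  | succ n ih =>
    rw [roundT_succ]
    have h1 : ([t].flatMap fun a => expT M L w B a) = [t] := by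
      rw [List.flatMap_cons, List.flatMap_nil, List.append_nil]
      unfold expT
      rw [if_neg (by simpa using h)]
    rw [h1, ih]

theorem roundT_nil (n : ℕ) : roundT M L w B n [] = [] := by
  induction n with
  | zero => rfl
  | succ n ih => rw [roundT_succ, List.flatMap_nil, ih]

theorem roundT_task (n : ℕ) (t : Tok) :
    roundT M L w B (n + 1) [t] = roundT M L w B n (expT M L w B t) := by
  rw [roundT_succ, List.flatMap_cons, List.flatMap_nil, List.append_nil]

/-- the expansion of a task is either itself or comes from a good candidate -/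
theorem expT_cases (h : Ctx G M L Q) (hw : w + 1 ≤ Q) (ht : Tsk G (vl M) w (v :: C') W) :
    expT M L w B (2, v :: C', W) = [(2, v :: C', W)] ∨
      ∃ S A, OkC G (vl M) w (v :: W) (C' ++ v :: W) S A ∧
        expT M L w B (2, v :: C', W) = buildT (vl M) v C' (v :: W) S A := by
  have hV' : ∀ u ∈ C' ++ v :: W, u ∈ vl M := by
    intro u hu
    rcases List.mem_append.1 hu with h1 | h1
    · exact ht.CV u (List.mem_cons_of_mem _ h1)
    · rcases List.mem_cons.1 h1 with rfl | h1
      · exact ht.CV u List.mem_cons_self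
      · exact ht.WV u h1
  unfold expT
  rw [if_pos (by simp)]
  simp only
  split
  · exact Or.inl rfl
  · rename_i p r hp
    right
    have h1 : p ∈ (cands M L B (C' ++ v :: W)).filter fun p =>
        okb M L w (v :: W) (C' ++ v :: W) p := by
      rw [hp]
      exact List.mem_cons_self
    rw [List.mem_filter] at h1
    have h2 := (okb_iff h hw hV' fun u hu => hV' u (cands_sub h1.1 u hu)).1 h1.2
    exact ⟨p.1, p.2, ⟨h2.1, h2.2.1, h2.2.2⟩, rfl⟩

theorem mem_taskT {C W : List ℕ} {n : ℕ} {t : Tok}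
    (ht : t ∈ roundT M L w B n (taskT C W)) : t ∈ roundT M L w B n [(2, C, W)] ∧ C ≠ [] ∨ t.1 ≠ 2 := by
  unfold taskT at ht
  split_ifs at ht with h
  · rw [roundT_nil] at ht
    exact absurd ht List.not_mem_nil
  · rw [roundT_cons, roundT_fix n (t := (1, [], [])) (by simp), List.mem_append,
      List.mem_singleton] at ht
    rcases ht with ht | rfl
    · exact Or.inl ⟨ht, fun h0 => h (by rw [h0]; rfl)⟩
    · exact Or.inr (by simp)

theorem roundT_leaves (n : ℕ) (l : List ℕ) : roundT M L w B n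
    (l.flatMap fun s => [((0 : ℕ), [s], ([] : List ℕ)), (1, [], [])]) =
    l.flatMap fun s => [((0 : ℕ), [s], ([] : List ℕ)), (1, [], [])] := by
  induction l with
  | nil => rw [List.flatMap_nil, roundT_nil]
  | cons a l ih =>
    rw [List.flatMap_cons, roundT_append, ih, roundT_cons, roundT_fix n (by simp),
      roundT_fix n (by simp)]
    rfl

/-- **Completeness.** -/
theorem compl (h : Ctx G M L Q) {t k c : ℕ} (ht : 1 ≤ t) (hK : KFree G t)
    (hX : SimwOn G (vl M).toFinset k) (hc : cN t k ≤ c) (hQ : Q = wc c + 1)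
    (hB : OrdB G (vl M) (3 * c) B) : ∀ (n : ℕ) (C W : List ℕ), C.length ≤ n →
    Tsk G (vl M) (wc c) C W → ∀ a ∈ roundT M L (wc c) B n [(2, C, W)], a.1 ≠ 2 := by
  intro n
  induction n with
  | zero =>
    intro C W hn htk
    exact absurd (List.length_eq_zero_iff.1 (Nat.le_zero.1 hn)) htk.ne
  | succ n ih =>
    intro C W hn htk a ha
    rcases C with _ | ⟨v, C'⟩
    · exact absurd rfl htk.ne
    rw [roundT_task] at ha
    have hV' : ∀ u ∈ C' ++ v :: W, u ∈ vl M := by
      intro u hu
      rcases List.mem_append.1 hu with h1 | h1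
      · exact htk.CV u (List.mem_cons_of_mem _ h1)
      · rcases List.mem_cons.1 h1 with rfl | h1
        · exact htk.CV u List.mem_cons_self
        · exact htk.WV u h1
    obtain ⟨p, hp, hok⟩ := cand_ok h ht hK hX hc hQ hB (W' := v :: W) (V' := C' ++ v :: W)
      (fun u hu => List.mem_append_right _ hu) hV' (by
        rw [List.toFinset_cons]
        exact (al_insert_le _ _).trans (Nat.add_le_add_right htk.al 1))
    have hne : (cands M L B (C' ++ v :: W)).filter (fun p =>
        okb M L (wc c) (v :: W) (C' ++ v :: W) p) ≠ [] :=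
      List.ne_nil_of_mem (List.mem_filter.2 ⟨hp, hok⟩)
    have hcase : ∃ S A, OkC G (vl M) (wc c) (v :: W) (C' ++ v :: W) S A ∧
        expT M L (wc c) B (2, v :: C', W) = buildT (vl M) v C' (v :: W) S A := by
      unfold expT
      rw [if_pos (by simp)]
      simp only
      split
      · rename_i h0
        exact absurd h0 hne
      · rename_i p r hp
        have h1 : p ∈ (cands M L B (C' ++ v :: W)).filter fun p =>
            okb M L (wc c) (v :: W) (C' ++ v :: W) p := by
          rw [hp]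
          exact List.mem_cons_self
        rw [List.mem_filter] at h1
        have h2 := (okb_iff h (by omega) hV' fun u hu => hV' u (cands_sub h1.1 u hu)).1 h1.2
        exact ⟨p.1, p.2, ⟨h2.1, h2.2.1, h2.2.2⟩, rfl⟩
    obtain ⟨S, A, ho, he⟩ := hcase
    rw [he] at ha
    unfold buildT at ha
    rw [roundT_cons, roundT_append, roundT_append, roundT_leaves, roundT_fix n (by simp),
      List.mem_append, List.mem_append, List.mem_append, List.mem_singleton] at ha
    rw [List.length_cons] at hn
    rcases ha with rfl | ha | ha | ha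
    · simp
    · rcases mem_taskT ha with ⟨h1, h2⟩ | h1
      · exact ih _ _ ((List.length_filter_le _ _).trans (by omega)) (htk.t1 ho h2) a h1
      · exact h1
    · rcases mem_taskT ha with ⟨h1, h2⟩ | h1
      · exact ih _ _ ((List.length_filter_le _ _).trans (by omega)) (htk.t2 ho h2) a h1
      · exact h1
    · obtain ⟨s, -, h1⟩ := List.mem_flatMap.1 ha
      simp only [List.mem_cons, List.not_mem_nil, or_false] at h1
      rcases h1 with rfl | rfl
      · simp
      · simp

/-! ### evaluation -/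

theorem ev_leaf (st : List Pool.Agent.H88.RO.Tr) (v : ℕ) :
    evStep st (0, [v], []) = encBT (BT.leaf v) :: st := by
  unfold evStep
  rw [if_pos (by simp)]
  rfl

theorem ev_comb (st : List Pool.Agent.H88.RO.Tr) (T1 T2 : BT ℕ) :
    evStep (encBT T2 :: encBT T1 :: st) (1, [], []) = encBT (BT.node T1 T2) :: st := by
  unfold evStep
  rw [if_neg (by simp)]
  rfl

/-- adding the leaves of the separator -/
theorem good_leaves {q : ℕ} (hq : 1 ≤ q) : ∀ (l : List ℕ) (T0 : BT ℕ) (X : Set ℕ),
    Good G V q T0 X → l.Nodup → (∀ u ∈ l, u ∉ X) →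
    (∀ P : Set ℕ, X ⊆ P → (∀ u ∈ P, u ∈ X ∨ u ∈ l) → Cvd G V q P) →
    ∃ T, (∀ st, (l.flatMap fun s => [((0 : ℕ), [s], ([] : List ℕ)), (1, [], [])]).foldl evStep
      (encBT T0 :: st) = encBT T :: st) ∧ Good G V q T (X ∪ {u | u ∈ l}) := by
  intro l
  induction l with
  | nil =>
    intro T0 X h0 _ _ _
    exact ⟨T0, fun st => rfl, h0.congr fun u => by simp⟩
  | cons s l ih =>
    intro T0 X h0 hnd hdj hcv
    rw [List.nodup_cons] at hnd
    have h1 : Good G V q (BT.node T0 (BT.leaf s)) (X ∪ {s}) := by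
      refine h0.node (good_leaf V hq s) ?_ ?_
      · intro u hu hus
        rw [Set.mem_singleton_iff] at hus
        rw [hus] at hu
        exact hdj s List.mem_cons_self hu
      · refine hcv _ Set.subset_union_left ?_
        rintro u (hu | hu)
        · exact Or.inl hu
        · rw [Set.mem_singleton_iff] at hu
          rw [hu]
          exact Or.inr List.mem_cons_self
    obtain ⟨T, hT, hg⟩ := ih (BT.node T0 (BT.leaf s)) (X ∪ {s}) h1 hnd.2 (by
      rintro u hu (h2 | h2)
      · exact hdj u (List.mem_cons_of_mem _ hu) h2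
      · rw [Set.mem_singleton_iff] at h2
        exact hnd.1 (h2 ▸ hu)) (by
      intro P hXP hP
      refine hcv P (Set.subset_union_left.trans hXP) fun u hu => ?_
      rcases hP u hu with (h2 | h2) | h2
      · exact Or.inl h2
      · rw [Set.mem_singleton_iff] at h2
        rw [h2]
        exact Or.inr List.mem_cons_self
      · exact Or.inr (List.mem_cons_of_mem _ h2))
    refine ⟨T, fun st => ?_, hg.congr fun u => ?_⟩
    · rw [List.flatMap_cons, List.foldl_append, List.foldl_cons, List.foldl_cons, List.foldl_nil,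
        ev_leaf, ev_comb, hT]
    · simp only [Set.mem_union, Set.mem_singleton_iff, Set.mem_setOf_eq, List.mem_cons]
      tauto

/-- adding the tree of a piece -/
theorem good_task {q n : ℕ} {C W : List ℕ}
    (ih : C ≠ [] → ∃ T, (∀ st, (roundT M L w B n [(2, C, W)]).foldl evStep st = encBT T :: st) ∧
      Good G V q T {u | u ∈ C}) {T0 : BT ℕ} {X : Set ℕ} (h0 : Good G V q T0 X)
    (hdj : ∀ u ∈ C, u ∉ X) (hcv : C ≠ [] → Cvd G V q (X ∪ {u | u ∈ C})) :
    ∃ T, (∀ st, (roundT M L w B n (taskT C W)).foldl evStep (encBT T0 :: st) = encBT T :: st) ∧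
      Good G V q T (X ∪ {u | u ∈ C}) := by
  unfold taskT
  split_ifs with h
  · refine ⟨T0, fun st => by rw [roundT_nil]; rfl, h0.congr fun u => ?_⟩
    rw [List.isEmpty_iff] at h
    rw [h]
    simp
  · have hne : C ≠ [] := fun h1 => h (by rw [h1]; rfl)
    obtain ⟨T1, hT1, hg⟩ := ih hne
    refine ⟨BT.node T0 T1, fun st => ?_, h0.node hg (fun u hu huC => hdj u huC hu) (hcv hne)⟩
    rw [roundT_cons, roundT_fix n (t := (1, [], [])) (by simp), List.foldl_append, hT1,
      List.foldl_cons, List.foldl_nil, ev_comb]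

/-- **Soundness.** -/
theorem sound (h : Ctx G M L Q) (hw : w + 1 ≤ Q) : ∀ (n : ℕ) (C W : List ℕ),
    Tsk G (vl M) w C W → (∀ a ∈ roundT M L w B n [(2, C, W)], a.1 ≠ 2) →
    ∃ T, (∀ st, (roundT M L w B n [(2, C, W)]).foldl evStep st = encBT T :: st) ∧
      Good G (vl M) (2 * w + 1) T {u | u ∈ C} := by
  intro n
  induction n with
  | zero =>
    intro C W _ hr
    rw [roundT_zero] at hr
    exact absurd rfl (hr _ (List.mem_singleton_self _))
  | succ n ih =>
    intro C W htk hr
    rcases C with _ | ⟨v, C'⟩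
    · exact absurd rfl htk.ne
    rw [roundT_task] at hr ⊢
    rcases expT_cases (B := B) h hw htk with he | ⟨S, A, ho, he⟩
    · rw [he] at hr ⊢
      exact ih _ _ htk hr
    rw [he] at hr ⊢
    have hndC := List.nodup_cons.1 htk.nd
    have hq : 1 ≤ 2 * w + 1 := by omega
    have hfix : roundT M L w B n [((0 : ℕ), [v], ([] : List ℕ))] = [(0, [v], [])] :=
      roundT_fix n (by simp)
    -- the hypothesis on the tokens of the pieces
    have hrr : ∀ a, a ∈ roundT M L w B n (taskT (pc1 C' S A) (bd1 (vl M) (v :: W) S A)) ∨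
        a ∈ roundT M L w B n (taskT (pc2 C' S A) (bd2 (vl M) (v :: W) S A)) → a.1 ≠ 2 := by
      intro a ha
      refine hr a ?_
      unfold buildT
      rw [roundT_cons, roundT_append, roundT_append, List.mem_append, List.mem_append,
        List.mem_append]
      rcases ha with ha | ha
      · exact Or.inr (Or.inl ha)
      · exact Or.inr (Or.inr (Or.inl ha))
    have hsub : ∀ (C W : List ℕ), C ≠ [] → (∀ a ∈ roundT M L w B n (taskT C W), a.1 ≠ 2) →
        ∀ a ∈ roundT M L w B n [(2, C, W)], a.1 ≠ 2 := by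
      intro C W hne h1 a ha
      refine h1 a ?_
      unfold taskT
      rw [if_neg (by rw [List.isEmpty_iff]; exact hne), roundT_cons, List.mem_append]
      exact Or.inl ha
    -- the first vertex
    have hg0 : Good G (vl M) (2 * w + 1) (BT.leaf v) {v} := good_leaf _ hq v
    -- the first piece
    obtain ⟨T1, hT1, hg1⟩ := good_task (M := M) (L := L) (w := w) (B := B) (n := n)
      (C := pc1 C' S A) (W := bd1 (vl M) (v :: W) S A)
      (fun hne => ih _ _ (htk.t1 ho hne) (hsub _ _ hne fun a ha => hrr a (Or.inl ha))) hg0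
      (by
        intro u hu huv
        rw [Set.mem_singleton_iff] at huv
        rw [huv] at hu
        exact hndC.1 (mem_pc1.1 hu).1)
      (by
        intro _
        refine cvdP htk ho _ ?_ (fun u hu => Or.inr hu) ?_
        · rintro u (hu | hu)
          · exact Or.inl hu
          · exact Or.inr (mem_pc1.1 hu).1
        · rintro ⟨a, ha | ha, ha2⟩
          · rw [Set.mem_singleton_iff] at ha
            rw [ha] at ha2
            exact absurd (mem_pc2.1 ha2).1 hndC.1
          · exact absurd (mem_pc1.1 ha).2.2 (mem_pc2.1 ha2).2.2)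
    -- the second piece
    obtain ⟨T2, hT2, hg2⟩ := good_task (M := M) (L := L) (w := w) (B := B) (n := n)
      (C := pc2 C' S A) (W := bd2 (vl M) (v :: W) S A)
      (fun hne => ih _ _ (htk.t2 ho hne) (hsub _ _ hne fun a ha => hrr a (Or.inr ha))) hg1
      (by
        rintro u hu (huv | huv)
        · rw [Set.mem_singleton_iff] at huv
          rw [huv] at hu
          exact hndC.1 (mem_pc2.1 hu).1
        · exact (mem_pc2.1 hu).2.2 (mem_pc1.1 huv).2.2)
      (by
        intro _
        refine cvdP htk ho _ ?_ (fun u hu => Or.inl (Or.inr hu)) (fun _ u hu => Or.inr hu)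
        rintro u ((hu | hu) | hu)
        · exact Or.inl hu
        · exact Or.inr (mem_pc1.1 hu).1
        · exact Or.inr (mem_pc2.1 hu).1)
    -- the separator
    obtain ⟨T3, hT3, hg3⟩ := good_leaves hq (C'.filter fun u => memb u S) T2 _ hg2
      (hndC.2.filter _)
      (by
        rintro u hu ((huv | huv) | huv)
        · rw [Set.mem_singleton_iff] at huv
          rw [huv] at hu
          exact hndC.1 (List.mem_filter.1 hu).1
        · exact (mem_pc1.1 huv).2.1 (memb_iff.1 (List.mem_filter.1 hu).2)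
        · exact (mem_pc2.1 huv).2.1 (memb_iff.1 (List.mem_filter.1 hu).2))
      (by
        intro P hXP hP
        refine cvdP htk ho P ?_ (fun u hu => hXP (Or.inl (Or.inr hu)))
          (fun _ u hu => hXP (Or.inr hu))
        intro u hu
        rcases hP u hu with ((h1 | h1) | h1) | h1
        · exact Or.inl h1
        · exact Or.inr (mem_pc1.1 h1).1
        · exact Or.inr (mem_pc2.1 h1).1
        · exact Or.inr (List.mem_filter.1 h1).1)
    refine ⟨T3, fun st => ?_, hg3.congr fun u => ?_⟩
    · unfold buildT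
      rw [roundT_cons, roundT_append, roundT_append, roundT_leaves, hfix, List.foldl_append,
        List.foldl_append, List.foldl_append, List.foldl_cons, List.foldl_nil, ev_leaf]
      have e1 := hT1 st
      have e2 := hT2 st
      unfold pc1 at e1
      unfold pc2 at e2
      rw [e1, e2, hT3]
    · simp only [Set.mem_union, Set.mem_singleton_iff, Set.mem_setOf_eq, List.mem_cons, mem_pc1,
        mem_pc2, List.mem_filter, memb_iff]
      tauto

end Pool.Agent.H22.SW
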