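import Mathlib
import Pool.Agent.H88.RO.Machine
import Pool.Agent.H22.SW.Defs

set_option autoImplicit false

/-!
# XP approximation algorithms for widths of branch decompositions

Programs, their evaluation and its cost are those of `Pool.Agent.H88.RO.Model` (a first-order
language on binary trees with pairing, projections, branching and while loops, in which each step
is charged the size of the value it handles); the oracle instruction is given the constant oracle
`false` and so does nothing useful.
-/

namespace Pool.Agent.H22.SW

open Pool.Agent.H88.RO Pool.Agent.H88.RO.Tr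

/-- the code of a list -/
def codeList : List Tr → Tr
  | [] => leaf
  | a :: l => node a (codeList l)

open Classical in
/-- the code of the input: the adjacency matrix, as the list of its rows, each a list of bits, and
the parameter in unary -/
noncomputable def codeIn {n : ℕ} (G : SimpleGraph (Fin n)) (k : ℕ) : Tr :=
  node (codeList (List.ofFn fun i => codeList (List.ofFn fun j => bit (decide (G.Adj i j)))))
    (num k)

/-- the code of a labelled binary tree -/
def codeBT {n : ℕ} : BT (Fin n) → Tr
  | BT.leaf v => node leaf (num v.1)
  | BT.node a b => node (node leaf leaf) (node (codeBT a) (codeBT b))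

/-- `T` is a branch decomposition of `G` of sim-width at most `k`: the leaves are labelled
bijectively by the vertices, and for each proper subtree `s` (an edge of the decomposition) every
matching between the labels of `s` and the other vertices that is induced in `G` has at most `k`
edges. -/
def SimDec {V : Type} (G : SimpleGraph V) (T : BT V) (k : ℕ) : Prop :=
  T.lv.Nodup ∧ (∀ v, v ∈ T.lv) ∧ ∀ s ∈ T.psubs, SimBd G {v | v ∈ s.lv} {v | v ∉ s.lv} k

/-- `T` is a branch decomposition of `G` of mim-width at most `k`. -/
def MimDec {V : Type} (G : SimpleGraph V) (T : BT V) (k : ℕ) : Prop :=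
  T.lv.Nodup ∧ (∀ v, v ∈ T.lv) ∧ ∀ s ∈ T.psubs, MimBd G {v | v ∈ s.lv} {v | v ∉ s.lv} k

/-- The width described by `W` has an XP approximation on the class `K` of graphs: there are
computable functions `f`, `g` and a program that, for a graph `G` of `K` with `n ≥ 2` vertices and
`k ≥ 1`, runs at a cost of at most `g k * n ^ g k` and outputs either `leaf`, and then no
decomposition of `G` has width at most `k`, or the code of a decomposition of width at most
`f k`. -/
def XPApprox (K : ∀ n : ℕ, SimpleGraph (Fin n) → Prop)
    (W : ∀ n : ℕ, SimpleGraph (Fin n) → BT (Fin n) → ℕ → Prop) : Prop :=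
  ∃ f g : ℕ → ℕ, Computable f ∧ Computable g ∧ ∃ c : Prog, ∀ n : ℕ, 2 ≤ n →
    ∀ G : SimpleGraph (Fin n), K n G → ∀ k : ℕ, 1 ≤ k →
      ∃ (v : Tr) (s : ℕ), Eval (fun _ => false) c (codeIn G k) v s ∧ s ≤ g k * n ^ g k ∧
        ((v = leaf ∧ ¬ ∃ T, W n G T k) ∨ ∃ T, v = codeBT T ∧ W n G T (f k))

end Pool.Agent.H22.SW
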