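import Mathlib
import Pool.Agent.H22.SW.Cor4
import Pool.Agent.H22.SW.XPDef

set_option autoImplicit false

/-!
# From graphs on `Fin n` to matrices and back
-/

namespace Pool.Agent.H22.SW

open Finset

namespace BT

variable {V W : Type}

/-- relabelling the leaves -/
def map (f : V → W) : BT V → BT W
  | leaf v => leaf (f v)
  | node a b => node (a.map f) (b.map f)

theorem lv_map (f : V → W) (T : BT V) : (T.map f).lv = T.lv.map f := by
  induction T with
  | leaf v => rfl
  | node a b iha ihb => simp only [map, lv, iha, ihb, List.map_append]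

theorem subs_map (f : V → W) (T : BT V) : (T.map f).subs = T.subs.map (map f) := by
  induction T with
  | leaf v => rfl
  | node a b iha ihb =>
    simp only [map, subs, iha, ihb, List.map_cons, List.map_append]

theorem psubs_map (f : V → W) (T : BT V) : (T.map f).psubs = T.psubs.map (map f) := by
  cases T with
  | leaf v => rfl
  | node a b => simp only [map, psubs, subs_map, List.map_append]

end BT

open Classical in
/-- the adjacency matrix -/
noncomputable def matG {n : ℕ} (G : SimpleGraph (Fin n)) : List (List Bool) :=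
  List.ofFn fun i => List.ofFn fun j => decide (G.Adj i j)

/-- the graph on the natural numbers -/
def gN {n : ℕ} (G : SimpleGraph (Fin n)) : SimpleGraph ℕ := G.map Fin.valEmbedding

theorem gN_adj {n : ℕ} {G : SimpleGraph (Fin n)} {u v : ℕ} :
    (gN G).Adj u v ↔ ∃ a b : Fin n, G.Adj a b ∧ a.1 = u ∧ b.1 = v := by
  unfold gN
  rw [SimpleGraph.map_adj]
  rfl

theorem gN_adj_val {n : ℕ} {G : SimpleGraph (Fin n)} {a b : Fin n} :
    (gN G).Adj a.1 b.1 ↔ G.Adj a b := by
  rw [gN_adj]
  constructor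
  · rintro ⟨a', b', h, ha, hb⟩
    rwa [Fin.ext ha, Fin.ext hb] at h
  · exact fun h => ⟨a, b, h, rfl, rfl⟩

theorem length_matG {n : ℕ} (G : SimpleGraph (Fin n)) : (matG G).length = n := by
  unfold matG
  rw [List.length_ofFn]

theorem mem_vl {n : ℕ} {G : SimpleGraph (Fin n)} {u : ℕ} : u ∈ vl (matG G) ↔ u < n := by
  unfold vl
  rw [List.mem_range, length_matG]

theorem headD_drop {α : Type} (l : List α) (i : ℕ) (d : α) (h : i < l.length) :
    (l.drop i).headD d = l[i] := by
  rw [List.drop_eq_getElem_cons h, List.headD_cons]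

theorem adjb_matG {n : ℕ} {G : SimpleGraph (Fin n)} (a b : Fin n) :
    adjb (matG G) a.1 b.1 = true ↔ G.Adj a b := by
  classical
  unfold adjb
  have h1 : a.1 < (matG G).length := by rw [length_matG]; exact a.2
  rw [headD_drop _ _ _ h1]
  have key : ∀ (l : List (List Bool)) (h : a.1 < l.length),
      l = (List.ofFn fun i => List.ofFn fun j => decide (G.Adj i j)) →
      l[a.1] = List.ofFn fun j => decide (G.Adj a j) := by
    rintro l h rfl
    rw [List.getElem_ofFn]
  rw [key (matG G) h1 rfl, headD_drop _ _ _ (by rw [List.length_ofFn]; exact b.2), List.getElem_ofFn,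
    decide_eq_true_eq]

/-- the input -/
noncomputable def inpG {n : ℕ} (hn : 2 ≤ n) (G : SimpleGraph (Fin n)) (k : ℕ) : Inp :=
  ⟨(matG G, k), by
    show 2 ≤ (matG G).length
    rw [length_matG]
    exact hn, by
    intro r hr
    show r.length = (matG G).length
    rw [length_matG]
    unfold matG at hr
    rw [List.mem_ofFn] at hr
    obtain ⟨i, rfl⟩ := hr
    rw [List.length_ofFn]⟩

theorem ctxG {n : ℕ} (G : SimpleGraph (Fin n)) (Q : ℕ) :
    Ctx (gN G) (matG G) (padL (vl (matG G)) Q) Q where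
  adj := by
    intro u hu v hv
    rw [mem_vl] at hu hv
    exact (adjb_matG ⟨u, hu⟩ ⟨v, hv⟩).trans gN_adj_val.symm
  pad := fun l => mem_padL

theorem kfree_gN {n t : ℕ} (ht : 1 ≤ t) {G : SimpleGraph (Fin n)} (h : KFree G t) :
    KFree (gN G) t := by
  rintro ⟨a, b, ha, hb, haa, hbb, hab⟩
  have hA : ∀ i, ∃ x : Fin n, x.1 = a i := by
    intro i
    obtain ⟨x, y, _, hx, _⟩ := gN_adj.1 (hab i ⟨0, ht⟩)
    exact ⟨x, hx⟩
  have hB : ∀ i, ∃ x : Fin n, x.1 = b i := by
    intro i
    obtain ⟨x, y, _, _, hy⟩ := gN_adj.1 (hab ⟨0, ht⟩ i)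
    exact ⟨y, hy⟩
  choose a' ha' using hA
  choose b' hb' using hB
  refine h ⟨a', b', fun i j hij => ha ?_, fun i j hij => hb ?_, fun i j hij => haa i j ?_,
    fun i j hij => hbb i j ?_, fun i j => ?_⟩
  · rw [← ha', ← ha', hij]
  · rw [← hb', ← hb', hij]
  · rw [← ha', ← ha']
    exact gN_adj_val.2 hij
  · rw [← hb', ← hb']
    exact gN_adj_val.2 hij
  · have := hab i j
    rw [← ha', ← hb'] at this
    exact gN_adj_val.1 this

theorem simwOn_gN {n k : ℕ} {G : SimpleGraph (Fin n)} {T : BT (Fin n)} (h : SimDec G T k) :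
    SimwOn (gN G) (vl (matG G)).toFinset k := by
  obtain ⟨h1, h2, h3⟩ := h
  refine ⟨T.map Fin.val, ⟨?_, fun v => ?_⟩, fun s hs => ?_⟩
  · rw [BT.lv_map]
    exact h1.map Fin.val_injective
  · rw [BT.lv_map, List.mem_map, List.mem_toFinset, mem_vl]
    constructor
    · rintro ⟨a, _, rfl⟩
      exact a.2
    · intro hv
      exact ⟨⟨v, hv⟩, h2 _, rfl⟩
  · rw [BT.psubs_map, List.mem_map] at hs
    obtain ⟨s', hs', rfl⟩ := hs
    intro m x y hx hy hxy hxx hyy
    have hX : ∀ i, ∃ a : Fin n, a ∈ s'.lv ∧ a.1 = x i := by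
      intro i
      have := hx i
      rw [BT.lv_map] at this
      exact List.mem_map.1 this
    have hY : ∀ i, ∃ a : Fin n, a.1 = y i := by
      intro i
      have h4 := (hy i).1
      rw [List.mem_toFinset, mem_vl] at h4
      exact ⟨⟨y i, h4⟩, rfl⟩
    choose x' hx1 hx2 using hX
    choose y' hy2 using hY
    refine h3 s' hs' m x' y' hx1 (fun i hi => ?_) (fun i j => ?_) (fun i j => ?_) fun i j => ?_
    · refine (hy i).2 ?_
      rw [BT.lv_map, List.mem_map]
      exact ⟨y' i, hi, hy2 i⟩
    · rw [← hxy, ← hx2, ← hy2, gN_adj_val]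
    · have := hxx i j
      rw [← hx2, ← hx2, gN_adj_val] at this
      exact this
    · have := hyy i j
      rw [← hy2, ← hy2, gN_adj_val] at this
      exact this

/-- a cover bounds the induced matchings -/
theorem simBd_of_cvd {G : SimpleGraph ℕ} {V : List ℕ} {q : ℕ} {X : Set ℕ} (h : Cvd G V q X) :
    SimBd G X {v | v ∈ V ∧ v ∉ X} q := by
  classical
  obtain ⟨Z, hZ, hc⟩ := h
  intro m x y hx hy hxy hxx hyy
  let z : Fin m → ℕ := fun i => if x i ∈ Z then x i else y i
  have hzZ : ∀ i, z i ∈ Z := by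
    intro i
    show (if x i ∈ Z then x i else y i) ∈ Z
    split_ifs with h1
    · exact h1
    · exact (hc _ (hx i) _ (hy i).1 (hy i).2 ((hxy i i).2 rfl)).resolve_left h1
  have hcase : ∀ i, z i = x i ∨ z i = y i := by
    intro i
    show (if x i ∈ Z then x i else y i) = x i ∨ (if x i ∈ Z then x i else y i) = y i
    split_ifs
    · exact Or.inl rfl
    · exact Or.inr rfl
  have hinj : Function.Injective z := by
    intro i j hij
    by_contra hne
    rcases hcase i with h1 | h1 <;> rcases hcase j with h2 | h2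
    · rw [h1, h2] at hij
      have h3 := (hxy i i).2 rfl
      rw [hij, hxy] at h3
      exact hne h3.symm
    · rw [h1, h2] at hij
      exact (hy j).2 (hij ▸ hx i)
    · rw [h1, h2] at hij
      exact (hy i).2 (hij.symm ▸ hx j)
    · rw [h1, h2] at hij
      have h3 := (hxy i i).2 rfl
      rw [hij, hxy] at h3
      exact hne h3
  have hind : Ind G (univ.image z) := by
    intro a ha b hb
    obtain ⟨i, _, rfl⟩ := mem_image.1 ha
    obtain ⟨j, _, rfl⟩ := mem_image.1 hb
    by_cases hne : i = j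
    · rw [hne]
      exact G.loopless.irrefl _
    rcases hcase i with h1 | h1 <;> rcases hcase j with h2 | h2 <;> rw [h1, h2]
    · exact hxx i j
    · exact fun h3 => hne ((hxy i j).1 h3)
    · exact fun h3 => hne ((hxy j i).1 h3.symm).symm
    · exact hyy i j
  have h1 := card_le_al (G := G) (X := Z) (I := univ.image z) (fun a ha => by
    obtain ⟨i, _, rfl⟩ := mem_image.1 ha
    exact hzZ i) hind
  rw [card_image_of_injective _ hinj, card_univ, Fintype.card_fin] at h1
  exact h1.trans hZ

theorem exists_map {n : ℕ} : ∀ T : BT ℕ, (∀ u ∈ T.lv, u < n) →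
    ∃ T' : BT (Fin n), T'.map Fin.val = T := by
  intro T
  induction T with
  | leaf v =>
    intro h
    exact ⟨BT.leaf ⟨v, h v (by simp [BT.lv])⟩, rfl⟩
  | node a b iha ihb =>
    intro h
    obtain ⟨a', ha⟩ := iha fun u hu => h u (List.mem_append_left _ hu)
    obtain ⟨b', hb⟩ := ihb fun u hu => h u (List.mem_append_right _ hu)
    exact ⟨BT.node a' b', by rw [BT.map, ha, hb]⟩

theorem simDec_of_good {n q : ℕ} {G : SimpleGraph (Fin n)} {T : BT ℕ}
    (h : Good (gN G) (vl (matG G)) q T {u | u ∈ vl (matG G)}) :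
    ∃ T' : BT (Fin n), T'.map Fin.val = T ∧ SimDec G T' q := by
  have hlv : ∀ u, u ∈ T.lv ↔ u < n := fun u => (h.lv u).trans mem_vl
  obtain ⟨T', hT'⟩ := exists_map T fun u hu => (hlv u).1 hu
  refine ⟨T', hT', ?_, fun v => ?_, fun s hs => ?_⟩
  · have h1 := h.nd
    rw [← hT', BT.lv_map] at h1
    exact h1.of_map _
  · have h1 := (hlv v.1).2 v.2
    rw [← hT', BT.lv_map, List.mem_map] at h1
    obtain ⟨a, ha, hav⟩ := h1
    rwa [Fin.ext hav] at ha
  · have h1 : s.map Fin.val ∈ T.subs := by
      rw [← hT', BT.subs_map]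
      exact List.mem_map_of_mem (BT.subs_of_psubs hs)
    have h2 := simBd_of_cvd (h.cv _ h1)
    intro m x y hx hy hxy hxx hyy
    have hmem : ∀ a : Fin n, a.1 ∈ (s.map Fin.val).lv ↔ a ∈ s.lv := by
      intro a
      rw [BT.lv_map, List.mem_map]
      constructor
      · rintro ⟨b, hb, hba⟩
        rwa [Fin.ext hba] at hb
      · exact fun ha => ⟨a, ha, rfl⟩
    refine h2 m (fun i => (x i).1) (fun i => (y i).1) (fun i => (hmem _).2 (hx i)) (fun i =>
      ⟨mem_vl.2 (y i).2, fun hi => hy i ((hmem _).1 hi)⟩) (fun i j => ?_) (fun i j => ?_)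
      fun i j => ?_
    · rw [gN_adj_val]
      exact hxy i j
    · rw [gN_adj_val]
      exact hxx i j
    · rw [gN_adj_val]
      exact hyy i j

end Pool.Agent.H22.SW
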