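import Mathlib
import Pool.Agent.H22.SW.Fin1
import Pool.Agent.H22.SW.XPDef

set_option autoImplicit false

/-!
# Sim-width has an XP approximation on graphs without an induced `K_{t,t}`
-/

namespace Pool.Agent.H22.SW

open Finset Pool.Agent.H88.RO Pool.Agent.H88.RO.Tr

/-- the base of the bounds -/
def dN (t : ℕ) : ℕ := (4 * (t ^ 2 * (32 * 4 ^ (8 * t)) ^ t ^ 2)) * 4 ^ (4 * t ^ 2)

theorem cN_le (t k : ℕ) (ht : 1 ≤ t) : cN t k ≤ dN t ^ (k + 1) := by
  have h1 : cN t k = (4 * (t ^ 2 * (32 * 4 ^ (8 * t)) ^ t ^ 2)) * (4 ^ (4 * t ^ 2)) ^ k := by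
    unfold cN nN rN
    have h2 : (4 : ℕ) ^ (4 * (k + 2 * t)) = 4 ^ (8 * t) * 4 ^ (4 * k) := by
      rw [← pow_add]
      congr 1
      ring
    have h3 : ((4 : ℕ) ^ (4 * t ^ 2)) ^ k = (4 ^ (4 * k)) ^ t ^ 2 := by
      rw [← pow_mul, ← pow_mul]
      congr 1
      ring
    rw [h2, h3, ← mul_assoc 32, mul_pow (32 * 4 ^ (8 * t))]
    ring
  rw [h1]
  unfold dN
  have hA : 1 ≤ 4 * (t ^ 2 * (32 * 4 ^ (8 * t)) ^ t ^ 2) := by
    have : 0 < 4 * (t ^ 2 * (32 * 4 ^ (8 * t)) ^ t ^ 2) := by positivity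
    omega
  have hB : 1 ≤ 4 ^ (4 * t ^ 2) := Nat.one_le_pow _ _ (by norm_num)
  generalize 4 * (t ^ 2 * (32 * 4 ^ (8 * t)) ^ t ^ 2) = A at *
  generalize 4 ^ (4 * t ^ 2) = B at *
  rw [mul_pow]
  refine Nat.mul_le_mul ?_ (Nat.pow_le_pow_right hB (by omega))
  calc A = A ^ 1 := (pow_one A).symm
    _ ≤ A ^ (k + 1) := Nat.pow_le_pow_right hA (by omega)

theorem primrec_pow (D : ℕ) : Primrec fun k : ℕ => D ^ k := by
  have h : Primrec (Nat.rec 1 fun _ p => p * D : ℕ → ℕ) :=
    Primrec.nat_rec₁ 1 (Primrec.nat_mul.comp₂ Primrec₂.right (Primrec₂.const D))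
  refine h.of_eq fun k => ?_
  induction k with
  | zero => rfl
  | succ k ih => rw [pow_succ, ← ih]

theorem primrec_pow1 (D : ℕ) : Primrec fun k : ℕ => D ^ (k + 1) :=
  (primrec_pow D).comp Primrec.succ

theorem primrec_wc (D : ℕ) : Primrec fun k : ℕ => 2 * wc (D ^ (k + 1)) + 1 := by
  have h := primrec_pow1 D
  have h2 : Primrec fun k : ℕ => 2 * (9 * (D ^ (k + 1) * D ^ (k + 1)) + 3 * D ^ (k + 1) + 2) + 1 :=
    Primrec.nat_add.comp (Primrec.nat_mul.comp (Primrec.const 2)
      (Primrec.nat_add.comp (Primrec.nat_add.comp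
        (Primrec.nat_mul.comp (Primrec.const 9) (Primrec.nat_mul.comp h h))
        (Primrec.nat_mul.comp (Primrec.const 3) h)) (Primrec.const 2))) (Primrec.const 1)
  refine h2.of_eq fun k => ?_
  unfold wc
  rw [pow_two]

/-! ### codes -/

theorem codeBT_eq {n : ℕ} (T : BT (Fin n)) : codeBT T = encBT (T.map Fin.val) := by
  induction T with
  | leaf v => rfl
  | node a b iha ihb => rw [codeBT, iha, ihb]; rfl

theorem codeIn_eq {n : ℕ} (hn : 2 ≤ n) (G : SimpleGraph (Fin n)) (k : ℕ) :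
    codeIn G k = te (inpG hn G k).1 := by
  classical
  have h1 : ∀ l : List (List Bool), te l = codeList (l.map te) := by
    intro l
    induction l with
    | nil => rfl
    | cons a l ih => exact congrArg (node (te a)) ih
  have h2 : ∀ l : List Bool, te l = codeList (l.map bit) := by
    intro l
    induction l with
    | nil => rfl
    | cons a l ih => exact congrArg (node (bit a)) ih
  show _ = node (te (matG G)) (num k)
  rw [h1, matG, List.map_ofFn]
  unfold codeIn
  congr 3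
  funext i
  show _ = te (List.ofFn fun j => decide (G.Adj i j))
  rw [h2, List.map_ofFn]
  rfl

/-- the start task -/
theorem tsk_start {n : ℕ} (hn : 2 ≤ n) (G : SimpleGraph (Fin n)) (w : ℕ) :
    Tsk (gN G) (vl (matG G)) w (vl (matG G)) [] where
  ne := by
    intro h
    have h1 : (0 : ℕ) ∈ vl (matG G) := mem_vl.2 (by omega)
    rw [h] at h1
    exact List.not_mem_nil h1
  nd := nodup_vl _
  dj := fun u _ => List.not_mem_nil
  CV := fun u hu => hu
  WV := fun u hu => absurd hu List.not_mem_nil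
  al := by
    rw [List.toFinset_nil, al_empty]
    exact Nat.zero_le _
  nb := fun a _ b hb _ => Or.inl hb

/-- correctness of the main function -/
theorem mainT_correct {n : ℕ} (hn : 2 ≤ n) (G : SimpleGraph (Fin n)) {t k D : ℕ} (ht : 1 ≤ t)
    (hK : KFree G t) (hcN : cN t k ≤ D) (v : Tr)
    (hv : v = mainT (matG G) (padL (vl (matG G)) (wc D + 1)) (3 * D) (wc D)) :
    (v = leaf ∧ ¬ ∃ T, SimDec G T k) ∨ ∃ T, v = codeBT T ∧ SimDec G T (2 * wc D + 1) := by
  have hctx := ctxG G (wc D + 1)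
  unfold mainT at hv
  simp only at hv
  split_ifs at hv with h1
  · left
    refine ⟨hv, ?_⟩
    rintro ⟨T, hT⟩
    have hX := simwOn_gN hT
    have hB := ordB_ok hctx (d := 3 * D) ht (kfree_gN ht hK) hX (by omega) (by
      unfold wc
      omega)
    have h2 := compl hctx ht (kfree_gN ht hK) hX hcN rfl hB (matG G).length (vl (matG G)) []
      (by unfold vl; rw [List.length_range]) (tsk_start hn G _)
    rw [List.any_eq_true] at h1
    obtain ⟨a, ha, ha2⟩ := h1
    exact h2 a ha (by simpa using ha2)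
  · right
    have h2 : ∀ a ∈ roundT (matG G) (padL (vl (matG G)) (wc D + 1)) (wc D)
        (ordB (matG G) (padL (vl (matG G)) (wc D + 1)) (3 * D)) (matG G).length
        [(2, vl (matG G), [])], a.1 ≠ 2 := by
      intro a ha h3
      refine h1 ?_
      rw [List.any_eq_true]
      exact ⟨a, ha, by simpa using h3⟩
    obtain ⟨T, hT, hg⟩ := sound hctx (w := wc D) le_rfl _ _ _ (tsk_start hn G _) h2
    obtain ⟨T', hT', hd⟩ := simDec_of_good hg
    refine ⟨T', ?_, hd⟩
    rw [hv, hT, codeBT_eq, hT']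
    rfl

/-- **Theorem.** -/
theorem xp_bic (t : ℕ) (ht : 1 ≤ t) :
    XPApprox (fun _ G => KFree G t) (fun _ G T k => SimDec G T k) := by
  obtain ⟨c, b, ⟨E, hE⟩, hc⟩ := xp_program (dN t)
  refine ⟨fun k => 2 * wc (dN t ^ (k + 1)) + 1, fun k => E ^ (k + 1), (primrec_wc _).to_comp,
    (primrec_pow1 E).to_comp, c, fun n hn G hK k _ => ?_⟩
  obtain ⟨s, hs, he⟩ := hc (inpG hn G k)
  have h1 : nn (inpG hn G k) = n := length_matG G
  have h2 : kk (inpG hn G k) = k := rfl
  refine ⟨_, s, by rw [codeIn_eq hn]; exact he, ?_, ?_⟩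
  · refine hs.trans ((hE _).trans ?_)
    rw [h1, h2]
    rcases Nat.eq_zero_or_pos E with h0 | h0
    · exfalso
      have h3 := (hs.trans (hE _))
      have h4 := he.cost_ge
      have h5 := size_pos (te (inpG hn G k).1)
      rw [h1, h2, h0, zero_pow (by omega), pow_zero] at h3
      omega
    · exact Nat.le_mul_of_pos_left _ (Nat.pow_pos h0)
  · exact mainT_correct hn G ht hK (cN_le t k ht) _ rfl

end Pool.Agent.H22.SW
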