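import Mathlib

set_option autoImplicit false

/-!
# Classes of graphs
-/

namespace Pool.Agent.H22.SW

/-- all graphs -/
def AllG : ∀ n : ℕ, SimpleGraph (Fin n) → Prop := fun _ _ => True

/-- bipartite graphs -/
def BipG : ∀ n : ℕ, SimpleGraph (Fin n) → Prop := fun n G =>
  ∃ P : Set (Fin n), ∀ u v, G.Adj u v → (u ∈ P ↔ v ∉ P)

/-- split graphs: the vertex set is the union of a clique and an independent set -/
def SplitG : ∀ n : ℕ, SimpleGraph (Fin n) → Prop := fun n G =>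
  ∃ P : Set (Fin n), (∀ u ∈ P, ∀ v ∈ P, u ≠ v → G.Adj u v) ∧
    ∀ u, u ∉ P → ∀ v, v ∉ P → ¬ G.Adj u v

/-- co-bipartite graphs: the vertex set is the union of two cliques -/
def CoBipG : ∀ n : ℕ, SimpleGraph (Fin n) → Prop := fun n G =>
  ∃ P : Set (Fin n), (∀ u ∈ P, ∀ v ∈ P, u ≠ v → G.Adj u v) ∧
    ∀ u, u ∉ P → ∀ v, v ∉ P → u ≠ v → G.Adj u v

/-- `F` is isomorphic to an induced subgraph of `G`. -/
def IsInd {V W : Type} (F : SimpleGraph V) (G : SimpleGraph W) : Prop :=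
  ∃ e : V → W, Function.Injective e ∧ ∀ i j, G.Adj (e i) (e j) ↔ F.Adj i j

/-- graphs without an induced subgraph isomorphic to `F` -/
def FreeG {m : ℕ} (F : SimpleGraph (Fin m)) : ∀ n : ℕ, SimpleGraph (Fin n) → Prop :=
  fun _ G => ¬ IsInd F G

end Pool.Agent.H22.SW
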