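import Mathlib
import Pool.Agent.H22.SW.Defs
import Pool.Agent.H22.SW.XPDef
import Pool.Agent.H22.SW.Tree
import Pool.Agent.H22.SW.Fin1

set_option autoImplicit false

/-!
# The bipartite, split and co-bipartite gadgets

The vertices of the new graph are `(0,v), (1,v), (2,v), (3,v)` for the vertices `v` of `G`, with the
edges `(0,v)(1,v)`, `(1,v)(2,v)`, `(2,v)(3,v)`, and `(0,u)(3,v)` for each edge `uv` of `G`; the
colour classes are the vertices with first component `0, 2` and with first component `1, 3`; the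
first is made a clique if `p` holds, the second if `q` holds.
-/

namespace Pool.Agent.H22.SW

open Finset

/-- the colour class of a type is a clique -/
def cb (p q : Bool) (i : ℕ) : Bool := if i = 0 ∨ i = 2 then p else q

/-- adjacency in the new graph, for a symmetric relation `A` -/
def hadj {V : Type} (p q : Bool) (A : V → V → Prop) (i : ℕ) (u : V) (j : ℕ) (v : V) : Prop :=
  if i = j then cb p q i = true ∧ u ≠ v
  else if i + 2 = j ∨ j + 2 = i then cb p q i = true
  else if i + j = 3 ∧ (i = 0 ∨ j = 0) then A u v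
  else u = v

theorem hadj_symm {V : Type} {p q : Bool} {A : V → V → Prop} (hA : ∀ u v, A u v → A v u)
    {i j : ℕ} (hi : i < 4) (hj : j < 4) {u v : V} (h : hadj p q A i u j v) :
    hadj p q A j v i u := by
  unfold hadj at h ⊢
  interval_cases i <;> interval_cases j <;> simp_all [cb, eq_comm]

theorem hadj_irrefl {V : Type} {p q : Bool} {A : V → V → Prop} {i : ℕ} {u : V} :
    ¬ hadj p q A i u i u := by
  unfold hadj
  simp

/-- the new graph -/
def HG {V : Type} (p q : Bool) (G : SimpleGraph V) : SimpleGraph (Fin 4 × V) where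
  Adj x y := hadj p q G.Adj x.1.1 x.2 y.1.1 y.2
  symm := ⟨fun x y h => hadj_symm (fun _ _ h => h.symm) x.1.2 y.1.2 h⟩
  loopless := ⟨fun _ h => hadj_irrefl h⟩

variable {V : Type} {p q : Bool} {G : SimpleGraph V}

theorem hg_03 {u v : V} : (HG p q G).Adj (0, u) (3, v) ↔ G.Adj u v := by
  show hadj p q G.Adj 0 u 3 v ↔ _
  unfold hadj
  simp

theorem hg_30 {u v : V} : (HG p q G).Adj (3, u) (0, v) ↔ G.Adj u v := by
  show hadj p q G.Adj 3 u 0 v ↔ _
  unfold hadj
  simp

theorem hg_10 {u v : V} : (HG p q G).Adj (1, u) (0, v) ↔ u = v := by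
  show hadj p q G.Adj 1 u 0 v ↔ _
  unfold hadj
  simp

theorem hg_21 {u v : V} : (HG p q G).Adj (2, u) (1, v) ↔ u = v := by
  show hadj p q G.Adj 2 u 1 v ↔ _
  unfold hadj
  simp

theorem hg_32 {u v : V} : (HG p q G).Adj (3, u) (2, v) ↔ u = v := by
  show hadj p q G.Adj 3 u 2 v ↔ _
  unfold hadj
  simp

/-- two vertices in the same colour class with different second components are adjacent iff the
class is a clique -/
theorem hg_same {i j : Fin 4} (h : i.1 % 2 = j.1 % 2) {u v : V} (huv : u ≠ v) :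
    (HG p q G).Adj (i, u) (j, v) ↔ cb p q i.1 = true := by
  show hadj p q G.Adj i.1 u j.1 v ↔ _
  obtain ⟨i, hi⟩ := i
  obtain ⟨j, hj⟩ := j
  unfold hadj
  simp only at h ⊢
  interval_cases i <;> interval_cases j <;> simp_all [cb]

theorem hg_diff {i j : Fin 4} (h : i.1 % 2 ≠ j.1 % 2) {u v : V} (huv : u ≠ v)
    (hadj : (HG p q G).Adj (i, u) (j, v)) : (i = 0 ∧ j = 3) ∨ (i = 3 ∧ j = 0) := by
  change Pool.Agent.H22.SW.hadj p q G.Adj i.1 u j.1 v at hadj
  obtain ⟨i, hi⟩ := i
  obtain ⟨j, hj⟩ := j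
  unfold Pool.Agent.H22.SW.hadj at hadj
  simp only at h hadj
  interval_cases i <;> interval_cases j <;> simp_all

/-- a bound for families indexed by a finite set -/
theorem MimBd.card_le {W ι : Type} [DecidableEq ι] {H : SimpleGraph W} {A B : Set W} {k : ℕ}
    (h : MimBd H A B k) (I : Finset ι) (x y : ι → W) (hx : ∀ i ∈ I, x i ∈ A)
    (hy : ∀ i ∈ I, y i ∈ B) (hxy : ∀ i ∈ I, ∀ j ∈ I, H.Adj (x i) (y j) ↔ i = j) : I.card ≤ k := by
  let e := I.equivFin.symm
  refine h I.card (fun i => x (e i).1) (fun i => y (e i).1) (fun i => hx _ (e i).2)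
    (fun i => hy _ (e i).2) fun i j => ?_
  rw [hxy _ (e i).2 _ (e j).2]
  constructor
  · intro h1
    exact e.injective (Subtype.ext h1)
  · intro h1
    rw [h1]

/-- the restricted form of a bound: the ends on each side have the same type -/
def TBd (H : SimpleGraph (Fin 4 × V)) (A B : Set (Fin 4 × V)) (k : ℕ) : Prop :=
  ∀ (a b : Fin 4) (m : ℕ) (x y : Fin m → V), (∀ i, (a, x i) ∈ A) → (∀ i, (b, y i) ∈ B) →
    (∀ i j, H.Adj (a, x i) (b, y j) ↔ i = j) → m ≤ k

theorem TBd.of_mim {H : SimpleGraph (Fin 4 × V)} {A B : Set (Fin 4 × V)} {k : ℕ}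
    (h : MimBd H A B k) : TBd H A B k :=
  fun _ _ m _ _ hx hy hxy => h m _ _ hx hy hxy

theorem TBd.of_sim {G : SimpleGraph V} {A B : Set (Fin 4 × V)} {k : ℕ}
    (h : SimBd (HG false false G) A B k) : TBd (HG false false G) A B k := by
  have hno : ∀ (a : Fin 4) (u v : V), ¬ (HG false false G).Adj (a, u) (a, v) := by
    intro a u v huv
    by_cases h1 : u = v
    · rw [h1] at huv
      exact (HG false false G).loopless.irrefl _ huv
    · rw [hg_same rfl h1] at huv
      unfold cb at huv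
      split_ifs at huv
  exact fun a b m x y hx hy hxy => h m _ _ hx hy hxy (fun i j => hno a _ _) fun i j => hno b _ _

theorem TBd.card_le {ι : Type} [DecidableEq ι] {H : SimpleGraph (Fin 4 × V)}
    {A B : Set (Fin 4 × V)} {k : ℕ} (h : TBd H A B k) (a b : Fin 4) (I : Finset ι) (x y : ι → V)
    (hx : ∀ i ∈ I, (a, x i) ∈ A) (hy : ∀ i ∈ I, (b, y i) ∈ B)
    (hxy : ∀ i ∈ I, ∀ j ∈ I, H.Adj (a, x i) (b, y j) ↔ i = j) : I.card ≤ k := by
  let e := I.equivFin.symm
  refine h a b I.card (fun i => x (e i).1) (fun i => y (e i).1) (fun i => hx _ (e i).2)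
    (fun i => hy _ (e i).2) fun i j => ?_
  rw [hxy _ (e i).2 _ (e j).2]
  constructor
  · intro h1
    exact e.injective (Subtype.ext h1)
  · intro h1
    rw [h1]

/-- **From the new graph to the old one**, for one cut. -/
theorem cut_down {L : Set (Fin 4 × V)} {k : ℕ} (h : TBd (HG p q G) L Lᶜ k) :
    MimBd G {v | ((0 : Fin 4), v) ∈ L} {v | ((0 : Fin 4), v) ∉ L} (4 * k) := by
  classical
  intro m x y hx hy hxy
  have hyinj : ∀ i j, y i = y j → i = j := by
    intro i j hij
    have h1 := (hxy i i).2 rfl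
    rw [hij] at h1
    exact (hxy i j).1 h1
  let I0 : Finset (Fin m) := univ.filter fun i => ((3 : Fin 4), y i) ∉ L
  let I1 : Finset (Fin m) := univ.filter fun i => ((1 : Fin 4), y i) ∈ L
  let I2 : Finset (Fin m) := univ.filter fun i => ((1 : Fin 4), y i) ∉ L ∧ ((2 : Fin 4), y i) ∈ L
  let I3 : Finset (Fin m) := univ.filter fun i => ((2 : Fin 4), y i) ∉ L ∧ ((3 : Fin 4), y i) ∈ L
  have h0 : I0.card ≤ k := by
    refine h.card_le 0 3 I0 x y (fun i _ => hx i) (fun i hi => (mem_filter.1 hi).2)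
      fun i _ j _ => ?_
    rw [hg_03]
    exact hxy i j
  have h1 : I1.card ≤ k := by
    refine h.card_le 1 0 I1 y y (fun i hi => (mem_filter.1 hi).2) (fun i _ => hy i)
      fun i _ j _ => ?_
    rw [hg_10]
    exact ⟨hyinj i j, fun h => by rw [h]⟩
  have h2 : I2.card ≤ k := by
    refine h.card_le 2 1 I2 y y (fun i hi => (mem_filter.1 hi).2.2)
      (fun i hi => (mem_filter.1 hi).2.1) fun i _ j _ => ?_
    rw [hg_21]
    exact ⟨hyinj i j, fun h => by rw [h]⟩
  have h3 : I3.card ≤ k := by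
    refine h.card_le 3 2 I3 y y (fun i hi => (mem_filter.1 hi).2.2)
      (fun i hi => (mem_filter.1 hi).2.1) fun i _ j _ => ?_
    rw [hg_32]
    exact ⟨hyinj i j, fun h => by rw [h]⟩
  have hun : (univ : Finset (Fin m)) ⊆ I0 ∪ (I1 ∪ (I2 ∪ I3)) := by
    intro i _
    simp only [mem_union, I0, I1, I2, I3, mem_filter, mem_univ, true_and]
    tauto
  have h4 := card_le_card hun
  rw [card_univ, Fintype.card_fin] at h4
  have h5 := card_union_le I0 (I1 ∪ (I2 ∪ I3))
  have h6 := card_union_le I1 (I2 ∪ I3)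
  have h7 := card_union_le I2 I3
  omega

/-- **From the old graph to the new one**, for the cuts between gadgets. -/
theorem cut_up {A : Set V} {k : ℕ} (h : MimBd G A Aᶜ k) :
    MimBd (HG p q G) {x | x.2 ∈ A} {x | x.2 ∉ A} (2 * k + 2) := by
  classical
  intro m x y hx hy hxy
  have hne : ∀ i j, (x i).2 ≠ (y j).2 := fun i j h1 => hy j (h1 ▸ hx i)
  let I0 : Finset (Fin m) := univ.filter fun i => (x i).1 = 0 ∧ (y i).1 = 3
  let I1 : Finset (Fin m) := univ.filter fun i => (x i).1 = 3 ∧ (y i).1 = 0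
  let I2 : Finset (Fin m) := univ.filter fun i => (x i).1.1 % 2 = 0 ∧ (y i).1.1 % 2 = 0
  let I3 : Finset (Fin m) := univ.filter fun i => (x i).1.1 % 2 = 1 ∧ (y i).1.1 % 2 = 1
  have h0 : I0.card ≤ k := by
    refine h.card_le I0 (fun i => (x i).2) (fun i => (y i).2) (fun i _ => hx i) (fun i _ => hy i)
      fun i hi j hj => ?_
    have h1 := hxy i j
    have hx0 : x i = (0, (x i).2) := Prod.ext (mem_filter.1 hi).2.1 rfl
    have hy0 : y j = (3, (y j).2) := Prod.ext (mem_filter.1 hj).2.2 rfl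
    rw [hx0, hy0, hg_03] at h1
    exact h1
  have h1 : I1.card ≤ k := by
    refine h.card_le I1 (fun i => (x i).2) (fun i => (y i).2) (fun i _ => hx i) (fun i _ => hy i)
      fun i hi j hj => ?_
    have h1 := hxy i j
    have hx0 : x i = (3, (x i).2) := Prod.ext (mem_filter.1 hi).2.1 rfl
    have hy0 : y j = (0, (y j).2) := Prod.ext (mem_filter.1 hj).2.2 rfl
    rw [hx0, hy0, hg_30] at h1
    exact h1
  have hcl : ∀ r, ∀ I : Finset (Fin m), (∀ i ∈ I, (x i).1.1 % 2 = r ∧ (y i).1.1 % 2 = r) →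
      I.card ≤ 1 := by
    intro r I hI
    refine card_le_one.2 fun i hi j hj => ?_
    have h2 : ∀ i j, (x i).1.1 % 2 = (y j).1.1 % 2 →
        ((HG p q G).Adj (x i) (y j) ↔ cb p q (x i).1.1 = true) := by
      intro i j h3
      exact hg_same (i := (x i).1) (j := (y j).1) h3 (hne i j)
    have h3 := (h2 i i ((hI i hi).1.trans (hI i hi).2.symm)).1 ((hxy i i).2 rfl)
    exact (hxy i j).1 ((h2 i j ((hI i hi).1.trans (hI j hj).2.symm)).2 h3)
  have h2 : I2.card ≤ 1 := hcl 0 I2 fun i hi => (mem_filter.1 hi).2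
  have h3 : I3.card ≤ 1 := hcl 1 I3 fun i hi => (mem_filter.1 hi).2
  have hun : (univ : Finset (Fin m)) ⊆ I0 ∪ (I1 ∪ (I2 ∪ I3)) := by
    intro i _
    simp only [mem_union, I0, I1, I2, I3, mem_filter, mem_univ, true_and]
    by_cases hpar : (x i).1.1 % 2 = (y i).1.1 % 2
    · have h4 : (x i).1.1 % 2 < 2 := Nat.mod_lt _ (by norm_num)
      omega
    · rcases hg_diff (i := (x i).1) (j := (y i).1) hpar (hne i i) ((hxy i i).2 rfl) with h5 | h5
      · exact Or.inl h5
      · exact Or.inr (Or.inl h5)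
  have h4 := card_le_card hun
  rw [card_univ, Fintype.card_fin] at h4
  have h5 := card_union_le I0 (I1 ∪ (I2 ∪ I3))
  have h6 := card_union_le I1 (I2 ∪ I3)
  have h7 := card_union_le I2 I3
  omega

/-! ### trees -/

/-- the tree of a gadget -/
def gad (v : V) : BT (Fin 4 × V) :=
  BT.node (BT.node (BT.leaf (0, v)) (BT.leaf (1, v))) (BT.node (BT.leaf (2, v)) (BT.leaf (3, v)))

/-- the tree of the new graph -/
def TH : BT V → BT (Fin 4 × V)
  | BT.leaf v => gad v
  | BT.node a b => BT.node (TH a) (TH b)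

theorem mem_TH (T : BT V) (x : Fin 4 × V) : x ∈ (TH T).lv ↔ x.2 ∈ T.lv := by
  induction T with
  | leaf v =>
    obtain ⟨⟨i, hi⟩, u⟩ := x
    simp only [TH, gad, BT.lv, List.mem_append, List.mem_singleton, Prod.mk.injEq, Fin.ext_iff]
    interval_cases i <;> simp
  | node a b iha ihb =>
    simp only [TH, BT.lv, List.mem_append, iha, ihb]

theorem nodup_TH (T : BT V) (h : T.lv.Nodup) : (TH T).lv.Nodup := by
  induction T with
  | leaf v => simp [TH, gad, BT.lv]
  | node a b iha ihb =>
    simp only [BT.lv] at h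
    rw [List.nodup_append] at h
    simp only [TH, BT.lv]
    rw [List.nodup_append]
    refine ⟨iha h.1, ihb h.2.1, fun x hx y hy hxy => ?_⟩
    subst hxy
    rw [mem_TH] at hx hy
    exact h.2.2 _ hx _ hy rfl

theorem subs_TH (T : BT V) : ∀ s ∈ (TH T).subs, (∃ s' ∈ T.subs, s = TH s') ∨ s.lv.length ≤ 2 := by
  induction T with
  | leaf v =>
    intro s hs
    simp only [TH, gad, BT.subs, List.mem_cons, List.mem_append, List.not_mem_nil, or_false] at hs
    rcases hs with rfl | (rfl | rfl | rfl) | (rfl | rfl | rfl)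
    · exact Or.inl ⟨BT.leaf v, by simp [BT.subs], rfl⟩
    all_goals exact Or.inr (by simp [BT.lv])
  | node a b iha ihb =>
    intro s hs
    simp only [TH, BT.subs, List.mem_cons, List.mem_append] at hs
    rcases hs with rfl | hs | hs
    · exact Or.inl ⟨BT.node a b, BT.subs_self _, rfl⟩
    · rcases iha s hs with ⟨s', hs', h⟩ | h
      · exact Or.inl ⟨s', by simp only [BT.subs, List.mem_cons, List.mem_append]; tauto, h⟩
      · exact Or.inr h
    · rcases ihb s hs with ⟨s', hs', h⟩ | h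
      · exact Or.inl ⟨s', by simp only [BT.subs, List.mem_cons, List.mem_append]; tauto, h⟩
      · exact Or.inr h

theorem psubs_TH (T : BT V) :
    ∀ s ∈ (TH T).psubs, (∃ s' ∈ T.psubs, s = TH s') ∨ s.lv.length ≤ 2 := by
  cases T with
  | leaf v =>
    intro s hs
    simp only [TH, gad, BT.psubs, BT.subs, List.mem_cons, List.mem_append, List.not_mem_nil,
      or_false] at hs
    rcases hs with (rfl | rfl | rfl) | (rfl | rfl | rfl)
    all_goals exact Or.inr (by simp [BT.lv])
  | node a b =>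
    intro s hs
    simp only [TH, BT.psubs, List.mem_append] at hs
    rcases hs with hs | hs
    · rcases subs_TH a s hs with ⟨s', hs', h⟩ | h
      · exact Or.inl ⟨s', List.mem_append_left _ hs', h⟩
      · exact Or.inr h
    · rcases subs_TH b s hs with ⟨s', hs', h⟩ | h
      · exact Or.inl ⟨s', List.mem_append_right _ hs', h⟩
      · exact Or.inr h

theorem mimBd_small {W : Type} {H : SimpleGraph W} (l : List W) (B : Set W) :
    MimBd H {v | v ∈ l} B l.length := by
  classical
  intro m x y hx hy hxy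
  have hinj : Function.Injective x := by
    intro i j hij
    have h1 := (hxy i i).2 rfl
    rw [hij] at h1
    exact ((hxy j i).1 h1).symm
  have h1 : (univ.image x).card ≤ l.toFinset.card := by
    refine card_le_card fun a ha => ?_
    obtain ⟨i, _, rfl⟩ := mem_image.1 ha
    exact List.mem_toFinset.2 (hx i)
  rw [card_image_of_injective _ hinj, card_univ, Fintype.card_fin] at h1
  exact h1.trans (List.toFinset_card_le l)

theorem MimBd.mono {W : Type} {H : SimpleGraph W} {A B A' B' : Set W} {k k' : ℕ}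
    (h : MimBd H A B k) (hA : A' ⊆ A) (hB : B' ⊆ B) (hk : k ≤ k') : MimBd H A' B' k' :=
  fun m x y hx hy hxy => (h m x y (fun i => hA (hx i)) (fun i => hB (hy i)) hxy).trans hk

theorem mimDec_TH {T : BT V} {k : ℕ} (h : MimDec G T k) : MimDec (HG p q G) (TH T) (2 * k + 2) := by
  obtain ⟨h1, h2, h3⟩ := h
  refine ⟨nodup_TH T h1, fun x => (mem_TH T x).2 (h2 _), fun s hs => ?_⟩
  rcases psubs_TH T s hs with ⟨s', hs', rfl⟩ | hlen
  · refine (cut_up (p := p) (q := q) (A := {v | v ∈ s'.lv}) ((h3 s' hs').mono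
      (Set.Subset.refl _) (fun v hv => hv) le_rfl)).mono ?_ ?_ le_rfl
    · exact fun x hx => (mem_TH s' x).1 hx
    · exact fun x hx hx' => hx ((mem_TH s' x).2 hx')
  · exact (mimBd_small s.lv _).mono (Set.Subset.refl _) (Set.Subset.refl _) (by omega)

end Pool.Agent.H22.SW
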