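import Mathlib
import Pool.Agent.H22.SW.Bic

set_option autoImplicit false
set_option linter.unusedSectionVars false

/-!
# Composing XP approximations with polynomial-time maps
-/

namespace Pool.Agent.H22.SW

open Pool.Agent.H88.RO Pool.Agent.H88.RO.Tr

/-- XP-bounded with a computable exponent -/
def CB (X : Inp → ℕ) : Prop := ∃ g : ℕ → ℕ, Computable g ∧ ∀ i, X i ≤ nn i ^ g (kk i)

theorem CB.mono {X Y : Inp → ℕ} (h : CB Y) (hXY : ∀ i, X i ≤ Y i) : CB X := by
  obtain ⟨g, hg, hE⟩ := h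
  exact ⟨g, hg, fun i => (hXY i).trans (hE i)⟩

theorem nn_pos (i : Inp) : 0 < nn i := by
  have := two_le_nn i
  omega

theorem comp_add {f g : ℕ → ℕ} (hf : Computable f) (hg : Computable g) :
    Computable fun k => f k + g k :=
  (Primrec.nat_add.to_comp).comp hf hg

theorem comp_mul {f g : ℕ → ℕ} (hf : Computable f) (hg : Computable g) :
    Computable fun k => f k * g k :=
  (Primrec.nat_mul.to_comp).comp hf hg

theorem CB.of_exp {f : ℕ → ℕ} (hf : Computable f) : CB fun i => nn i ^ f (kk i) :=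
  ⟨f, hf, fun _ => le_rfl⟩

theorem CB.of_comp {f : ℕ → ℕ} (hf : Computable f) : CB fun i => f (kk i) :=
  ⟨f, hf, fun i => le_pow_nn i _⟩

theorem CB.const (a : ℕ) : CB fun _ => a := CB.of_comp (f := fun _ => a) (Computable.const a)

theorem CB.mul {X Y : Inp → ℕ} (hX : CB X) (hY : CB Y) : CB fun i => X i * Y i := by
  obtain ⟨f, hf, hE⟩ := hX
  obtain ⟨g, hg, hF⟩ := hY
  refine ⟨fun k => f k + g k, comp_add hf hg, fun i => (Nat.mul_le_mul (hE i) (hF i)).trans ?_⟩
  rw [← pow_add]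

theorem CB.add {X Y : Inp → ℕ} (hX : CB X) (hY : CB Y) : CB fun i => X i + Y i := by
  have h2 : ∀ {Z : Inp → ℕ}, CB Z → CB fun i => Z i + 1 := by
    intro Z hZ
    obtain ⟨f, hf, hE⟩ := hZ
    have h3 : CB fun i => 2 * nn i ^ f (kk i) := CB.mul (CB.const 2) (CB.of_exp hf)
    refine h3.mono fun i => ?_
    have h4 := hE i
    have h5 : 1 ≤ nn i ^ f (kk i) := Nat.one_le_pow _ _ (nn_pos i)
    omega
  refine (CB.mul (h2 hX) (h2 hY)).mono fun i => ?_
  have : (X i + 1) * (Y i + 1) = X i * Y i + X i + Y i + 1 := by ring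
  omega

theorem CB.nn : CB fun i => nn i := by
  refine ⟨fun _ => 1, Computable.const 1, fun i => ?_⟩
  rw [pow_one]

theorem CB.kk : CB fun i => kk i := CB.of_comp (f := fun k => k) Computable.id

theorem CB.eval {X : Inp → ℕ} (q : Polynomial ℕ) (hX : CB X) : CB fun i => q.eval (X i) := by
  induction q using Polynomial.induction_on' with
  | add p q hp hq =>
    simp only [Polynomial.eval_add]
    exact hp.add hq
  | monomial m a =>
    simp only [Polynomial.eval_monomial]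
    refine (CB.const a).mul ?_
    induction m with
    | zero => simpa using CB.const 1
    | succ m ih =>
      simp only [pow_succ]
      exact ih.mul hX

theorem CB.szInp : CB fun i => sz i.1 := by
  refine CB.mono ?_ sz_inp
  exact (((CB.nn.mul ((CB.nn.mul (CB.const 4)).add (CB.const 2))).add (CB.const 1)).add
    (((CB.const 2).mul CB.kk).add (CB.const 1))).add (CB.const 1)

/-- **Transfer of XP approximations.**  `R` is the reduction, `P` turns the output back. -/
theorem transfer {K1 K2 : ∀ n : ℕ, SimpleGraph (Fin n) → Prop}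
    {W1 W2 : ∀ n : ℕ, SimpleGraph (Fin n) → BT (Fin n) → ℕ → Prop}
    (R : List (List Bool) × ℕ → List (List Bool) × ℕ) (hR : PT R)
    (P : (List (List Bool) × ℕ) × Tr → Tr) (hP : PT P)
    (kp fp : ℕ → ℕ) (hkp : Computable kp) (hfp : Computable fp)
    (hP0 : ∀ x, P (x, leaf) = leaf)
    (hred : ∀ (n : ℕ), 2 ≤ n → ∀ G, K1 n G → ∀ k, 1 ≤ k → ∃ (n' : ℕ) (G' : SimpleGraph (Fin n')),
      2 ≤ n' ∧ n' ≤ 4 * n ∧ K2 n' G' ∧ 1 ≤ kp k ∧ te (R (matG G, k)) = codeIn G' (kp k) ∧
      ((∃ T, W1 n G T k) → ∃ T, W2 n' G' T (kp k)) ∧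
      ∀ T' q, W2 n' G' T' q → ∃ T, P ((matG G, k), codeBT T') = codeBT T ∧ W1 n G T (fp q))
    (h2 : XPApprox K2 W2) : XPApprox K1 W1 := by
  obtain ⟨f, g, hf, hg, c, hc⟩ := h2
  obtain ⟨cR, qR, hqR⟩ := hR
  obtain ⟨cP, qP, hqP⟩ := hP
  -- cost bound of the oracle algorithm
  have hcost : CB fun i => g (kp (kk i)) * (4 * nn i) ^ g (kp (kk i)) := by
    refine ⟨fun k => 4 * g (kp k), comp_mul (Computable.const 4) (hg.comp hkp), fun i => ?_⟩
    have h3 : 4 * nn i ≤ nn i ^ 3 := by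
      have := two_le_nn i
      have h4 : nn i ^ 3 = nn i * (nn i * nn i) := by ring
      rw [h4]
      nlinarith
    calc g (kp (kk i)) * (4 * nn i) ^ g (kp (kk i)) ≤ nn i ^ g (kp (kk i)) *
          (nn i ^ 3) ^ g (kp (kk i)) := Nat.mul_le_mul (le_pow_nn i _) (Nat.pow_le_pow_left h3 _)
      _ = nn i ^ (4 * g (kp (kk i))) := by
          rw [← pow_mul, ← pow_add]
          congr 1
          ring
  -- total cost
  have htot : CB fun i => ((sz i.1 + 1) + (qR.eval (sz i.1) +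
      (g (kp (kk i)) * (4 * nn i) ^ g (kp (kk i))) + sz i.1 + 1) + sz i.1 + 1) +
      qP.eval (sz i.1 + 2 * (g (kp (kk i)) * (4 * nn i) ^ g (kp (kk i))) + 1) + sz i.1 + 1 :=
    ((((CB.szInp.add (CB.const 1)).add ((((CB.eval qR CB.szInp).add hcost).add CB.szInp).add
      (CB.const 1))).add CB.szInp).add (CB.const 1)).add (CB.eval qP ((CB.szInp.add
      ((CB.const 2).mul hcost)).add (CB.const 1))) |>.add CB.szInp |>.add (CB.const 1)
  obtain ⟨e, he, hbd⟩ := htot
  refine ⟨fun k => fp (f (kp k)), fun k => e k + 1, hfp.comp (hf.comp hkp),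
    comp_add he (Computable.const 1), Prog.comp cP (Prog.pair Prog.id (Prog.comp c cR)),
    fun n hn G hG k hk => ?_⟩
  obtain ⟨n', G', hn', hnn, hG', hkp1, hcode, hno, hyes⟩ := hred n hn G hG k hk
  obtain ⟨v, s, hev, hs, hv⟩ := hc n' hn' G' hG' (kp k) hkp1
  have hi1 : nn (inpG hn G k) = n := length_matG G
  have hi2 : kk (inpG hn G k) = k := rfl
  have hs' : s ≤ g (kp k) * (4 * n) ^ g (kp k) :=
    hs.trans (Nat.mul_le_mul_left _ (Nat.pow_le_pow_left hnn _))
  have hin : codeIn G k = te ((matG G, k) : List (List Bool) × ℕ) := codeIn_eq hn G k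
  have h3 : Ev cR (te ((matG G, k) : List (List Bool) × ℕ)) (codeIn G' (kp k))
      (qR.eval (sz ((matG G, k) : List (List Bool) × ℕ))) := by
    rw [← hcode]
    exact hqR _
  have h4 : Ev c (codeIn G' (kp k)) v (g (kp k) * (4 * n) ^ g (kp k)) := ⟨s, hs', hev⟩
  have h5 : Ev (Prog.pair Prog.id (Prog.comp c cR)) (te ((matG G, k) : List (List Bool) × ℕ))
      (te (((matG G, k), v) : (List (List Bool) × ℕ) × Tr)) _ := Ev.pair (Ev.id _) (Ev.comp h3 h4)
  have h6 := Ev.comp h5 (hqP ((matG G, k), v))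
  have hvs : size v ≤ 2 * (g (kp k) * (4 * n) ^ g (kp k)) := h4.size_le
  have h7 : sz (((matG G, k), v) : (List (List Bool) × ℕ) × Tr) =
    sz ((matG G, k) : List (List Bool) × ℕ) + size v + 1 := rfl
  have h8 := hbd (inpG hn G k)
  have h9 : sz (inpG hn G k).1 = sz ((matG G, k) : List (List Bool) × ℕ) := rfl
  beta_reduce at h8
  rw [hi1, hi2, h9] at h8
  have h10 : qP.eval (sz (((matG G, k), v) : (List (List Bool) × ℕ) × Tr)) ≤
      qP.eval (sz ((matG G, k) : List (List Bool) × ℕ) +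
        2 * (g (kp k) * (4 * n) ^ g (kp k)) + 1) := poly_mono qP (by rw [h7]; omega)
  obtain ⟨s', hs', he'⟩ := h6
  refine ⟨P ((matG G, k), v), s', by rw [hin]; exact he', ?_, ?_⟩
  · have h11 : s' ≤ n ^ e k := by
      refine hs'.trans (le_trans ?_ h8)
      simp only [sz] at h10 ⊢
      omega
    refine h11.trans ?_
    calc n ^ e k ≤ n ^ (e k + 1) := Nat.pow_le_pow_right (by omega) (by omega)
      _ ≤ (e k + 1) * n ^ (e k + 1) := Nat.le_mul_of_pos_left _ (by omega)
  · rcases hv with ⟨hv0, hv1⟩ | ⟨T', hT', hW'⟩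
    · left
      rw [hv0]
      exact ⟨hP0 _, fun h => hv1 (hno h)⟩
    · right
      obtain ⟨T, hT, hW⟩ := hyes T' _ hW'
      rw [hT']
      exact ⟨T, hT, hW⟩

/-- restricting the class -/
theorem XPApprox.mono {K1 K2 : ∀ n : ℕ, SimpleGraph (Fin n) → Prop}
    {W : ∀ n : ℕ, SimpleGraph (Fin n) → BT (Fin n) → ℕ → Prop} (h : XPApprox K2 W)
    (hK : ∀ n G, K1 n G → K2 n G) : XPApprox K1 W := by
  obtain ⟨f, g, hf, hg, c, hc⟩ := h
  exact ⟨f, g, hf, hg, c, fun n hn G hG k hk => hc n hn G (hK n G hG) k hk⟩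

end Pool.Agent.H22.SW
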