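import Mathlib
import Pool.Agent.H22.SW.PTM
import Pool.Agent.H22.SW.Fin1

set_option autoImplicit false
set_option linter.unusedSectionVars false

/-!
# Restricting a labelled tree in polynomial time
-/

namespace Pool.Agent.H22.SW

open Pool.Agent.H88.RO Pool.Agent.H88.RO.Tr

variable {α β γ σ δ : Type} [TE α] [TE β] [TE γ] [TE σ] [TE δ]

open Classical in
/-- is the tree a leaf? -/
noncomputable def isLf (v : Tr) : Bool := decide (v = leaf)

theorem isLf_iff {v : Tr} : isLf v = true ↔ v = leaf := by
  unfold isLf
  rw [decide_eq_true_eq]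

theorem PT.isLf {f : α → Tr} (hf : PT f) : PT fun x => isLf (f x) := by
  classical
  refine (PT.ofFP (F := fun v => if v = leaf then node leaf leaf else leaf)
    (FP.ite' FP.id' (FP.const' _) (FP.const' _)) (f := fun v : Tr => Pool.Agent.H22.SW.isLf v)
    fun v => ?_).comp hf
  show (if v = leaf then node leaf leaf else leaf) = bit (decide (v = leaf))
  by_cases h : v = leaf
  · rw [if_pos h, decide_eq_true h]
    rfl
  · rw [if_neg h, decide_eq_false h]
    rfl

theorem PT.tfst {f : α → Tr} (hf : PT f) : PT fun x => Tr.fst (f x) :=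
  (PT.ofFP (F := fun v => Tr.fst v) (FP.fst' FP.id') (f := fun v : Tr => Tr.fst v)
    fun _ => rfl).comp hf

theorem PT.tsnd {f : α → Tr} (hf : PT f) : PT fun x => Tr.snd (f x) :=
  (PT.ofFP (F := fun v => Tr.snd v) (FP.snd' FP.id') (f := fun v : Tr => Tr.snd v)
    fun _ => rfl).comp hf

/-- one step of the traversal; the state is the stack of the trees to be visited and the output -/
noncomputable def trv (s : List Tr × List Tr) : List Tr × List Tr :=
  match s.1 with
  | [] => s
  | t :: r => if isLf (Tr.fst t) = true then (r, t :: s.2)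
      else (Tr.snd (Tr.snd t) :: Tr.fst (Tr.snd t) :: r, leaf :: s.2)

theorem PT.trv {f : α → List Tr × List Tr} (hf : PT f) : PT fun x => trv (f x) := by
  refine (PT.caseL (z := f) (s := fun x (t : Tr) (r : List Tr) =>
    if Pool.Agent.H22.SW.isLf (Tr.fst t) = true then (r, t :: (f x).2)
      else (Tr.snd (Tr.snd t) :: Tr.fst (Tr.snd t) :: r, leaf :: (f x).2)) hf.fst hf ?_).congr ?_
  · exact PT.cond PT.last.fst.tfst.isLf (PT.last.snd.pair (PT.last.fst.cons hf.up.snd))
      ((PT.last.fst.tsnd.tsnd.cons (PT.last.fst.tsnd.tfst.cons PT.last.snd)).pair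
        ((PT.const leaf).cons hf.up.snd))
  · intro x
    unfold Pool.Agent.H22.SW.trv
    cases (f x).1 <;> rfl

theorem sz_trv (s : List Tr × List Tr) : sz (trv s).1 ≤ sz s.1 ∧
    sz (trv s).2 ≤ sz s.2 + sz s.1 + 2 := by
  unfold trv
  rcases h : s.1 with _ | ⟨t, r⟩
  · simp only [h]
    constructor <;> omega
  · simp only
    split_ifs with h1
    · simp only [sz_cons]
      constructor <;> omega
    · simp only [sz_cons]
      have h2 : sz t = sz (Tr.fst t) + sz (Tr.snd t) + 1 := by
        cases t with
        | leaf => exact absurd (isLf_iff.2 rfl) h1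
        | node a b => rfl
      have h3 : sz (Tr.fst (Tr.snd t)) + sz (Tr.snd (Tr.snd t)) ≤ sz (Tr.snd t) + 1 := by
        cases Tr.snd t with
        | leaf => decide
        | node a b => show sz a + sz b ≤ (sz a + sz b + 1) + 1; omega
      have h4 : 3 ≤ sz (Tr.fst t) := by
        cases h5 : Tr.fst t with
        | leaf => exact absurd (isLf_iff.2 h5) h1
        | node a b =>
          have h6 : sz (node a b) = sz a + sz b + 1 := rfl
          have h7 := sz_pos a
          have h8 := sz_pos b
          omega
      have h9 : sz (leaf : Tr) = 1 := rfl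
      constructor
      · omega
      · omega

/-- the list of the nodes of a tree in the order of the evaluation; inner nodes are marked by
`leaf` -/
noncomputable def trav (N : ℕ) (t : Tr) : List Tr := ((trv)^[N] ([t], [])).2

theorem PT.trav {N : α → ℕ} {f : α → Tr} (hN : PT N) (hf : PT f) :
    PT fun x => trav (N x) (f x) := by
  have h := PT.iter (N := N) (z := fun x => ([f x], ([] : List Tr)))
    (f := fun _ s => Pool.Agent.H22.SW.trv s) hN ((hf.cons (PT.const [])).pair (PT.const []))
    (PT.trv PT.last) (b := fun x => (sz (f x) + 2) + (sz (N x) * (sz (f x) + 4) + 1) + 1)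
    (((hf.size_bound.add (PB.const 2)).add ((hN.size_bound.mul (hf.size_bound.add
      (PB.const 4))).add (PB.const 1))).add (PB.const 1)) (fun x i hi => by
      have h1 : ∀ i, sz ((fun s => Pool.Agent.H22.SW.trv s)^[i] ([f x], ([] : List Tr))).1 ≤
          sz (f x) + 2 ∧ sz ((fun s => Pool.Agent.H22.SW.trv s)^[i] ([f x], ([] : List Tr))).2 ≤
          i * (sz (f x) + 4) + 1 := by
        intro i
        induction i with
        | zero =>
          constructor
          · show sz [f x] ≤ _
            rw [sz_cons, sz_nil]
          · show sz ([] : List Tr) ≤ _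
            rw [sz_nil]
            omega
        | succ i ih =>
          rw [Function.iterate_succ_apply']
          have h2 := sz_trv ((fun s => Pool.Agent.H22.SW.trv s)^[i] ([f x], ([] : List Tr)))
          have h3 : (i + 1) * (sz (f x) + 4) = i * (sz (f x) + 4) + (sz (f x) + 4) := by ring
          constructor
          · exact h2.1.trans ih.1
          · have := ih.1
            have := ih.2
            have := h2.2
            omega
      have h2 := h1 i
      have h3 : sz ((fun s => Pool.Agent.H22.SW.trv s)^[i] ([f x], ([] : List Tr))) =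
        sz ((fun s => Pool.Agent.H22.SW.trv s)^[i] ([f x], ([] : List Tr))).1 +
        sz ((fun s => Pool.Agent.H22.SW.trv s)^[i] ([f x], ([] : List Tr))).2 + 1 := rfl
      have h4 : i * (sz (f x) + 4) ≤ sz (N x) * (sz (f x) + 4) :=
        Nat.mul_le_mul_right _ (by rw [sz_nat]; omega)
      rw [h3]
      omega)
  exact h.snd

/-- joining two restricted trees -/
noncomputable def rjoin (a b : Tr) : Tr :=
  if isLf a = true then b else if isLf b = true then a else encNd a b

/-- one step of the evaluation of the restriction -/
noncomputable def rstp (n : ℕ) (st : List Tr) (e : Tr) : List Tr :=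
  if isLf e = true then rjoin (st.tail.headD leaf) (st.headD leaf) :: st.tail.tail
  else (if isLf (Tr.snd^[n] e) = true then e else leaf) :: st

theorem size_tsnd_iter (n : ℕ) (e : Tr) : sz (Tr.snd^[n] e) ≤ sz e := by
  induction n with
  | zero => exact le_rfl
  | succ n ih =>
    rw [Function.iterate_succ_apply']
    exact (size_snd_le _).trans ih

theorem PT.tsnd_iter {N : α → ℕ} {f : α → Tr} (hN : PT N) (hf : PT f) :
    PT fun x => Tr.snd^[N x] (f x) :=
  PT.iter (N := N) (z := f) (f := fun _ s => Tr.snd s) hN hf PT.last.tsnd hf.size_bound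
    (fun x i _ => size_tsnd_iter i (f x))

theorem PT.rjoin {a b : α → Tr} (ha : PT a) (hb : PT b) : PT fun x => rjoin (a x) (b x) :=
  PT.cond ha.isLf hb (PT.cond hb.isLf ha (PT.encNd ha hb))

theorem PT.rstp {n : α → ℕ} {st : α → List Tr} {e : α → Tr} (hn : PT n) (hst : PT st) (he : PT e) :
    PT fun x => rstp (n x) (st x) (e x) :=
  PT.cond he.isLf ((PT.rjoin (PT.headD rfl hst.tail) (PT.headD rfl hst)).cons hst.tail.tail)
    ((PT.cond (PT.tsnd_iter hn he).isLf he (PT.const leaf)).cons hst)

theorem sz_rjoin (a b : Tr) : sz (rjoin a b) ≤ sz a + sz b + 5 := by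
  unfold rjoin
  split_ifs
  · omega
  · omega
  · show 3 + (sz a + sz b + 1) + 1 ≤ _
    omega

theorem sz_rstp (n : ℕ) (st : List Tr) (e : Tr) : sz (rstp n st e) ≤ sz st + sz e + 10 := by
  unfold rstp
  have h0 : sz (leaf : Tr) = 1 := rfl
  split_ifs with h1 h2
  · rw [sz_cons]
    have h3 := sz_rjoin (st.tail.headD leaf) (st.headD leaf)
    rcases st with _ | ⟨a, _ | ⟨b, l⟩⟩
    · simp only [List.tail_nil, List.headD_nil] at h3 ⊢
      rw [sz_nil]
      omega
    · simp only [List.tail_cons, List.tail_nil, List.headD_nil, List.headD_cons] at h3 ⊢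
      rw [sz_nil, sz_cons, sz_nil]
      omega
    · simp only [List.tail_cons, List.headD_cons, sz_cons] at h3 ⊢
      omega
  · rw [sz_cons]
    omega
  · rw [sz_cons]
    have := sz_pos e
    omega

theorem sz_rfold (n : ℕ) (l : List Tr) (st : List Tr) :
    sz (l.foldl (rstp n) st) ≤ sz st + 11 * sz l := by
  induction l generalizing st with
  | nil =>
    rw [List.foldl_nil]
    omega
  | cons a l ih =>
    rw [List.foldl_cons]
    have h1 := ih (rstp n st a)
    have h2 := sz_rstp n st a
    have h3 := sz_pos a
    rw [sz_cons]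
    omega

/-- the restriction of the tree with code `t` to the labels below `n` -/
noncomputable def restT (n N : ℕ) (t : Tr) : Tr := ((trav N t).foldl (rstp n) []).headD leaf

theorem PT.restT {n N : α → ℕ} {t : α → Tr} (hn : PT n) (hN : PT N) (ht : PT t) :
    PT fun x => restT (n x) (N x) (t x) := by
  have hR := PT.trav hN ht
  have hE := PT.foldl (z := fun _ => ([] : List Tr))
    (st := fun x st e => Pool.Agent.H22.SW.rstp (n x) st e) hR (PT.const [])
    (PT.rstp hn.up PT.last.fst PT.last.snd) (b := fun x => 1 + 11 * sz
      (Pool.Agent.H22.SW.trav (N x) (t x)))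
    ((PB.const 1).add ((PB.const 11).mul hR.size_bound)) (fun x l1 l2 hl => by
      refine (sz_rfold (n x) l1 []).trans ?_
      rw [sz_nil]
      have h1 := sz_sublist (List.sublist_append_left l1 l2)
      rw [← hl] at h1
      omega)
  exact PT.headD rfl hE

/-! ### correctness -/

/-- restriction of a labelled tree -/
def BT.rest (n : ℕ) : BT ℕ → Option (BT ℕ)
  | BT.leaf v => if v < n then some (BT.leaf v) else none
  | BT.node a b => match a.rest n, b.rest n with
    | none, y => y
    | some x, none => some x
    | some x, some y => some (BT.node x y)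

/-- code of an optional tree -/
def encO : Option (BT ℕ) → Tr
  | none => leaf
  | some T => encBT T

/-- the evaluation order -/
def ord : BT ℕ → List Tr
  | BT.leaf v => [encLf v]
  | BT.node a b => ord a ++ (ord b ++ [leaf])

/-- number of nodes -/
def nnod : BT ℕ → ℕ
  | BT.leaf _ => 1
  | BT.node a b => nnod a + nnod b + 1

theorem nnod_eq (T : BT ℕ) : nnod T + 1 = 2 * T.lv.length := by
  induction T with
  | leaf v => rfl
  | node a b iha ihb =>
    simp only [nnod, BT.lv, List.length_append]
    omega

theorem trv_run (T : BT ℕ) : ∀ (r out : List Tr),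
    trv^[nnod T] (encBT T :: r, out) = (r, ord T ++ out) := by
  induction T with
  | leaf v =>
    intro r out
    show trv (encBT (BT.leaf v) :: r, out) = _
    unfold trv
    simp only
    have h0 : isLf (Tr.fst (encBT (BT.leaf v))) = true := isLf_iff.2 rfl
    rw [if_pos h0]
    rfl
  | node a b iha ihb =>
    intro r out
    have h1 : nnod (BT.node a b) = nnod a + (nnod b + 1) := by simp only [nnod]; omega
    rw [h1, Function.iterate_add_apply, Function.iterate_succ_apply]
    have h2 : trv (encBT (BT.node a b) :: r, out) = (encBT b :: encBT a :: r, leaf :: out) := by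
      unfold trv
      simp only
      rw [if_neg (fun h => by
        have := isLf_iff.1 h
        simp [encBT, encNd] at this)]
      rfl
    rw [h2, ihb, iha]
    simp only [ord, List.append_assoc, List.singleton_append]

theorem trv_nil (n : ℕ) (out : List Tr) : trv^[n] ([], out) = ([], out) := by
  induction n with
  | zero => rfl
  | succ n ih => rw [Function.iterate_succ_apply]; exact ih

theorem trav_eq {N : ℕ} {T : BT ℕ} (h : nnod T ≤ N) : trav N (encBT T) = ord T := by
  unfold trav
  obtain ⟨m, rfl⟩ := Nat.exists_eq_add_of_le' h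
  rw [Function.iterate_add_apply, trv_run, trv_nil, List.append_nil]

theorem tsnd_num (n v : ℕ) : Tr.snd^[n] (num v) = num (v - n) := by
  induction n generalizing v with
  | zero => rfl
  | succ n ih =>
    rw [Function.iterate_succ_apply]
    cases v with
    | zero =>
      show Tr.snd^[n] (num 0) = _
      rw [ih, Nat.zero_sub, Nat.zero_sub]
    | succ v =>
      show Tr.snd^[n] (num v) = _
      rw [ih, Nat.add_sub_add_right]

theorem encBT_ne (T : BT ℕ) : encBT T ≠ leaf := by
  cases T <;> simp [encBT, encLf, encNd]

theorem rjoin_enc (x y : Option (BT ℕ)) : rjoin (encO x) (encO y) =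
    encO (match x, y with
      | none, y => y
      | some x, none => some x
      | some x, some y => some (BT.node x y)) := by
  unfold rjoin
  have h0 : isLf (encO none) = true := isLf_iff.2 rfl
  have h1 : ∀ x, ¬ isLf (encO (some x)) = true := fun x h => encBT_ne x (isLf_iff.1 h)
  cases x with
  | none => rw [if_pos h0]
  | some x =>
    rw [if_neg (h1 x)]
    cases y with
    | none => rw [if_pos h0]
    | some y =>
      rw [if_neg (h1 y)]
      rfl

theorem rfold_run (n : ℕ) (T : BT ℕ) : ∀ st : List Tr,
    (ord T).foldl (rstp n) st = encO (T.rest n) :: st := by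
  induction T with
  | leaf v =>
    intro st
    show rstp n st (encLf v) = _
    unfold rstp
    rw [if_neg (fun h => by
      have := isLf_iff.1 h
      simp [encLf] at this)]
    have h1 : encLf v = num (v + 1) := rfl
    rw [h1, tsnd_num]
    unfold BT.rest
    by_cases h : v < n
    · rw [if_pos (isLf_iff.2 (by
        rw [show v + 1 - n = 0 by omega]
        rfl)), if_pos h]
      rfl
    · rw [if_neg (fun h2 => by
        have h3 := isLf_iff.1 h2
        obtain ⟨m, hm⟩ : ∃ m, v + 1 - n = m + 1 := ⟨v - n, by omega⟩
        rw [hm] at h3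
        simp [num] at h3), if_neg h]
      rfl
  | node a b iha ihb =>
    intro st
    simp only [ord]
    rw [List.foldl_append, List.foldl_append, iha, ihb]
    show rstp n _ leaf = _
    unfold rstp
    rw [if_pos (isLf_iff.2 rfl)]
    simp only [List.tail_cons, List.headD_cons]
    rw [rjoin_enc]
    rfl

theorem restT_eq {n N : ℕ} {T : BT ℕ} (h : nnod T ≤ N) :
    restT n N (encBT T) = encO (T.rest n) := by
  unfold restT
  rw [trav_eq h, rfold_run]
  rfl

end Pool.Agent.H22.SW
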