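import Mathlib
import Pool.Agent.H22.SW.EqG
import Pool.Agent.H22.SW.EqT
import Pool.Agent.H22.SW.EqP

set_option autoImplicit false
set_option linter.unusedSectionVars false

/-!
# The reductions
-/

namespace Pool.Agent.H22.SW

open Finset Pool.Agent.H88.RO Pool.Agent.H88.RO.Tr

/-! ### restricted trees -/

theorem rest_lv (n : ℕ) (T : BT ℕ) :
    (∀ R, T.rest n = some R → R.lv = T.lv.filter fun v => decide (v < n)) ∧
      (T.rest n = none → T.lv.filter (fun v => decide (v < n)) = []) := by
  induction T with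
  | leaf v =>
    unfold BT.rest
    by_cases h : v < n
    · rw [if_pos h]
      refine ⟨fun R hR => ?_, fun h1 => by simp at h1⟩
      rw [Option.some.injEq] at hR
      rw [← hR]
      simp [BT.lv, h]
    · rw [if_neg h]
      refine ⟨fun R hR => by simp at hR, fun _ => by simp [BT.lv, h]⟩
  | node a b iha ihb =>
    simp only [BT.rest, BT.lv, List.filter_append]
    rcases ha : a.rest n with _ | x <;> rcases hb : b.rest n with _ | y
    · refine ⟨fun R hR => by simp at hR, fun _ => ?_⟩
      rw [iha.2 ha, ihb.2 hb]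
      rfl
    · refine ⟨fun R hR => ?_, fun h1 => by simp at h1⟩
      simp only [Option.some.injEq] at hR
      rw [← hR, iha.2 ha, ihb.1 y hb]
      rfl
    · refine ⟨fun R hR => ?_, fun h1 => by simp at h1⟩
      simp only [Option.some.injEq] at hR
      rw [← hR, iha.1 x ha, ihb.2 hb, List.append_nil]
    · refine ⟨fun R hR => ?_, fun h1 => by simp at h1⟩
      simp only [Option.some.injEq] at hR
      rw [← hR, BT.lv, iha.1 x ha, ihb.1 y hb]

theorem rest_subs (n : ℕ) (T : BT ℕ) : ∀ R, T.rest n = some R → ∀ s ∈ R.subs,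
    ∃ s' ∈ T.subs, s'.rest n = some s := by
  induction T with
  | leaf v =>
    intro R hR s hs
    unfold BT.rest at hR
    split_ifs at hR with h
    · rw [Option.some.injEq] at hR
      rw [← hR] at hs
      have h1 : s = BT.leaf v := by simpa [BT.subs] using hs
      refine ⟨BT.leaf v, BT.subs_self _, ?_⟩
      unfold BT.rest
      rw [if_pos h, h1]
  | node a b iha ihb =>
    intro R hR s hs
    have hself := hR
    simp only [BT.rest] at hR
    rcases ha : a.rest n with _ | x <;> rcases hb : b.rest n with _ | y <;> rw [ha, hb] at hR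
    · simp at hR
    · simp only [Option.some.injEq] at hR
      rw [← hR] at hs
      obtain ⟨s', hs', h⟩ := ihb y hb s hs
      exact ⟨s', by simp only [BT.subs, List.mem_cons, List.mem_append]; tauto, h⟩
    · simp only [Option.some.injEq] at hR
      rw [← hR] at hs
      obtain ⟨s', hs', h⟩ := iha x ha s hs
      exact ⟨s', by simp only [BT.subs, List.mem_cons, List.mem_append]; tauto, h⟩
    · simp only [Option.some.injEq] at hR
      rw [← hR] at hs
      simp only [BT.subs, List.mem_cons, List.mem_append] at hs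
      rcases hs with hs | hs | hs
      · refine ⟨BT.node a b, BT.subs_self _, ?_⟩
        rw [hself, ← hR, hs]
      · obtain ⟨s', hs', h⟩ := iha x ha s hs
        exact ⟨s', by simp only [BT.subs, List.mem_cons, List.mem_append]; tauto, h⟩
      · obtain ⟨s', hs', h⟩ := ihb y hb s hs
        exact ⟨s', by simp only [BT.subs, List.mem_cons, List.mem_append]; tauto, h⟩

theorem rest_psubs (n : ℕ) (T : BT ℕ) : ∀ R, T.rest n = some R → ∀ s ∈ R.psubs,
    ∃ s' ∈ T.psubs, s'.rest n = some s := by
  cases T with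
  | leaf v =>
    intro R hR s hs
    unfold BT.rest at hR
    split_ifs at hR with h
    · rw [Option.some.injEq] at hR
      rw [← hR] at hs
      simp [BT.psubs] at hs
  | node a b =>
    intro R hR s hs
    simp only [BT.rest] at hR
    rcases ha : a.rest n with _ | x <;> rcases hb : b.rest n with _ | y <;> rw [ha, hb] at hR
    · simp at hR
    · simp only [Option.some.injEq] at hR
      rw [← hR] at hs
      obtain ⟨s', hs', h⟩ := rest_subs n b y hb s (BT.subs_of_psubs hs)
      exact ⟨s', List.mem_append_right _ hs', h⟩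
    · simp only [Option.some.injEq] at hR
      rw [← hR] at hs
      obtain ⟨s', hs', h⟩ := rest_subs n a x ha s (BT.subs_of_psubs hs)
      exact ⟨s', List.mem_append_left _ hs', h⟩
    · simp only [Option.some.injEq] at hR
      rw [← hR] at hs
      simp only [BT.psubs, List.mem_append] at hs
      rcases hs with hs | hs
      · obtain ⟨s', hs', h⟩ := rest_subs n a x ha s hs
        exact ⟨s', List.mem_append_left _ hs', h⟩
      · obtain ⟨s', hs', h⟩ := rest_subs n b y hb s hs
        exact ⟨s', List.mem_append_right _ hs', h⟩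

/-! ### the graph on `Fin (4 * n)` -/

/-- the new graph on `Fin (4 * n)` -/
def HN (p q : Bool) {n : ℕ} (G : SimpleGraph (Fin n)) : SimpleGraph (Fin (4 * n)) where
  Adj x y := (HG p q G).Adj (finProdFinEquiv.symm x) (finProdFinEquiv.symm y)
  symm := ⟨fun _ _ h => SimpleGraph.Adj.symm h⟩
  loopless := ⟨fun _ h => (HG p q G).loopless.irrefl _ h⟩

variable {p q : Bool} {n : ℕ} {G : SimpleGraph (Fin n)}

theorem hn_adj {x y : Fin 4 × Fin n} : (HN p q G).Adj (finProdFinEquiv x) (finProdFinEquiv y) ↔
    (HG p q G).Adj x y := by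
  show (HG p q G).Adj _ _ ↔ _
  rw [Equiv.symm_apply_apply, Equiv.symm_apply_apply]

/-- mim-width of decompositions is invariant under isomorphisms -/
theorem mimDec_map {V W : Type} {G : SimpleGraph V} {H : SimpleGraph W} (e : V ≃ W)
    (he : ∀ u v, H.Adj (e u) (e v) ↔ G.Adj u v) {T : BT V} {k : ℕ} (h : MimDec G T k) :
    MimDec H (T.map e) k := by
  obtain ⟨h1, h2, h3⟩ := h
  refine ⟨?_, fun w => ?_, fun s hs => ?_⟩
  · rw [BT.lv_map]
    exact h1.map e.injective
  · rw [BT.lv_map, List.mem_map]
    exact ⟨e.symm w, h2 _, e.apply_symm_apply w⟩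
  · rw [BT.psubs_map, List.mem_map] at hs
    obtain ⟨s', hs', rfl⟩ := hs
    have hmem : ∀ w, w ∈ (s'.map e).lv ↔ e.symm w ∈ s'.lv := by
      intro w
      rw [BT.lv_map, List.mem_map]
      constructor
      · rintro ⟨v, hv, rfl⟩
        rwa [Equiv.symm_apply_apply]
      · exact fun h => ⟨e.symm w, h, e.apply_symm_apply w⟩
    intro m x y hx hy hxy
    refine h3 s' hs' m (fun i => e.symm (x i)) (fun i => e.symm (y i)) (fun i => (hmem _).1 (hx i))
      (fun i hi => hy i ((hmem _).2 hi)) fun i j => ?_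
    rw [← he, e.apply_symm_apply, e.apply_symm_apply]
    exact hxy i j

/-- cuts of the new graph -/
theorem tbd_of {s : BT (Fin (4 * n))} {k : ℕ}
    (h : MimBd (HN p q G) {v | v ∈ s.lv} {v | v ∉ s.lv} k ∨
      (p = false ∧ q = false ∧ SimBd (HN p q G) {v | v ∈ s.lv} {v | v ∉ s.lv} k)) :
    TBd (HG p q G) {x | finProdFinEquiv x ∈ s.lv} {x | finProdFinEquiv x ∈ s.lv}ᶜ k := by
  rcases h with h | ⟨rfl, rfl, h⟩
  · refine TBd.of_mim fun m x y hx hy hxy => ?_
    refine h m (fun i => finProdFinEquiv (x i)) (fun i => finProdFinEquiv (y i)) hx hy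
      fun i j => ?_
    rw [hn_adj]
    exact hxy i j
  · refine TBd.of_sim fun m x y hx hy hxy hxx hyy => ?_
    refine h m (fun i => finProdFinEquiv (x i)) (fun i => finProdFinEquiv (y i)) hx hy
      (fun i j => ?_) (fun i j => ?_) fun i j => ?_
    · rw [hn_adj]
      exact hxy i j
    · rw [hn_adj]
      exact hxx i j
    · rw [hn_adj]
      exact hyy i j

/-- **The output of the reduction.** -/
theorem down_dec (hn : 2 ≤ n) {T' : BT (Fin (4 * n))} {k : ℕ} (h1 : T'.lv.Nodup)
    (h2 : ∀ v, v ∈ T'.lv) (h3 : ∀ s ∈ T'.psubs,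
      MimBd (HN p q G) {v | v ∈ s.lv} {v | v ∉ s.lv} k ∨
      (p = false ∧ q = false ∧ SimBd (HN p q G) {v | v ∈ s.lv} {v | v ∉ s.lv} k)) :
    ∃ T : BT (Fin n), restT n (8 * n) (codeBT T') = codeBT T ∧ MimDec G T (4 * k) := by
  have hlen : T'.lv.length = 4 * n := by
    have h4 : T'.lv.toFinset = univ := by
      ext v
      simp [h2]
    have h5 := List.toFinset_card_of_nodup h1
    rw [h4, card_univ, Fintype.card_fin] at h5
    exact h5.symm
  have hnn : nnod (T'.map Fin.val) ≤ 8 * n := by
    have h4 := nnod_eq (T'.map Fin.val)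
    rw [BT.lv_map, List.length_map, hlen] at h4
    omega
  rw [codeBT_eq, restT_eq hnn]
  have hval : ∀ v : Fin n, (finProdFinEquiv ((0 : Fin 4), v)).1 = v.1 := by
    intro v
    simp [finProdFinEquiv]
  have hmem : ∀ (s : BT (Fin (4 * n))) (v : Fin n),
      v.1 ∈ (s.map Fin.val).lv ↔ finProdFinEquiv ((0 : Fin 4), v) ∈ s.lv := by
    intro s v
    rw [BT.lv_map, List.mem_map]
    constructor
    · rintro ⟨w, hw, hwv⟩
      have : w = finProdFinEquiv ((0 : Fin 4), v) := Fin.ext (hwv.trans (hval v).symm)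
      rwa [← this]
    · exact fun h => ⟨_, h, hval v⟩
  rcases hR : (T'.map Fin.val).rest n with _ | R
  · exfalso
    have h4 := (rest_lv n (T'.map Fin.val)).2 hR
    have h5 : (0 : ℕ) ∈ (T'.map Fin.val).lv.filter fun v => decide (v < n) := by
      rw [List.mem_filter]
      refine ⟨?_, by simp; omega⟩
      exact (hmem T' ⟨0, by omega⟩).2 (h2 _)
    rw [h4] at h5
    exact List.not_mem_nil h5
  · have hRlv := (rest_lv n (T'.map Fin.val)).1 R hR
    obtain ⟨R', hR'⟩ := exists_map (n := n) R fun u hu => by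
      rw [hRlv, List.mem_filter] at hu
      simpa using hu.2
    refine ⟨R', ?_, ?_, fun v => ?_, fun s hs => ?_⟩
    · rw [codeBT_eq, hR']
      rfl
    · have h4 : R.lv.Nodup := by
        rw [hRlv, BT.lv_map]
        exact (h1.map Fin.val_injective).filter _
      rw [← hR', BT.lv_map] at h4
      exact h4.of_map _
    · have h4 : v.1 ∈ R.lv := by
        rw [hRlv, List.mem_filter]
        exact ⟨(hmem T' v).2 (h2 _), by simp⟩
      rw [← hR', BT.lv_map, List.mem_map] at h4
      obtain ⟨w, hw, hwv⟩ := h4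
      rwa [Fin.ext hwv] at hw
    · have h4 : s.map Fin.val ∈ R.psubs := by
        rw [← hR', BT.psubs_map]
        exact List.mem_map_of_mem hs
      obtain ⟨s', hs', hsr⟩ := rest_psubs n _ R hR _ h4
      rw [BT.psubs_map, List.mem_map] at hs'
      obtain ⟨s2, hs2, rfl⟩ := hs'
      have h5 := (rest_lv n _).1 _ hsr
      have h6 : ∀ v : Fin n, v ∈ s.lv ↔ finProdFinEquiv ((0 : Fin 4), v) ∈ s2.lv := by
        intro v
        rw [← hmem]
        have h7 : v ∈ s.lv ↔ v.1 ∈ (s.map Fin.val).lv := by
          rw [BT.lv_map, List.mem_map]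
          constructor
          · exact fun h => ⟨v, h, rfl⟩
          · rintro ⟨w, hw, hwv⟩
            rwa [Fin.ext hwv] at hw
        rw [h7, h5, List.mem_filter]
        simp
      have h7 := cut_down (tbd_of (h3 s2 hs2))
      refine h7.mono (fun v hv => (h6 v).1 hv) (fun v hv hv' => hv ((h6 v).2 hv')) le_rfl

/-- **The input of the reduction.** -/
theorem up_dec {T : BT (Fin n)} {k : ℕ} (h : MimDec G T k) :
    ∃ T' : BT (Fin (4 * n)), MimDec (HN p q G) T' (2 * k + 2) :=
  ⟨_, mimDec_map finProdFinEquiv (fun _ _ => hn_adj) (mimDec_TH h)⟩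

theorem simDec_of_mim {V : Type} {G : SimpleGraph V} {T : BT V} {k : ℕ} (h : MimDec G T k) :
    SimDec G T k :=
  ⟨h.1, h.2.1, fun s hs m x y hx hy hxy _ _ => h.2.2 s hs m x y hx hy hxy⟩

/-! ### the matrix -/

/-- an entry of the new matrix -/
def ent (p q : Bool) (M : List (List Bool)) (i u j v : ℕ) : Bool :=
  if (i == j) = true then cb p q i && !(u == v)
  else if (i + 2 == j || j + 2 == i) = true then cb p q i
  else if (i + j == 3 && (i == 0 || j == 0)) = true then adjb M u v
  else u == v

theorem ent_iff {p q : Bool} {M : List (List Bool)} {A : ℕ → ℕ → Prop} {i u j v : ℕ}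
    (h : adjb M u v = true ↔ A u v) : ent p q M i u j v = true ↔ hadj p q A i u j v := by
  unfold ent hadj
  simp only [Bool.or_eq_true, Bool.and_eq_true, beq_iff_eq]
  split_ifs <;> simp [h]

/-- the new matrix -/
def matH (p q : Bool) (M : List (List Bool)) : List (List Bool) :=
  (List.range 4).flatMap fun i => (vl M).map fun u => (List.range 4).flatMap fun j =>
    (vl M).map fun v => ent p q M i u j v

section PT

variable {α : Type} [TE α]

theorem PT.cb {i : α → ℕ} (hi : PT i) : PT fun x => cb p q (i x) := by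
  refine (PT.cond ((PT.eqb hi (PT.const 0)).or (PT.eqb hi (PT.const 2))) (PT.const p)
    (PT.const q)).congr fun x => ?_
  unfold Pool.Agent.H22.SW.cb
  simp only [Bool.or_eq_true, beq_iff_eq]

theorem PT.ent {M : α → List (List Bool)} {i u j v : α → ℕ} (hM : PT M) (hi : PT i) (hu : PT u)
    (hj : PT j) (hv : PT v) : PT fun x => ent p q (M x) (i x) (u x) (j x) (v x) :=
  PT.cond (PT.eqb hi hj) ((PT.cb hi).and (PT.eqb hu hv).not)
    (PT.cond ((PT.eqb (hi.add (PT.const 2)) hj).or (PT.eqb (hj.add (PT.const 2)) hi)) (PT.cb hi)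
    (PT.cond ((PT.eqb (hi.add hj) (PT.const 3)).and ((PT.eqb hi (PT.const 0)).or
      (PT.eqb hj (PT.const 0)))) (PT.adjb hM hu hv) (PT.eqb hu hv)))

theorem PT.matH {M : α → List (List Bool)} (hM : PT M) : PT fun x => matH p q (M x) :=
  PT.flatMap (f := fun x i => (Pool.Agent.H22.SW.vl (M x)).map fun u => (List.range 4).flatMap fun j =>
    (Pool.Agent.H22.SW.vl (M x)).map fun v => Pool.Agent.H22.SW.ent p q (M x) i u j v) (PT.const (List.range 4))
    (PT.map (f := fun (y : α × ℕ) u => (List.range 4).flatMap fun j =>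
      (Pool.Agent.H22.SW.vl (M y.1)).map fun v => Pool.Agent.H22.SW.ent p q (M y.1) y.2 u j v) (PT.vl hM.up)
      (PT.flatMap (f := fun (y : (α × ℕ) × ℕ) j => (Pool.Agent.H22.SW.vl (M y.1.1)).map fun v =>
        Pool.Agent.H22.SW.ent p q (M y.1.1) y.1.2 y.2 j v) (PT.const (List.range 4))
        (PT.map (f := fun (y : ((α × ℕ) × ℕ) × ℕ) v => Pool.Agent.H22.SW.ent p q (M y.1.1.1)
          y.1.1.2 y.1.2 y.2 v) (PT.vl hM.up.up.up)
          (PT.ent hM.up.up.up.up PT.last.up.up.up PT.last.up.up PT.last.up PT.last))))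

end PT

theorem map_range_eq {β : Type} (n : ℕ) (g : ℕ → β) :
    (List.range n).map g = List.ofFn fun i : Fin n => g i.1 := by
  rw [← List.map_coe_finRange_eq_range, List.map_map, List.ofFn_eq_map]
  rfl

theorem flatMap_range_eq {β : Type} (n : ℕ) (g : ℕ → List β) :
    (List.range n).flatMap g = (List.ofFn fun i : Fin n => g i.1).flatten := by
  rw [List.flatMap_def, map_range_eq]

/-- block form of lists of functions on `Fin (4 * n)` -/
theorem ofFn_block {β : Type} (n : ℕ) (F : Fin (4 * n) → β) (F' : ℕ → ℕ → β)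
    (h : ∀ (i : Fin 4) (u : Fin n), F (finProdFinEquiv (i, u)) = F' i.1 u.1) :
    List.ofFn F = (List.range 4).flatMap fun i => (List.range n).map fun u => F' i u := by
  rw [List.ofFn_mul, flatMap_range_eq]
  congr 2
  funext i
  rw [map_range_eq]
  congr 1
  funext u
  rw [← h]
  congr 1
  apply Fin.ext
  simp [finProdFinEquiv]
  ring

theorem matH_eq (G : SimpleGraph (Fin n)) : matH p q (matG G) = matG (HN p q G) := by
  classical
  have hvl : vl (matG G) = List.range n := by
    unfold vl
    rw [length_matG]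
  have hentry : ∀ (i j : Fin 4) (u v : Fin n),
      decide ((HN p q G).Adj (finProdFinEquiv (i, u)) (finProdFinEquiv (j, v))) =
        ent p q (matG G) i.1 u.1 j.1 v.1 := by
    intro i j u v
    rw [Bool.eq_iff_iff, decide_eq_true_eq, hn_adj]
    have h1 := ent_iff (p := p) (q := q) (M := matG G) (A := fun a b => (gN G).Adj a b)
      (i := i.1) (u := u.1) (j := j.1) (v := v.1) ((adjb_matG u v).trans gN_adj_val.symm)
    rw [h1]
    show hadj p q G.Adj i.1 u j.1 v ↔ _
    unfold hadj
    have h2 : (u = v) ↔ (u.1 = v.1) := Fin.ext_iff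
    simp only [ne_eq, h2, gN_adj_val]
  have hrow : ∀ (i : Fin 4) (u : Fin n), (List.ofFn fun y =>
      decide ((HN p q G).Adj (finProdFinEquiv (i, u)) y)) =
      (List.range 4).flatMap fun j => (List.range n).map fun v =>
        ent p q (matG G) i.1 u.1 j v := by
    intro i u
    exact ofFn_block n _ (fun j v => ent p q (matG G) i.1 u.1 j v) fun j v => hentry i j u v
  unfold matH
  rw [hvl]
  have h3 : matG (HN p q G) = List.ofFn fun x => List.ofFn fun y =>
      decide ((HN p q G).Adj x y) := rfl
  rw [h3, ofFn_block n _ (fun i u => (List.range 4).flatMap fun j => (List.range n).map fun v =>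
    ent p q (matG G) i u j v) hrow]

end Pool.Agent.H22.SW
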