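import Mathlib
import Pool.Agent.H22.SW.EqDef
import Pool.Agent.H22.SW.EqM

set_option autoImplicit false

/-!
# Equivalent forms of the question for mim-width
-/

namespace Pool.Agent.H22.SW

open Finset Pool.Agent.H88.RO Pool.Agent.H88.RO.Tr

/-! ### induced subgraphs of the path on four vertices -/

theorem class_p4 {m : ℕ} {F : SimpleGraph (Fin m)} (h1 : BipG m F) (h2 : SplitG m F)
    (h3 : CoBipG m F) : IsInd F (SimpleGraph.pathGraph 4) := by
  classical
  obtain ⟨P, hP⟩ := h1
  obtain ⟨S, hS1, hS2⟩ := h2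
  obtain ⟨Q, hQ1, hQ2⟩ := h3
  -- facts on adjacency
  have hPP : ∀ u v, (u ∈ P ↔ v ∈ P) → ¬ F.Adj u v := by
    intro u v h4 h5
    have h6 := hP u v h5
    tauto
  have hQQ : ∀ u v, (u ∈ Q ↔ v ∈ Q) → u ≠ v → F.Adj u v := by
    intro u v h4 h5
    by_cases h6 : u ∈ Q
    · exact hQ1 u h6 v (h4.1 h6) h5
    · exact hQ2 u h6 v (fun h7 => h6 (h4.2 h7)) h5
  have hinj : ∀ u v, (u ∈ P ↔ v ∈ P) → (u ∈ Q ↔ v ∈ Q) → u = v := by
    intro u v h4 h5
    by_contra h6
    exact hPP u v h4 (hQQ u v h5 h6)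
  -- the two maps
  let ea : Fin m → Fin 4 := fun u => if u ∈ P then (if u ∈ Q then 2 else 0)
    else (if u ∈ Q then 3 else 1)
  let eb : Fin m → Fin 4 := fun u => if u ∈ P then (if u ∈ Q then 0 else 2)
    else (if u ∈ Q then 1 else 3)
  have hea : (∀ u v, u ∈ P → u ∈ Q → v ∉ P → v ∉ Q → F.Adj u v) →
      (∀ u v, u ∈ P → u ∉ Q → v ∉ P → v ∈ Q → ¬ F.Adj u v) →
      IsInd F (SimpleGraph.pathGraph 4) := by
    intro hA hB
    refine ⟨ea, ?_, ?_⟩
    · intro u v huv
      simp only [ea] at huv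
      by_cases h4 : u ∈ P <;> by_cases h5 : u ∈ Q <;> by_cases h6 : v ∈ P <;>
        by_cases h7 : v ∈ Q <;> simp only [h4, h5, h6, h7, if_true, if_false] at huv
      all_goals first
        | exact hinj u v (by tauto) (by tauto)
        | exact absurd huv (by decide)
    · intro u v
      simp only [ea]
      rw [SimpleGraph.pathGraph_adj]
      by_cases h4 : u ∈ P <;> by_cases h5 : u ∈ Q <;> by_cases h6 : v ∈ P <;>
        by_cases h7 : v ∈ Q <;> simp only [h4, h5, h6, h7, if_true, if_false]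
      all_goals first
        | exact ⟨fun h => absurd h (by decide), fun h => absurd h (hPP u v (by tauto))⟩
        | exact ⟨fun _ => hQQ u v (by tauto) (fun h => by rw [h] at h4; tauto),
            fun _ => by decide⟩
        | exact ⟨fun _ => hA u v h4 h5 h6 h7, fun _ => by decide⟩
        | exact ⟨fun _ => (hA v u h6 h7 h4 h5).symm, fun _ => by decide⟩
        | exact ⟨fun h => absurd h (by decide), fun h => absurd h (hB u v h4 h5 h6 h7)⟩
        | exact ⟨fun h => absurd h (by decide), fun h => absurd h.symm (hB v u h6 h7 h4 h5)⟩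
  have heb : (∀ u v, u ∈ P → u ∈ Q → v ∉ P → v ∉ Q → ¬ F.Adj u v) →
      (∀ u v, u ∈ P → u ∉ Q → v ∉ P → v ∈ Q → F.Adj u v) →
      IsInd F (SimpleGraph.pathGraph 4) := by
    intro hA hB
    refine ⟨eb, ?_, ?_⟩
    · intro u v huv
      simp only [eb] at huv
      by_cases h4 : u ∈ P <;> by_cases h5 : u ∈ Q <;> by_cases h6 : v ∈ P <;>
        by_cases h7 : v ∈ Q <;> simp only [h4, h5, h6, h7, if_true, if_false] at huv
      all_goals first
        | exact hinj u v (by tauto) (by tauto)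
        | exact absurd huv (by decide)
    · intro u v
      simp only [eb]
      rw [SimpleGraph.pathGraph_adj]
      by_cases h4 : u ∈ P <;> by_cases h5 : u ∈ Q <;> by_cases h6 : v ∈ P <;>
        by_cases h7 : v ∈ Q <;> simp only [h4, h5, h6, h7, if_true, if_false]
      all_goals first
        | exact ⟨fun h => absurd h (by decide), fun h => absurd h (hPP u v (by tauto))⟩
        | exact ⟨fun _ => hQQ u v (by tauto) (fun h => by rw [h] at h4; tauto),
            fun _ => by decide⟩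
        | exact ⟨fun _ => hB u v h4 h5 h6 h7, fun _ => by decide⟩
        | exact ⟨fun _ => (hB v u h6 h7 h4 h5).symm, fun _ => by decide⟩
        | exact ⟨fun h => absurd h (by decide), fun h => absurd h (hA u v h4 h5 h6 h7)⟩
        | exact ⟨fun h => absurd h (by decide), fun h => absurd h.symm (hA v u h6 h7 h4 h5)⟩
  -- witnesses
  by_cases hAe : ∃ u v, (u ∈ P ∧ u ∈ Q ∧ v ∉ P ∧ v ∉ Q) ∧ F.Adj u v
  · obtain ⟨w1, w4, ⟨h11, h12, h41, h42⟩, hadj⟩ := hAe
    refine hea ?_ ?_
    · intro u v hu1 hu2 hv1 hv2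
      rw [hinj u w1 (by tauto) (by tauto), hinj v w4 (by tauto) (by tauto)]
      exact hadj
    · intro w3 w2 h31 h32 h21 h22 h23
      -- a four-cycle `w1 w2 w3 w4` is not split
      have e12 : F.Adj w1 w2 := hQQ w1 w2 (by tauto) (fun h => h21 (h ▸ h11))
      have e34 : F.Adj w3 w4 := hQQ w3 w4 (by tauto) (fun h => h41 (h ▸ h31))
      have n13 : ¬ F.Adj w1 w3 := hPP w1 w3 (by tauto)
      have n24 : ¬ F.Adj w2 w4 := hPP w2 w4 (by tauto)
      have d13 : w1 ≠ w3 := fun h => h32 (h ▸ h12)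
      have d24 : w2 ≠ w4 := fun h => h42 (h ▸ h22)
      have a1 : w1 ∉ S ∨ w3 ∉ S := by
        by_contra h
        push Not at h
        exact n13 (hS1 w1 h.1 w3 h.2 d13)
      have a2 : w2 ∉ S ∨ w4 ∉ S := by
        by_contra h
        push Not at h
        exact n24 (hS1 w2 h.1 w4 h.2 d24)
      rcases a1 with a1 | a1 <;> rcases a2 with a2 | a2
      · exact hS2 w1 a1 w2 a2 e12
      · exact hS2 w1 a1 w4 a2 hadj
      · exact hS2 w3 a1 w2 a2 h23
      · exact hS2 w3 a1 w4 a2 e34
  · push Not at hAe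
    by_cases hBe : ∃ u v, (u ∈ P ∧ u ∉ Q ∧ v ∉ P ∧ v ∈ Q) ∧ F.Adj u v
    · obtain ⟨w3, w2, ⟨h31, h32, h21, h22⟩, hadj⟩ := hBe
      refine heb (fun u v h4 h5 h6 h7 => hAe u v ⟨h4, h5, h6, h7⟩) ?_
      intro u v hu1 hu2 hv1 hv2
      rw [hinj u w3 (by tauto) (by tauto), hinj v w2 (by tauto) (by tauto)]
      exact hadj
    · push Not at hBe
      by_cases hA2 : ∃ u v, u ∈ P ∧ u ∈ Q ∧ v ∉ P ∧ v ∉ Q
      · obtain ⟨w1, w4, h11, h12, h41, h42⟩ := hA2
        refine heb (fun u v h4 h5 h6 h7 => hAe u v ⟨h4, h5, h6, h7⟩) ?_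
        intro w3 w2 h31 h32 h21 h22
        exfalso
        -- two disjoint edges
        have e12 : F.Adj w1 w2 := hQQ w1 w2 (by tauto) (fun h => h21 (h ▸ h11))
        have e34 : F.Adj w3 w4 := hQQ w3 w4 (by tauto) (fun h => h41 (h ▸ h31))
        have n13 : ¬ F.Adj w1 w3 := hPP w1 w3 (by tauto)
        have n24 : ¬ F.Adj w2 w4 := hPP w2 w4 (by tauto)
        have n14 : ¬ F.Adj w1 w4 := hAe w1 w4 ⟨h11, h12, h41, h42⟩
        have n32 : ¬ F.Adj w3 w2 := hBe w3 w2 ⟨h31, h32, h21, h22⟩
        have d13 : w1 ≠ w3 := fun h => h32 (h ▸ h12)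
        have d24 : w2 ≠ w4 := fun h => h42 (h ▸ h22)
        have d14 : w1 ≠ w4 := fun h => h42 (h ▸ h12)
        have d23 : w2 ≠ w3 := fun h => h32 (h ▸ h22)
        have a1 : w1 ∈ S ∨ w2 ∈ S := by
          by_contra h
          push Not at h
          exact hS2 w1 h.1 w2 h.2 e12
        have a2 : w3 ∈ S ∨ w4 ∈ S := by
          by_contra h
          push Not at h
          exact hS2 w3 h.1 w4 h.2 e34
        rcases a1 with a1 | a1 <;> rcases a2 with a2 | a2
        · exact n13 (hS1 w1 a1 w3 a2 d13)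
        · exact n14 (hS1 w1 a1 w4 a2 d14)
        · exact n32 (hS1 w2 a1 w3 a2 d23).symm
        · exact n24 (hS1 w2 a1 w4 a2 d24)
      · push Not at hA2
        refine hea ?_ (fun u v h4 h5 h6 h7 => hBe u v ⟨h4, h5, h6, h7⟩)
        intro u v h4 h5 h6 h7
        exact absurd (hA2 u v h4 h5 h6) h7

theorem bip_ind {m n : ℕ} {F : SimpleGraph (Fin m)} {G : SimpleGraph (Fin n)} (h : IsInd F G)
    (hG : BipG n G) : BipG m F := by
  obtain ⟨e, -, he⟩ := h
  obtain ⟨P, hP⟩ := hG
  exact ⟨e ⁻¹' P, fun u v huv => hP _ _ ((he u v).2 huv)⟩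

theorem split_ind {m n : ℕ} {F : SimpleGraph (Fin m)} {G : SimpleGraph (Fin n)} (h : IsInd F G)
    (hG : SplitG n G) : SplitG m F := by
  obtain ⟨e, hinj, he⟩ := h
  obtain ⟨P, hP1, hP2⟩ := hG
  exact ⟨e ⁻¹' P, fun u hu v hv huv => (he u v).1 (hP1 _ hu _ hv fun h => huv (hinj h)),
    fun u hu v hv huv => hP2 _ hu _ hv ((he u v).2 huv)⟩

theorem cobip_ind {m n : ℕ} {F : SimpleGraph (Fin m)} {G : SimpleGraph (Fin n)} (h : IsInd F G)
    (hG : CoBipG n G) : CoBipG m F := by
  obtain ⟨e, hinj, he⟩ := h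
  obtain ⟨P, hP1, hP2⟩ := hG
  exact ⟨e ⁻¹' P, fun u hu v hv huv => (he u v).1 (hP1 _ hu _ hv fun h => huv (hinj h)),
    fun u hu v hv huv => (he u v).1 (hP2 _ hu _ hv fun h => huv (hinj h))⟩

/-! ### the new graphs are in the classes -/

theorem hg_class {V : Type} {p q : Bool} {G : SimpleGraph V} {x y : Fin 4 × V}
    (h : x.1.1 % 2 = y.1.1 % 2) (hxy : x ≠ y) : (HG p q G).Adj x y ↔ cb p q x.1.1 = true := by
  obtain ⟨⟨i, hi⟩, u⟩ := x
  obtain ⟨⟨j, hj⟩, v⟩ := y
  by_cases huv : u = v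
  · subst huv
    have hij : i ≠ j := fun h1 => hxy (by subst h1; rfl)
    show hadj p q G.Adj i u j u ↔ cb p q i = true
    unfold hadj
    simp only at h
    interval_cases i <;> interval_cases j <;> simp_all
  · exact hg_same (i := ⟨i, hi⟩) (j := ⟨j, hj⟩) h huv

/-- the first colour class -/
def cls (n : ℕ) : Set (Fin (4 * n)) := {x | (finProdFinEquiv.symm x : Fin 4 × Fin n).1.1 % 2 = 0}

variable {n : ℕ} {G : SimpleGraph (Fin n)} {p q : Bool}

theorem hn_in {x y : Fin (4 * n)} (hx : x ∈ cls n) (hy : y ∈ cls n) (hxy : x ≠ y) :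
    (HN p q G).Adj x y ↔ p = true := by
  have h1 : (HG p q G).Adj (finProdFinEquiv.symm x) (finProdFinEquiv.symm y) ↔ _ :=
    hg_class (Eq.trans hx (Eq.symm hy)) fun h => hxy (finProdFinEquiv.symm.injective h)
  refine Iff.trans h1 ?_
  have h2 : (finProdFinEquiv.symm x : Fin 4 × Fin n).1.1 % 2 = 0 := hx
  have h3 := (finProdFinEquiv.symm x : Fin 4 × Fin n).1.2
  unfold cb
  rw [if_pos (by omega)]

theorem hn_out {x y : Fin (4 * n)} (hx : x ∉ cls n) (hy : y ∉ cls n) (hxy : x ≠ y) :
    (HN p q G).Adj x y ↔ q = true := by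
  have h2 : ¬ (finProdFinEquiv.symm x : Fin 4 × Fin n).1.1 % 2 = 0 := hx
  have h3 : ¬ (finProdFinEquiv.symm y : Fin 4 × Fin n).1.1 % 2 = 0 := hy
  have h1 : (HG p q G).Adj (finProdFinEquiv.symm x) (finProdFinEquiv.symm y) ↔ _ :=
    hg_class (by omega) fun h => hxy (finProdFinEquiv.symm.injective h)
  refine Iff.trans h1 ?_
  unfold cb
  rw [if_neg (by omega)]

theorem hn_bip : BipG (4 * n) (HN false false G) := by
  refine ⟨cls n, fun x y hxy => ?_⟩
  have hne : x ≠ y := hxy.ne
  constructor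
  · intro hx hy
    have := (hn_in hx hy hne).1 hxy
    simp at this
  · intro hy
    by_contra hx
    have := (hn_out hx hy hne).1 hxy
    simp at this

theorem hn_split : SplitG (4 * n) (HN true false G) := by
  refine ⟨cls n, fun x hx y hy hne => (hn_in hx hy hne).2 rfl, fun x hx y hy hxy => ?_⟩
  have := (hn_out hx hy hxy.ne).1 hxy
  simp at this

theorem hn_cobip : CoBipG (4 * n) (HN true true G) :=
  ⟨cls n, fun _ hx _ hy hne => (hn_in hx hy hne).2 rfl,
    fun _ hx _ hy hne => (hn_out hx hy hne).2 rfl⟩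

/-! ### the reductions -/

/-- the reduction map -/
def redR (p q : Bool) (x : List (List Bool) × ℕ) : List (List Bool) × ℕ :=
  (matH p q x.1, 2 * x.2 + 2)

/-- turning the output back -/
noncomputable def redP (x : (List (List Bool) × ℕ) × Tr) : Tr :=
  if isLf x.2 = true then leaf else restT x.1.1.length (8 * x.1.1.length) x.2

theorem PT.redR (p q : Bool) : PT (redR p q) :=
  (PT.matH PT.id.fst).pair (PT.add (PT.mul (PT.const 2) PT.id.snd) (PT.const 2))

theorem PT.redP : PT redP :=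
  PT.cond PT.id.snd.isLf (PT.const leaf) (PT.restT PT.id.fst.fst.length
    (PT.mul (PT.const 8) PT.id.fst.fst.length) PT.id.snd)

theorem comp_lin (a b : ℕ) : Computable fun k : ℕ => a * k + b :=
  comp_add (comp_mul (Computable.const a) Computable.id) (Computable.const b)

/-- reduction to a class containing the new graphs -/
theorem red_mim (p q : Bool) (K : ∀ n : ℕ, SimpleGraph (Fin n) → Prop)
    (hK : ∀ (n : ℕ) (G : SimpleGraph (Fin n)), K (4 * n) (HN p q G))
    (h : XPApprox K (fun _ G T k => MimDec G T k)) : XPApprox AllG (fun _ G T k => MimDec G T k) := by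
  refine transfer (redR p q) (PT.redR p q) redP PT.redP (fun k => 2 * k + 2) (fun k => 4 * k + 0)
    (comp_lin 2 2) (comp_lin 4 0) (fun x => ?_) (fun n hn G _ k hk => ?_) h
  · unfold redP
    rw [if_pos (isLf_iff.2 rfl)]
  · refine ⟨4 * n, HN p q G, by omega, le_rfl, hK n G, by omega, ?_, ?_, ?_⟩
    · rw [codeIn_eq (by omega)]
      show te (matH p q (matG G), 2 * k + 2) = te (matG (HN p q G), 2 * k + 2)
      rw [matH_eq]
    · rintro ⟨T, hT⟩
      exact up_dec hT
    · intro T' r hT'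
      obtain ⟨T, hT, hd⟩ := down_dec (p := p) (q := q) (G := G) hn hT'.1 hT'.2.1
        fun s hs => Or.inl (hT'.2.2 s hs)
      refine ⟨T, ?_, hd⟩
      unfold redP
      have h1 : ¬ isLf (codeBT T') = true := fun h2 => by
        rw [codeBT_eq] at h2
        exact encBT_ne _ (isLf_iff.1 h2)
      rw [if_neg h1]
      show restT (matG G).length (8 * (matG G).length) (codeBT T') = _
      rw [length_matG]
      exact hT

/-- reduction of the question for mim-width to the question for sim-width of bipartite graphs -/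
theorem red_sim (K : ∀ n : ℕ, SimpleGraph (Fin n) → Prop)
    (hK : ∀ (n : ℕ) (G : SimpleGraph (Fin n)), K (4 * n) (HN false false G))
    (h : XPApprox K (fun _ G T k => SimDec G T k)) : XPApprox AllG (fun _ G T k => MimDec G T k) := by
  refine transfer (redR false false) (PT.redR false false) redP PT.redP (fun k => 2 * k + 2)
    (fun k => 4 * k + 0) (comp_lin 2 2) (comp_lin 4 0) (fun x => ?_) (fun n hn G _ k hk => ?_) h
  · unfold redP
    rw [if_pos (isLf_iff.2 rfl)]
  · refine ⟨4 * n, HN false false G, by omega, le_rfl, hK n G, by omega, ?_, ?_, ?_⟩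
    · rw [codeIn_eq (by omega)]
      show te (matH false false (matG G), 2 * k + 2) = te (matG (HN false false G), 2 * k + 2)
      rw [matH_eq]
    · rintro ⟨T, hT⟩
      obtain ⟨T', hT'⟩ := up_dec (p := false) (q := false) hT
      exact ⟨T', simDec_of_mim hT'⟩
    · intro T' r hT'
      obtain ⟨T, hT, hd⟩ := down_dec (p := false) (q := false) (G := G) hn hT'.1 hT'.2.1
        fun s hs => Or.inr ⟨rfl, rfl, hT'.2.2 s hs⟩
      refine ⟨T, ?_, hd⟩
      unfold redP
      have h1 : ¬ isLf (codeBT T') = true := fun h2 => by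
        rw [codeBT_eq] at h2
        exact encBT_ne _ (isLf_iff.1 h2)
      rw [if_neg h1]
      show restT (matG G).length (8 * (matG G).length) (codeBT T') = _
      rw [length_matG]
      exact hT

theorem SimBd.card_le {W ι : Type} [DecidableEq ι] {H : SimpleGraph W} {A B : Set W} {k : ℕ}
    (h : SimBd H A B k) (I : Finset ι) (x y : ι → W) (hx : ∀ i ∈ I, x i ∈ A)
    (hy : ∀ i ∈ I, y i ∈ B) (hxy : ∀ i ∈ I, ∀ j ∈ I, H.Adj (x i) (y j) ↔ i = j)
    (hxx : ∀ i ∈ I, ∀ j ∈ I, ¬ H.Adj (x i) (x j)) (hyy : ∀ i ∈ I, ∀ j ∈ I, ¬ H.Adj (y i) (y j)) :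
    I.card ≤ k := by
  let e := I.equivFin.symm
  refine h I.card (fun i => x (e i).1) (fun i => y (e i).1) (fun i => hx _ (e i).2)
    (fun i => hy _ (e i).2) (fun i j => ?_) (fun i j => hxx _ (e i).2 _ (e j).2)
    fun i j => hyy _ (e i).2 _ (e j).2
  rw [hxy _ (e i).2 _ (e j).2]
  constructor
  · intro h1
    exact e.injective (Subtype.ext h1)
  · intro h1
    rw [h1]

/-- in a bipartite graph the two widths differ by a factor of at most two -/
theorem bip_mim {n : ℕ} {G : SimpleGraph (Fin n)} (hG : BipG n G) {T : BT (Fin n)} {k : ℕ}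
    (h : SimDec G T k) : MimDec G T (2 * k) := by
  classical
  obtain ⟨P, hP⟩ := hG
  refine ⟨h.1, h.2.1, fun s hs m x y hx hy hxy => ?_⟩
  have hb := h.2.2 s hs
  have hPP : ∀ u v, (u ∈ P ↔ v ∈ P) → ¬ G.Adj u v := by
    intro u v h4 h5
    have h6 := hP u v h5
    tauto
  have hyP : ∀ i, y i ∈ P ↔ x i ∉ P := fun i => by
    have := hP _ _ ((hxy i i).2 rfl)
    tauto
  let I0 : Finset (Fin m) := univ.filter fun i => x i ∈ P
  let I1 : Finset (Fin m) := univ.filter fun i => x i ∉ P
  have h0 : I0.card ≤ k := by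
    refine hb.card_le I0 x y (fun i _ => hx i) (fun i _ => hy i) (fun i _ j _ => hxy i j) ?_ ?_
    · intro i hi j hj
      have h1 := (mem_filter.1 hi).2
      have h2 := (mem_filter.1 hj).2
      exact hPP _ _ (by tauto)
    · intro i hi j hj
      have h1 := (mem_filter.1 hi).2
      have h2 := (mem_filter.1 hj).2
      have h3 := hyP i
      have h4 := hyP j
      exact hPP _ _ (by tauto)
  have h1 : I1.card ≤ k := by
    refine hb.card_le I1 x y (fun i _ => hx i) (fun i _ => hy i) (fun i _ j _ => hxy i j) ?_ ?_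
    · intro i hi j hj
      have h1 := (mem_filter.1 hi).2
      have h2 := (mem_filter.1 hj).2
      exact hPP _ _ (by tauto)
    · intro i hi j hj
      have h1 := (mem_filter.1 hi).2
      have h2 := (mem_filter.1 hj).2
      have h3 := hyP i
      have h4 := hyP j
      exact hPP _ _ (by tauto)
  have h2 := card_filter_add_card_filter_not (s := (univ : Finset (Fin m))) fun i => x i ∈ P
  rw [card_univ, Fintype.card_fin] at h2
  have h3 : I0.card + I1.card = m := h2
  omega

/-- for bipartite graphs, from mim-width to sim-width -/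
theorem bip_sim_of_mim (h : XPApprox BipG (fun _ G T k => MimDec G T k)) :
    XPApprox BipG (fun _ G T k => SimDec G T k) := by
  refine transfer (fun x => (x.1, 2 * x.2)) (PT.id.fst.pair (PT.mul (PT.const 2) PT.id.snd))
    (fun x => x.2) PT.id.snd (fun k => 2 * k + 0) (fun k => 1 * k + 0) (comp_lin 2 0)
    (comp_lin 1 0) (fun x => rfl) (fun n hn G hG k hk => ?_) h
  refine ⟨n, G, hn, by omega, hG, by omega, (codeIn_eq hn G (2 * k)).symm, ?_, ?_⟩
  · rintro ⟨T, hT⟩
    exact ⟨T, bip_mim hG hT⟩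
  · intro T' r hT'
    refine ⟨T', rfl, ?_⟩
    have h1 := simDec_of_mim hT'
    rw [one_mul, add_zero]
    exact h1

/-- **Theorem.** -/
theorem forms : [XPApprox AllG (fun _ G T k => MimDec G T k),
    XPApprox BipG (fun _ G T k => SimDec G T k),
    XPApprox BipG (fun _ G T k => MimDec G T k),
    XPApprox SplitG (fun _ G T k => MimDec G T k),
    XPApprox CoBipG (fun _ G T k => MimDec G T k),
    ∃ (m : ℕ) (F : SimpleGraph (Fin m)), ¬ IsInd F (SimpleGraph.pathGraph 4) ∧
      XPApprox (FreeG F) (fun _ G T k => MimDec G T k),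
    ∀ (m : ℕ) (F : SimpleGraph (Fin m)),
      XPApprox (FreeG F) (fun _ G T k => MimDec G T k)].TFAE := by
  tfae_have 1 → 7 := fun h m F => h.mono fun _ _ _ => trivial
  tfae_have 7 → 6 := by
    intro h
    refine ⟨3, ⊤, ?_, h 3 ⊤⟩
    rintro ⟨e, hinj, he⟩
    have h01 := (he 0 1).2 (by decide)
    have h02 := (he 0 2).2 (by decide)
    have h12 := (he 1 2).2 (by decide)
    rw [SimpleGraph.pathGraph_adj] at h01 h02 h12
    omega
  tfae_have 6 → 1 := by
    rintro ⟨m, F, hF, h⟩
    by_cases h1 : BipG m F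
    · by_cases h2 : SplitG m F
      · by_cases h3 : CoBipG m F
        · exact absurd (class_p4 h1 h2 h3) hF
        · exact red_mim true true _ (fun n G hi => h3 (cobip_ind hi hn_cobip)) h
      · exact red_mim true false _ (fun n G hi => h2 (split_ind hi hn_split)) h
    · exact red_mim false false _ (fun n G hi => h1 (bip_ind hi hn_bip)) h
  tfae_have 1 → 3 := fun h => h.mono fun _ _ _ => trivial
  tfae_have 3 → 2 := bip_sim_of_mim
  tfae_have 2 → 1 := fun h => red_sim _ (fun _ _ => hn_bip) h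
  tfae_have 1 → 4 := fun h => h.mono fun _ _ _ => trivial
  tfae_have 4 → 1 := fun h => red_mim true false _ (fun _ _ => hn_split) h
  tfae_have 1 → 5 := fun h => h.mono fun _ _ _ => trivial
  tfae_have 5 → 1 := fun h => red_mim true true _ (fun _ _ => hn_cobip) h
  tfae_finish

/-- the question for sim-width implies the question for mim-width -/
theorem sim_imp_mim (h : XPApprox AllG (fun _ G T k => SimDec G T k)) :
    XPApprox AllG (fun _ G T k => MimDec G T k) :=
  red_sim _ (fun _ _ => trivial) h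

end Pool.Agent.H22.SW
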