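import Mathlib
import Pool.Agent.H22.SW.Defs
import Pool.Agent.H22.SW.Al
import Pool.Agent.H22.SW.Tree

set_option autoImplicit false

/-!
# Tree decompositions with small independence number
-/

namespace Pool.Agent.H22.SW

open Finset

/-- the graph of a rooted tree given by a parent function -/
def rootG {ι : Type} (r : ι) (p : ι → ι) : SimpleGraph ι where
  Adj i j := i ≠ j ∧ ((i ≠ r ∧ p i = j) ∨ (j ≠ r ∧ p j = i))
  symm := ⟨fun _ _ h => ⟨h.1.symm, h.2.symm⟩⟩
  loopless := ⟨fun _ h => h.1 rfl⟩

theorem rootG_adj {ι : Type} {r : ι} {p : ι → ι} {d : ι → ℕ} (h : ∀ i, i ≠ r → d (p i) < d i)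
    {i : ι} (hi : i ≠ r) : (rootG r p).Adj i (p i) := by
  refine ⟨fun he => ?_, Or.inl ⟨hi, rfl⟩⟩
  have := h i hi
  rw [← he] at this
  exact lt_irrefl _ this

theorem rootG_isTree {ι : Type} (r : ι) (p : ι → ι) (d : ι → ℕ)
    (h : ∀ i, i ≠ r → d (p i) < d i) : (rootG r p).IsTree := by
  classical
  refine ⟨?_, ?_⟩
  · have hr : ∀ n i, d i ≤ n → (rootG r p).Reachable i r := by
      intro n
      induction n with
      | zero =>
        intro i hi
        by_cases hir : i = r
        · rw [hir]
        · have := h i hir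
          omega
      | succ n ih =>
        intro i hi
        by_cases hir : i = r
        · rw [hir]
        · have h1 := h i hir
          exact (rootG_adj h hir).reachable.trans (ih (p i) (by omega))
    have : Nonempty ι := ⟨r⟩
    exact ⟨fun i j => (hr _ i le_rfl).trans (hr _ j le_rfl).symm⟩
  · intro v c hc
    have hne : c.support.toFinset.Nonempty := ⟨v, List.mem_toFinset.2 c.start_mem_support⟩
    obtain ⟨i, hi, hmax⟩ := exists_max_image _ d hne
    rw [List.mem_toFinset] at hi
    have hc' := hc.rotate hi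
    have hnil := hc'.not_nil
    have h1 : ∀ j, j ∈ (c.rotate i hi).support → (rootG r p).Adj i j → j = p i := by
      intro j hj hadj
      rcases hadj.2 with h2 | h2
      · exact h2.2.symm
      · have h3 := h j h2.1
        rw [h2.2] at h3
        have h4 := hmax j (List.mem_toFinset.2
          ((SimpleGraph.Walk.mem_support_rotate_iff c i hi).1 hj))
        omega
    have h2 := h1 _ ((c.rotate i hi).getVert_mem_support 1)
      ((c.rotate i hi).adj_snd hnil)
    have h3 := h1 _ ((c.rotate i hi).getVert_mem_support ((c.rotate i hi).length - 1))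
      ((c.rotate i hi).adj_penultimate hnil).symm
    exact hc'.snd_ne_penultimate (h2.trans h3.symm)

variable {V : Type}

/-- A tree decomposition of `G` whose bags have independence number at most `q`: this is
tree-independence number at most `q`. -/
def TreeAlpha (G : SimpleGraph V) (q : ℕ) : Prop :=
  ∃ (ι : Type) (_ : Finite ι) (T : SimpleGraph ι) (β : ι → Finset V), T.IsTree ∧
    (∀ v, ∃ i, v ∈ β i) ∧ (∀ u v, G.Adj u v → ∃ i, u ∈ β i ∧ v ∈ β i) ∧
    (∀ v, (T.induce {i | v ∈ β i}).Preconnected) ∧ ∀ i, al G (β i) ≤ q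

/-- a rooted tree decomposition of the subgraph induced by `X` with `W` in the root bag -/
def RTD (G : SimpleGraph V) (q : ℕ) (X W : Finset V) : Prop :=
  ∃ (ι : Type) (_ : Finite ι) (r : ι) (p : ι → ι) (d : ι → ℕ) (β : ι → Finset V),
    (∀ i, i ≠ r → d (p i) < d i) ∧ W ⊆ β r ∧ (∀ i, β i ⊆ X) ∧ (∀ i, al G (β i) ≤ q) ∧
    (∀ v ∈ X, ∃ i, v ∈ β i) ∧ (∀ u ∈ X, ∀ v ∈ X, G.Adj u v → ∃ i, u ∈ β i ∧ v ∈ β i) ∧
    ∀ v, ∃ a, ∀ i, v ∈ β i → i = a ∨ (i ≠ r ∧ v ∈ β (p i))

theorem RTD.toTreeAlpha {G : SimpleGraph V} {q : ℕ} {X W : Finset V} (h : RTD G q X W)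
    (hX : ∀ v, v ∈ X) : TreeAlpha G q := by
  obtain ⟨ι, hfin, r, p, d, β, hd, -, -, hq, hv, he, hc⟩ := h
  refine ⟨ι, hfin, rootG r p, β, rootG_isTree r p d hd, fun v => hv v (hX v),
    fun u v huv => he u (hX u) v (hX v) huv, fun v => ?_, hq⟩
  obtain ⟨a, ha⟩ := hc v
  -- every node reaches `a`
  have h1 : ∀ n (i : {i | v ∈ β i}), d i.1 ≤ n → ∃ h : v ∈ β a,
      ((rootG r p).induce {i | v ∈ β i}).Reachable i ⟨a, h⟩ := by
    intro n
    induction n with
    | zero =>
      intro i hi
      rcases ha i.1 i.2 with h2 | h2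
      · refine ⟨h2 ▸ i.2, ?_⟩
        have : i = ⟨a, h2 ▸ i.2⟩ := Subtype.ext h2
        rw [← this]
      · have := hd i.1 h2.1
        omega
    | succ n ih =>
      intro i hi
      rcases ha i.1 i.2 with h2 | h2
      · refine ⟨h2 ▸ i.2, ?_⟩
        have : i = ⟨a, h2 ▸ i.2⟩ := Subtype.ext h2
        rw [← this]
      · have h3 := hd i.1 h2.1
        obtain ⟨h4, h5⟩ := ih ⟨p i.1, h2.2⟩ (by show d (p i.1) ≤ n; omega)
        refine ⟨h4, SimpleGraph.Reachable.trans (SimpleGraph.Adj.reachable ?_) h5⟩
        show (rootG r p).Adj i.1 (p i.1)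
        exact rootG_adj hd h2.1
  intro i j
  obtain ⟨h2, h3⟩ := h1 _ i le_rfl
  obtain ⟨h4, h5⟩ := h1 _ j le_rfl
  exact h3.trans h5.symm

theorem RTD.single {G : SimpleGraph V} {q : ℕ} {X : Finset V} (h : al G X ≤ q) : RTD G q X X := by
  refine ⟨Unit, inferInstance, (), id, fun _ => 0, fun _ => X, fun i hi => absurd rfl hi,
    Subset.refl _, fun _ => Subset.refl _, fun _ => h, fun v hv => ⟨(), hv⟩,
    fun u hu v hv _ => ⟨(), hu, hv⟩, fun v => ⟨(), fun i _ => Or.inl rfl⟩⟩

theorem RTD.mono {G : SimpleGraph V} {q : ℕ} {X W W' : Finset V} (h : RTD G q X W)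
    (hW : W' ⊆ W) : RTD G q X W' := by
  obtain ⟨ι, hfin, r, p, d, β, hd, hr, h⟩ := h
  exact ⟨ι, hfin, r, p, d, β, hd, hW.trans hr, h⟩

/-- gluing two rooted tree decompositions below a new root -/
theorem RTD.glue [DecidableEq V] {G : SimpleGraph V} {q : ℕ} {X1 W1 X2 W2 X B : Finset V}
    (h1 : RTD G q X1 W1) (h2 : RTD G q X2 W2) (hX1 : X1 ⊆ X) (hX2 : X2 ⊆ X) (hB : B ⊆ X)
    (hq : al G B ≤ q) (hv : ∀ v ∈ X, v ∈ X1 ∨ v ∈ X2 ∨ v ∈ B)
    (he : ∀ u ∈ X, ∀ v ∈ X, G.Adj u v → (u ∈ X1 ∧ v ∈ X1) ∨ (u ∈ X2 ∧ v ∈ X2) ∨ (u ∈ B ∧ v ∈ B))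
    (hB1 : X1 ∩ B ⊆ W1) (hB2 : X2 ∩ B ⊆ W2) (h12 : X1 ∩ X2 ⊆ B) : RTD G q X B := by
  classical
  obtain ⟨ι1, hfin1, r1, p1, d1, β1, hd1, hr1, hs1, hq1, hv1, he1, hc1⟩ := h1
  obtain ⟨ι2, hfin2, r2, p2, d2, β2, hd2, hr2, hs2, hq2, hv2, he2, hc2⟩ := h2
  let p : Option (ι1 ⊕ ι2) → Option (ι1 ⊕ ι2) := fun i => match i with
    | none => none
    | some (Sum.inl j) => if j = r1 then none else some (Sum.inl (p1 j))
    | some (Sum.inr j) => if j = r2 then none else some (Sum.inr (p2 j))
  let d : Option (ι1 ⊕ ι2) → ℕ := fun i => match i with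
    | none => 0
    | some (Sum.inl j) => d1 j + 1
    | some (Sum.inr j) => d2 j + 1
  let β : Option (ι1 ⊕ ι2) → Finset V := fun i => match i with
    | none => B
    | some (Sum.inl j) => β1 j
    | some (Sum.inr j) => β2 j
  have hp1 : ∀ j, p (some (Sum.inl j)) = if j = r1 then none else some (Sum.inl (p1 j)) :=
    fun _ => rfl
  have hp2 : ∀ j, p (some (Sum.inr j)) = if j = r2 then none else some (Sum.inr (p2 j)) :=
    fun _ => rfl
  refine ⟨Option (ι1 ⊕ ι2), inferInstance, none, p, d, β, ?_, Subset.refl _, ?_, ?_, ?_, ?_, ?_⟩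
  · intro i hi
    rcases i with _ | j | j
    · exact absurd rfl hi
    · rw [hp1]
      split_ifs with h
      · show 0 < d1 j + 1
        omega
      · show d1 (p1 j) + 1 < d1 j + 1
        have := hd1 j h
        omega
    · rw [hp2]
      split_ifs with h
      · show 0 < d2 j + 1
        omega
      · show d2 (p2 j) + 1 < d2 j + 1
        have := hd2 j h
        omega
  · intro i
    rcases i with _ | j | j
    · exact hB
    · exact (hs1 j).trans hX1
    · exact (hs2 j).trans hX2
  · intro i
    rcases i with _ | j | j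
    · exact hq
    · exact hq1 j
    · exact hq2 j
  · intro v hvX
    rcases hv v hvX with h | h | h
    · obtain ⟨j, hj⟩ := hv1 v h
      exact ⟨some (Sum.inl j), hj⟩
    · obtain ⟨j, hj⟩ := hv2 v h
      exact ⟨some (Sum.inr j), hj⟩
    · exact ⟨none, h⟩
  · intro u hu v hvX huv
    rcases he u hu v hvX huv with h | h | h
    · obtain ⟨j, hj⟩ := he1 u h.1 v h.2 huv
      exact ⟨some (Sum.inl j), hj⟩
    · obtain ⟨j, hj⟩ := he2 u h.1 v h.2 huv
      exact ⟨some (Sum.inr j), hj⟩
    · exact ⟨none, h⟩
  · intro v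
    obtain ⟨a1, ha1⟩ := hc1 v
    obtain ⟨a2, ha2⟩ := hc2 v
    by_cases hvB : v ∈ B
    · refine ⟨none, fun i hi => ?_⟩
      rcases i with _ | j | j
      · exact Or.inl rfl
      · refine Or.inr ⟨by simp, ?_⟩
        have hvj : v ∈ β1 j := hi
        have hvr : v ∈ β1 r1 := hr1 (hB1 (mem_inter.2 ⟨hs1 j hvj, hvB⟩))
        rw [hp1]
        split_ifs with h
        · exact hvB
        · rcases ha1 j hvj with h3 | h3
          · rcases ha1 r1 hvr with h4 | h4
            · exact absurd (h3.trans h4.symm) h
            · exact absurd rfl h4.1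
          · exact h3.2
      · refine Or.inr ⟨by simp, ?_⟩
        have hvj : v ∈ β2 j := hi
        have hvr : v ∈ β2 r2 := hr2 (hB2 (mem_inter.2 ⟨hs2 j hvj, hvB⟩))
        rw [hp2]
        split_ifs with h
        · exact hvB
        · rcases ha2 j hvj with h3 | h3
          · rcases ha2 r2 hvr with h4 | h4
            · exact absurd (h3.trans h4.symm) h
            · exact absurd rfl h4.1
          · exact h3.2
    · by_cases hvX1 : v ∈ X1
      · refine ⟨some (Sum.inl a1), fun i hi => ?_⟩
        rcases i with _ | j | j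
        · exact absurd hi hvB
        · have hvj : v ∈ β1 j := hi
          rcases ha1 j hvj with h3 | h3
          · left
            rw [h3]
          · refine Or.inr ⟨by simp, ?_⟩
            rw [hp1, if_neg h3.1]
            exact h3.2
        · exact absurd (h12 (mem_inter.2 ⟨hvX1, hs2 j hi⟩)) hvB
      · refine ⟨some (Sum.inr a2), fun i hi => ?_⟩
        rcases i with _ | j | j
        · exact absurd hi hvB
        · exact absurd (hs1 j hi) hvX1
        · have hvj : v ∈ β2 j := hi
          rcases ha2 j hvj with h3 | h3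
          · left
            rw [h3]
          · refine Or.inr ⟨by simp, ?_⟩
            rw [hp2, if_neg h3.1]
            exact h3.2

/-- the recursion -/
theorem rtd [DecidableEq V] {G : SimpleGraph V} {t k : ℕ} (ht : 1 ≤ t) (hK : KFree G t)
    {X : Finset V} (hX : SimwOn G X k) : ∀ (n : ℕ) (C W : Finset V), C.card ≤ n → Disjoint C W →
    C ∪ W ⊆ X → al G W ≤ wN t k → RTD G (16 * cN t k + 3) (C ∪ W) W := by
  intro n
  induction n with
  | zero =>
    intro C W hn hd hCX hW
    have hC : C = ∅ := card_eq_zero.1 (by omega)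
    rw [hC, empty_union]
    refine RTD.single ?_
    unfold wN at hW
    omega
  | succ n ih =>
    intro C W hn hd hCX hW
    rcases C.eq_empty_or_nonempty with hC | ⟨v, hv⟩
    · rw [hC, empty_union]
      refine RTD.single ?_
      unfold wN at hW
      omega
    have hvW : v ∉ W := disjoint_left.1 hd hv
    have hC' : (C.erase v).card ≤ n := by
      rw [card_erase_of_mem hv]
      omega
    have hd' : Disjoint (C.erase v) (insert v W) := by
      rw [disjoint_insert_right]
      exact ⟨notMem_erase v C, hd.mono_left (erase_subset _ _)⟩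
    have hun : C.erase v ∪ insert v W = C ∪ W := by
      ext u
      simp only [mem_union, mem_erase, mem_insert]
      by_cases huv : u = v
      · subst huv
        simp [hv]
      · simp [huv]
    have hal := al_insert_le (G := G) v W
    by_cases hle : al G (insert v W) ≤ wN t k
    · have h1 := ih (C.erase v) (insert v W) hC' hd' (hun ▸ hCX) hle
      rw [hun] at h1
      exact h1.mono (subset_insert _ _)
    have hm : al G (insert v W) = 3 * (5 * cN t k + 1) := by
      unfold wN at hle hW
      omega
    obtain ⟨S, A, B, hV, hSA, hSB, hAB, hanti, hSa, hWA, hWB⟩ := bal ht hK hX (V' := C ∪ W) hCX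
      (W := insert v W) (hun ▸ subset_union_right) (by omega) hm
    have hSV : S ⊆ C ∪ W := hV ▸ subset_union_left.trans subset_union_left
    have hAV : A ⊆ C ∪ W := hV ▸ subset_union_right.trans subset_union_left
    have hBV : B ⊆ C ∪ W := hV ▸ subset_union_right
    -- the two tasks
    have htask : ∀ D : Finset V, D ⊆ C ∪ W → Disjoint S D →
        al G (insert v W ∩ D) ≤ 2 * (5 * cN t k + 1) + cN t k →
        RTD G (16 * cN t k + 3) (D ∪ S) ((insert v W ∩ D) ∪ S) := by
      intro D hD hSD hWD
      have h1 := ih (C.erase v ∩ D) ((insert v W ∩ D) ∪ S)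
        ((card_le_card inter_subset_left).trans hC') (by
          rw [disjoint_union_right]
          exact ⟨hd'.mono inter_subset_left inter_subset_left,
            hSD.symm.mono_left inter_subset_right⟩)
        (union_subset (inter_subset_right.trans (hD.trans hCX))
          (union_subset (inter_subset_right.trans (hD.trans hCX)) (hSV.trans hCX)))
        (by
          refine (al_union_le _ _).trans ?_
          unfold wN
          omega)
      have h2 : C.erase v ∩ D ∪ ((insert v W ∩ D) ∪ S) = D ∪ S := by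
        rw [← union_assoc, ← union_inter_distrib_right, hun, inter_eq_right.2 hD]
      rw [h2] at h1
      exact h1
    have hglue := (htask A hAV hSA hWA).glue (htask B hBV hSB hWB) (X := C ∪ W)
      (B := insert v W ∪ S) (union_subset hAV hSV) (union_subset hBV hSV)
      (union_subset (hun ▸ subset_union_right) hSV)
      (by
        refine (al_union_le _ _).trans ?_
        omega)
      (by
        intro u hu
        rw [← hV, mem_union, mem_union] at hu
        rcases hu with (h | h) | h
        · exact Or.inl (mem_union_right _ h)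
        · exact Or.inl (mem_union_left _ h)
        · exact Or.inr (Or.inl (mem_union_left _ h)))
      (by
        intro u hu w hw huw
        rw [← hV, mem_union, mem_union] at hu hw
        rcases hu with (hu | hu) | hu <;> rcases hw with (hw | hw) | hw
        · exact Or.inl ⟨mem_union_right _ hu, mem_union_right _ hw⟩
        · exact Or.inl ⟨mem_union_right _ hu, mem_union_left _ hw⟩
        · exact Or.inr (Or.inl ⟨mem_union_right _ hu, mem_union_left _ hw⟩)
        · exact Or.inl ⟨mem_union_left _ hu, mem_union_right _ hw⟩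
        · exact Or.inl ⟨mem_union_left _ hu, mem_union_left _ hw⟩
        · exact absurd huw (hanti u hu w hw)
        · exact Or.inr (Or.inl ⟨mem_union_left _ hu, mem_union_right _ hw⟩)
        · exact absurd huw.symm (hanti w hw u hu)
        · exact Or.inr (Or.inl ⟨mem_union_left _ hu, mem_union_left _ hw⟩))
      (by
        intro u hu
        rw [mem_inter, mem_union, mem_union] at hu
        by_cases hS : u ∈ S
        · exact mem_union_right _ hS
        · exact mem_union_left _ (mem_inter.2 ⟨hu.2.resolve_right hS, hu.1.resolve_right hS⟩))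
      (by
        intro u hu
        rw [mem_inter, mem_union, mem_union] at hu
        by_cases hS : u ∈ S
        · exact mem_union_right _ hS
        · exact mem_union_left _ (mem_inter.2 ⟨hu.2.resolve_right hS, hu.1.resolve_right hS⟩))
      (by
        intro u hu
        rw [mem_inter, mem_union, mem_union] at hu
        by_cases hS : u ∈ S
        · exact mem_union_right _ hS
        · exact absurd (hu.2.resolve_right hS) (disjoint_left.1 hAB (hu.1.resolve_right hS)))
    exact hglue.mono ((subset_insert _ _).trans subset_union_left)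

/-- **Structural theorem**: on graphs without an induced `K_{t,t}`, bounded sim-width implies bounded
tree-independence number. -/
theorem treeAlpha_of_simw [Fintype V] [DecidableEq V] {G : SimpleGraph V} {t k : ℕ} (ht : 1 ≤ t)
    (hK : KFree G t) (hX : SimwOn G univ k) : TreeAlpha G (16 * cN t k + 3) := by
  have h := rtd ht hK hX univ.card univ ∅ le_rfl (disjoint_empty_right _) (subset_univ _) (by
    rw [al_empty]
    exact Nat.zero_le _)
  rw [union_empty] at h
  exact h.toTreeAlpha fun v => mem_univ v

end Pool.Agent.H22.SW
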